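import Mathlib

set_option autoImplicit false

noncomputable section

namespace Pool.Agent.H266R3.BPB

open Set Filter Topology

section gen
variable {K : Type} [TopologicalSpace K] [CompactSpace K]

/-- the point evaluation -/
def ev (t : K) : C(K, ℝ) →L[ℝ] ℝ := ContinuousMap.evalCLM ℝ t

@[simp] theorem ev_apply (t : K) (f : C(K, ℝ)) : ev t f = f t := rfl

theorem norm_one_fn (t : K) : ‖(1 : C(K, ℝ))‖ = 1 := by
  have : Nonempty K := ⟨t⟩
  exact norm_one

theorem norm_ev (t : K) : ‖ev t‖ = 1 := by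
  apply le_antisymm
  · apply ContinuousLinearMap.opNorm_le_bound _ zero_le_one
    intro f
    rw [one_mul]
    exact f.norm_coe_le_norm t
  · have h := (ev t).le_opNorm (1 : C(K, ℝ))
    rw [norm_one_fn t, mul_one] at h
    simpa using h

theorem norm_eq_one (f : C(K, ℝ)) (h : ∀ s, |f s| ≤ 1) (t : K) (ht : |f t| = 1) : ‖f‖ = 1 := by
  apply le_antisymm
  · rw [ContinuousMap.norm_le _ zero_le_one]
    exact h
  · rw [← ht]
    exact f.norm_coe_le_norm t

/-- the numerical radius set -/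
def nrs (S : C(K, ℝ) →L[ℝ] C(K, ℝ)) : Set ℝ :=
  {r : ℝ | ∃ (z : C(K, ℝ)) (h : C(K, ℝ) →L[ℝ] ℝ), ‖z‖ = 1 ∧ ‖h‖ = 1 ∧ h z = 1 ∧ r = |h (S z)|}

theorem nrs_bdd (S : C(K, ℝ) →L[ℝ] C(K, ℝ)) : BddAbove (nrs S) := by
  refine ⟨‖S‖, ?_⟩
  rintro r ⟨z, h, hz, hh, _, rfl⟩
  calc |h (S z)| ≤ ‖h‖ * ‖S z‖ := h.le_opNorm _
    _ ≤ ‖h‖ * (‖S‖ * ‖z‖) := mul_le_mul_of_nonneg_left (S.le_opNorm z) h.opNorm_nonneg
    _ = ‖S‖ := by rw [hz, hh]; ring

/-- at a point where `|z t| = 1`. -/
theorem nr_point (S : C(K, ℝ) →L[ℝ] C(K, ℝ)) (hS : sSup (nrs S) = 1) (z : C(K, ℝ))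
    (hz : ∀ s, |z s| ≤ 1) (t : K) (ht : |z t| = 1) : |S z t| ≤ 1 := by
  have hzn : ‖z‖ = 1 := norm_eq_one z hz t ht
  rw [← hS]
  rcases abs_eq (zero_le_one) |>.1 ht with h | h
  · exact le_csSup (nrs_bdd S) ⟨z, ev t, hzn, norm_ev t, h, rfl⟩
  · refine le_csSup (nrs_bdd S) ⟨z, -ev t, hzn, by rw [ContinuousLinearMap.opNorm_neg, norm_ev], ?_, ?_⟩
    · rw [neg_apply, ev_apply, h, neg_neg]
    · rw [neg_apply, ev_apply, abs_neg]

/-- the numerical index of `C(K)` is one. -/
theorem numidx (S : C(K, ℝ) →L[ℝ] C(K, ℝ)) (hS : sSup (nrs S) = 1) (z : C(K, ℝ))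
    (hz : ∀ s, |z s| ≤ 1) (t : K) : |S z t| ≤ 1 := by
  by_cases h1 : |z t| = 1
  · exact nr_point S hS z hz t h1
  have hlt : |z t| < 1 := lt_of_le_of_ne (hz t) h1
  set a : ℝ := z t with ha
  rw [abs_lt] at hlt
  set φ : C(K, ℝ) := ⟨fun s => min 1 (min ((1 - z s) / (1 - a)) ((1 + z s) / (1 + a))), by
    fun_prop⟩ with hφ
  have hφ0 : ∀ s, 0 ≤ φ s := by
    intro s
    have := hz s
    rw [abs_le] at this
    exact le_min zero_le_one (le_min (div_nonneg (by linarith) (by linarith))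
      (div_nonneg (by linarith) (by linarith)))
  have hφ1 : ∀ s, φ s * (1 - a) ≤ 1 - z s := by
    intro s
    have h2 : φ s ≤ (1 - z s) / (1 - a) := (min_le_right _ _).trans (min_le_left _ _)
    rwa [le_div_iff₀ (by linarith)] at h2
  have hφ2 : ∀ s, φ s * (1 + a) ≤ 1 + z s := by
    intro s
    have h2 : φ s ≤ (1 + z s) / (1 + a) := (min_le_right _ _).trans (min_le_right _ _)
    rwa [le_div_iff₀ (by linarith)] at h2
  have hφt : φ t = 1 := by
    have e1 : (1 - a) / (1 - a) = 1 := div_self (by linarith)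
    have e2 : (1 + a) / (1 + a) = 1 := div_self (by linarith)
    change min 1 (min ((1 - z t) / (1 - a)) ((1 + z t) / (1 + a))) = 1
    rw [← ha, e1, e2]
    simp
  set zp : C(K, ℝ) := z + (1 - a) • φ with hzp
  set zm : C(K, ℝ) := z - (1 + a) • φ with hzm
  have hzps : ∀ s, |zp s| ≤ 1 := by
    intro s
    have h2 := hz s
    have h3 := hφ1 s
    have h4 := hφ0 s
    rw [abs_le] at h2 ⊢
    have e : zp s = z s + (1 - a) * φ s := rfl
    rw [e]
    constructor
    · have : 0 ≤ (1 - a) * φ s := mul_nonneg (by linarith) h4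
      linarith
    · linarith
  have hzms : ∀ s, |zm s| ≤ 1 := by
    intro s
    have h2 := hz s
    have h3 := hφ2 s
    have h4 := hφ0 s
    rw [abs_le] at h2 ⊢
    have e : zm s = z s - (1 + a) * φ s := rfl
    rw [e]
    constructor
    · linarith
    · have : 0 ≤ (1 + a) * φ s := mul_nonneg (by linarith) h4
      linarith
  have hzpt : |zp t| = 1 := by
    have e : zp t = z t + (1 - a) * φ t := rfl
    rw [e, hφt, ← ha]
    have : a + (1 - a) * 1 = 1 := by ring
    rw [this, abs_one]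
  have hzmt : |zm t| = 1 := by
    have e : zm t = z t - (1 + a) * φ t := rfl
    rw [e, hφt, ← ha]
    have : a - (1 + a) * 1 = -1 := by ring
    rw [this, abs_neg, abs_one]
  have g1 := nr_point S hS zp hzps t hzpt
  have g2 := nr_point S hS zm hzms t hzmt
  have hcomb : z = ((1 + a) / 2) • zp + ((1 - a) / 2) • zm := by
    ext s
    change z s = (1 + a) / 2 * (z s + (1 - a) * φ s) + (1 - a) / 2 * (z s - (1 + a) * φ s)
    ring
  have hval : S z t = (1 + a) / 2 * S zp t + (1 - a) / 2 * S zm t := by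
    conv_lhs => rw [hcomb]
    rw [map_add, map_smul, map_smul]
    rfl
  rw [hval]
  rw [abs_le] at g1 g2 ⊢
  constructor <;> nlinarith

/-- the face lemma -/
theorem face (g : C(K, ℝ) →L[ℝ] ℝ) (hg : ‖g‖ = 1) (t0 : K) (hgt : ‖ev t0 - g‖ < 1) (w : C(K, ℝ))
    (hw : ∀ s, |w s| ≤ 1) (hgw : |g w| = 1) : |w t0| = 1 := by
  by_contra hne
  have hlt : |w t0| < 1 := lt_of_le_of_ne (hw t0) hne
  set a : ℝ := |w t0| with ha
  set s' : ℝ := (1 - a) / 2 with hs'
  have hs'p : 0 < s' := by rw [hs']; linarith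
  set φ : C(K, ℝ) := ⟨fun s => max 0 (1 - |w s - w t0| / s'), by fun_prop⟩ with hφ
  have hφ0 : ∀ s, 0 ≤ φ s := fun s => le_max_left _ _
  have hφ1 : ∀ s, φ s ≤ 1 := by
    intro s
    apply max_le zero_le_one
    have : 0 ≤ |w s - w t0| / s' := by positivity
    linarith
  have hφt : φ t0 = 1 := by
    change max 0 (1 - |w t0 - w t0| / s') = 1
    simp
  have hsum : ∀ s, |w s| + s' * φ s ≤ 1 := by
    intro s
    by_cases h : |w s - w t0| < s'
    · have h1 : |w s| ≤ a + s' := by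
        have := abs_sub_abs_le_abs_sub (w s) (w t0)
        linarith
      have h2 : s' * φ s ≤ s' * 1 := mul_le_mul_of_nonneg_left (hφ1 s) hs'p.le
      have h3 : a + s' + s' = 1 := by rw [hs']; ring
      linarith
    · push Not at h
      have h1 : φ s = 0 := by
        change max 0 (1 - |w s - w t0| / s') = 0
        apply max_eq_left
        have : 1 ≤ |w s - w t0| / s' := by rwa [le_div_iff₀ hs'p, one_mul]
        linarith
      rw [h1, mul_zero, add_zero]
      exact hw s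
  have hgφ : 0 < g φ := by
    have h1 : |(ev t0 - g) φ| ≤ ‖ev t0 - g‖ * ‖φ‖ := (ev t0 - g).le_opNorm φ
    have h2 : ‖φ‖ = 1 := norm_eq_one φ (fun s => by rw [abs_of_nonneg (hφ0 s)]; exact hφ1 s) t0
      (by rw [hφt, abs_one])
    rw [h2, mul_one, sub_apply, ev_apply, hφt] at h1
    have h3 := (le_abs_self _).trans h1
    linarith
  have hbound : ∀ u : C(K, ℝ), (∀ s, |u s| ≤ 1) → |g u| ≤ 1 := by
    intro u hu
    calc |g u| ≤ ‖g‖ * ‖u‖ := g.le_opNorm u
      _ ≤ 1 * 1 := by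
        rw [hg]
        apply mul_le_mul_of_nonneg_left _ zero_le_one
        rw [ContinuousMap.norm_le _ zero_le_one]
        exact hu
      _ = 1 := one_mul _
  rcases abs_eq (zero_le_one) |>.1 hgw with h | h
  · have h1 := hbound (w + s' • φ) (fun s => by
      have e : (w + s' • φ) s = w s + s' * φ s := rfl
      rw [e]
      have h2 := hsum s
      have h3 := abs_add_le (w s) (s' * φ s)
      have h4 : |s' * φ s| = s' * φ s := abs_of_nonneg (mul_nonneg hs'p.le (hφ0 s))
      linarith)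
    rw [map_add, map_smul, smul_eq_mul, h] at h1
    have h2 := (le_abs_self _).trans h1
    have : 0 < s' * g φ := mul_pos hs'p hgφ
    linarith
  · have h1 := hbound (w - s' • φ) (fun s => by
      have e : (w - s' • φ) s = w s - s' * φ s := rfl
      rw [e]
      have h2 := hsum s
      have h3 := abs_sub (w s) (s' * φ s)
      have h4 : |s' * φ s| = s' * φ s := abs_of_nonneg (mul_nonneg hs'p.le (hφ0 s))
      linarith)
    rw [map_sub, map_smul, smul_eq_mul, h] at h1
    have h2 := (neg_abs_le _).trans' (neg_le_neg h1)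
    have : 0 < s' * g φ := mul_pos hs'p hgφ
    linarith

end gen

end Pool.Agent.H266R3.BPB
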