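import Pool.Agent.H266R3.BOp

set_option autoImplicit false

noncomputable section

namespace Pool.Agent.H266R3.BPB

open Set Filter Topology KK

theorem no_good (N : ℕ) (hN : 3 ≤ N) (S : C(KK, ℝ) →L[ℝ] C(KK, ℝ)) (y : C(KK, ℝ))
    (g : C(KK, ℝ) →L[ℝ] ℝ) (hS : sSup (nrs S) = 1) (hy : ‖y‖ = 1) (hg : ‖g‖ = 1)
    (hgS : |g (S y)| = 1) (hxy : ‖1 - y‖ < 1 / 4) (hfg : ‖ev inf - g‖ < 1 / 4)
    (hTS : ‖TT N (by omega) - S‖ < 1 / 4) : False := by
  classical
  have hN1 : 1 ≤ N := by omega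
  have hNr : (3 : ℝ) ≤ N := by exact_mod_cast hN
  have hN0 : (0 : ℝ) < (N : ℝ) + 1 := by positivity
  have hSb := numidx S hS
  have hy1 : ∀ s, |y s| ≤ 1 := by
    intro s
    rw [← hy]
    exact y.norm_coe_le_norm s
  have hy2 : ∀ s, 3 / 4 < y s := by
    intro s
    have h1 : |(1 - y) s| ≤ ‖1 - y‖ := (1 - y).norm_coe_le_norm s
    have h2 : (1 - y) s = 1 - y s := rfl
    rw [h2] at h1
    have h3 := (le_abs_self _).trans h1
    linarith
  have hw1 : ∀ s, |S y s| ≤ 1 := hSb y hy1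
  have hface : |S y inf| = 1 := face g hg inf (by linarith) (S y) hw1 hgS
  have hdiff : ∀ z : C(KK, ℝ), ‖z‖ ≤ 1 → ∀ t, |TT N hN1 z t - S z t| ≤ 1 / 4 := by
    intro z hz t
    have h1 : |(TT N hN1 z - S z) t| ≤ ‖TT N hN1 z - S z‖ := (TT N hN1 z - S z).norm_coe_le_norm t
    have h2 : ‖(TT N hN1 - S) z‖ ≤ ‖TT N hN1 - S‖ * ‖z‖ := (TT N hN1 - S).le_opNorm z
    have h3 : (TT N hN1 - S) z = TT N hN1 z - S z := rfl
    have h4 : (TT N hN1 z - S z) t = TT N hN1 z t - S z t := rfl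
    rw [h3] at h2
    rw [h4] at h1
    have h5 : ‖TT N hN1 - S‖ * ‖z‖ ≤ 1 / 4 * 1 :=
      mul_le_mul hTS.le hz (norm_nonneg _) (by norm_num)
    linarith
  have hSy : S y inf = 1 := by
    rcases abs_eq (zero_le_one) |>.1 hface with h | h
    · exact h
    · exfalso
      have h1 := hdiff y hy.le inf
      rw [TT_apply, Tf_inf, h] at h1
      have hk : 1 / 2 ≤ kap N := by
        unfold kap
        rw [le_div_iff₀ hN0]
        linarith
      have h2 := hy2 inf
      have h3 := (le_abs_self _).trans h1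
      nlinarith
  have hpos : ∀ u : C(KK, ℝ), (∀ s, 0 ≤ u s) → (∀ s, u s ≤ 1) → ∀ t, S y t - 1 ≤ S u t := by
    intro u hu0 hu1 t
    have h1 := hSb (y - u) (fun s => by
      have e : (y - u) s = y s - u s := rfl
      rw [e, abs_le]
      have := hy2 s
      have := hu0 s
      have := hu1 s
      have := (abs_le.1 (hy1 s)).2
      constructor <;> linarith) t
    rw [map_sub] at h1
    have e : (S y - S u) t = S y t - S u t := rfl
    rw [e] at h1
    have := (le_abs_self _).trans h1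
    linarith
  -- the exceptional set function
  set δ : ℝ := 1 / (2 * ((N : ℝ) + 1)) with hδ
  have hδp : 0 < δ := by positivity
  set F : List Bool → Finset ℕ := fun σ => (Finset.Icc 1 N).filter
    (fun i => S (ind {iso N σ i} (isClopen_iso _ _ _)) (iso N σ (N + 1)) < δ) with hF
  have hFcard : ∀ σ, (F σ).card < N := by
    intro σ
    set z : C(KK, ℝ) := ∑ i ∈ F σ, ind {iso N σ i} (isClopen_iso _ _ _) with hz
    have hzs : ∀ t, z t = ∑ i ∈ F σ, (if t = iso N σ i then (1 : ℝ) else 0) := by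
      intro t
      rw [hz, ContinuousMap.sum_apply]
      apply Finset.sum_congr rfl
      intro i _
      rw [ind_apply]
      simp only [mem_singleton_iff]
    have hziso : ∀ i, z (iso N σ i) = if i ∈ F σ then 1 else 0 := by
      intro i
      rw [hzs]
      have : ∀ j ∈ F σ, (if iso N σ i = iso N σ j then (1 : ℝ) else 0) = if i = j then 1 else 0 := by
        intro j _
        simp
      rw [Finset.sum_congr rfl this, Finset.sum_ite_eq]
    have hzb : ‖z‖ ≤ 1 := by
      rw [ContinuousMap.norm_le _ zero_le_one]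
      intro t
      rw [Real.norm_eq_abs]
      by_cases h : ∃ i, t = iso N σ i
      · obtain ⟨i, rfl⟩ := h
        rw [hziso]
        split_ifs <;> simp
      · push Not at h
        rw [hzs, Finset.sum_eq_zero (fun i _ => if_neg (h i))]
        simp
    have hT : TT N hN1 z (iso N σ (N + 1)) = (1 / ((N : ℝ) + 1)) * (F σ).card := by
      rw [TT_apply, Tf_r, hziso 0, if_neg, sub_zero]
      · congr 1
        simp only [hziso]
        rw [Finset.sum_ite_mem, Finset.inter_eq_right.2 (Finset.filter_subset _ _),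
          Finset.sum_const, nsmul_eq_mul, mul_one]
      · simp [hF]
    have hSz : S z (iso N σ (N + 1)) ≤ (F σ).card * δ := by
      rw [hz, map_sum, ContinuousMap.sum_apply]
      calc _ ≤ ∑ i ∈ F σ, δ := by
            apply Finset.sum_le_sum
            intro i hi
            exact (Finset.mem_filter.1 hi).2.le
        _ = _ := by rw [Finset.sum_const, nsmul_eq_mul]
    have h1 := hdiff z hzb (iso N σ (N + 1))
    rw [hT] at h1
    have h2 := (le_abs_self _).trans h1
    have h3 : ((F σ).card : ℝ) * δ = (1 / ((N : ℝ) + 1)) * (F σ).card * (1 / 2) := by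
      rw [hδ]; field_simp
    have h4 : (1 / ((N : ℝ) + 1)) * (F σ).card * (1 / 2) ≤ 1 / 4 := by linarith
    have h5 : ((F σ).card : ℝ) ≤ ((N : ℝ) + 1) / 2 := by
      have e : (1 / ((N : ℝ) + 1)) * (F σ).card * (1 / 2) = (F σ).card / (((N : ℝ) + 1) * 2) := by
        field_simp
      rw [e, div_le_iff₀ (by positivity)] at h4
      linarith
    have h6 : ((F σ).card : ℝ) < N := by linarith
    exact_mod_cast h6
  -- choose many branches in the fibre
  obtain ⟨𝒮, h𝒮, hcard⟩ := (Fc_spec F).exists_subset_card_eq (2 * (N + 1) + 1)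
  have hlow : ∀ β ∈ 𝒮, ∀ m, δ ≤ S (ind (CC N β m) (isClopen_CC _ _ _)) inf := by
    intro β hβ m
    have hFβ : Fc β = F := h𝒮 (Finset.mem_coe.2 hβ)
    have hpt : ∀ n, m ≤ n → δ + (S y (iso N (nd β n) (N + 1)) - 1)
        ≤ S (ind (CC N β m) (isClopen_CC _ _ _)) (iso N (nd β n) (N + 1)) := by
      intro n hn
      set σ := nd β n with hσ
      set j := col N β n with hj
      have hjm : j ∈ Finset.Icc 1 N := col_mem N hN1 β n
      have hjF : j ∉ F σ := by
        rw [← hFβ]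
        apply col_not_mem
        rw [hFβ]
        refine lt_of_le_of_lt (Finset.card_le_card ?_) (hFcard σ)
        intro i hi
        exact (Finset.mem_filter.1 hi).2
      have hjS : δ ≤ S (ind {iso N σ j} (isClopen_iso _ _ _)) (iso N σ (N + 1)) := by
        by_contra hcon
        push Not at hcon
        exact hjF (Finset.mem_filter.2 ⟨hjm, hcon⟩)
      have hmem : iso N σ j ∈ CC N β m := by
        rw [iso_mem_CC_iff]
        exact ⟨rfl, n, hn, rfl, Or.inr rfl⟩
      have h1 := hpos (ind (CC N β m) (isClopen_CC _ _ _) - ind {iso N σ j} (isClopen_iso _ _ _))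
        (fun s => by
          change 0 ≤ ind (CC N β m) (isClopen_CC _ _ _) s - ind {iso N σ j} (isClopen_iso _ _ _) s
          by_cases hs : s = iso N σ j
          · subst hs
            rw [ind_apply_mem _ _ _ hmem, ind_apply_mem _ _ _ (mem_singleton _)]; norm_num
          · rw [ind_apply_notMem {iso N σ j} _ s hs, ind_apply]; split_ifs <;> norm_num)
        (fun s => by
          change ind (CC N β m) (isClopen_CC _ _ _) s - ind {iso N σ j} (isClopen_iso _ _ _) s ≤ 1
          rw [ind_apply, ind_apply]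
          split_ifs <;> norm_num)
        (iso N σ (N + 1))
      rw [map_sub] at h1
      have e : (S (ind (CC N β m) (isClopen_CC _ _ _)) - S (ind {iso N σ j} (isClopen_iso _ _ _)))
          (iso N σ (N + 1)) = S (ind (CC N β m) (isClopen_CC _ _ _)) (iso N σ (N + 1))
            - S (ind {iso N σ j} (isClopen_iso _ _ _)) (iso N σ (N + 1)) := rfl
      rw [e] at h1
      linarith
    have ht1 := tendsto_branch N hN1 β (S (ind (CC N β m) (isClopen_CC _ _ _)))
    have ht2 := tendsto_branch N hN1 β (S y)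
    have ht3 : Tendsto (fun n => δ + (S y (iso N (nd β n) (N + 1)) - 1)) atTop
        (𝓝 (δ + (S y inf - 1))) := (ht2.sub_const 1).const_add δ
    have h2 : δ + (S y inf - 1) ≤ S (ind (CC N β m) (isClopen_CC _ _ _)) inf := by
      apply le_of_tendsto_of_tendsto ht3 ht1
      filter_upwards [eventually_ge_atTop m] with n hn
      exact hpt n hn
    rw [hSy] at h2
    linarith
  -- split levels
  have hk : ∀ q : (ℕ → Bool) × (ℕ → Bool), ∃ k, q.1 ≠ q.2 → q.1 k ≠ q.2 k := by
    intro q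
    by_cases h : q.1 = q.2
    · exact ⟨0, fun h' => absurd h h'⟩
    · obtain ⟨k, hk⟩ := Function.ne_iff.1 h
      exact ⟨k, fun _ => hk⟩
  choose k hk using hk
  set m : ℕ := (𝒮 ×ˢ 𝒮).sup k + 1 with hm
  have hdisj : ∀ β ∈ 𝒮, ∀ β' ∈ 𝒮, ∀ s, s ∈ CC N β m → s ∈ CC N β' m → β = β' := by
    intro β hβ β' hβ' s hs hs'
    by_contra hne
    have h1 := hk (β, β') hne
    have h2 : k (β, β') ≤ (𝒮 ×ˢ 𝒮).sup k := Finset.le_sup (Finset.mem_product.2 ⟨hβ, hβ'⟩)
    cases s with
    | iso N' σ i =>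
      rw [iso_mem_CC_iff] at hs hs'
      obtain ⟨_, n, hn, hσ, _⟩ := hs
      obtain ⟨_, n', hn', hσ', _⟩ := hs'
      have h3 : n = n' := by
        have := congrArg List.length (hσ.symm.trans hσ')
        rwa [nd_length, nd_length] at this
      subst h3
      exact h1 (nd_eq _ _ n (hσ.symm.trans hσ') _ (by omega))
    | br N' β'' =>
      rw [br_mem_CC_iff] at hs hs'
      exact hne (hs.2.symm.trans hs'.2)
    | inf => exact inf_not_mem_CC _ _ _ hs
  set u : C(KK, ℝ) := ∑ β ∈ 𝒮, ind (CC N β m) (isClopen_CC _ _ _) with hu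
  have hub : ∀ s, |u s| ≤ 1 := by
    intro s
    rw [hu, ContinuousMap.sum_apply]
    by_cases h : ∃ β ∈ 𝒮, s ∈ CC N β m
    · obtain ⟨β, hβ, hs⟩ := h
      rw [Finset.sum_eq_single_of_mem β hβ]
      · rw [ind_apply_mem _ _ _ hs, abs_one]
      · intro β' hβ' hne
        apply ind_apply_notMem
        intro hs'
        exact hne (hdisj β' hβ' β hβ s hs' hs)
    · push Not at h
      rw [Finset.sum_eq_zero (fun β hβ => ind_apply_notMem _ _ _ (h β hβ))]
      simp
  have h1 := (le_abs_self _).trans (hSb u hub inf)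
  rw [hu, map_sum, ContinuousMap.sum_apply] at h1
  have h2 : ∑ β ∈ 𝒮, δ ≤ ∑ β ∈ 𝒮, S (ind (CC N β m) (isClopen_CC _ _ _)) inf :=
    Finset.sum_le_sum fun β hβ => hlow β hβ m
  rw [Finset.sum_const, hcard, nsmul_eq_mul] at h2
  have h3 : ((2 * (N + 1) + 1 : ℕ) : ℝ) * δ = 1 + δ := by
    rw [hδ]; push_cast; field_simp
  rw [h3] at h2
  linarith

theorem main :
    ¬ (∀ (K : Type) [TopologicalSpace K] [CompactSpace K] [T2Space K],
      ∀ ε : ℝ, 0 < ε → ∃ η : ℝ, 0 < η ∧
        ∀ (T : C(K, ℝ) →L[ℝ] C(K, ℝ)) (x : C(K, ℝ)) (f : C(K, ℝ) →L[ℝ] ℝ),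
          sSup {r : ℝ | ∃ (z : C(K, ℝ)) (h : C(K, ℝ) →L[ℝ] ℝ),
              ‖z‖ = 1 ∧ ‖h‖ = 1 ∧ h z = 1 ∧ r = |h (T z)|} = 1 →
          ‖x‖ = 1 → ‖f‖ = 1 → f x = 1 →
          1 - η < |f (T x)| →
          ∃ (S : C(K, ℝ) →L[ℝ] C(K, ℝ)) (y : C(K, ℝ)) (g : C(K, ℝ) →L[ℝ] ℝ),
            sSup {r : ℝ | ∃ (z : C(K, ℝ)) (h : C(K, ℝ) →L[ℝ] ℝ),
                ‖z‖ = 1 ∧ ‖h‖ = 1 ∧ h z = 1 ∧ r = |h (S z)|} = 1 ∧
            ‖y‖ = 1 ∧ ‖g‖ = 1 ∧ g y = 1 ∧
            |g (S y)| = 1 ∧
            ‖x - y‖ < ε ∧ ‖f - g‖ < ε ∧ ‖T - S‖ < ε) := by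
  intro H
  obtain ⟨η, hη, h⟩ := H KK (1 / 4) (by norm_num)
  obtain ⟨n, hn⟩ := exists_nat_gt (2 / η)
  set N : ℕ := n + 3 with hN
  have hN1 : 1 ≤ N := by omega
  have hN0 : (0 : ℝ) < (N : ℝ) + 1 := by positivity
  obtain ⟨S, y, g, hS, hy, hg, _, hgS, hxy, hfg, hTS⟩ := h (TT N hN1) 1 (ev inf) (TT_radius N hN1)
    (norm_one_fn inf) (norm_ev inf) rfl (by
      rw [ev_apply, TT_apply, Tf_inf]
      have h1 : (1 : C(KK, ℝ)) inf = 1 := rfl
      rw [h1, mul_one, abs_of_nonneg (kap_nonneg N hN1)]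
      have h2 : kap N = 1 - 2 / ((N : ℝ) + 1) := by
        unfold kap; field_simp; ring
      rw [h2]
      have h3 : 2 / ((N : ℝ) + 1) < η := by
        rw [div_lt_iff₀ hN0]
        rw [div_lt_iff₀ hη] at hn
        have : (n : ℝ) < N + 1 := by rw [hN]; push_cast; linarith
        nlinarith
      linarith)
  exact no_good N (by omega) S y g hS hy hg hgS hxy hfg hTS

end Pool.Agent.H266R3.BPB
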