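import Pool.Agent.H266R3.BSpace
import Pool.Agent.H266R3.BGen

set_option autoImplicit false

noncomputable section

namespace Pool.Agent.H266R3.BPB

open Set Filter Topology KK

/-- `κ` -/
def kap (N : ℕ) : ℝ := ((N : ℝ) - 1) / (N + 1)

/-- coefficients -/
def cf (N : ℕ) (g : C(KK, ℝ)) (σ : List Bool) : ℝ :=
  (1 / ((N : ℝ) + 1)) * (∑ i ∈ Finset.Icc 1 N, g (iso N σ i) - g (iso N σ 0)) - kap N * g inf

theorem cf_eq (N : ℕ) (g : C(KK, ℝ)) (σ : List Bool) : cf N g σ = (1 / ((N : ℝ) + 1)) *
    (∑ i ∈ Finset.Icc 1 N, g (iso N σ i) - g (iso N σ 0) - ((N : ℝ) - 1) * g inf) := by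
  unfold cf kap; ring

theorem isOpen_ball' (g : C(KK, ℝ)) (c ε : ℝ) : IsOpen {t : KK | |g t - c| < ε} := by
  have : Continuous (fun t => |g t - c|) := by fun_prop
  exact isOpen_lt this continuous_const

theorem cf_small (N : ℕ) (hN : 1 ≤ N) (g : C(KK, ℝ)) (ε : ℝ) (hε : 0 < ε) :
    {σ : List Bool | ε ≤ |cf N g σ|}.Finite := by
  classical
  set ε' := ε / 2 with hε'
  have hε'p : 0 < ε' := by positivity
  have hU := isOpen_ball' g (g inf) ε'
  obtain ⟨E, B, hE, hEB⟩ := ((isOpen_def _).1 hU).2 (by simp [hε'p])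
  have hm : ∀ p : ℕ × (ℕ → Bool), ∃ m, CC p.1 p.2 m ⊆ {t : KK | |g t - g (br p.1 p.2)| < ε'} := by
    intro p
    exact ((isOpen_def _).1 (isOpen_ball' g (g (br p.1 p.2)) ε')).1 p.1 p.2 (by simp [hε'p])
  choose m hm using hm
  have hk : ∀ q : (ℕ → Bool) × (ℕ → Bool), ∃ k, q.1 ≠ q.2 → q.1 k ≠ q.2 k := by
    intro q
    by_cases h : q.1 = q.2
    · exact ⟨0, fun h' => absurd h h'⟩
    · obtain ⟨k, hk⟩ := Function.ne_iff.1 h
      exact ⟨k, fun _ => hk⟩
  choose k hk using hk
  set M : ℕ := B.sup m + (B ×ˢ B).sup (fun q => k (q.1.2, q.2.2)) with hM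
  have hfin1 : {σ : List Bool | σ.length ≤ M}.Finite := List.finite_length_le Bool M
  have hfin2 : (⋃ i ∈ Set.Iic N, (fun σ : List Bool => iso N σ i) ⁻¹' E).Finite := by
    apply Set.Finite.biUnion (Set.finite_Iic N)
    intro i _
    apply hE.preimage
    intro σ _ σ' _ h
    have : iso N σ i = iso N σ' i := h
    cases this
    rfl
  refine (hfin1.union hfin2).subset ?_
  intro σ hσ
  by_contra hcon
  rw [mem_union, not_or] at hcon
  obtain ⟨hlen, hEi⟩ := hcon
  have hlen' : M < σ.length := not_le.1 hlen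
  have hEi' : ∀ i ≤ N, iso N σ i ∉ E := by
    intro i hi hiE
    apply hEi
    exact mem_biUnion (Set.mem_Iic.2 hi) hiE
  have hσ' : ε ≤ |cf N g σ| := hσ
  have hN0 : (0 : ℝ) < (N : ℝ) + 1 := by positivity
  have hgoal : |∑ i ∈ Finset.Icc 1 N, g (iso N σ i) - g (iso N σ 0) - ((N : ℝ) - 1) * g inf|
      ≤ ((N : ℝ) + 1) * ε' := by
    by_cases hB : ∃ p ∈ B, p.1 = N ∧ ∃ n, σ = nd p.2 n
    · obtain ⟨⟨N', β⟩, hp, hN', n, hn⟩ := hB
      simp only at hN' hn
      subst hN'
      have hnlen : σ.length = n := by rw [hn, nd_length]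
      rw [hnlen] at hlen'
      set j := col N' β n with hj
      have hjm : j ∈ Finset.Icc 1 N' := col_mem N' hN β n
      have hmp : m (N', β) ≤ n := by
        have h1 : m (N', β) ≤ B.sup m := Finset.le_sup (f := m) hp
        omega
      have hb : |g (iso N' σ 0) - g (br N' β)| < ε' := by
        apply hm (N', β)
        rw [iso_mem_CC_iff]
        exact ⟨rfl, n, hmp, hn, Or.inl rfl⟩
      have ha : |g (iso N' σ j) - g (br N' β)| < ε' := by
        apply hm (N', β)
        rw [iso_mem_CC_iff]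
        exact ⟨rfl, n, hmp, hn, Or.inr rfl⟩
      have hi : ∀ i ∈ (Finset.Icc 1 N').erase j, |g (iso N' σ i) - g inf| ≤ ε' := by
        intro i hi
        rw [Finset.mem_erase, Finset.mem_Icc] at hi
        obtain ⟨hij, hi1, hi2⟩ := hi
        have : iso N' σ i ∈ {t : KK | |g t - g inf| < ε'} := by
          apply hEB _ (hEi' i hi2)
          intro p' hp' hmem
          rw [iso_mem_CC_iff] at hmem
          obtain ⟨hNp, n', _, hn', hi0⟩ := hmem
          have h1 : n = n' := by
            rw [← hnlen, hn', nd_length]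
          subst h1
          have h2 : p'.2 = β := by
            by_contra hne
            have h3 := hk (p'.2, β) hne
            have h4 : k (p'.2, β) ≤ (B ×ˢ B).sup (fun q => k (q.1.2, q.2.2)) :=
              Finset.le_sup (f := fun q : (ℕ × (ℕ → Bool)) × (ℕ × (ℕ → Bool)) => k (q.1.2, q.2.2))
                (b := (p', (N', β))) (Finset.mem_product.2 ⟨hp', hp⟩)
            exact h3 (nd_eq _ _ n (by rw [← hn', ← hn]) _ (by omega))
          rcases hi0 with h0 | h0
          · omega
          · apply hij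
            rw [h0, h2, ← hNp]
        exact le_of_lt this
      have e1 : ∑ i ∈ Finset.Icc 1 N', g (iso N' σ i) - g (iso N' σ 0) - ((N' : ℝ) - 1) * g inf
          = ∑ i ∈ (Finset.Icc 1 N').erase j, (g (iso N' σ i) - g inf)
            + ((g (iso N' σ j) - g (br N' β)) - (g (iso N' σ 0) - g (br N' β))) := by
        rw [← Finset.add_sum_erase _ _ hjm, Finset.sum_sub_distrib, Finset.sum_const,
          Finset.card_erase_of_mem hjm, Nat.card_Icc, nsmul_eq_mul, Nat.add_sub_cancel,
          Nat.cast_sub hN]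
        push_cast
        ring
      rw [e1]
      have e2 : |∑ i ∈ (Finset.Icc 1 N').erase j, (g (iso N' σ i) - g inf)| ≤ ((N' : ℝ) - 1) * ε' := by
        refine (Finset.abs_sum_le_sum_abs _ _).trans ?_
        refine (Finset.sum_le_sum hi).trans ?_
        rw [Finset.sum_const, Finset.card_erase_of_mem hjm, Nat.card_Icc, nsmul_eq_mul,
          Nat.add_sub_cancel, Nat.cast_sub hN]
        push_cast
        exact le_rfl
      have e3 := abs_add_le (∑ i ∈ (Finset.Icc 1 N').erase j, (g (iso N' σ i) - g inf))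
        ((g (iso N' σ j) - g (br N' β)) - (g (iso N' σ 0) - g (br N' β)))
      have e4 := abs_sub (g (iso N' σ j) - g (br N' β)) (g (iso N' σ 0) - g (br N' β))
      linarith
    · have hi : ∀ i ≤ N, |g (iso N σ i) - g inf| ≤ ε' := by
        intro i hi
        have : iso N σ i ∈ {t : KK | |g t - g inf| < ε'} := by
          apply hEB _ (hEi' i hi)
          intro p' hp' hmem
          rw [iso_mem_CC_iff] at hmem
          obtain ⟨hNp, n', _, hn', _⟩ := hmem
          exact hB ⟨p', hp', hNp.symm, n', hn'⟩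
        exact le_of_lt this
      have e1 : ∑ i ∈ Finset.Icc 1 N, g (iso N σ i) - g (iso N σ 0) - ((N : ℝ) - 1) * g inf
          = ∑ i ∈ Finset.Icc 1 N, (g (iso N σ i) - g inf) - (g (iso N σ 0) - g inf) := by
        rw [Finset.sum_sub_distrib, Finset.sum_const, Nat.card_Icc, nsmul_eq_mul,
          Nat.add_sub_cancel]
        ring
      rw [e1]
      have e2 : |∑ i ∈ Finset.Icc 1 N, (g (iso N σ i) - g inf)| ≤ (N : ℝ) * ε' := by
        refine (Finset.abs_sum_le_sum_abs _ _).trans ?_
        refine (Finset.sum_le_sum (fun i hi' => hi i (Finset.mem_Icc.1 hi').2)).trans ?_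
        rw [Finset.sum_const, Nat.card_Icc, nsmul_eq_mul, Nat.add_sub_cancel]
      have e3 := abs_sub (∑ i ∈ Finset.Icc 1 N, (g (iso N σ i) - g inf)) (g (iso N σ 0) - g inf)
      have e4 := hi 0 (Nat.zero_le _)
      linarith
  rw [cf_eq, abs_mul, abs_of_pos (by positivity : (0 : ℝ) < 1 / ((N : ℝ) + 1))] at hσ'
  have h1 : 1 / ((N : ℝ) + 1) * |∑ i ∈ Finset.Icc 1 N, g (iso N σ i) - g (iso N σ 0)
      - ((N : ℝ) - 1) * g inf| ≤ 1 / ((N : ℝ) + 1) * (((N : ℝ) + 1) * ε') :=
    mul_le_mul_of_nonneg_left hgoal (by positivity)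
  have h2 : 1 / ((N : ℝ) + 1) * (((N : ℝ) + 1) * ε') = ε' := by field_simp
  rw [h2] at h1
  linarith

/-- correction function -/
def hraw (N : ℕ) (g : C(KK, ℝ)) : KK → ℝ
  | iso N' σ i => if N' = N ∧ i = N + 1 then cf N g σ else 0
  | br _ _ => 0
  | inf => 0

theorem hraw_iso (N : ℕ) (g : C(KK, ℝ)) (N' : ℕ) (σ : List Bool) (i : ℕ) :
    hraw N g (iso N' σ i) = if N' = N ∧ i = N + 1 then cf N g σ else 0 := rfl

theorem hraw_cont (N : ℕ) (hN : 1 ≤ N) (g : C(KK, ℝ)) : Continuous (hraw N g) := by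
  rw [continuous_def]
  intro V hV
  rw [isOpen_def]
  refine ⟨fun N' β hb => ⟨0, ?_⟩, fun hb => ?_⟩
  · have h0 : (0 : ℝ) ∈ V := hb
    rintro t (rfl | ⟨n, _, rfl | rfl⟩)
    · exact h0
    · have : hraw N g (iso N' (nd β n) 0) = 0 := by
        rw [hraw_iso, if_neg]
        omega
      rw [mem_preimage, this]; exact h0
    · have : hraw N g (iso N' (nd β n) (col N' β n)) = 0 := by
        rw [hraw_iso, if_neg]
        rintro ⟨rfl, h⟩
        have hc := col_mem N' hN β n
        rw [Finset.mem_Icc] at hc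
        omega
      rw [mem_preimage, this]; exact h0
  · have h0 : (0 : ℝ) ∈ V := hb
    obtain ⟨ε, hε, hball⟩ := Metric.isOpen_iff.1 hV 0 h0
    refine ⟨(fun σ => iso N σ (N + 1)) '' {σ | ε ≤ |cf N g σ|}, ∅, (cf_small N hN g ε hε).image _, ?_⟩
    intro t ht _
    cases t with
    | iso N' σ i =>
      rw [mem_preimage]
      rw [hraw_iso]
      split_ifs with h
      · obtain ⟨rfl, rfl⟩ := h
        apply hball
        rw [Metric.mem_ball, dist_zero_right, Real.norm_eq_abs]
        by_contra hcon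
        exact ht ⟨σ, not_lt.1 hcon, rfl⟩
      · exact h0
    | br N' β => exact h0
    | inf => exact h0

theorem kap_nonneg (N : ℕ) (hN : 1 ≤ N) : 0 ≤ kap N := by
  unfold kap
  have : (1 : ℝ) ≤ N := by exact_mod_cast hN
  apply div_nonneg <;> linarith

theorem kap_le_one (N : ℕ) : kap N ≤ 1 := by
  unfold kap
  rw [div_le_one (by positivity)]
  linarith

/-- the image function -/
def Tf (N : ℕ) (hN : 1 ≤ N) (g : C(KK, ℝ)) : C(KK, ℝ) :=
  ⟨fun t => kap N * g inf + hraw N g t, continuous_const.add (hraw_cont N hN g)⟩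

theorem Tf_r (N : ℕ) (hN : 1 ≤ N) (g : C(KK, ℝ)) (σ : List Bool) :
    Tf N hN g (iso N σ (N + 1)) =
      (1 / ((N : ℝ) + 1)) * (∑ i ∈ Finset.Icc 1 N, g (iso N σ i) - g (iso N σ 0)) := by
  change kap N * g inf + hraw N g (iso N σ (N + 1)) = _
  rw [hraw_iso, if_pos ⟨rfl, rfl⟩]
  unfold cf
  ring

theorem Tf_inf (N : ℕ) (hN : 1 ≤ N) (g : C(KK, ℝ)) : Tf N hN g inf = kap N * g inf := by
  change kap N * g inf + 0 = _
  rw [add_zero]

theorem Tf_bound (N : ℕ) (hN : 1 ≤ N) (g : C(KK, ℝ)) (t : KK) : |Tf N hN g t| ≤ ‖g‖ := by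
  have hg : ∀ s, |g s| ≤ ‖g‖ := fun s => g.norm_coe_le_norm s
  have hc : |kap N * g inf| ≤ ‖g‖ := by
    rw [abs_mul, abs_of_nonneg (kap_nonneg N hN)]
    calc _ ≤ 1 * ‖g‖ := mul_le_mul (kap_le_one N) (hg inf) (abs_nonneg _) zero_le_one
      _ = _ := one_mul _
  cases t with
  | iso N' σ i =>
    by_cases h : N' = N ∧ i = N + 1
    · obtain ⟨rfl, rfl⟩ := h
      rw [Tf_r, abs_mul, abs_of_pos (by positivity : (0 : ℝ) < 1 / ((N' : ℝ) + 1))]
      have h1 : |∑ i ∈ Finset.Icc 1 N', g (iso N' σ i) - g (iso N' σ 0)| ≤ ((N' : ℝ) + 1) * ‖g‖ := by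
        have e1 := abs_sub (∑ i ∈ Finset.Icc 1 N', g (iso N' σ i)) (g (iso N' σ 0))
        have e2 : |∑ i ∈ Finset.Icc 1 N', g (iso N' σ i)| ≤ N' * ‖g‖ := by
          refine (Finset.abs_sum_le_sum_abs _ _).trans ?_
          refine (Finset.sum_le_sum (fun i _ => hg _)).trans ?_
          rw [Finset.sum_const, Nat.card_Icc, nsmul_eq_mul, Nat.add_sub_cancel]
        have e3 := hg (iso N' σ 0)
        linarith
      calc _ ≤ 1 / ((N' : ℝ) + 1) * (((N' : ℝ) + 1) * ‖g‖) :=
            mul_le_mul_of_nonneg_left h1 (by positivity)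
        _ = ‖g‖ := by field_simp
    · have : Tf N hN g (iso N' σ i) = kap N * g inf := by
        change kap N * g inf + hraw N g (iso N' σ i) = _
        rw [hraw_iso, if_neg h, add_zero]
      rw [this]; exact hc
  | br N' β =>
    have : Tf N hN g (br N' β) = kap N * g inf := by
      change kap N * g inf + 0 = _
      rw [add_zero]
    rw [this]; exact hc
  | inf => rw [Tf_inf]; exact hc

/-- the operator -/
def TT (N : ℕ) (hN : 1 ≤ N) : C(KK, ℝ) →L[ℝ] C(KK, ℝ) :=
  LinearMap.mkContinuous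
    { toFun := Tf N hN
      map_add' := by
        intro f g
        ext t
        change kap N * (f inf + g inf) + hraw N (f + g) t
          = (kap N * f inf + hraw N f t) + (kap N * g inf + hraw N g t)
        have : hraw N (f + g) t = hraw N f t + hraw N g t := by
          cases t with
          | iso N' σ i =>
            simp only [hraw_iso]
            split_ifs
            · unfold cf
              simp only [ContinuousMap.add_apply, Finset.sum_add_distrib]
              ring
            · simp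
          | br N' β => simp [hraw]
          | inf => simp [hraw]
        rw [this]; ring
      map_smul' := by
        intro c f
        ext t
        change kap N * (c * f inf) + hraw N (c • f) t = c * (kap N * f inf + hraw N f t)
        have : hraw N (c • f) t = c * hraw N f t := by
          cases t with
          | iso N' σ i =>
            simp only [hraw_iso]
            split_ifs
            · unfold cf
              simp only [ContinuousMap.smul_apply, smul_eq_mul, ← Finset.mul_sum]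
              ring
            · simp
          | br N' β => simp [hraw]
          | inf => simp [hraw]
        rw [this]; ring } 1 (fun g => by
          rw [one_mul, ContinuousMap.norm_le _ (norm_nonneg _)]
          exact Tf_bound N hN g)

theorem TT_apply (N : ℕ) (hN : 1 ≤ N) (g : C(KK, ℝ)) : TT N hN g = Tf N hN g := rfl

theorem norm_TT (N : ℕ) (hN : 1 ≤ N) (g : C(KK, ℝ)) : ‖TT N hN g‖ ≤ ‖g‖ := by
  rw [TT_apply, ContinuousMap.norm_le _ (norm_nonneg _)]
  exact Tf_bound N hN g

open Classical in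
theorem ind_apply (U : Set KK) (hU : IsClopen U) (t : KK) :
    ind U hU t = if t ∈ U then 1 else 0 := by
  split_ifs with h
  · exact ind_apply_mem U hU t h
  · exact ind_apply_notMem U hU t h

theorem TT_radius (N : ℕ) (hN : 1 ≤ N) : sSup (nrs (TT N hN)) = 1 := by
  apply IsGreatest.csSup_eq
  constructor
  · set z : C(KK, ℝ) := 1 - (2 : ℝ) • ind {iso N [] 0} (isClopen_iso _ _ _) with hz
    have hz1 : ∀ t, t ≠ iso N [] 0 → z t = 1 := by
      intro t ht
      change 1 - 2 * ind {iso N [] 0} (isClopen_iso _ _ _) t = 1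
      rw [ind_apply_notMem _ _ _ (by simpa using ht)]; ring
    have hz2 : z (iso N [] 0) = -1 := by
      change 1 - 2 * ind {iso N [] 0} (isClopen_iso _ _ _) (iso N [] 0) = -1
      rw [ind_apply_mem _ _ _ (by simp)]; ring
    have hzb : ∀ t, |z t| ≤ 1 := by
      intro t
      by_cases ht : t = iso N [] 0
      · rw [ht, hz2]; simp
      · rw [hz1 t ht]; simp
    have hr : z (iso N [] (N + 1)) = 1 := hz1 _ (by simp)
    refine ⟨z, ev (iso N [] (N + 1)), ?_, norm_ev _, ?_, ?_⟩
    · exact norm_eq_one z hzb (iso N [] (N + 1)) (by rw [hr, abs_one])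
    · exact hr
    · rw [ev_apply, TT_apply, Tf_r, hz2]
      have : ∑ i ∈ Finset.Icc 1 N, z (iso N [] i) = N := by
        have h1 : ∀ i ∈ Finset.Icc 1 N, z (iso N [] i) = 1 := by
          intro i hi
          rw [Finset.mem_Icc] at hi
          apply hz1
          intro h
          cases h
          omega
        rw [Finset.sum_congr rfl h1, Finset.sum_const, Nat.card_Icc]
        simp
      rw [this]
      have h0 : (0 : ℝ) < (N : ℝ) + 1 := by positivity
      have : 1 / ((N : ℝ) + 1) * (N - -1) = 1 := by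
        field_simp
        ring
      rw [this, abs_one]
  · rintro r ⟨z, h, hz, hh, _, rfl⟩
    calc |h (TT N hN z)| ≤ ‖h‖ * ‖TT N hN z‖ := h.le_opNorm _
      _ ≤ ‖h‖ * ‖z‖ := mul_le_mul_of_nonneg_left (norm_TT N hN z) h.opNorm_nonneg
      _ = 1 := by rw [hz, hh, one_mul]

end Pool.Agent.H266R3.BPB
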