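import Mathlib

set_option autoImplicit false

noncomputable section

namespace Pool.Agent.H266R3.BPB

open Set Filter Topology

/-- the node of level `n` on the branch `β` -/
def nd (β : ℕ → Bool) (n : ℕ) : List Bool := (List.range n).map β

theorem nd_length (β : ℕ → Bool) (n : ℕ) : (nd β n).length = n := by simp [nd]

theorem nd_eq (β β' : ℕ → Bool) (n : ℕ) (h : nd β n = nd β' n) (k : ℕ) (hk : k < n) :
    β k = β' k := by
  have h1 : (nd β n)[k]? = (nd β' n)[k]? := by rw [h]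
  simpa [nd, hk] using h1

theorem nd_inj (β : ℕ → Bool) : Function.Injective (nd β) := by
  intro n m h
  have := congrArg List.length h
  rwa [nd_length, nd_length] at this

open Cardinal in
/-- coding -/
theorem exists_code : ∃ e : (ℕ → Bool) → (List Bool → Finset ℕ), ∀ F, (e ⁻¹' {F}).Infinite := by
  have hcard : #((List Bool → Finset ℕ) × ℕ) ≤ #(ℕ → Bool) := by
    have h1 : #(ℕ → Bool) = 𝔠 := by simp
    have h2 : #(List Bool → Finset ℕ) = 𝔠 := by
      rw [← Cardinal.power_def, Cardinal.mk_eq_aleph0 (List Bool), Cardinal.mk_eq_aleph0 (Finset ℕ),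
        aleph0_power_aleph0]
    rw [h1, Cardinal.mk_prod, Cardinal.lift_id, Cardinal.lift_id, h2, Cardinal.mk_denumerable,
      continuum_mul_aleph0]
  obtain ⟨φ⟩ := Cardinal.le_def _ _ |>.1 hcard
  refine ⟨fun β => (Function.invFun φ β).1, fun F => ?_⟩
  have hinj : Function.Injective (fun k : ℕ => φ (F, k)) := by
    intro k l h
    have := φ.injective h
    exact (Prod.mk.inj this).2
  apply Set.infinite_of_injective_forall_mem hinj
  intro k
  have : Function.invFun φ (φ (F, k)) = (F, k) := Function.leftInverse_invFun φ.injective _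
  simp only [mem_preimage, mem_singleton_iff]
  rw [this]

/-- the code -/
def Fc : (ℕ → Bool) → (List Bool → Finset ℕ) := Classical.choose exists_code

theorem Fc_spec (F : List Bool → Finset ℕ) : (Fc ⁻¹' {F}).Infinite :=
  Classical.choose_spec exists_code F

open Classical in
/-- the colour -/
def col (N : ℕ) (β : ℕ → Bool) (n : ℕ) : ℕ :=
  if h : ∃ i ∈ Finset.Icc 1 N, i ∉ Fc β (nd β n) then Classical.choose h else 1

theorem col_mem (N : ℕ) (hN : 1 ≤ N) (β : ℕ → Bool) (n : ℕ) : col N β n ∈ Finset.Icc 1 N := by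
  unfold col
  split_ifs with h
  · exact (Classical.choose_spec h).1
  · rw [Finset.mem_Icc]; omega

theorem col_not_mem (N : ℕ) (β : ℕ → Bool) (n : ℕ)
    (h : ((Finset.Icc 1 N).filter (fun i => i ∈ Fc β (nd β n))).card < N) :
    col N β n ∉ Fc β (nd β n) := by
  have hex : ∃ i ∈ Finset.Icc 1 N, i ∉ Fc β (nd β n) := by
    by_contra hcon
    push Not at hcon
    rw [Finset.filter_true_of_mem hcon, Nat.card_Icc] at h
    omega
  unfold col
  rw [dif_pos hex]
  exact (Classical.choose_spec hex).2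

/-- The compact space. -/
inductive KK : Type
  | iso (N : ℕ) (σ : List Bool) (i : ℕ)
  | br (N : ℕ) (β : ℕ → Bool)
  | inf

open KK

/-- basic neighbourhoods of the branch points -/
def CC (N : ℕ) (β : ℕ → Bool) (m : ℕ) : Set KK :=
  {t | t = br N β ∨ ∃ n, m ≤ n ∧ (t = iso N (nd β n) 0 ∨ t = iso N (nd β n) (col N β n))}

theorem CC_anti (N : ℕ) (β : ℕ → Bool) {m m' : ℕ} (h : m ≤ m') : CC N β m' ⊆ CC N β m := by
  rintro t (ht | ⟨n, hn, ht⟩)
  · exact Or.inl ht
  · exact Or.inr ⟨n, h.trans hn, ht⟩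

theorem br_mem_CC (N : ℕ) (β : ℕ → Bool) (m : ℕ) : br N β ∈ CC N β m := Or.inl rfl

theorem inf_not_mem_CC (N : ℕ) (β : ℕ → Bool) (m : ℕ) : inf ∉ CC N β m := by
  rintro (h | ⟨n, _, h | h⟩) <;> cases h

theorem br_mem_CC_iff (N N' : ℕ) (β β' : ℕ → Bool) (m : ℕ) :
    br N' β' ∈ CC N β m ↔ N' = N ∧ β' = β := by
  constructor
  · rintro (h | ⟨n, _, h | h⟩)
    · cases h; exact ⟨rfl, rfl⟩
    · cases h
    · cases h
  · rintro ⟨rfl, rfl⟩; exact br_mem_CC _ _ _

theorem iso_mem_CC_iff (N N' : ℕ) (β : ℕ → Bool) (σ : List Bool) (i m : ℕ) :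
    iso N' σ i ∈ CC N β m ↔ N' = N ∧ ∃ n, m ≤ n ∧ σ = nd β n ∧ (i = 0 ∨ i = col N β n) := by
  constructor
  · rintro (h | ⟨n, hn, h | h⟩)
    · cases h
    · cases h; exact ⟨rfl, n, hn, rfl, Or.inl rfl⟩
    · cases h; exact ⟨rfl, n, hn, rfl, Or.inr rfl⟩
  · rintro ⟨rfl, n, hn, rfl, rfl | rfl⟩
    · exact Or.inr ⟨n, hn, Or.inl rfl⟩
    · exact Or.inr ⟨n, hn, Or.inr rfl⟩

/-- open sets -/
def opn (U : Set KK) : Prop :=
  (∀ N β, br N β ∈ U → ∃ m, CC N β m ⊆ U) ∧
  (inf ∈ U → ∃ (E : Set KK) (B : Finset (ℕ × (ℕ → Bool))), E.Finite ∧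
    ∀ t, t ∉ E → (∀ p ∈ B, t ∉ CC p.1 p.2 0) → t ∈ U)

instance : TopologicalSpace KK where
  IsOpen := opn
  isOpen_univ := ⟨fun _ _ _ => ⟨0, subset_univ _⟩, fun _ => ⟨∅, ∅, finite_empty, fun _ _ _ => mem_univ _⟩⟩
  isOpen_inter := by
    classical
    rintro U V ⟨hU1, hU2⟩ ⟨hV1, hV2⟩
    refine ⟨fun N β h => ?_, fun h => ?_⟩
    · obtain ⟨m, hm⟩ := hU1 N β h.1
      obtain ⟨m', hm'⟩ := hV1 N β h.2
      exact ⟨max m m', subset_inter ((CC_anti N β (le_max_left _ _)).trans hm)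
        ((CC_anti N β (le_max_right _ _)).trans hm')⟩
    · obtain ⟨E, B, hE, hEB⟩ := hU2 h.1
      obtain ⟨E', B', hE', hEB'⟩ := hV2 h.2
      refine ⟨E ∪ E', B ∪ B', hE.union hE', fun t ht ht' => ⟨?_, ?_⟩⟩
      · exact hEB t (fun h => ht (Or.inl h)) (fun p hp => ht' p (Finset.mem_union_left _ hp))
      · exact hEB' t (fun h => ht (Or.inr h)) (fun p hp => ht' p (Finset.mem_union_right _ hp))
  isOpen_sUnion := by
    intro 𝒰 h𝒰
    refine ⟨fun N β h => ?_, fun h => ?_⟩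
    · obtain ⟨U, hU, hb⟩ := h
      obtain ⟨m, hm⟩ := (h𝒰 U hU).1 N β hb
      exact ⟨m, hm.trans (subset_sUnion_of_mem hU)⟩
    · obtain ⟨U, hU, hb⟩ := h
      obtain ⟨E, B, hE, hEB⟩ := (h𝒰 U hU).2 hb
      exact ⟨E, B, hE, fun t ht ht' => ⟨U, hU, hEB t ht ht'⟩⟩

theorem isOpen_def (U : Set KK) : IsOpen U ↔ opn U := Iff.rfl

theorem CC_diff_finite (N : ℕ) (β : ℕ → Bool) (m : ℕ) : (CC N β 0 \ CC N β m).Finite := by
  have h1 : (CC N β 0 \ CC N β m) ⊆
      ((fun n => iso N (nd β n) 0) '' (Set.Iio m)) ∪ ((fun n => iso N (nd β n) (col N β n)) '' (Set.Iio m)) := by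
    rintro t ⟨ht | ⟨n, hn, ht⟩, ht'⟩
    · exact absurd (Or.inl ht) ht'
    · have hnm : n < m := by
        by_contra h
        exact ht' (Or.inr ⟨n, not_lt.1 h, ht⟩)
      rcases ht with ht | ht
      · exact Or.inl ⟨n, hnm, ht.symm⟩
      · exact Or.inr ⟨n, hnm, ht.symm⟩
  exact ((((finite_Iio m).image _).union ((finite_Iio m).image _))).subset h1

instance : CompactSpace KK := by
  constructor
  rw [isCompact_iff_ultrafilter_le_nhds]
  intro f _
  by_cases h1 : ∃ t, f = pure t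
  · obtain ⟨t, rfl⟩ := h1
    exact ⟨t, mem_univ _, pure_le_nhds t⟩
  have hfin : ∀ s : Set KK, s.Finite → s ∉ f := by
    intro s hs hsf
    obtain ⟨t, _, ht⟩ := Ultrafilter.eq_pure_of_finite_mem hs hsf
    exact h1 ⟨t, ht⟩
  by_cases h2 : ∃ N β, CC N β 0 ∈ f
  · obtain ⟨N, β, hC⟩ := h2
    refine ⟨br N β, mem_univ _, ?_⟩
    rw [le_nhds_iff]
    intro U hU hUo
    obtain ⟨m, hm⟩ := ((isOpen_def U).1 hUo).1 N β hU
    have h3 : CC N β 0 ⊆ CC N β m ∪ (CC N β 0 \ CC N β m) := by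
      intro t ht
      by_cases h : t ∈ CC N β m
      · exact Or.inl h
      · exact Or.inr ⟨ht, h⟩
    have h4 : CC N β m ∪ (CC N β 0 \ CC N β m) ∈ f := mem_of_superset hC h3
    rcases Ultrafilter.union_mem_iff.1 h4 with h | h
    · exact mem_of_superset h hm
    · exact absurd h (hfin _ (CC_diff_finite N β m))
  · push Not at h2
    refine ⟨inf, mem_univ _, ?_⟩
    rw [le_nhds_iff]
    intro U hU hUo
    obtain ⟨E, B, hE, hEB⟩ := ((isOpen_def U).1 hUo).2 hU
    by_contra hUf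
    have hUf' : Uᶜ ∈ f := Ultrafilter.compl_mem_iff_notMem.2 hUf
    have h3 : Uᶜ ⊆ E ∪ ⋃ p ∈ (B : Set (ℕ × (ℕ → Bool))), CC p.1 p.2 0 := by
      intro t ht
      by_contra hcon
      rw [mem_union, not_or] at hcon
      apply ht
      apply hEB t hcon.1
      intro p hp hpt
      exact hcon.2 (mem_biUnion (Finset.mem_coe.2 hp) hpt)
    have h4 := mem_of_superset hUf' h3
    rcases Ultrafilter.union_mem_iff.1 h4 with h | h
    · exact hfin E hE h
    · rw [Ultrafilter.finite_biUnion_mem_iff B.finite_toSet] at h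
      obtain ⟨p, _, hp⟩ := h
      exact h2 p.1 p.2 hp

theorem isClopen_iso (N : ℕ) (σ : List Bool) (i : ℕ) : IsClopen ({iso N σ i} : Set KK) := by
  constructor
  · rw [← isOpen_compl_iff, isOpen_def]
    refine ⟨fun N' β _ => ⟨σ.length + 1, ?_⟩, fun _ => ⟨{iso N σ i}, ∅, finite_singleton _, fun t ht _ => ht⟩⟩
    intro t ht hts
    rw [mem_singleton_iff] at hts
    subst hts
    rw [iso_mem_CC_iff] at ht
    obtain ⟨_, n, hn, hσ, _⟩ := ht
    have := congrArg List.length hσ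
    rw [nd_length] at this
    omega
  · rw [isOpen_def]
    refine ⟨fun N' β h => ?_, fun h => ?_⟩
    · rw [mem_singleton_iff] at h; cases h
    · rw [mem_singleton_iff] at h; cases h

theorem isClopen_CC (N : ℕ) (β : ℕ → Bool) (m : ℕ) : IsClopen (CC N β m) := by
  constructor
  · rw [← isOpen_compl_iff, isOpen_def]
    refine ⟨fun N' β' h => ?_, fun _ => ⟨∅, {(N, β)}, finite_empty, fun t _ ht => ?_⟩⟩
    · rw [mem_compl_iff, br_mem_CC_iff] at h
      by_cases hN : N' = N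
      · have hβ : β' ≠ β := fun hβ => h ⟨hN, hβ⟩
        obtain ⟨k, hk⟩ := Function.ne_iff.1 hβ
        refine ⟨k + 1, ?_⟩
        intro t ht ht'
        rcases ht with rfl | ⟨n, hn, rfl | rfl⟩
        · rw [br_mem_CC_iff] at ht'; exact h ht'
        · rw [iso_mem_CC_iff] at ht'
          obtain ⟨_, n', _, hnn, _⟩ := ht'
          have h1 := congrArg List.length hnn
          rw [nd_length, nd_length] at h1
          subst h1
          exact hk (nd_eq _ _ _ hnn k (by omega))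
        · rw [iso_mem_CC_iff] at ht'
          obtain ⟨_, n', _, hnn, _⟩ := ht'
          have h1 := congrArg List.length hnn
          rw [nd_length, nd_length] at h1
          subst h1
          exact hk (nd_eq _ _ _ hnn k (by omega))
      · refine ⟨0, ?_⟩
        intro t ht ht'
        rcases ht with rfl | ⟨n, hn, rfl | rfl⟩
        · rw [br_mem_CC_iff] at ht'; exact h ht'
        · rw [iso_mem_CC_iff] at ht'; exact hN ht'.1
        · rw [iso_mem_CC_iff] at ht'; exact hN ht'.1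
    · intro ht'
      exact ht (N, β) (Finset.mem_singleton_self _) (CC_anti N β (Nat.zero_le m) ht')
  · rw [isOpen_def]
    refine ⟨fun N' β' h => ?_, fun h => absurd h (inf_not_mem_CC _ _ _)⟩
    rw [br_mem_CC_iff] at h
    obtain ⟨rfl, rfl⟩ := h
    exact ⟨m, Subset.rfl⟩

theorem clopen_sep (x y : KK) (h : x ≠ y) : ∃ U : Set KK, IsClopen U ∧ x ∈ U ∧ y ∉ U := by
  have key : ∀ x y : KK, x ≠ y → (∃ U : Set KK, IsClopen U ∧ x ∈ U ∧ y ∉ U) ∨
      (∃ U : Set KK, IsClopen U ∧ y ∈ U ∧ x ∉ U) := by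
    intro x y h
    cases x with
    | iso N σ i =>
      exact Or.inl ⟨{iso N σ i}, isClopen_iso _ _ _, rfl, fun h' => h h'.symm⟩
    | br N β =>
      cases y with
      | iso N' σ i =>
        exact Or.inr ⟨{iso N' σ i}, isClopen_iso _ _ _, rfl, fun h' => h h'⟩
      | br N' β' =>
        refine Or.inl ⟨CC N β 0, isClopen_CC _ _ _, br_mem_CC _ _ _, ?_⟩
        rw [br_mem_CC_iff]
        rintro ⟨rfl, rfl⟩
        exact h rfl
      | inf => exact Or.inl ⟨CC N β 0, isClopen_CC _ _ _, br_mem_CC _ _ _, inf_not_mem_CC _ _ _⟩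
    | inf =>
      cases y with
      | iso N' σ i =>
        exact Or.inr ⟨{iso N' σ i}, isClopen_iso _ _ _, rfl, fun h' => h h'⟩
      | br N' β' =>
        exact Or.inr ⟨CC N' β' 0, isClopen_CC _ _ _, br_mem_CC _ _ _, inf_not_mem_CC _ _ _⟩
      | inf => exact absurd rfl h
  rcases key x y h with hU | ⟨U, hU, hy, hx⟩
  · exact hU
  · exact ⟨Uᶜ, hU.compl, hx, fun h => h hy⟩

instance : T2Space KK := by
  constructor
  intro x y h
  obtain ⟨U, hU, hx, hy⟩ := clopen_sep x y h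
  exact ⟨U, Uᶜ, hU.isOpen, hU.compl.isOpen, hx, hy, disjoint_compl_right⟩

/-- indicator function of a clopen set -/
def ind (U : Set KK) (hU : IsClopen U) : C(KK, ℝ) :=
  ⟨U.indicator (fun _ => (1 : ℝ)), hU.continuous_indicator continuous_const⟩

theorem ind_apply_mem (U : Set KK) (hU : IsClopen U) (t : KK) (ht : t ∈ U) : ind U hU t = 1 := by
  change U.indicator (fun _ => (1 : ℝ)) t = 1
  exact Set.indicator_of_mem ht _

theorem ind_apply_notMem (U : Set KK) (hU : IsClopen U) (t : KK) (ht : t ∉ U) : ind U hU t = 0 := by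
  change U.indicator (fun _ => (1 : ℝ)) t = 0
  exact Set.indicator_of_notMem ht _

/-- convergence of the range points to `inf` -/
theorem tendsto_r (N : ℕ) (hN : 1 ≤ N) :
    Tendsto (fun σ : List Bool => iso N σ (N + 1)) cofinite (𝓝 inf) := by
  rw [tendsto_nhds]
  intro U hUo hU
  obtain ⟨E, B, hE, hEB⟩ := ((isOpen_def U).1 hUo).2 hU
  rw [mem_cofinite]
  have h1 : ((fun σ : List Bool => iso N σ (N + 1)) ⁻¹' U)ᶜ ⊆ (fun σ : List Bool => iso N σ (N + 1)) ⁻¹' E := by
    intro σ hσ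
    by_contra hσE
    apply hσ
    apply hEB _ hσE
    intro p _ hp
    rw [iso_mem_CC_iff] at hp
    obtain ⟨hNp, n, _, _, hi⟩ := hp
    have hc := col_mem p.1 (by omega) p.2 n
    rw [Finset.mem_Icc] at hc
    omega
  refine Set.Finite.subset ?_ h1
  apply hE.preimage
  intro σ _ σ' _ h
  have : iso N σ (N + 1) = iso N σ' (N + 1) := h
  cases this
  rfl

theorem tendsto_branch (N : ℕ) (hN : 1 ≤ N) (β : ℕ → Bool) (h : C(KK, ℝ)) :
    Tendsto (fun n => h (iso N (nd β n) (N + 1))) atTop (𝓝 (h inf)) := by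
  have h1 : Tendsto (nd β) atTop cofinite := by
    rw [← Nat.cofinite_eq_atTop]
    exact (nd_inj β).tendsto_cofinite
  exact (h.continuous.tendsto inf).comp ((tendsto_r N hN).comp h1)

end Pool.Agent.H266R3.BPB
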