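import Pool.Agent.H266R3.TNorm

/-!
# The dual of a sequence space and sums of Banach spaces with respect to it
-/

namespace H266T

open Finset

/-- The space `c₀₀` with the norm `L.N` (a dense subspace of its completion, hence with the
same dual). -/
def T0 (_L : LatNorm) : Type := ℕ →₀ ℝ

section T0

variable (L : LatNorm)

noncomputable instance : AddCommGroup (T0 L) := Finsupp.instAddCommGroup
noncomputable instance : Module ℝ (T0 L) := Finsupp.module ℕ ℝ

/-- The norm as an additive group norm. -/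
noncomputable def T0.groupNorm : AddGroupNorm (T0 L) where
  toFun := L.N
  map_zero' := L.zero
  add_le' := L.add_le
  neg' := L.neg
  eq_zero_of_map_eq_zero' := fun _ h => L.eq_zero h

noncomputable instance : NormedAddCommGroup (T0 L) := (T0.groupNorm L).toNormedAddCommGroup

lemma T0.norm_def (x : T0 L) : ‖x‖ = L.N x := rfl

noncomputable instance : NormedSpace ℝ (T0 L) where
  norm_smul_le := fun c x => (L.smul c x).le

/-- The unit vectors. -/
noncomputable def T0.e (i : ℕ) : T0 L := (Finsupp.single i 1 : ℕ →₀ ℝ)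

/-- The dual space: the dual of the completion of `c₀₀` under `L.N`. -/
abbrev Tstar : Type := StrongDual ℝ (T0 L)

theorem Tstar.complete : CompleteSpace (Tstar L) := inferInstance

end T0

variable {L : LatNorm}

lemma T0.sum_eq (y : T0 L) : y = ∑ i ∈ (show ℕ →₀ ℝ from y).support,
    (show ℕ →₀ ℝ from y) i • T0.e L i := by
  show (show ℕ →₀ ℝ from y) = ∑ i ∈ (show ℕ →₀ ℝ from y).support,
    (show ℕ →₀ ℝ from y) i • (Finsupp.single i 1 : ℕ →₀ ℝ)
  conv_lhs => rw [← Finsupp.sum_single (show ℕ →₀ ℝ from y)]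
  unfold Finsupp.sum
  apply Finset.sum_congr rfl
  intro i _
  rw [Finsupp.smul_single, smul_eq_mul, mul_one]

lemma Tstar.apply_eq (Φ : Tstar L) (y : ℕ →₀ ℝ) :
    Φ (show T0 L from y) = ∑ i ∈ y.support, y i * Φ (T0.e L i) := by
  conv_lhs => rw [T0.sum_eq (show T0 L from y)]
  rw [map_sum]
  apply Finset.sum_congr rfl
  intro i _
  rw [map_smul, smul_eq_mul]

/-- Absolute value in `c₀₀`. -/
noncomputable def absF (y : ℕ →₀ ℝ) : ℕ →₀ ℝ := y.mapRange (fun a => |a|) abs_zero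

lemma absF_apply (y : ℕ →₀ ℝ) (i : ℕ) : absF y i = |y i| := by
  unfold absF; rw [Finsupp.mapRange_apply]

lemma N_absF (y : ℕ →₀ ℝ) : L.N (absF y) = L.N y :=
  le_antisymm (L.mono _ _ (fun i => by rw [absF_apply, abs_abs]))
    (L.mono _ _ (fun i => by rw [absF_apply, abs_abs]))

lemma absF_support (y : ℕ →₀ ℝ) : (absF y).support = y.support := by
  ext i; simp [Finsupp.mem_support_iff, absF_apply]

/-- Nonnegative functionals. -/
lemma Tstar.pair_le (Φ : Tstar L) {a : ℕ → ℝ} (ha : ∀ i, Φ (T0.e L i) = a i) (y : ℕ →₀ ℝ) :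
    pair a y ≤ ‖Φ‖ * L.N y := by
  have h1 := Tstar.apply_eq Φ (absF y)
  have h2 : pair a y = Φ (show T0 L from absF y) := by
    rw [h1, absF_support, pair_eq (Finset.Subset.refl _)]
    apply Finset.sum_congr rfl
    intro i _
    rw [absF_apply, ha, mul_comm]
  rw [h2]
  refine (le_abs_self _).trans ?_
  have := Φ.le_opNorm (show T0 L from absF y)
  rw [T0.norm_def] at this
  rw [← N_absF y]
  exact this

/-- Construction of functionals. -/
lemma Tstar.exists_of_bound {a : ℕ → ℝ} (ha : ∀ i, 0 ≤ a i) {C : ℝ} (hC : 0 ≤ C)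
    (h : ∀ y : ℕ →₀ ℝ, pair a y ≤ C * L.N y) :
    ∃ Φ : Tstar L, (∀ i, Φ (T0.e L i) = a i) ∧ ‖Φ‖ ≤ C := by
  let f : (T0 L) →ₗ[ℝ] ℝ := (Finsupp.linearCombination ℝ a : (ℕ →₀ ℝ) →ₗ[ℝ] ℝ)
  have hf : ∀ y : T0 L, ‖f y‖ ≤ C * ‖y‖ := by
    intro y
    have h1 : f y = ∑ i ∈ (show ℕ →₀ ℝ from y).support, (show ℕ →₀ ℝ from y) i * a i := by
      show (Finsupp.linearCombination ℝ a : (ℕ →₀ ℝ) →ₗ[ℝ] ℝ) y = _
      rw [Finsupp.linearCombination_apply]
      rfl
    rw [h1, Real.norm_eq_abs, T0.norm_def]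
    refine (Finset.abs_sum_le_sum_abs _ _).trans ?_
    refine le_trans (le_of_eq ?_) (h y)
    rw [pair_eq (Finset.Subset.refl _)]
    apply Finset.sum_congr rfl
    intro i _
    rw [abs_mul, abs_of_nonneg (ha i), mul_comm]
  refine ⟨LinearMap.mkContinuous f C hf, ?_, LinearMap.mkContinuous_norm_le f hC hf⟩
  intro i
  rw [LinearMap.mkContinuous_apply]
  show (Finsupp.linearCombination ℝ a : (ℕ →₀ ℝ) →ₗ[ℝ] ℝ) (Finsupp.single i 1) = a i
  rw [Finsupp.linearCombination_single, one_smul]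

section DSum

variable (L) (X : ℕ → Type) [∀ i, NormedAddCommGroup (X i)] [∀ i, NormedSpace ℝ (X i)]

/-- The sequences `(x_k)`, `x_k ∈ X_k`, for which `∑ ‖x_k‖ e_k^*` is an element of the dual. -/
def DSub : Submodule ℝ (∀ i, X i) where
  carrier := {x | ∃ Φ : Tstar L, ∀ i, Φ (T0.e L i) = ‖x i‖}
  zero_mem' := ⟨0, fun i => by simp⟩
  add_mem' := by
    rintro x y ⟨Φ, hΦ⟩ ⟨Ψ, hΨ⟩
    obtain ⟨Θ, h1, _⟩ := Tstar.exists_of_bound (L := L) (a := fun i => ‖(x + y) i‖)
      (fun i => norm_nonneg _) (C := ‖Φ‖ + ‖Ψ‖) (by positivity) (by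
        intro z
        have h1 := Tstar.pair_le Φ hΦ z
        have h2 := Tstar.pair_le Ψ hΨ z
        rw [pair_eq (Finset.Subset.refl _)] at h1 h2 ⊢
        have h3 : ∑ i ∈ z.support, ‖(x + y) i‖ * |z i| ≤
            ∑ i ∈ z.support, ‖x i‖ * |z i| + ∑ i ∈ z.support, ‖y i‖ * |z i| := by
          rw [← Finset.sum_add_distrib]
          apply Finset.sum_le_sum
          intro i _
          rw [← add_mul, Pi.add_apply]
          exact mul_le_mul_of_nonneg_right (norm_add_le _ _) (abs_nonneg _)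
        rw [add_mul]
        linarith)
    exact ⟨Θ, h1⟩
  smul_mem' := by
    rintro c x ⟨Φ, hΦ⟩
    refine ⟨|c| • Φ, fun i => ?_⟩
    rw [ContinuousLinearMap.smul_apply, hΦ, Pi.smul_apply, norm_smul, smul_eq_mul,
      Real.norm_eq_abs]

/-- The sum `(⊕ X_k)_{T*}`: the sequences `(x_k)` with `‖∑ ‖x_k‖ e_k^*‖ < ∞`. -/
def DSum : Type := DSub L X

noncomputable instance : AddCommGroup (DSum L X) := Submodule.addCommGroup (DSub L X)
noncomputable instance : Module ℝ (DSum L X) := Submodule.module (DSub L X)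

variable {L X}

/-- The `i`-th component. -/
def DSum.coe (x : DSum L X) (i : ℕ) : X i := x.1 i

/-- The functional `∑ ‖x_k‖ e_k^*`. -/
noncomputable def DSum.fn (x : DSum L X) : Tstar L := Classical.choose x.2

lemma DSum.fn_e (x : DSum L X) (i : ℕ) : x.fn (T0.e L i) = ‖x.coe i‖ := Classical.choose_spec x.2 i

lemma DSum.pair_le' (x : DSum L X) (y : ℕ →₀ ℝ) :
    pair (fun i => ‖x.coe i‖) y ≤ ‖x.fn‖ * L.N y := Tstar.pair_le x.fn x.fn_e y

lemma Tstar.ext_e {Φ Ψ : Tstar L} (h : ∀ i, Φ (T0.e L i) = Ψ (T0.e L i)) : Φ = Ψ := by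
  ext y
  have h1 := Tstar.apply_eq Φ y
  have h2 := Tstar.apply_eq Ψ y
  have h3 : ∑ i ∈ (show ℕ →₀ ℝ from y).support, (show ℕ →₀ ℝ from y) i * Φ (T0.e L i) =
      ∑ i ∈ (show ℕ →₀ ℝ from y).support, (show ℕ →₀ ℝ from y) i * Ψ (T0.e L i) :=
    Finset.sum_congr rfl (fun i _ => by rw [h i])
  exact h1.trans (h3.trans h2.symm)

lemma DSum.fn_norm_le (x : DSum L X) {C : ℝ} (hC : 0 ≤ C)
    (h : ∀ y : ℕ →₀ ℝ, pair (fun i => ‖x.coe i‖) y ≤ C * L.N y) : ‖x.fn‖ ≤ C := by
  obtain ⟨Φ, h1, h2⟩ := Tstar.exists_of_bound (L := L) (fun i => norm_nonneg (x.coe i)) hC h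
  have : x.fn = Φ := Tstar.ext_e (fun i => by rw [x.fn_e, h1])
  rw [this]; exact h2

lemma DSum.ext' {x y : DSum L X} (h : ∀ i, x.coe i = y.coe i) : x = y :=
  Subtype.ext (funext h)

lemma DSum.coe_add (x y : DSum L X) (i : ℕ) : (x + y).coe i = x.coe i + y.coe i := rfl
lemma DSum.coe_sub (x y : DSum L X) (i : ℕ) : (x - y).coe i = x.coe i - y.coe i := rfl
lemma DSum.coe_neg (x : DSum L X) (i : ℕ) : (-x).coe i = -x.coe i := rfl
lemma DSum.coe_smul (c : ℝ) (x : DSum L X) (i : ℕ) : (c • x).coe i = c • x.coe i := rfl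
lemma DSum.coe_zero (i : ℕ) : (0 : DSum L X).coe i = 0 := rfl

lemma DSum.comp_le' (x : DSum L X) (i : ℕ) : ‖x.coe i‖ ≤ ‖x.fn‖ := by
  have := x.pair_le' (Finsupp.single i 1)
  rw [pair_eq Finsupp.support_single_subset, L.basis] at this
  simpa using this

variable (L X)

/-- The norm of the sum: `‖(x_k)‖ = ‖∑ ‖x_k‖ e_k^*‖`. -/
noncomputable def DSum.groupNorm : AddGroupNorm (DSum L X) where
  toFun := fun x => ‖x.fn‖
  map_zero' := by
    apply le_antisymm _ (norm_nonneg _)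
    apply DSum.fn_norm_le _ le_rfl
    intro y
    rw [pair_eq (Finset.Subset.refl _), zero_mul]
    simp [DSum.coe_zero]
  add_le' := by
    intro x y
    apply DSum.fn_norm_le _ (by positivity)
    intro z
    have h1 := x.pair_le' z
    have h2 := y.pair_le' z
    rw [pair_eq (Finset.Subset.refl _)] at h1 h2 ⊢
    have h3 : ∑ i ∈ z.support, ‖(x + y).coe i‖ * |z i| ≤
        ∑ i ∈ z.support, ‖x.coe i‖ * |z i| + ∑ i ∈ z.support, ‖y.coe i‖ * |z i| := by
      rw [← Finset.sum_add_distrib]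
      apply Finset.sum_le_sum
      intro i _
      rw [← add_mul, DSum.coe_add]
      exact mul_le_mul_of_nonneg_right (norm_add_le _ _) (abs_nonneg _)
    rw [add_mul]
    linarith
  neg' := by
    intro x
    have : (-x).fn = x.fn := Tstar.ext_e (fun i => by
      rw [DSum.fn_e, DSum.fn_e, DSum.coe_neg, norm_neg])
    rw [this]
  eq_zero_of_map_eq_zero' := by
    intro x hx
    apply DSum.ext'
    intro i
    have := x.comp_le' i
    rw [hx] at this
    rw [DSum.coe_zero]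
    exact norm_le_zero_iff.mp this

noncomputable instance : NormedAddCommGroup (DSum L X) :=
  (DSum.groupNorm L X).toNormedAddCommGroup

variable {L X}

lemma DSum.norm_def (x : DSum L X) : ‖x‖ = ‖x.fn‖ := rfl

lemma DSum.pair_le (x : DSum L X) (y : ℕ →₀ ℝ) :
    pair (fun i => ‖x.coe i‖) y ≤ ‖x‖ * L.N y := x.pair_le' y

lemma DSum.norm_le (x : DSum L X) {C : ℝ} (hC : 0 ≤ C)
    (h : ∀ y : ℕ →₀ ℝ, pair (fun i => ‖x.coe i‖) y ≤ C * L.N y) : ‖x‖ ≤ C :=
  x.fn_norm_le hC h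

lemma DSum.comp_le (x : DSum L X) (i : ℕ) : ‖x.coe i‖ ≤ ‖x‖ := x.comp_le' i

noncomputable instance : NormedSpace ℝ (DSum L X) where
  norm_smul_le := by
    intro c x
    apply DSum.norm_le _ (by positivity)
    intro y
    have h1 := x.pair_le y
    rw [pair_eq (Finset.Subset.refl _)] at h1 ⊢
    have : ∑ i ∈ y.support, ‖(c • x).coe i‖ * |y i| =
        ‖c‖ * ∑ i ∈ y.support, ‖x.coe i‖ * |y i| := by
      rw [Finset.mul_sum]
      apply Finset.sum_congr rfl
      intro i _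
      rw [DSum.coe_smul, norm_smul, mul_assoc]
    rw [this, mul_assoc]
    exact mul_le_mul_of_nonneg_left h1 (norm_nonneg _)

/-- Construction of elements. -/
lemma DSum.exists_of_bound (x : ∀ i, X i) {C : ℝ} (hC : 0 ≤ C)
    (h : ∀ y : ℕ →₀ ℝ, pair (fun i => ‖x i‖) y ≤ C * L.N y) :
    ∃ z : DSum L X, (∀ i, z.coe i = x i) ∧ ‖z‖ ≤ C := by
  obtain ⟨Φ, h1, _⟩ := Tstar.exists_of_bound (L := L) (fun i => norm_nonneg (x i)) hC h
  refine ⟨⟨x, Φ, h1⟩, fun i => rfl, ?_⟩
  exact DSum.norm_le _ hC h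

theorem DSum.complete (hX : ∀ i, CompleteSpace (X i)) : CompleteSpace (DSum L X) := by
  apply Metric.complete_of_cauchySeq_tendsto
  intro u hu
  have hcomp : ∀ i, ∃ a : X i, Filter.Tendsto (fun n => (u n).coe i) Filter.atTop (nhds a) := by
    intro i
    apply cauchySeq_tendsto_of_complete
    rw [Metric.cauchySeq_iff] at hu ⊢
    intro ε hε
    obtain ⟨N, hN⟩ := hu ε hε
    refine ⟨N, fun m hm n hn => ?_⟩
    refine lt_of_le_of_lt ?_ (hN m hm n hn)
    rw [dist_eq_norm, dist_eq_norm, ← DSum.coe_sub]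
    exact DSum.comp_le _ i
  choose a ha using hcomp
  have key : ∀ ε : ℝ, 0 < ε → ∃ N, ∀ n, N ≤ n → ∀ y : ℕ →₀ ℝ,
      pair (fun i => ‖(u n).coe i - a i‖) y ≤ ε * L.N y := by
    intro ε hε
    rw [Metric.cauchySeq_iff] at hu
    obtain ⟨N, hN⟩ := hu ε hε
    refine ⟨N, fun n hn y => ?_⟩
    have hlim : Filter.Tendsto (fun m => pair (fun i => ‖(u n - u m).coe i‖) y) Filter.atTop
        (nhds (pair (fun i => ‖(u n).coe i - a i‖) y)) := by
      simp_rw [pair_eq (Finset.Subset.refl y.support)]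
      apply tendsto_finset_sum
      intro i _
      apply Filter.Tendsto.mul_const
      apply Filter.Tendsto.norm
      simp_rw [DSum.coe_sub]
      exact tendsto_const_nhds.sub (ha i)
    apply le_of_tendsto hlim
    filter_upwards [Filter.eventually_ge_atTop N] with m hm
    refine ((u n - u m).pair_le y).trans ?_
    have := (hN n hn m hm).le
    rw [dist_eq_norm] at this
    exact mul_le_mul_of_nonneg_right this (L.nonneg y)
  obtain ⟨N, hN⟩ := key 1 one_pos
  obtain ⟨z, hz, _⟩ := DSum.exists_of_bound (L := L) (fun i => (u N).coe i - a i) zero_le_one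
    (hN N le_rfl)
  refine ⟨u N - z, ?_⟩
  rw [Metric.tendsto_atTop]
  intro ε hε
  obtain ⟨N', hN'⟩ := key (ε / 2) (half_pos hε)
  refine ⟨N', fun n hn => ?_⟩
  rw [dist_eq_norm]
  refine lt_of_le_of_lt (DSum.norm_le _ (half_pos hε).le ?_) (half_lt_self hε)
  intro y
  refine le_trans (le_of_eq ?_) (hN' n hn y)
  congr 1
  funext i
  rw [DSum.coe_sub, DSum.coe_sub, hz]
  congr 1
  abel

end DSum

end H266T
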