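import Pool.Agent.H266R3.Key

/-!
Families of functions on `ℕ × ℕ × Δ` converging along an ultrafilter to the restriction of a
continuous function on `βℕ × βℕ × Δ`.
-/

set_option autoImplicit false

open Filter Topology

namespace Pool.Agent.H266R3.BN

abbrev BB : Type := StoneCech ℕ
abbrev Cn : Type := ℕ → Bool
abbrev Xn : Type := BB × (BB × Cn)

/-- the canonical point -/
noncomputable abbrev io (n : ℕ) : BB := stoneCechUnit n

/-- extension of a map into a compact space -/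
noncomputable def ext {K : Type} [TopologicalSpace K] [CompactSpace K] [T2Space K] (f : ℕ → K) :
    C(BB, K) :=
  ⟨stoneCechExtend (g := f) continuous_of_discreteTopology, continuous_stoneCechExtend _⟩

@[simp] lemma ext_io {K : Type} [TopologicalSpace K] [CompactSpace K] [T2Space K] (f : ℕ → K)
    (n : ℕ) : ext f (io n) = f n :=
  stoneCechExtend_stoneCechUnit (g := f) continuous_of_discreteTopology n

lemma exists_ext {C : ℝ} (α : ℕ → ℝ) (h : ∀ x, |α x| ≤ C) :
    ∃ a : C(BB, ℝ), ∀ x, a (io x) = α x := by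
  let f : ℕ → Set.Icc (-C) C := fun x => ⟨α x, abs_le.mp (h x)⟩
  refine ⟨⟨fun p => (ext f p : ℝ), continuous_subtype_val.comp (ext f).continuous⟩, fun x => ?_⟩
  change ((ext f (io x) : Set.Icc (-C) C) : ℝ) = α x
  rw [ext_io]

lemma dense_io : DenseRange io := denseRange_stoneCechUnit

lemma dense_pt : DenseRange (fun p : ℕ × (ℕ × Cn) => ((io p.1, (io p.2.1, p.2.2)) : Xn)) := by
  have h : DenseRange (Prod.map io (Prod.map io (id : Cn → Cn))) :=
    dense_io.prodMap (dense_io.prodMap denseRange_id)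
  exact h

lemma dist_le_of_pt {G G' : C(Xn, ℝ)} {C : ℝ} (hC : 0 ≤ C)
    (h : ∀ x y g, |G (io x, (io y, g)) - G' (io x, (io y, g))| ≤ C) : dist G G' ≤ C := by
  rw [ContinuousMap.dist_le hC]
  intro p
  have hcl : IsClosed {p : Xn | dist (G p) (G' p) ≤ C} :=
    isClosed_le (G.continuous.dist G'.continuous) continuous_const
  have : ∀ p, p ∈ {p : Xn | dist (G p) (G' p) ≤ C} :=
    fun p => dense_pt.induction_on p hcl (fun q => h q.1 q.2.1 q.2.2)
  exact this p

lemma eq_of_pt {G G' : C(Xn, ℝ)} (h : ∀ x y g, G (io x, (io y, g)) = G' (io x, (io y, g))) :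
    G = G' := by
  have : dist G G' ≤ 0 := dist_le_of_pt le_rfl fun x y g => by rw [h]; simp
  exact dist_le_zero.mp this

/-- the ultrafilter -/
noncomputable abbrev UU : Filter ℕ := (hyperfilter ℕ : Filter ℕ)

/-- convergence of a family -/
def Good (u : ℕ → ℕ → ℕ → Cn → ℝ) (G : C(Xn, ℝ)) : Prop :=
  ∀ x y g, Tendsto (fun n => u n x y g) UU (𝓝 (G (io x, (io y, g))))

lemma Good.unique {u : ℕ → ℕ → ℕ → Cn → ℝ} {G G' : C(Xn, ℝ)} (h : Good u G) (h' : Good u G') :
    G = G' :=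
  eq_of_pt fun x y g => tendsto_nhds_unique (h x y g) (h' x y g)

lemma Good.add {u v : ℕ → ℕ → ℕ → Cn → ℝ} {G G' : C(Xn, ℝ)} (h : Good u G) (h' : Good v G') :
    Good (fun n x y g => u n x y g + v n x y g) (G + G') :=
  fun x y g => (h x y g).add (h' x y g)

lemma Good.smul {u : ℕ → ℕ → ℕ → Cn → ℝ} {G : C(Xn, ℝ)} (r : ℝ) (h : Good u G) :
    Good (fun n x y g => r * u n x y g) (r • G) :=
  fun x y g => (h x y g).const_mul r

lemma Good.zero : Good (fun _ _ _ _ => 0) 0 := fun _ _ _ => tendsto_const_nhds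

lemma Good.sum {ι : Type} (s : Finset ι) {u : ι → ℕ → ℕ → ℕ → Cn → ℝ}
    (h : ∀ i ∈ s, ∃ G, Good (u i) G) : ∃ G, Good (fun n x y g => ∑ i ∈ s, u i n x y g) G := by
  classical
  induction s using Finset.induction_on with
  | empty => exact ⟨0, by simpa using Good.zero⟩
  | insert a s ha ih =>
    obtain ⟨G, hG⟩ := ih (fun i hi => h i (Finset.mem_insert_of_mem hi))
    obtain ⟨G', hG'⟩ := h a (Finset.mem_insert_self _ _)
    refine ⟨G' + G, ?_⟩
    simp only [Finset.sum_insert ha]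
    exact hG'.add hG

lemma Good.congr {u v : ℕ → ℕ → ℕ → Cn → ℝ} {G : C(Xn, ℝ)} (h : Good u G)
    (huv : ∀ᶠ n in UU, ∀ x y g, u n x y g = v n x y g) : Good v G := by
  intro x y g
  refine (h x y g).congr' ?_
  filter_upwards [huv] with n hn using hn x y g

lemma exists_lim {C : ℝ} (α : ℕ → ℝ) (h : ∀ n, |α n| ≤ C) :
    ∃ a : ℝ, |a| ≤ C ∧ Tendsto α UU (𝓝 a) := by
  have hc : IsCompact (Set.Icc (-C) C) := isCompact_Icc
  obtain ⟨a, ha, hle⟩ := hc.ultrafilter_le_nhds ((hyperfilter ℕ).map α) (by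
    rw [le_principal_iff]
    change α ⁻¹' (Set.Icc (-C) C) ∈ (hyperfilter ℕ)
    exact Filter.univ_mem' fun n : ℕ => abs_le.mp (h n))
  exact ⟨a, abs_le.mpr ha, hle⟩

lemma Good.prod {A B : ℝ} (α : ℕ → ℕ → ℝ) (β : ℕ → ℕ → ℝ) (γ : C(Cn, ℝ))
    (hα : ∀ n x, |α n x| ≤ A) (hβ : ∀ n y, |β n y| ≤ B) :
    ∃ G, Good (fun n x y g => γ g * α n x * β n y) G := by
  have h1 : ∀ x, ∃ a : ℝ, |a| ≤ A ∧ Tendsto (fun n => α n x) UU (𝓝 a) :=
    fun x => exists_lim _ (fun n => hα n x)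
  have h2 : ∀ x, ∃ a : ℝ, |a| ≤ B ∧ Tendsto (fun n => β n x) UU (𝓝 a) :=
    fun x => exists_lim _ (fun n => hβ n x)
  choose a ha ha' using h1
  choose b hb hb' using h2
  obtain ⟨fa, hfa⟩ := exists_ext a ha
  obtain ⟨fb, hfb⟩ := exists_ext b hb
  refine ⟨⟨fun p => γ p.2.2 * fa p.1 * fb p.2.1, by fun_prop⟩, fun x y g => ?_⟩
  have : (γ g * a x * b y) = γ g * fa (io x) * fb (io y) := by rw [hfa, hfb]
  change Tendsto _ _ (𝓝 (γ g * fa (io x) * fb (io y)))
  rw [← this]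
  exact ((ha' x).const_mul _).mul (hb' y)

lemma Good.dist_le {u v : ℕ → ℕ → ℕ → Cn → ℝ} {G G' : C(Xn, ℝ)} {C : ℝ} (hC : 0 ≤ C)
    (h : Good u G) (h' : Good v G')
    (huv : ∀ᶠ n in UU, ∀ x y g, |u n x y g - v n x y g| ≤ C) : dist G G' ≤ C := by
  refine dist_le_of_pt hC fun x y g => ?_
  have h1 := ((h x y g).sub (h' x y g)).abs
  refine le_of_tendsto h1 ?_
  filter_upwards [huv] with n hn using hn x y g

theorem Good.closure {u : ℕ → ℕ → ℕ → Cn → ℝ}
    (h : ∀ ε : ℝ, 0 < ε → ∃ v G, Good v G ∧ ∀ᶠ n in UU, ∀ x y g, |u n x y g - v n x y g| ≤ ε) :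
    ∃ G, Good u G := by
  have hpos : ∀ i : ℕ, (0 : ℝ) < 1 / (i + 1) := fun i => by positivity
  choose v G hG huv using fun i : ℕ => h (1 / ((i : ℝ) + 1)) (hpos i)
  have hd : ∀ i j, dist (G i) (G j) ≤ 1 / ((i : ℝ) + 1) + 1 / ((j : ℝ) + 1) := by
    intro i j
    refine Good.dist_le (by have := hpos i; have := hpos j; linarith) (hG i) (hG j) ?_
    filter_upwards [huv i, huv j] with n h1 h2 x y g
    have h1' := h1 x y g
    have h2' := h2 x y g
    rw [abs_le] at h1' h2' ⊢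
    constructor <;> linarith [h1'.1, h1'.2, h2'.1, h2'.2]
  have hlim : Tendsto (fun i : ℕ => 1 / ((i : ℝ) + 1)) atTop (𝓝 0) :=
    tendsto_one_div_add_atTop_nhds_zero_nat
  have hc : CauchySeq G := by
    rw [Metric.cauchySeq_iff]
    intro ε hε
    obtain ⟨N, hN⟩ := (hlim.eventually (gt_mem_nhds (half_pos hε))).exists_forall_of_atTop
    refine ⟨N, fun m hm n hn => (hd m n).trans_lt ?_⟩
    have := hN m hm
    have := hN n hn
    linarith
  obtain ⟨G0, hG0⟩ := cauchySeq_tendsto_of_complete hc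
  refine ⟨G0, fun x y g => ?_⟩
  rw [Metric.tendsto_nhds]
  intro ε hε
  have h3 : (0 : ℝ) < ε / 3 := by positivity
  obtain ⟨i, hi1, hi2⟩ : ∃ i : ℕ, 1 / ((i : ℝ) + 1) < ε / 3 ∧ dist (G i) G0 < ε / 3 := by
    have e1 := hlim.eventually (gt_mem_nhds h3)
    have e2 := (Metric.tendsto_nhds.mp hG0) (ε / 3) h3
    exact (e1.and e2).exists
  have e3 := (Metric.tendsto_nhds.mp (hG i x y g)) (ε / 3) h3
  filter_upwards [e3, huv i] with n hn1 hn2
  have hn2' := hn2 x y g
  have hn3 : dist (G i (io x, (io y, g))) (G0 (io x, (io y, g))) ≤ dist (G i) G0 :=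
    ContinuousMap.dist_apply_le_dist _
  calc dist (u n x y g) (G0 (io x, (io y, g)))
      ≤ dist (u n x y g) (v i n x y g) + dist (v i n x y g) (G i (io x, (io y, g))) +
        dist (G i (io x, (io y, g))) (G0 (io x, (io y, g))) := dist_triangle4 _ _ _ _
    _ < ε / 3 + ε / 3 + ε / 3 := by
        have : dist (u n x y g) (v i n x y g) < ε / 3 := by
          rw [Real.dist_eq]; exact hn2'.trans_lt hi1
        have : dist (G i (io x, (io y, g))) (G0 (io x, (io y, g))) < ε / 3 :=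
          hn3.trans_lt hi2
        linarith
    _ = ε := by ring

end Pool.Agent.H266R3.BN
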