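import Pool.Agent.H266R3.TLower
import Pool.Agent.H266R3.DSum

/-!
# The Hamming graphs embed equi-coarsely into `T*(T*)`
-/

namespace H266T

open Finset

/-- `[ℕ]^k`, the `k`-element subsets of `ℕ` written as increasing `k`-tuples. -/
abbrev Sub (k : ℕ) : Type := {n : Fin k → ℕ // StrictMono n}

/-- The Hamming distance `#{i : m_i ≠ n_i}`. -/
def dH {k : ℕ} (m n : Sub k) : ℕ := (Finset.univ.filter (fun i => m.1 i ≠ n.1 i)).card

/-- The sequence `(H_k)_k` of Hamming graphs equi-coarsely embeds into `Y`. -/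
def HammingEquiCoarse (Y : Type) [NormedAddCommGroup Y] : Prop :=
  ∃ ρ ω : NNReal → NNReal, Monotone ρ ∧ Monotone ω ∧ Filter.Tendsto ρ Filter.atTop Filter.atTop ∧
    ∃ f : ∀ k : ℕ, Sub k → Y, ∀ (k : ℕ) (m n : Sub k),
      (ρ (dH m n) : ℝ) ≤ ‖f k m - f k n‖ ∧ ‖f k m - f k n‖ ≤ ω (dH m n)

variable {L : LatNorm}

/-! ### Coordinates -/

/-- The coordinate functional. -/
noncomputable def crd (L : LatNorm) (i : ℕ) : Tstar L :=
  LinearMap.mkContinuous ((Finsupp.lapply i : (ℕ →₀ ℝ) →ₗ[ℝ] ℝ) : (T0 L) →ₗ[ℝ] ℝ) 1 (by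
    intro y
    rw [one_mul, Real.norm_eq_abs, T0.norm_def]
    exact L.coord_le y i)

lemma crd_apply (i : ℕ) (y : ℕ →₀ ℝ) : crd L i (show T0 L from y) = y i := rfl

lemma crd_e (i j : ℕ) : crd L i (T0.e L j) = if j = i then 1 else 0 := by
  show (Finsupp.single j (1:ℝ) : ℕ →₀ ℝ) i = _
  rw [Finsupp.single_apply]

lemma norm_e (i : ℕ) : ‖T0.e L i‖ = 1 := L.basis i

section blk

variable {ι : Type} [Fintype ι]

lemma blk_apply (b : ι → ℝ) (pos : ι → ℕ) (y : ℕ →₀ ℝ) :
    (∑ q, b q • crd L (pos q)) (show T0 L from y) = ∑ q, b q * y (pos q) := by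
  rw [ContinuousLinearMap.sum_apply]
  apply Finset.sum_congr rfl
  intro q _
  rw [ContinuousLinearMap.smul_apply, crd_apply, smul_eq_mul]

lemma blk_norm_le (hT : IsTsirelsonNorm L.N) (b : ι → ℝ) (pos : ι → ℕ)
    (hinj : Function.Injective pos) (hpos : ∀ q, Fintype.card ι ≤ pos q + 1) {B : ℝ} (hB : 0 ≤ B)
    (hb : ∀ q, |b q| ≤ B) : ‖∑ q, b q • crd L (pos q)‖ ≤ 2 * B := by
  classical
  apply ContinuousLinearMap.opNorm_le_bound _ (by positivity)
  intro y
  rw [blk_apply, Real.norm_eq_abs, T0.norm_def]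
  have h1 : ∑ q, |(show ℕ →₀ ℝ from y) (pos q)| ≤ 2 * L.N y := by
    have := hT.schreier (F := Finset.univ.image pos) (by
      intro i hi
      obtain ⟨q, _, rfl⟩ := Finset.mem_image.mp hi
      rw [Finset.card_image_of_injective _ hinj, Finset.card_univ]
      exact hpos q) y
    rw [Finset.sum_image (fun a _ b _ h => hinj h)] at this
    exact this
  calc |∑ q, b q * (show ℕ →₀ ℝ from y) (pos q)|
      ≤ ∑ q, |b q * (show ℕ →₀ ℝ from y) (pos q)| := Finset.abs_sum_le_sum_abs _ _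
    _ ≤ ∑ q, B * |(show ℕ →₀ ℝ from y) (pos q)| := by
        apply Finset.sum_le_sum
        intro q _
        rw [abs_mul]
        exact mul_le_mul_of_nonneg_right (hb q) (abs_nonneg _)
    _ = B * ∑ q, |(show ℕ →₀ ℝ from y) (pos q)| := by rw [Finset.mul_sum]
    _ ≤ B * (2 * L.N y) := mul_le_mul_of_nonneg_left h1 hB
    _ = 2 * B * L.N y := by ring

end blk

/-! ### The components of the embedding -/

/-- Probe points. -/
abbrev Pr (k n : ℕ) : Type := Option (Fin k → Fin (n + 1))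

lemma exists_starts (k : ℕ) : ∃ c : ℕ → ℕ, ∀ n, Fintype.card (Pr k n) ≤ c n ∧
    c n + Fintype.card (Pr k n) ≤ c (n + 1) := by
  let M : ℕ → ℕ := fun n => Fintype.card (Pr k n)
  let c : ℕ → ℕ := fun n => Nat.rec (M 0) (fun j t => t + M j + M (j + 1)) n
  have hc : ∀ n, c (n + 1) = c n + M n + M (n + 1) := fun n => rfl
  refine ⟨c, fun n => ⟨?_, ?_⟩⟩
  · cases n with
    | zero => exact le_rfl
    | succ n => rw [hc]; exact Nat.le_add_left _ _
  · rw [hc]; exact Nat.le_add_right _ _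

/-- Starting points of the blocks. -/
noncomputable def st (k : ℕ) : ℕ → ℕ := Classical.choose (exists_starts k)

lemma st_spec (k n : ℕ) : Fintype.card (Pr k n) ≤ st k n ∧
    st k n + Fintype.card (Pr k n) ≤ st k (n + 1) := Classical.choose_spec (exists_starts k) n

/-- Position of the coordinate `(n, q)`. -/
noncomputable def pos (k n : ℕ) (q : Pr k n) : ℕ := st k n + (Fintype.equivFin (Pr k n) q).val

lemma pos_inj (k n : ℕ) : Function.Injective (pos k n) := by
  intro q q' h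
  unfold pos at h
  have : (Fintype.equivFin (Pr k n) q).val = (Fintype.equivFin (Pr k n) q').val := by omega
  exact (Fintype.equivFin (Pr k n)).injective (Fin.ext this)

lemma st_mono (k : ℕ) : Monotone (st k) :=
  monotone_nat_of_le_succ (fun n => (Nat.le_add_right _ _).trans (st_spec k n).2)

lemma pos_lt {k n n' : ℕ} (h : n < n') (q : Pr k n) (q' : Pr k n') : pos k n q < pos k n' q' := by
  have h1 : pos k n q < st k n + Fintype.card (Pr k n) := by
    unfold pos
    exact Nat.add_lt_add_left (Fintype.equivFin (Pr k n) q).isLt _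
  have h2 : st k (n + 1) ≤ st k n' := st_mono k h
  have h3 : st k n' ≤ pos k n' q' := Nat.le_add_right _ _
  have := (st_spec k n).2
  omega

lemma pos_ne {k n n' : ℕ} (h : n ≠ n') (q : Pr k n) (q' : Pr k n') : pos k n q ≠ pos k n' q' := by
  rcases lt_or_gt_of_ne h with h | h
  · exact (pos_lt h q q').ne
  · exact (pos_lt h q' q).ne'

lemma card_le_pos (k n : ℕ) (q : Pr k n) : Fintype.card (Pr k n) ≤ pos k n q + 1 := by
  have := (st_spec k n).1
  unfold pos; omega

/-- Number of differences before `p`. -/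
def dlt {k : ℕ} (p : Fin k) (s t : Fin k → ℕ) : ℕ :=
  (Finset.univ.filter (fun i => i < p ∧ s i ≠ t i)).card

lemma dlt_self {k : ℕ} (p : Fin k) (s : Fin k → ℕ) : dlt p s s = 0 := by
  unfold dlt; simp

lemma dlt_triangle {k : ℕ} (p : Fin k) (s t r : Fin k → ℕ) : dlt p s r ≤ dlt p s t + dlt p t r := by
  unfold dlt
  refine le_trans (Finset.card_le_card ?_) (Finset.card_union_le _ _)
  intro i
  simp only [Finset.mem_filter, Finset.mem_univ, true_and, Finset.mem_union]
  rintro ⟨h1, h2⟩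
  by_cases h : s i = t i
  · right; exact ⟨h1, fun h' => h2 (h.trans h')⟩
  · left; exact ⟨h1, h⟩

lemma dlt_comm {k : ℕ} (p : Fin k) (s t : Fin k → ℕ) : dlt p s t = dlt p t s := by
  unfold dlt; congr 1; ext i; simp [ne_comm]

/-- The value of the probe `q` at `s`. -/
noncomputable def th {k n : ℕ} (p : Fin k) (w : ℝ) (s : Fin k → ℕ) : Pr k n → ℝ
  | none => 1
  | some t => min 1 (w * dlt p s (fun i => (t i : ℕ)))

lemma th_mem {k n : ℕ} (p : Fin k) {w : ℝ} (hw : 0 ≤ w) (s : Fin k → ℕ) (q : Pr k n) :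
    0 ≤ th p w s q ∧ th p w s q ≤ 1 := by
  cases q with
  | none => simp [th]
  | some t => simp only [th]; exact ⟨le_min zero_le_one (by positivity), min_le_left _ _⟩

lemma th_sub_le {k n : ℕ} (p : Fin k) {w : ℝ} (hw : 0 ≤ w) (s s' : Fin k → ℕ) (q : Pr k n) :
    |th p w s q - th p w s' q| ≤ w * dlt p s s' := by
  have key : ∀ s s' : Fin k → ℕ, th p w s q - th p w s' q ≤ w * dlt p s s' := by
    intro s s'
    cases q with
    | none => simp only [th, sub_self]; positivity
    | some t =>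
      simp only [th]
      have h1 : (dlt p s (fun i => (t i : ℕ)) : ℝ) ≤ dlt p s s' + dlt p s' (fun i => (t i : ℕ)) := by
        exact_mod_cast dlt_triangle p s s' _
      have h2 : w * (dlt p s (fun i => (t i : ℕ)) : ℝ) ≤
          w * dlt p s s' + w * dlt p s' (fun i => (t i : ℕ)) := by
        rw [← mul_add]; exact mul_le_mul_of_nonneg_left h1 hw
      have h3 : 0 ≤ w * (dlt p s s' : ℝ) := by positivity
      rcases le_total 1 (w * (dlt p s' (fun i => (t i : ℕ)) : ℝ)) with h | h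
      · rw [min_eq_left h]
        have := min_le_left 1 (w * (dlt p s (fun i => (t i : ℕ)) : ℝ))
        linarith
      · rw [min_eq_right h]
        have := min_le_right 1 (w * (dlt p s (fun i => (t i : ℕ)) : ℝ))
        linarith
  rw [abs_le]
  constructor
  · have := key s' s
    rw [dlt_comm] at this
    linarith
  · exact key s s'

/-- One component. -/
noncomputable def comp (L : LatNorm) {k : ℕ} (p : Fin k) (w : ℝ) (s : Fin k → ℕ) : Tstar L :=
  ∑ q : Pr k (s p), th p w s q • crd L (pos k (s p) q)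

lemma comp_norm_le (hT : IsTsirelsonNorm L.N) {k : ℕ} (p : Fin k) {w : ℝ} (hw : 0 ≤ w)
    (s : Fin k → ℕ) : ‖comp L p w s‖ ≤ 2 := by
  have := blk_norm_le hT (fun q : Pr k (s p) => th p w s q) (pos k (s p)) (pos_inj k (s p))
    (card_le_pos k (s p)) zero_le_one (by
      intro q
      have := th_mem p hw s q
      rw [abs_of_nonneg this.1]; exact this.2)
  rw [mul_one] at this
  exact this

lemma comp_same {k : ℕ} (p : Fin k) (w : ℝ) {s s' : Fin k → ℕ} (h : s p = s' p) :
    comp L p w s - comp L p w s' =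
      ∑ q : Pr k (s p), (th p w s q - th p w s' q) • crd L (pos k (s p) q) := by
  have h2 : comp L p w s' = ∑ q : Pr k (s p), th p w s' q • crd L (pos k (s p) q) := by
    unfold comp
    rw [h]
  rw [h2]
  unfold comp
  rw [← Finset.sum_sub_distrib]
  apply Finset.sum_congr rfl
  intro q _
  ext y
  simp only [ContinuousLinearMap.sub_apply, ContinuousLinearMap.smul_apply, smul_eq_mul]
  ring

lemma comp_upper (hT : IsTsirelsonNorm L.N) {k : ℕ} (p : Fin k) {w : ℝ} (hw : 0 ≤ w)
    (s s' : Fin k → ℕ) : ‖comp L p w s - comp L p w s'‖ ≤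
      (if s p ≠ s' p then 4 else 0) + 2 * (w * dlt p s s') := by
  by_cases h : s p = s' p
  · rw [comp_same p w h]
    have := blk_norm_le hT (fun q : Pr k (s p) => th p w s q - th p w s' q) (pos k (s p))
      (pos_inj k (s p)) (card_le_pos k (s p)) (B := w * dlt p s s') (by positivity)
      (fun q => th_sub_le p hw s s' q)
    simpa [h] using this
  · rw [if_pos h]
    have h1 := comp_norm_le hT p hw s
    have h2 := comp_norm_le hT p hw s'
    have h3 := norm_sub_le (comp L p w s) (comp L p w s')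
    have h4 : 0 ≤ 2 * (w * (dlt p s s' : ℝ)) := by positivity
    linarith

lemma comp_lower_ne {k : ℕ} (p : Fin k) {w : ℝ}
    {s s' : Fin k → ℕ} (h : s p ≠ s' p) : 1 ≤ ‖comp L p w s - comp L p w s'‖ := by
  have h1 := (comp L p w s - comp L p w s').le_opNorm (T0.e L (pos k (s p) none))
  rw [norm_e, mul_one] at h1
  refine le_trans (le_of_eq ?_) h1
  rw [ContinuousLinearMap.sub_apply]
  have e1 : comp L p w s (T0.e L (pos k (s p) none)) = 1 := by
    unfold comp
    rw [ContinuousLinearMap.sum_apply, Finset.sum_eq_single none]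
    · rw [ContinuousLinearMap.smul_apply, crd_e, if_pos rfl]; simp [th]
    · intro q _ hq
      rw [ContinuousLinearMap.smul_apply, crd_e, if_neg, smul_zero]
      intro heq
      exact hq (pos_inj k (s p) heq).symm
    · simp
  have e2 : comp L p w s' (T0.e L (pos k (s p) none)) = 0 := by
    unfold comp
    rw [ContinuousLinearMap.sum_apply]
    apply Finset.sum_eq_zero
    intro q _
    rw [ContinuousLinearMap.smul_apply, crd_e, if_neg (pos_ne h _ _), smul_zero]
  rw [e1, e2]; simp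

lemma comp_lower_eq {k : ℕ} (p : Fin k) {w : ℝ} (hw : 0 ≤ w)
    {s s' : Fin k → ℕ} (hs : StrictMono s) (h : s p = s' p) :
    min 1 (w * dlt p s s') ≤ ‖comp L p w s - comp L p w s'‖ := by
  rw [comp_same p w h]
  let t : Fin k → Fin (s p + 1) := fun i => if hi : i < p then ⟨s i, (hs hi).trans (Nat.lt_succ_self _)⟩
    else 0
  have h1 := (∑ q : Pr k (s p), (th p w s q - th p w s' q) • crd L (pos k (s p) q)).le_opNorm
    (T0.e L (pos k (s p) (some t)))
  rw [norm_e, mul_one] at h1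
  refine le_trans (le_of_eq ?_) h1
  rw [ContinuousLinearMap.sum_apply, Finset.sum_eq_single (some t)]
  · rw [ContinuousLinearMap.smul_apply, crd_e, if_pos rfl]
    have e0 : ∀ r : Fin k → ℕ, dlt p r (fun i => (t i : ℕ)) = dlt p r s := by
      intro r
      unfold dlt
      congr 1
      ext i
      simp only [Finset.mem_filter, Finset.mem_univ, true_and]
      constructor
      · rintro ⟨a, b⟩
        refine ⟨a, fun hc => b ?_⟩
        simp [t, a, hc]
      · rintro ⟨a, b⟩
        refine ⟨a, fun hc => b ?_⟩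
        simpa [t, a] using hc
    simp only [th, e0, dlt_self]
    rw [dlt_comm p s s']
    have h3 : min 1 (w * ((0 : ℕ) : ℝ)) = 0 := by simp
    rw [h3, zero_sub, smul_eq_mul, mul_one, norm_neg, Real.norm_eq_abs]
    rw [abs_of_nonneg (le_min zero_le_one (by positivity))]
  · intro q _ hq
    rw [ContinuousLinearMap.smul_apply, crd_e, if_neg, smul_zero]
    intro heq
    exact hq (pos_inj k (s p) heq).symm
  · simp

/-! ### The embedding -/

lemma pair_le_sum {a : ℕ → ℝ} (ha : ∀ i, 0 ≤ a i) {k : ℕ} (hk : ∀ i, k ≤ i → a i = 0)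
    (y : ℕ →₀ ℝ) : pair a y ≤ (∑ i ∈ Finset.range k, a i) * L.N y := by
  classical
  rw [pair_eq (s := y.support ∪ Finset.range k) Finset.subset_union_left, Finset.sum_mul]
  have : ∑ i ∈ y.support ∪ Finset.range k, a i * |y i| = ∑ i ∈ Finset.range k, a i * |y i| := by
    symm
    apply Finset.sum_subset Finset.subset_union_right
    intro i _ hi
    rw [Finset.mem_range, not_lt] at hi
    rw [hk i hi, zero_mul]
  rw [this]
  exact Finset.sum_le_sum (fun i _ => mul_le_mul_of_nonneg_left (L.coord_le y i) (ha i))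

/-- The weights. -/
noncomputable def wt (κ : ℕ) : ℝ := (1 / 2) ^ (κ + 1)

lemma wt_nonneg (κ : ℕ) : 0 ≤ wt κ := by unfold wt; positivity

lemma wt_sum (k : ℕ) : ∑ κ ∈ Finset.range k, wt κ ≤ 1 := by
  have h : ∀ k, ∑ κ ∈ Finset.range k, wt κ = 1 - (1 / 2) ^ k := by
    intro k
    induction k with
    | zero => simp
    | succ k ih => rw [Finset.sum_range_succ, ih, wt]; ring
  rw [h]
  have : (0 : ℝ) ≤ (1 / 2) ^ k := by positivity
  linarith

/-- The components of the image of `n`. -/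
noncomputable def fc (L : LatNorm) {k : ℕ} (n : Sub k) (κ : ℕ) : Tstar L :=
  if h : κ < k then comp L (Fin.rev ⟨κ, h⟩) (wt κ) n.1 else 0

lemma fc_norm_le (hT : IsTsirelsonNorm L.N) {k : ℕ} (n : Sub k) (κ : ℕ) : ‖fc L n κ‖ ≤ 2 := by
  unfold fc
  split_ifs with h
  · exact comp_norm_le hT _ (wt_nonneg κ) _
  · simp

lemma exists_f (hT : IsTsirelsonNorm L.N) {k : ℕ} (n : Sub k) :
    ∃ z : DSum L (fun _ => Tstar L), ∀ i, z.coe i = fc L n i := by
  obtain ⟨z, hz, _⟩ := DSum.exists_of_bound (L := L) (X := fun _ => Tstar L) (fun i => fc L n i)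
    (C := ∑ i ∈ Finset.range k, ‖fc L n i‖) (Finset.sum_nonneg (fun i _ => norm_nonneg _)) (by
      intro y
      apply pair_le_sum (fun i => norm_nonneg _)
      intro i hi
      unfold fc
      rw [dif_neg (by omega), norm_zero])
  exact ⟨z, hz⟩

lemma f_upper (hT : IsTsirelsonNorm L.N) {k : ℕ} (m n : Sub k) (z z' : DSum L (fun _ => Tstar L))
    (hz : ∀ i, z.coe i = fc L m i) (hz' : ∀ i, z'.coe i = fc L n i) :
    ‖z - z'‖ ≤ 6 * dH m n := by
  apply DSum.norm_le _ (by positivity)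
  intro y
  refine (pair_le_sum (L := L) (fun i => norm_nonneg _) (k := k) ?_ y).trans ?_
  · intro i hi
    rw [DSum.coe_sub, hz, hz', fc, fc, dif_neg (by omega), dif_neg (by omega), sub_zero, norm_zero]
  · apply mul_le_mul_of_nonneg_right _ (L.nonneg y)
    have h1 : ∀ κ : Fin k, ‖(z - z').coe κ‖ ≤
        (if m.1 (Fin.rev κ) ≠ n.1 (Fin.rev κ) then (4:ℝ) else 0) + 2 * (wt κ * dH m n) := by
      intro κ
      rw [DSum.coe_sub, hz, hz', fc, fc, dif_pos κ.isLt, dif_pos κ.isLt]
      refine (comp_upper hT _ (wt_nonneg _) _ _).trans ?_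
      have h2 : (dlt (Fin.rev ⟨(κ : ℕ), κ.isLt⟩) m.1 n.1 : ℝ) ≤ dH m n := by
        have : dlt (Fin.rev ⟨(κ : ℕ), κ.isLt⟩) m.1 n.1 ≤ dH m n := by
          unfold dlt dH
          apply Finset.card_le_card
          intro i
          simp only [Finset.mem_filter, Finset.mem_univ, true_and]
          exact fun h => h.2
        exact_mod_cast this
      have h3 := mul_le_mul_of_nonneg_left h2 (wt_nonneg κ)
      have h4 : (⟨(κ : ℕ), κ.isLt⟩ : Fin k) = κ := rfl
      rw [h4] at h3 ⊢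
      linarith
    rw [← Fin.sum_univ_eq_sum_range (fun i => ‖(z - z').coe i‖) k]
    refine (Finset.sum_le_sum (fun κ _ => h1 κ)).trans ?_
    rw [Finset.sum_add_distrib]
    have h5 : ∑ κ : Fin k, (if m.1 (Fin.rev κ) ≠ n.1 (Fin.rev κ) then (4:ℝ) else 0)
        = 4 * dH m n := by
      rw [show (∑ κ : Fin k, (if m.1 (Fin.rev κ) ≠ n.1 (Fin.rev κ) then (4:ℝ) else 0))
        = ∑ κ : Fin k, (if m.1 κ ≠ n.1 κ then (4:ℝ) else 0) from
          Equiv.sum_comp Fin.revPerm (fun κ : Fin k => (if m.1 κ ≠ n.1 κ then (4:ℝ) else 0))]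
      rw [← Finset.sum_filter, Finset.sum_const, nsmul_eq_mul, mul_comm]
      rfl
    have h6 : ∑ κ : Fin k, 2 * (wt κ * (dH m n : ℝ)) ≤ 2 * dH m n := by
      rw [← Finset.mul_sum, ← Finset.sum_mul, Fin.sum_univ_eq_sum_range (fun i => wt i) k]
      have := wt_sum k
      have h7 : (∑ i ∈ Finset.range k, wt i) * (dH m n : ℝ) ≤ 1 * dH m n :=
        mul_le_mul_of_nonneg_right this (by positivity)
      linarith
    rw [h5]
    linarith

lemma dH_le {k : ℕ} (m n : Sub k) : dH m n ≤ k := by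
  unfold dH
  refine (Finset.card_filter_le _ _).trans ?_
  simp

lemma f_lower_comp {k : ℕ} (m n : Sub k) {K κ : ℕ} (hK : 2 ^ K + K ≤ dH m n) (hκ : κ < K) :
    1 ≤ ‖fc L m κ - fc L n κ‖ := by
  have hKk : K < k := by
    have h1 : K < 2 ^ K := Nat.lt_two_pow_self
    have h2 := dH_le m n
    omega
  have hκk : κ < k := hκ.trans hKk
  rw [fc, fc, dif_pos hκk, dif_pos hκk]
  set p : Fin k := Fin.rev ⟨κ, hκk⟩ with hp
  by_cases h : m.1 p = n.1 p
  · refine le_trans ?_ (comp_lower_eq p (wt_nonneg κ) m.2 h)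
    apply le_min le_rfl
    have h1 : dH m n ≤ dlt p m.1 n.1 + (κ + 1) := by
      have h2 : (Finset.univ.filter (fun i => p ≤ i)).card ≤ κ + 1 := by
        have h3 : (Finset.univ.filter (fun i => p ≤ i)) = Finset.Ici p := by
          ext i; simp
        rw [h3, Fin.card_Ici, hp, Fin.val_rev]
        simp only
        omega
      unfold dH dlt
      refine le_trans (le_trans (Finset.card_le_card ?_) (Finset.card_union_le
        (Finset.univ.filter (fun i => i < p ∧ m.1 i ≠ n.1 i))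
        (Finset.univ.filter (fun i => p ≤ i)))) (Nat.add_le_add_left h2 _)
      intro i
      simp only [Finset.mem_filter, Finset.mem_univ, true_and, Finset.mem_union]
      intro hi
      rcases lt_or_ge i p with h | h
      · left; exact ⟨h, hi⟩
      · right; exact h
    have h4 : 2 ^ (κ + 1) ≤ 2 ^ K := Nat.pow_le_pow_right (by norm_num) hκ
    have h5 : 2 ^ (κ + 1) ≤ dlt p m.1 n.1 := by omega
    have h6 : ((2 : ℝ) ^ (κ + 1)) ≤ dlt p m.1 n.1 := by exact_mod_cast h5
    unfold wt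
    calc (1 : ℝ) = (1 / 2) ^ (κ + 1) * 2 ^ (κ + 1) := by rw [← mul_pow]; norm_num
      _ ≤ _ := mul_le_mul_of_nonneg_left h6 (by positivity)
  · exact comp_lower_ne p h

/-- `τ K = ‖e_1^* + ... + e_K^*‖`. -/
noncomputable def tau (L : LatNorm) (K : ℕ) : ℝ :=
  sSup {t | ∃ y : ℕ →₀ ℝ, L.N y ≤ 1 ∧ t = ∑ κ ∈ Finset.range K, |y κ|}

lemma tau_bdd (L : LatNorm) (K : ℕ) :
    BddAbove {t | ∃ y : ℕ →₀ ℝ, L.N y ≤ 1 ∧ t = ∑ κ ∈ Finset.range K, |y κ|} := by
  refine ⟨K, ?_⟩
  rintro t ⟨y, hy, rfl⟩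
  calc ∑ κ ∈ Finset.range K, |y κ| ≤ ∑ κ ∈ Finset.range K, (1 : ℝ) :=
        Finset.sum_le_sum (fun i _ => (L.coord_le y i).trans hy)
    _ = K := by simp

lemma tau_nonempty (L : LatNorm) (K : ℕ) :
    {t | ∃ y : ℕ →₀ ℝ, L.N y ≤ 1 ∧ t = ∑ κ ∈ Finset.range K, |y κ|}.Nonempty :=
  ⟨_, 0, by rw [L.zero]; exact zero_le_one, rfl⟩

lemma tau_le_iff {K : ℕ} {b : ℝ} (h : ∀ y : ℕ →₀ ℝ, L.N y ≤ 1 → ∑ κ ∈ Finset.range K, |y κ| ≤ b) :
    tau L K ≤ b := by
  apply csSup_le (tau_nonempty L K)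
  rintro t ⟨y, hy, rfl⟩
  exact h y hy

lemma le_tau {K : ℕ} {y : ℕ →₀ ℝ} (hy : L.N y ≤ 1) : ∑ κ ∈ Finset.range K, |y κ| ≤ tau L K :=
  le_csSup (tau_bdd L K) ⟨y, hy, rfl⟩

lemma tau_nonneg (K : ℕ) : 0 ≤ tau L K := by
  refine le_trans ?_ (le_tau (L := L) (K := K) (y := 0) (by rw [L.zero]; exact zero_le_one))
  exact Finset.sum_nonneg (fun i _ => abs_nonneg _)

lemma tau_mono : Monotone (tau L) := by
  intro K K' h
  apply tau_le_iff
  intro y hy
  refine le_trans ?_ (le_tau hy)
  exact Finset.sum_le_sum_of_subset_of_nonneg (Finset.range_mono h) (fun i _ _ => abs_nonneg _)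

lemma tau_tendsto (hT : IsTsirelsonNorm L.N) (b : ℝ) : ∃ K, b ≤ tau L K := by
  obtain ⟨u, hu0, hu1, hu2⟩ := basis_small hT (δ := 1 / (|b| + 1)) (by positivity)
  obtain ⟨K, hK⟩ : ∃ K, u.support ⊆ Finset.range K := by
    refine ⟨bd u, fun i hi => Finset.mem_range.mpr (lt_bd hi)⟩
  refine ⟨K, ?_⟩
  have h1 : L.N ((|b| + 1) • u) ≤ 1 := by
    rw [L.smul, abs_of_nonneg (by positivity)]
    calc (|b| + 1) * L.N u ≤ (|b| + 1) * (1 / (|b| + 1)) :=
          mul_le_mul_of_nonneg_left hu2 (by positivity)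
      _ = 1 := by
        have : |b| + 1 ≠ 0 := by positivity
        field_simp
  refine le_trans ?_ (le_tau h1)
  have h2 : ∑ κ ∈ Finset.range K, |((|b| + 1) • u) κ| = |b| + 1 := by
    have : ∀ κ ∈ Finset.range K, |((|b| + 1) • u) κ| = (|b| + 1) * u κ := by
      intro κ _
      rw [Finsupp.smul_apply, smul_eq_mul, abs_mul, abs_of_nonneg (hu0 κ),
        abs_of_nonneg (by positivity : (0:ℝ) ≤ |b| + 1)]
    rw [Finset.sum_congr rfl this, ← Finset.mul_sum]
    have h3 : ∑ i ∈ Finset.range K, u i = ∑ i ∈ u.support, u i := by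
      symm
      apply Finset.sum_subset hK
      intro i _ hi
      simpa using hi
    rw [h3, hu1, mul_one]
  rw [h2]
  have := le_abs_self b
  linarith

lemma f_lower {k : ℕ} (m n : Sub k) (z z' : DSum L (fun _ => Tstar L))
    (hz : ∀ i, z.coe i = fc L m i) (hz' : ∀ i, z'.coe i = fc L n i) {K : ℕ}
    (hK : K = 0 ∨ 2 ^ K + K ≤ dH m n) : tau L K ≤ ‖z - z'‖ := by
  apply tau_le_iff
  intro y hy
  rcases hK with rfl | hK
  · simp
  · classical
    have h1 := (z - z').pair_le y
    rw [pair_eq (s := y.support ∪ Finset.range K) Finset.subset_union_left] at h1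
    have h2 : ∑ κ ∈ Finset.range K, |y κ| ≤
        ∑ i ∈ y.support ∪ Finset.range K, ‖(z - z').coe i‖ * |y i| := by
      refine le_trans ?_ (Finset.sum_le_sum_of_subset_of_nonneg Finset.subset_union_right
        (fun i _ _ => mul_nonneg (norm_nonneg _) (abs_nonneg _)))
      apply Finset.sum_le_sum
      intro κ hκ
      have := f_lower_comp (L := L) m n hK (Finset.mem_range.mp hκ)
      rw [DSum.coe_sub, hz, hz']
      nlinarith [abs_nonneg (y κ)]
    have h3 : ‖z - z'‖ * L.N y ≤ ‖z - z'‖ := mul_le_of_le_one_right (norm_nonneg _) hy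
    linarith

/-- **The Hamming graphs equi-coarsely embed into `T*(T*)`.** -/
theorem hamming_embeds (hT : IsTsirelsonNorm L.N) :
    HammingEquiCoarse (DSum L (fun _ => Tstar L)) := by
  have hf : ∀ (k : ℕ) (n : Sub k), ∃ z : DSum L (fun _ => Tstar L), ∀ i, z.coe i = fc L n i :=
    fun k n => exists_f hT n
  choose f hf using hf
  refine ⟨fun t => (tau L (Nat.log 2 ⌊t⌋₊ - 1)).toNNReal, fun t => 6 * t, ?_, ?_, ?_, f, ?_⟩
  · intro s t hst
    apply Real.toNNReal_mono
    apply tau_mono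
    exact Nat.sub_le_sub_right (Nat.log_mono_right (Nat.floor_mono hst)) 1
  · intro s t hst
    exact mul_le_mul_right hst 6
  · rw [Filter.tendsto_atTop_atTop]
    intro b
    obtain ⟨K, hK⟩ := tau_tendsto hT (b : ℝ)
    refine ⟨((2 ^ (K + 1) : ℕ) : NNReal), fun t ht => ?_⟩
    rw [Real.le_toNNReal_iff_coe_le (tau_nonneg _)]
    refine hK.trans (tau_mono ?_)
    have h1 : 2 ^ (K + 1) ≤ ⌊t⌋₊ := Nat.le_floor ht
    have h2 : K + 1 ≤ Nat.log 2 ⌊t⌋₊ := by
      rw [← Nat.log_pow (b := 2) (by norm_num) (K + 1)]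
      exact Nat.log_mono_right h1
    omega
  · intro k m n
    constructor
    · rw [Real.coe_toNNReal _ (tau_nonneg _), Nat.floor_natCast]
      apply f_lower m n _ _ (hf k m) (hf k n)
      by_cases h0 : Nat.log 2 (dH m n) - 1 = 0
      · left; exact h0
      · right
        set K := Nat.log 2 (dH m n) - 1 with hK
        have h1 : Nat.log 2 (dH m n) = K + 1 := by omega
        have h2 : dH m n ≠ 0 := by
          intro h; rw [h] at h1; simp at h1
        have h3 := Nat.pow_log_le_self 2 h2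
        rw [h1, pow_succ] at h3
        have h4 : K < 2 ^ K := Nat.lt_two_pow_self
        omega
    · push_cast
      exact f_upper hT m n _ _ (hf k m) (hf k n)

end H266T
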