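import Pool.Agent.H266R3.Moment

/-!
The key inequality: the density factorises up to a small error against product functions.
-/

set_option autoImplicit false

namespace Pool.Agent.H266R3.BN

lemma Ag_sub_le {l n : ℕ} (h : l ≤ n) (z z' : ℕ) :
    Ag n z z' - Ag l z z' ≤ ∑ k ∈ Finset.Ico l n, 2 ^ k * (if cc z k = cc z' k then 1 else 0) := by
  induction n, h using Nat.le_induction with
  | base => simp
  | succ n hn ih =>
    rw [Ag_succ, Finset.sum_Ico_succ_top hn]
    have h1 := Ag_le n z z'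
    have h2 : Ag n z z' * (if cc z n = cc z' n then (1 : ℝ) else 0) ≤
        2 ^ n * (if cc z n = cc z' n then 1 else 0) := by
      split_ifs
      · simpa using h1
      · simp
    linarith

lemma Ez_eq {k n : ℕ} (h : k ≤ n) (z : ℕ) :
    Ez n (fun z' => if cc z k = cc z' k then 1 else 0) = 1 / M k := by
  unfold Ez
  rw [Finset.sum_boole]
  have h1 : (Finset.range (M n)).filter (fun z' => cc z k = cc z' k) =
      (Finset.range (M n)).filter (fun z' => z' ≡ z [MOD M k]) := by
    ext z'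
    simp only [Finset.mem_filter, Finset.mem_range, and_congr_right_iff]
    intro _
    unfold cc Nat.ModEq
    omega
  rw [h1]
  have h2 : ((Finset.range (M n)).filter (fun z' => z' ≡ z [MOD M k])).card = M n / M k := by
    have h3 := Nat.count_modEq_card (b := M n) (M_pos k) z
    rw [Nat.count_eq_card_filter_range] at h3
    rw [h3]
    have h4 : M n % M k = 0 := Nat.mod_eq_zero_of_dvd (M_dvd h)
    rw [h4]
    simp
  rw [h2]
  obtain ⟨q, hq⟩ := M_dvd h
  have hk := M_pos k
  have hn := M_pos n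
  rw [hq, Nat.mul_div_cancel_left _ hk]
  have hq0 : (q : ℝ) ≠ 0 := by
    rintro h0
    have : q = 0 := by exact_mod_cast h0
    subst this
    simp at hq
    omega
  have hk0 : (M k : ℝ) ≠ 0 := by exact_mod_cast hk.ne'
  push_cast
  field_simp

lemma EzEz_Ag {l n : ℕ} (h : l ≤ n) :
    Ez n (fun z => Ez n (fun z' => Ag n z z' - Ag l z z')) ≤ 1 / 2 ^ l := by
  have h1 : ∀ z, Ez n (fun z' => Ag n z z' - Ag l z z') ≤
      ∑ k ∈ Finset.Ico l n, (2 : ℝ) ^ k * (1 / M k) := by
    intro z
    calc Ez n (fun z' => Ag n z z' - Ag l z z')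
        ≤ Ez n (fun z' => ∑ k ∈ Finset.Ico l n, 2 ^ k *
          (if cc z k = cc z' k then (1 : ℝ) else 0)) := Ez_mono fun z' => Ag_sub_le h z z'
      _ = ∑ k ∈ Finset.Ico l n, (2 : ℝ) ^ k * (1 / M k) := by
        rw [Ez_sum]
        refine Finset.sum_congr rfl fun k hk => ?_
        rw [Ez_mul_left, Ez_eq (Finset.mem_Ico.mp hk).2.le]
  have h2 : ∑ k ∈ Finset.Ico l n, (2 : ℝ) ^ k * (1 / M k) ≤ 1 / 2 ^ l := by
    have h3 : ∀ n, l ≤ n → ∑ k ∈ Finset.Ico l n, (2 : ℝ) ^ k * (1 / M k) ≤ 1 / 2 ^ l - 1 / 2 ^ n := by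
      intro n hn
      induction n, hn using Nat.le_induction with
      | base => simp
      | succ n hn ih =>
        rw [Finset.sum_Ico_succ_top hn]
        have : (2 : ℝ) ^ n * (1 / M n) ≤ 1 / 2 ^ n - 1 / 2 ^ (n + 1) := by
          unfold M
          push_cast
          have e : (4 : ℝ) ^ (n + 1) = 4 * (2 ^ n * 2 ^ n) := by
            rw [← mul_pow]; norm_num [pow_succ]; ring
          rw [e]
          have hp : (0 : ℝ) < 2 ^ n := by positivity
          rw [pow_succ]
          field_simp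
          norm_num
        linarith
    have := h3 n h
    have hp : (0 : ℝ) < 1 / 2 ^ n := by positivity
    linarith
  calc Ez n (fun z => Ez n (fun z' => Ag n z z' - Ag l z z'))
      ≤ Ez n (fun _ => 1 / 2 ^ l) := Ez_mono fun z => (h1 z).trans h2
    _ = 1 / 2 ^ l := Ez_const _ _

lemma Ew_cs (m : ℕ) (φ ψ : Finset ℕ → ℝ) :
    (Ew m (fun w => φ w * ψ w)) ^ 2 ≤ Ew m (fun w => φ w ^ 2) * Ew m (fun w => ψ w ^ 2) := by
  unfold Ew
  rw [div_pow, div_mul_div_comm, ← sq]
  gcongr
  exact Finset.sum_mul_sq_le_sq_mul_sq _ _ _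

theorem key {l n : ℕ} (h : l ≤ n) (g : ℕ → Bool) (a : ℕ → ℝ) (b : Finset ℕ → ℝ)
    (ha : ∀ z, |a z| ≤ 1) (hb : ∀ w, |b w| ≤ 1) :
    (Ez n (fun z => Ew (M n) (fun w => a z * b w * (D n g z w - D l g z w)))) ^ 2 ≤
      1 / 2 ^ l := by
  set h0 : Finset ℕ → ℝ := fun w => Ez n (fun z => a z * (D n g z w - D l g z w)) with hh0
  have e1 : Ez n (fun z => Ew (M n) (fun w => a z * b w * (D n g z w - D l g z w))) =
      Ew (M n) (fun w => b w * h0 w) := by
    rw [Ez_Ew_comm]
    apply Ew_congr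
    intro w
    rw [hh0, ← Ez_mul_left]
    exact Ez_congr fun z => by ring
  rw [e1]
  refine (Ew_cs _ _ _).trans ?_
  have e2 : Ew (M n) (fun w => b w ^ 2) ≤ 1 := by
    have := Ew_mono (m := M n) (φ := fun w => b w ^ 2) (ψ := fun _ => 1) (fun w => by
      have := hb w
      rw [← sq_abs]
      exact pow_le_one₀ (abs_nonneg _) this)
    rwa [Ew_const] at this
  have e3 : ∀ w, h0 w ^ 2 = Ez n (fun z => Ez n (fun z' =>
      a z * a z' * ((D n g z w - D l g z w) * (D n g z' w - D l g z' w)))) := by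
    intro w
    rw [hh0, sq]
    simp only
    rw [← Ez_mul_left]
    apply Ez_congr
    intro z'
    rw [mul_comm (Ez n _), ← Ez_mul_left]
    apply Ez_congr
    intro z
    ring
  have e4 : ∀ z z', Ew (M n) (fun w => (D n g z w - D l g z w) * (D n g z' w - D l g z' w)) =
      Ag n z z' - Ag l z z' := by
    intro z z'
    have f1 := Ew_DD (le_refl n) (le_refl n) g z z'
    have f2 := Ew_DD h (le_refl n) g z z'
    have f3 := Ew_DD h (le_refl n) g z' z
    have f4 := Ew_DD (le_refl l) h g z z'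
    have : Ew (M n) (fun w => (D n g z w - D l g z w) * (D n g z' w - D l g z' w)) =
        Ew (M n) (fun w => ((D n g z w * D n g z' w - D n g z w * D l g z' w) -
          D n g z' w * D l g z w) + D l g z w * D l g z' w) := by
      apply Ew_congr; intro w; ring
    rw [this, Ew_add, Ew_sub, Ew_sub, f1, f2, f3, f4, Ag_comm l z' z]
    ring
  have e5 : Ew (M n) (fun w => h0 w ^ 2) ≤ 1 / 2 ^ l := by
    have : Ew (M n) (fun w => h0 w ^ 2) =
        Ez n (fun z => Ez n (fun z' => a z * a z' * (Ag n z z' - Ag l z z'))) := by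
      rw [Ew_congr e3, ← Ez_Ew_comm]
      apply Ez_congr
      intro z
      rw [← Ez_Ew_comm]
      apply Ez_congr
      intro z'
      rw [Ew_mul_left, e4]
    rw [this]
    refine le_trans (Ez_mono fun z => Ez_mono fun z' => ?_) (EzEz_Ag h)
    have h1 : 0 ≤ Ag n z z' - Ag l z z' := sub_nonneg.mpr (Ag_mono h z z')
    have h2 : a z * a z' ≤ 1 := by
      have : |a z * a z'| ≤ 1 := by
        rw [abs_mul]; exact mul_le_one₀ (ha z) (abs_nonneg _) (ha z')
      exact le_of_abs_le this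
    nlinarith
  have e6 : 0 ≤ Ew (M n) (fun w => h0 w ^ 2) := by
    have := Ew_mono (m := M n) (φ := fun _ => 0) (ψ := fun w => h0 w ^ 2) (fun w => sq_nonneg _)
    rwa [Ew_const] at this
  calc Ew (M n) (fun w => b w ^ 2) * Ew (M n) (fun w => h0 w ^ 2)
      ≤ 1 * (1 / 2 ^ l) := by
        apply mul_le_mul e2 e5 e6 zero_le_one
    _ = 1 / 2 ^ l := one_mul _

/-- finite rank expansion of the density -/
theorem D_expand (l : ℕ) (g : ℕ → Bool) (z : ℕ) (w : Finset ℕ) :
    D l g z w = ∑ u ∈ Finset.range (M l), ∑ S ∈ (Finset.range l).powerset,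
      (∏ k ∈ S, bs (g k)) * (if z % M l = u then 1 else 0) * (∏ k ∈ S, sg w (cc u k)) := by
  have h1 : ∀ u, (∀ k < l, cc z k = cc u k) → D l g z w =
      ∑ S ∈ (Finset.range l).powerset, (∏ k ∈ S, bs (g k)) * (∏ k ∈ S, sg w (cc u k)) := by
    intro u hu
    unfold D
    rw [Finset.prod_one_add]
    refine Finset.sum_congr rfl fun S hS => ?_
    rw [Finset.prod_mul_distrib]
    congr 1
    refine Finset.prod_congr rfl fun k hk => ?_
    rw [hu k (Finset.mem_range.mp (Finset.mem_powerset.mp hS hk))]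
  rw [Finset.sum_eq_single (z % M l)]
  · rw [h1 (z % M l)]
    · refine Finset.sum_congr rfl fun S _ => ?_
      rw [if_pos rfl, mul_one]
    · intro k hk
      unfold cc
      rw [Nat.mod_mod_of_dvd _ (M_dvd hk.le)]
  · intro u _ hu
    refine Finset.sum_eq_zero fun S _ => ?_
    rw [if_neg (Ne.symm hu)]; ring
  · intro hz
    exact absurd (Finset.mem_range.mpr (Nat.mod_lt _ (M_pos l))) hz

end Pool.Agent.H266R3.BN
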