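import Mathlib

set_option autoImplicit false

noncomputable section

namespace Pool.Agent.H266R3.LF

open Set

/-- The vector space of Lipschitz functions on `M` vanishing at the base point `o`. -/
def lipSub (M : Type) [MetricSpace M] (o : M) : Submodule ℝ (M → ℝ) where
  carrier := {f | f o = 0 ∧ ∃ K : ℝ, 0 ≤ K ∧ ∀ x y, |f x - f y| ≤ K * dist x y}
  zero_mem' := ⟨rfl, 0, le_rfl, fun x y => by simp⟩
  add_mem' := by
    rintro f g ⟨hf, K, hK, hfK⟩ ⟨hg, L, hL, hgL⟩
    refine ⟨by simp [hf, hg], K + L, by positivity, fun x y => ?_⟩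
    have h1 := hfK x y
    have h2 := hgL x y
    have : (f + g) x - (f + g) y = (f x - f y) + (g x - g y) := by
      simp only [Pi.add_apply]; ring
    rw [this]
    calc _ ≤ |f x - f y| + |g x - g y| := abs_add_le _ _
      _ ≤ _ := by rw [add_mul]; exact add_le_add h1 h2
  smul_mem' := by
    rintro c f ⟨hf, K, hK, hfK⟩
    refine ⟨by simp [hf], |c| * K, by positivity, fun x y => ?_⟩
    have h1 := hfK x y
    have : (c • f) x - (c • f) y = c * (f x - f y) := by
      simp only [Pi.smul_apply, smul_eq_mul]; ring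
    rw [this, abs_mul, mul_assoc]
    exact mul_le_mul_of_nonneg_left h1 (abs_nonneg _)

/-- `Lip0 M o`: the space of Lipschitz functions on `M` vanishing at `o`, to be normed by the
least Lipschitz constant. -/
def Lip0 (M : Type) [MetricSpace M] (o : M) : Type := ↥(lipSub M o)

variable {M : Type} [MetricSpace M] {o : M}

/-- The underlying function. -/
def Lip0.fn (f : Lip0 M o) : M → ℝ := f.1

section raw

/-- pointwise addition -/
local instance lipACG : AddCommGroup (Lip0 M o) := Submodule.addCommGroup (lipSub M o)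
/-- pointwise scalar multiplication -/
local instance lipMod : Module ℝ (Lip0 M o) := Submodule.module (lipSub M o)

/-- The norm: the least Lipschitz constant. -/
instance : Norm (Lip0 M o) :=
  ⟨fun f => sInf {K : ℝ | 0 ≤ K ∧ ∀ x y, |f.fn x - f.fn y| ≤ K * dist x y}⟩

theorem Lip0.ext {f g : Lip0 M o} (h : ∀ x, f.fn x = g.fn x) : f = g :=
  Subtype.ext (funext h)

theorem Lip0.fn_add' (f g : Lip0 M o) (x : M) : (f + g).fn x = f.fn x + g.fn x := rfl
theorem Lip0.fn_smul' (c : ℝ) (f : Lip0 M o) (x : M) : (c • f).fn x = c * f.fn x := rfl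
theorem Lip0.fn_zero' (x : M) : (0 : Lip0 M o).fn x = 0 := rfl
@[simp] theorem Lip0.fn_base (f : Lip0 M o) : f.fn o = 0 := f.2.1

/-- Constructor. -/
def Lip0.mk (f : M → ℝ) (h0 : f o = 0) (K : ℝ) (hK : 0 ≤ K)
    (h : ∀ x y, |f x - f y| ≤ K * dist x y) : Lip0 M o := ⟨f, h0, K, hK, h⟩

@[simp] theorem Lip0.fn_mk (f : M → ℝ) (h0 : f o = 0) (K : ℝ) (hK : 0 ≤ K)
    (h : ∀ x y, |f x - f y| ≤ K * dist x y) (x : M) :
    (Lip0.mk f h0 K hK h).fn x = f x := rfl

theorem Lip0.set_nonempty (f : Lip0 M o) :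
    {K : ℝ | 0 ≤ K ∧ ∀ x y, |f.fn x - f.fn y| ≤ K * dist x y}.Nonempty := by
  obtain ⟨K, hK, h⟩ := f.2.2
  exact ⟨K, hK, h⟩

theorem Lip0.norm_def (f : Lip0 M o) :
    ‖f‖ = sInf {K : ℝ | 0 ≤ K ∧ ∀ x y, |f.fn x - f.fn y| ≤ K * dist x y} := rfl

theorem Lip0.norm_le' (f : Lip0 M o) {K : ℝ} (hK : 0 ≤ K)
    (h : ∀ x y, |f.fn x - f.fn y| ≤ K * dist x y) : ‖f‖ ≤ K :=
  csInf_le ⟨0, fun _ h => h.1⟩ ⟨hK, h⟩

theorem Lip0.norm_nonneg' (f : Lip0 M o) : 0 ≤ ‖f‖ :=
  le_csInf f.set_nonempty fun _ h => h.1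

theorem Lip0.abs_sub_le (f : Lip0 M o) (x y : M) : |f.fn x - f.fn y| ≤ ‖f‖ * dist x y := by
  rcases eq_or_ne x y with rfl | hxy
  · simp
  · have hd : 0 < dist x y := dist_pos.2 hxy
    rw [← div_le_iff₀ hd]
    refine le_csInf f.set_nonempty ?_
    rintro K ⟨_, hK⟩
    rw [div_le_iff₀ hd]
    exact hK x y

theorem Lip0.core : NormedSpace.Core ℝ (Lip0 M o) where
  norm_nonneg f := f.norm_nonneg'
  norm_smul c f := by
    apply le_antisymm
    · refine Lip0.norm_le' _ (mul_nonneg (norm_nonneg _) f.norm_nonneg') fun x y => ?_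
      have h1 := f.abs_sub_le x y
      have : (c • f).fn x - (c • f).fn y = c * (f.fn x - f.fn y) := by
        simp only [Lip0.fn_smul']; ring
      rw [this, abs_mul, mul_assoc]
      exact mul_le_mul_of_nonneg_left h1 (abs_nonneg _)
    · rcases eq_or_ne c 0 with rfl | hc
      · simp only [norm_zero, zero_mul]; exact Lip0.norm_nonneg' _
      · have hc' : 0 < ‖c‖ := norm_pos_iff.2 hc
        rw [← le_div_iff₀' hc']
        refine Lip0.norm_le' _ (div_nonneg (Lip0.norm_nonneg' _) hc'.le) fun x y => ?_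
        have h1 := (c • f).abs_sub_le x y
        have : (c • f).fn x - (c • f).fn y = c * (f.fn x - f.fn y) := by
          simp only [Lip0.fn_smul']; ring
        rw [this, abs_mul] at h1
        rw [div_mul_eq_mul_div, le_div_iff₀ hc']
        rw [Real.norm_eq_abs, mul_comm]
        exact h1
  norm_triangle f g := by
    refine Lip0.norm_le' _ (add_nonneg f.norm_nonneg' g.norm_nonneg') fun x y => ?_
    have h1 := f.abs_sub_le x y
    have h2 := g.abs_sub_le x y
    have : (f + g).fn x - (f + g).fn y = (f.fn x - f.fn y) + (g.fn x - g.fn y) := by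
      simp only [Lip0.fn_add']; ring
    rw [this]
    calc _ ≤ |f.fn x - f.fn y| + |g.fn x - g.fn y| := abs_add_le _ _
      _ ≤ _ := by rw [add_mul]; exact add_le_add h1 h2
  norm_eq_zero_iff f := by
    constructor
    · intro h
      apply Lip0.ext
      intro x
      have h1 := f.abs_sub_le x o
      rw [h, zero_mul, Lip0.fn_base, sub_zero] at h1
      exact abs_nonpos_iff.1 h1
    · rintro rfl
      apply le_antisymm _ (Lip0.norm_nonneg' _)
      refine Lip0.norm_le' _ le_rfl fun x y => by simp [Lip0.fn_zero']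

instance : NormedAddCommGroup (Lip0 M o) := NormedAddCommGroup.ofCore (Lip0.core (M := M) (o := o))
instance : NormedSpace ℝ (Lip0 M o) := NormedSpace.ofCore (Lip0.core (M := M) (o := o))

end raw

@[simp] theorem Lip0.fn_add (f g : Lip0 M o) (x : M) : (f + g).fn x = f.fn x + g.fn x := rfl
@[simp] theorem Lip0.fn_sub (f g : Lip0 M o) (x : M) : (f - g).fn x = f.fn x - g.fn x := rfl
@[simp] theorem Lip0.fn_neg (f : Lip0 M o) (x : M) : (-f).fn x = - f.fn x := rfl
@[simp] theorem Lip0.fn_smul (c : ℝ) (f : Lip0 M o) (x : M) : (c • f).fn x = c * f.fn x := rfl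
@[simp] theorem Lip0.fn_zero (x : M) : (0 : Lip0 M o).fn x = 0 := rfl

example (f : Lip0 M o) :
    ‖f‖ = sInf {K : ℝ | 0 ≤ K ∧ ∀ x y, |f.fn x - f.fn y| ≤ K * dist x y} := rfl

theorem Lip0.abs_fn_le (f : Lip0 M o) (x : M) : |f.fn x| ≤ ‖f‖ * dist x o := by
  have := f.abs_sub_le x o
  rwa [Lip0.fn_base, sub_zero] at this

/-- The evaluation functional at `x`. -/
def dlt (M : Type) [MetricSpace M] (o : M) (x : M) : StrongDual ℝ (Lip0 M o) :=
  LinearMap.mkContinuous
    { toFun := fun f => f.fn x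
      map_add' := fun _ _ => rfl
      map_smul' := fun _ _ => rfl } (dist x o) (fun f => by
        rw [mul_comm]
        exact f.abs_fn_le x)

@[simp] theorem dlt_apply (x : M) (f : Lip0 M o) : dlt M o x f = f.fn x := rfl

/-- The Lipschitz-free space: the closed linear span of the evaluation functionals in the dual. -/
def LFree (M : Type) [MetricSpace M] (o : M) : Submodule ℝ (StrongDual ℝ (Lip0 M o)) :=
  (Submodule.span ℝ (Set.range (dlt M o))).topologicalClosure

/-- The Lipschitz-free space, as a normed space. -/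
def FreeSp (M : Type) [MetricSpace M] (o : M) : Type := ↥(LFree M o)

instance : NormedAddCommGroup (FreeSp M o) := Submodule.normedAddCommGroup (LFree M o)
instance : NormedSpace ℝ (FreeSp M o) := Submodule.normedSpace (LFree M o)

/-- inclusion into the dual -/
def inc (M : Type) [MetricSpace M] (o : M) : FreeSp M o →ₗ[ℝ] StrongDual ℝ (Lip0 M o) :=
  (LFree M o).subtype

theorem norm_inc (x : FreeSp M o) : ‖inc M o x‖ = ‖x‖ := rfl

theorem inc_mem (x : FreeSp M o) : inc M o x ∈ LFree M o := x.2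

theorem dlt_mem (x : M) : dlt M o x ∈ LFree M o :=
  Submodule.le_topologicalClosure _ (Submodule.subset_span ⟨x, rfl⟩)

theorem norm_dlt_sub_le (x y : M) : ‖dlt M o x - dlt M o y‖ ≤ dist x y := by
  refine ContinuousLinearMap.opNorm_le_bound _ dist_nonneg fun f => ?_
  have := f.abs_sub_le x y
  rw [mul_comm]
  exact this

/-- The plane. -/
abbrev Plane : Type := EuclideanSpace ℝ (Fin 2)

/-- `ℝ × ℤ` as a subset of the plane. -/
def linesSet : Set Plane := {p | ∃ n : ℤ, p 1 = n}

/-- `ℝ × ℤ` with the metric of the plane. -/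
abbrev Lines : Type := ↥linesSet

/-- the base point of `Lines`. -/
def lo : Lines := ⟨0, 0, by simp⟩

/-- general approximation lemma -/
theorem approx_lemma (G : ℕ → Set M)
    (hG : ∀ p : M, ∀ ε : ℝ, 0 < ε → ∀ᶠ q in Filter.atTop, ∃ p' ∈ G q, dist p p' ≤ ε)
    (μ : StrongDual ℝ (Lip0 M o)) (hμ : μ ∈ LFree M o) (ε : ℝ) (hε : 0 < ε) :
    ∀ᶠ q in Filter.atTop, ∀ h : Lip0 M o, (∀ p ∈ G q, h.fn p = 0) → |μ h| ≤ ε * ‖h‖ := by
  have key : ∀ ν ∈ Submodule.span ℝ (Set.range (dlt M o)), ∀ ε : ℝ, 0 < ε →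
      ∀ᶠ q in Filter.atTop, ∀ h : Lip0 M o, (∀ p ∈ G q, h.fn p = 0) → |ν h| ≤ ε * ‖h‖ := by
    intro ν hν
    induction hν using Submodule.span_induction with
    | mem x hx =>
      obtain ⟨p, rfl⟩ := hx
      intro ε hε
      filter_upwards [hG p ε hε] with q hq h hh
      obtain ⟨p', hp', hd⟩ := hq
      have h1 := h.abs_sub_le p p'
      rw [hh p' hp', sub_zero] at h1
      rw [dlt_apply]
      calc _ ≤ ‖h‖ * dist p p' := h1
        _ ≤ ‖h‖ * ε := mul_le_mul_of_nonneg_left hd (norm_nonneg _)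
        _ = _ := mul_comm _ _
    | zero =>
      intro ε hε
      filter_upwards with q h hh
      simp only [zero_apply, abs_zero]
      positivity
    | add x y _ _ ihx ihy =>
      intro ε hε
      filter_upwards [ihx (ε / 2) (by positivity), ihy (ε / 2) (by positivity)] with q h1 h2 h hh
      have h1' := h1 h hh
      have h2' := h2 h hh
      rw [add_apply]
      calc _ ≤ |x h| + |y h| := abs_add_le _ _
        _ ≤ ε / 2 * ‖h‖ + ε / 2 * ‖h‖ := add_le_add h1' h2'
        _ = _ := by ring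
    | smul c x _ ih =>
      intro ε hε
      filter_upwards [ih (ε / (|c| + 1)) (by positivity)] with q h1 h hh
      have h1' := h1 h hh
      rw [smul_apply, smul_eq_mul, abs_mul]
      have hc : 0 ≤ |c| := abs_nonneg c
      calc |c| * |x h| ≤ |c| * (ε / (|c| + 1) * ‖h‖) := mul_le_mul_of_nonneg_left h1' hc
        _ = (|c| / (|c| + 1)) * (ε * ‖h‖) := by ring
        _ ≤ 1 * (ε * ‖h‖) := by
            apply mul_le_mul_of_nonneg_right _ (by positivity)
            rw [div_le_one (by positivity)]; linarith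
        _ = _ := one_mul _
  have hμ' : μ ∈ closure ((Submodule.span ℝ (Set.range (dlt M o)) : Submodule ℝ _) : Set _) := hμ
  rw [Metric.mem_closure_iff] at hμ'
  obtain ⟨ν, hν, hd⟩ := hμ' (ε / 2) (by positivity)
  filter_upwards [key ν hν (ε / 2) (by positivity)] with q h1 h hh
  have h1' := h1 h hh
  have h2 : |(μ - ν) h| ≤ ‖μ - ν‖ * ‖h‖ := (μ - ν).le_opNorm h
  rw [dist_eq_norm] at hd
  have h3 : μ h = (μ - ν) h + ν h := by
    rw [sub_apply]; ring
  rw [h3]
  calc _ ≤ |(μ - ν) h| + |ν h| := abs_add_le _ _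
    _ ≤ ‖μ - ν‖ * ‖h‖ + ε / 2 * ‖h‖ := add_le_add h2 h1'
    _ ≤ ε / 2 * ‖h‖ + ε / 2 * ‖h‖ := by
        gcongr
    _ = _ := by ring

end Pool.Agent.H266R3.LF
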