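import Pool.Agent.H266R3.LPsi

set_option autoImplicit false

noncomputable section

namespace Pool.Agent.H266R3.LF

open Finset

section gen
variable {M : Type} [MetricSpace M] {o : M}

theorem clamp_ex (f : Lip0 M o) (hf : ‖f‖ ≤ 1) (ρ : ℝ) (hρ : 0 < ρ) :
    ∃ f1 : Lip0 M o, ‖f1‖ ≤ 1 ∧ (∀ p, dist p o ≤ ρ → f1.fn p = f.fn p) ∧
      ∀ p, 2 * ρ ≤ dist p o → f1.fn p = 0 := by
  set t : M → ℝ := fun p => max 0 (2 * ρ - dist p o) with ht
  have htl : ∀ x y, |t x - t y| ≤ dist x y := by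
    intro x y
    simp only [ht]
    refine (abs_max_sub_max_le_max _ _ _ _).trans ?_
    rw [sub_self, abs_zero]
    apply max_le dist_nonneg
    have h1 := abs_dist_sub_le x y o
    rw [abs_le] at h1 ⊢
    constructor <;> linarith
  have ht0 : ∀ x, 0 ≤ t x := fun x => le_max_left _ _
  have hfl : ∀ x y, |f.fn x - f.fn y| ≤ dist x y := by
    intro x y
    refine (f.abs_sub_le x y).trans ?_
    calc _ ≤ 1 * dist x y := mul_le_mul_of_nonneg_right hf dist_nonneg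
      _ = _ := one_mul _
  set F : M → ℝ := fun p => max (-t p) (min (t p) (f.fn p)) with hF
  have hFl : ∀ x y, |F x - F y| ≤ 1 * dist x y := by
    intro x y
    rw [one_mul]
    simp only [hF]
    refine (abs_max_sub_max_le_max _ _ _ _).trans ?_
    apply max_le
    · have := htl x y
      rw [show -t x - -t y = -(t x - t y) by ring, abs_neg]
      exact this
    · refine (abs_min_sub_min_le_max _ _ _ _).trans ?_
      exact max_le (htl x y) (hfl x y)
  have hF0 : F o = 0 := by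
    simp only [hF, Lip0.fn_base]
    rw [min_eq_right (ht0 o), max_eq_right (by linarith [ht0 o])]
  refine ⟨Lip0.mk F hF0 1 zero_le_one hFl, Lip0.norm_le' _ zero_le_one hFl, ?_, ?_⟩
  · intro p hp
    rw [Lip0.fn_mk]
    have h1 : |f.fn p| ≤ dist p o := by
      have := hfl p o
      rwa [Lip0.fn_base, sub_zero] at this
    have h2 : t p = 2 * ρ - dist p o := by
      simp only [ht]
      rw [max_eq_right (by linarith)]
    rw [abs_le] at h1
    simp only [hF]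
    rw [h2, min_eq_right (by linarith), max_eq_right (by linarith)]
  · intro p hp
    rw [Lip0.fn_mk]
    have h2 : t p = 0 := by
      simp only [ht]
      rw [max_eq_left (by linarith)]
    simp only [hF]
    rw [h2, neg_zero, max_eq_left (min_le_left _ _)]

theorem tail_norm (f1 G : Lip0 M o) (hf1 : ‖f1‖ ≤ 1) (hG : ‖G‖ ≤ 2) (ρ ρ' : ℝ) (hρ : 0 < ρ)
    (hρ' : 2 * ρ < ρ') (h1 : ∀ p, 2 * ρ ≤ dist p o → f1.fn p = 0)
    (h2 : ∀ p, dist p o ≤ ρ' → G.fn p = 0) :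
    ‖f1 + (1 / 2 : ℝ) • G‖ ≤ 1 + 2 * ρ / (ρ' - 2 * ρ) := by
  have hθ : 0 ≤ 2 * ρ / (ρ' - 2 * ρ) := div_nonneg (by linarith) (by linarith)
  have hf1l : ∀ x y, |f1.fn x - f1.fn y| ≤ dist x y := by
    intro x y
    refine (f1.abs_sub_le x y).trans ?_
    calc _ ≤ 1 * dist x y := mul_le_mul_of_nonneg_right hf1 dist_nonneg
      _ = _ := one_mul _
  have hGl : ∀ x y, |G.fn x - G.fn y| ≤ 2 * dist x y := by
    intro x y
    refine (G.abs_sub_le x y).trans ?_
    exact mul_le_mul_of_nonneg_right hG dist_nonneg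
  have key : ∀ x y, dist x o ≤ dist y o → |(f1 + (1 / 2 : ℝ) • G).fn x
      - (f1 + (1 / 2 : ℝ) • G).fn y| ≤ (1 + 2 * ρ / (ρ' - 2 * ρ)) * dist x y := by
    intro x y hxy
    rw [Lip0.fn_add, Lip0.fn_add, Lip0.fn_smul, Lip0.fn_smul]
    have hd : 0 ≤ dist x y := dist_nonneg
    have hd2 : 0 ≤ 2 * ρ / (ρ' - 2 * ρ) * dist x y := mul_nonneg hθ hd
    by_cases hy : dist y o ≤ ρ'
    · rw [h2 y hy, h2 x (hxy.trans hy)]
      have := hf1l x y
      rw [mul_zero, add_zero, add_zero]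
      linarith
    · push Not at hy
      by_cases hx : 2 * ρ ≤ dist x o
      · rw [h1 x hx, h1 y (hx.trans hxy)]
        have := hGl x y
        rw [zero_add, zero_add, ← mul_sub, abs_mul, abs_of_nonneg (by norm_num : (0 : ℝ) ≤ 1 / 2)]
        linarith
      · push Not at hx
        rw [h1 y (by linarith), h2 x (by linarith)]
        have a1 := hf1l x o
        rw [Lip0.fn_base, sub_zero] at a1
        have a2 := hGl x y
        rw [h2 x (by linarith)] at a2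
        have a3 : ρ' - 2 * ρ ≤ dist x y := by
          have := dist_triangle_left y o x
          have := dist_triangle y x o
          rw [dist_comm y x] at this
          linarith
        have a4 : 2 * ρ ≤ 2 * ρ / (ρ' - 2 * ρ) * dist x y := by
          calc 2 * ρ = 2 * ρ / (ρ' - 2 * ρ) * (ρ' - 2 * ρ) := by
                rw [div_mul_cancel₀]; linarith
            _ ≤ _ := mul_le_mul_of_nonneg_left a3 hθ
        rw [abs_le] at a1 a2 ⊢
        constructor <;> linarith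
  apply Lip0.norm_le' _ (by linarith)
  intro x y
  rcases le_total (dist x o) (dist y o) with h | h
  · exact key x y h
  · rw [abs_sub_comm, dist_comm]; exact key y x h

end gen

theorem zz_one_le_dist (z z' : ZZ) (h : z ≠ z') : 1 ≤ dist z z' := by
  obtain ⟨a, b⟩ := z
  obtain ⟨a', b'⟩ := z'
  rw [zz_dist]
  by_cases h1 : a = a'
  · have h2 : b ≠ b' := fun h2 => h (by rw [h1, h2])
    refine le_trans ?_ (le_max_right _ _)
    have : (1 : ℤ) ≤ |b - b'| := Int.one_le_abs (sub_ne_zero.2 h2)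
    exact_mod_cast this
  · refine le_trans ?_ (le_max_left _ _)
    have : (1 : ℤ) ≤ |a - a'| := Int.one_le_abs (sub_ne_zero.2 h1)
    exact_mod_cast this

theorem un_lip (p z z' : ZZ) :
    |(if z = p then (1 : ℝ) else 0) - (if z' = p then (1 : ℝ) else 0)| ≤ 1 * dist z z' := by
  rw [one_mul]
  by_cases h : z = z'
  · subst h; simp
  · have := zz_one_le_dist z z' h
    split_ifs <;> simp <;> linarith

/-- unit functions -/
def un (p : ZZ) : Lip0 ZZ (0, 0) :=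
  if h : p = (0, 0) then 0 else
    Lip0.mk (fun z => if z = p then (1 : ℝ) else 0) (by rw [if_neg (Ne.symm h)]) 1 zero_le_one
      (un_lip p)

theorem un_fn (p : ZZ) (h : p ≠ (0, 0)) (z : ZZ) : (un p).fn z = if z = p then (1 : ℝ) else 0 := by
  unfold un
  rw [dif_neg h, Lip0.fn_mk]

theorem norm_un_le (p : ZZ) : ‖un p‖ ≤ 1 := by
  unfold un
  split_ifs with h
  · simp
  · exact Lip0.norm_le' _ zero_le_one (un_lip p)

/-- punctured box -/
def bx (m : ℕ) : Finset ZZ := (Icc (-(m : ℤ)) m ×ˢ Icc (-(m : ℤ)) m).erase (0, 0)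

theorem mem_bx_of_dist (m : ℕ) (p : ZZ) (h0 : p ≠ (0, 0)) (h : dist p (0, 0) ≤ m) : p ∈ bx m := by
  obtain ⟨a, b⟩ := p
  rw [zz_dist] at h
  have h1 := (le_max_left _ _).trans h
  have h2 := (le_max_right _ _).trans h
  push_cast at h1 h2
  rw [sub_zero] at h1 h2
  rw [bx, mem_erase, mem_product, mem_Icc, mem_Icc]
  have h1' : |a| ≤ (m : ℤ) := by exact_mod_cast h1
  have h2' : |b| ≤ (m : ℤ) := by exact_mod_cast h2
  rw [abs_le] at h1' h2'
  exact ⟨h0, h1', h2'⟩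

theorem dist_le_of_mem_bx (m : ℕ) (p : ZZ) (h : p ∈ bx m) : dist p (0, 0) ≤ m := by
  obtain ⟨a, b⟩ := p
  rw [bx, mem_erase, mem_product, mem_Icc, mem_Icc] at h
  obtain ⟨h0, h1, h2⟩ := h
  rw [zz_dist]
  have h1' : |a| ≤ (m : ℤ) := abs_le.2 h1
  have h2' : |b| ≤ (m : ℤ) := abs_le.2 h2
  push_cast
  rw [sub_zero, sub_zero]
  apply max_le
  · exact_mod_cast h1'
  · exact_mod_cast h2'

theorem expand (m : ℕ) (g : Lip0 ZZ (0, 0)) (hg : ∀ p, (m : ℝ) < dist p (0, 0) → g.fn p = 0) :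
    g = ∑ p ∈ bx m, g.fn p • un p := by
  apply Lip0.ext
  intro z
  rw [fn_sum]
  have e1 : ∀ p ∈ bx m, (g.fn p • un p).fn z = if z = p then g.fn p else 0 := by
    intro p hp
    have hp0 : p ≠ (0, 0) := by
      rw [bx, mem_erase] at hp
      exact hp.1
    rw [Lip0.fn_smul, un_fn p hp0, mul_ite, mul_one, mul_zero]
  rw [sum_congr rfl e1, sum_ite_eq]
  split_ifs with h
  · rfl
  · by_cases h0 : z = (0, 0)
    · rw [h0]; exact g.fn_base
    · apply hg
      by_contra h1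
      push Not at h1
      exact h (mem_bx_of_dist m z h0 h1)

/-- **Dentability** for the free space of the lattice. -/
theorem dent (𝒟 : Set (StrongDual ℝ (Lip0 ZZ (0, 0)))) (hne : 𝒟.Nonempty) (Λ : ℝ)
    (hΛ : ∀ D ∈ 𝒟, ‖D‖ ≤ Λ)
    (happ : ∀ D ∈ 𝒟, ∀ ε : ℝ, 0 < ε → ∃ ρ : ℕ, ∀ h : Lip0 ZZ (0, 0),
      (∀ p, dist p (0, 0) ≤ ρ → h.fn p = 0) → |D h| ≤ ε * ‖h‖) (ε : ℝ) (hε : 0 < ε) :
    ∃ (φ : Lip0 ZZ (0, 0)) (s τ : ℝ), 0 < τ ∧ (∀ D ∈ 𝒟, D φ ≤ s) ∧
      (∀ η : ℝ, 0 < η → ∃ D ∈ 𝒟, s - η < D φ) ∧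
      ∀ D ∈ 𝒟, ∀ D' ∈ 𝒟, s - τ < D φ → s - τ < D' φ → ‖D - D'‖ ≤ ε := by
  set M : ℝ := sSup (norm '' 𝒟) with hM
  have hbdd : BddAbove (norm '' 𝒟) := ⟨Λ, by rintro _ ⟨D, hD, rfl⟩; exact hΛ D hD⟩
  have hDM : ∀ D ∈ 𝒟, ‖D‖ ≤ M := fun D hD => le_csSup hbdd ⟨D, hD, rfl⟩
  have hM0 : 0 ≤ M := by
    obtain ⟨D, hD⟩ := hne
    exact (norm_nonneg D).trans (hDM D hD)
  set τ1 : ℝ := ε / 40 with hτ1
  have hτ1p : 0 < τ1 := by positivity
  obtain ⟨_, ⟨D0, hD0, rfl⟩, hD0M⟩ := exists_lt_of_lt_csSup (hne.image norm)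
    (show M - τ1 < sSup (norm '' 𝒟) by linarith)
  -- norming function
  obtain ⟨f, hf, hfD⟩ : ∃ f : Lip0 ZZ (0, 0), ‖f‖ ≤ 1 ∧ M - 2 * τ1 < D0 f := by
    by_contra hcon
    push Not at hcon
    have h0 : 0 ≤ M - 2 * τ1 := by
      have := hcon 0 (by simp)
      rwa [map_zero] at this
    have h1 : ‖D0‖ ≤ M - 2 * τ1 := by
      apply ContinuousLinearMap.opNorm_le_of_unit_norm h0
      intro x hx
      rw [Real.norm_eq_abs, abs_le]
      have h2 := hcon x hx.le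
      have h3 := hcon (-x) (by rw [norm_neg]; exact hx.le)
      rw [map_neg] at h3
      constructor <;> linarith
    linarith
  obtain ⟨ρ0, hρ0⟩ := happ D0 hD0 (τ1 / 2) (by positivity)
  set ρ : ℝ := (ρ0 : ℝ) + 1 with hρ
  have hρp : 0 < ρ := by positivity
  obtain ⟨f1, hf1, hf1a, hf1b⟩ := clamp_ex f hf ρ hρp
  have hD0f1 : M - 3 * τ1 < D0 f1 := by
    have h1 := hρ0 (f - f1) (fun p hp => by
      rw [Lip0.fn_sub, hf1a p (by linarith), sub_self])
    have h2 : ‖f - f1‖ ≤ 2 := by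
      have := norm_sub_le f f1
      linarith
    have h3 : τ1 / 2 * ‖f - f1‖ ≤ τ1 / 2 * 2 := mul_le_mul_of_nonneg_left h2 (by positivity)
    rw [map_sub] at h1
    have h4 := (le_abs_self _).trans h1
    linarith
  obtain ⟨ρ', hρ'⟩ := exists_nat_gt (2 * ρ + 2 * ρ * M / τ1)
  have hρ'1 : 2 * ρ < ρ' := by
    have : 0 ≤ 2 * ρ * M / τ1 := by positivity
    linarith
  have hθM : 2 * ρ / (ρ' - 2 * ρ) * M ≤ τ1 := by
    have h1 : 0 < (ρ' : ℝ) - 2 * ρ := by linarith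
    have h2 : 2 * ρ * M / τ1 < ρ' - 2 * ρ := by linarith
    rw [div_lt_iff₀ hτ1p] at h2
    rw [div_mul_eq_mul_div, div_le_iff₀ h1]
    linarith
  set P : Finset ZZ := bx (2 * ρ') with hP
  set u : ZZ → ℝ := fun p => f1.fn p with hu
  have hDf1 : ∀ D : StrongDual ℝ (Lip0 ZZ (0, 0)), D f1 = ∑ p ∈ P, u p * D (un p) := by
    intro D
    conv_lhs => rw [expand (2 * ρ') f1 (fun p hp => hf1b p (by
      push_cast at hp; linarith))]
    rw [map_sum]
    apply sum_congr rfl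
    intro p _
    rw [map_smul, smul_eq_mul]
  have hun : ∀ D ∈ 𝒟, ∀ p, |D (un p)| ≤ M := by
    intro D hD p
    calc |D (un p)| ≤ ‖D‖ * ‖un p‖ := D.le_opNorm _
      _ ≤ M * 1 := mul_le_mul (hDM D hD) (norm_un_le p) (norm_nonneg _) hM0
      _ = M := mul_one _
  have hun2 : ∀ D ∈ 𝒟, ∑ p ∈ P, D (un p) ^ 2 ≤ P.card * M ^ 2 := by
    intro D hD
    calc ∑ p ∈ P, D (un p) ^ 2 ≤ ∑ p ∈ P, M ^ 2 := by
          apply sum_le_sum
          intro p _
          rw [← sq_abs]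
          exact pow_le_pow_left₀ (abs_nonneg _) (hun D hD p) 2
      _ = _ := by rw [sum_const, nsmul_eq_mul]
  set R : ℝ := (P.card * M ^ 2 + 1) / (2 * τ1) with hR
  have hRp : 0 < R := by positivity
  have hR2 : 2 * R * τ1 = P.card * M ^ 2 + 1 := by
    rw [hR]; field_simp
  set Q : StrongDual ℝ (Lip0 ZZ (0, 0)) → ℝ := fun D => ∑ p ∈ P, (D (un p) + R * u p) ^ 2 with hQ
  have hQb : BddAbove (Q '' 𝒟) := by
    refine ⟨∑ p ∈ P, (M + R * |u p|) ^ 2, ?_⟩
    rintro _ ⟨D, hD, rfl⟩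
    apply sum_le_sum
    intro p _
    rw [← sq_abs]
    apply pow_le_pow_left₀ (abs_nonneg _)
    calc _ ≤ |D (un p)| + |R * u p| := abs_add_le _ _
      _ ≤ M + R * |u p| := by
          rw [abs_mul, abs_of_pos hRp]
          exact add_le_add (hun D hD p) le_rfl
  set S : ℝ := sSup (Q '' 𝒟) with hS
  have hQS : ∀ D ∈ 𝒟, Q D ≤ S := fun D hD => le_csSup hQb ⟨D, hD, rfl⟩
  set β : ℝ := min 1 (ε / (8 * (ρ' * P.card + 1))) with hβ
  have hβp : 0 < β := lt_min one_pos (by positivity)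
  have hβ1 : β ≤ 1 := min_le_left _ _
  have hβ2 : β * (8 * (ρ' * P.card + 1)) ≤ ε := by
    have h1 : β ≤ ε / (8 * (ρ' * P.card + 1)) := min_le_right _ _
    rwa [le_div_iff₀ (by positivity)] at h1
  obtain ⟨_, ⟨D2, hD2, rfl⟩, hD2S⟩ := exists_lt_of_lt_csSup (hne.image Q)
    (show S - β ^ 2 / 2 < sSup (Q '' 𝒟) by
      have : 0 < β ^ 2 := by positivity
      linarith)
  set v : ZZ → ℝ := fun p => D2 (un p) + R * u p with hv
  set φ : Lip0 ZZ (0, 0) := ∑ p ∈ P, v p • un p with hφ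
  have hDφ : ∀ D : StrongDual ℝ (Lip0 ZZ (0, 0)), D φ = ∑ p ∈ P, v p * D (un p) := by
    intro D
    rw [hφ, map_sum]
    apply sum_congr rfl
    intro p _
    rw [map_smul, smul_eq_mul]
  have hφb : BddAbove ((fun D : StrongDual ℝ (Lip0 ZZ (0, 0)) => D φ) '' 𝒟) := by
    refine ⟨M * ‖φ‖, ?_⟩
    rintro _ ⟨D, hD, rfl⟩
    calc D φ ≤ ‖D φ‖ := le_abs_self _
      _ ≤ ‖D‖ * ‖φ‖ := D.le_opNorm _
      _ ≤ M * ‖φ‖ := mul_le_mul_of_nonneg_right (hDM D hD) (norm_nonneg _)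
  set s : ℝ := sSup ((fun D : StrongDual ℝ (Lip0 ZZ (0, 0)) => D φ) '' 𝒟) with hs
  have hφs : ∀ D ∈ 𝒟, D φ ≤ s := fun D hD => le_csSup hφb ⟨D, hD, rfl⟩
  -- the slice estimates
  have hslice : ∀ D ∈ 𝒟, s - β ^ 2 / 4 < D φ →
      ∑ p ∈ P, (D (un p) - D2 (un p)) ^ 2 ≤ β ^ 2 ∧ M - 4 * τ1 < D f1 := by
    intro D hD hDs
    have h1 : - (β ^ 2 / 4) < ∑ p ∈ P, (D (un p) - D2 (un p)) * v p := by
      have h2 : D φ - D2 φ = ∑ p ∈ P, (D (un p) - D2 (un p)) * v p := by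
        rw [hDφ, hDφ, ← sum_sub_distrib]
        apply sum_congr rfl
        intro p _
        ring
      rw [← h2]
      have := hφs D2 hD2
      linarith
    have h3 : Q D = Q D2 + 2 * ∑ p ∈ P, (D (un p) - D2 (un p)) * v p
        + ∑ p ∈ P, (D (un p) - D2 (un p)) ^ 2 := by
      simp only [hQ, mul_sum]
      rw [← sum_add_distrib, ← sum_add_distrib]
      apply sum_congr rfl
      intro p _
      simp only [hv]
      ring
    have h4 := hQS D hD
    refine ⟨by linarith, ?_⟩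
    have h5 : 0 ≤ ∑ p ∈ P, (D (un p) - D2 (un p)) ^ 2 := sum_nonneg fun _ _ => sq_nonneg _
    have h6 := hQS D0 hD0
    have hβsq : β ^ 2 ≤ 1 := by nlinarith
    have h7 : Q D0 - 1 ≤ Q D := by linarith
    have h8 : ∀ D' : StrongDual ℝ (Lip0 ZZ (0, 0)), Q D' = ∑ p ∈ P, D' (un p) ^ 2 + 2 * R * D' f1
        + ∑ p ∈ P, (R * u p) ^ 2 := by
      intro D'
      rw [hDf1 D']
      simp only [hQ, mul_sum]
      rw [← sum_add_distrib, ← sum_add_distrib]
      apply sum_congr rfl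
      intro p _
      ring
    rw [h8 D, h8 D0] at h7
    have h9 := hun2 D hD
    have h10 : 0 ≤ ∑ p ∈ P, D0 (un p) ^ 2 := sum_nonneg fun _ _ => sq_nonneg _
    have h11 : 2 * R * (D0 f1 - τ1) ≤ 2 * R * D f1 := by
      have : 2 * R * (D0 f1 - τ1) = 2 * R * D0 f1 - 2 * R * τ1 := by ring
      rw [this, hR2]
      linarith
    have h12 : D0 f1 - τ1 ≤ D f1 := le_of_mul_le_mul_left h11 (by positivity)
    linarith
  have htail : ∀ D ∈ 𝒟, M - 4 * τ1 < D f1 → ∀ G : Lip0 ZZ (0, 0), ‖G‖ ≤ 2 →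
      (∀ p, dist p (0, 0) ≤ (ρ' : ℝ) → G.fn p = 0) → D G ≤ 10 * τ1 := by
    intro D hD hDf G hG hG0
    have h1 := tail_norm f1 G hf1 hG ρ ρ' hρp hρ'1 hf1b hG0
    have h2 : D (f1 + (1 / 2 : ℝ) • G) ≤ M * (1 + 2 * ρ / (ρ' - 2 * ρ)) := by
      calc _ ≤ ‖D (f1 + (1 / 2 : ℝ) • G)‖ := le_abs_self _
        _ ≤ ‖D‖ * ‖f1 + (1 / 2 : ℝ) • G‖ := D.le_opNorm _
        _ ≤ M * (1 + 2 * ρ / (ρ' - 2 * ρ)) := mul_le_mul (hDM D hD) h1 (norm_nonneg _) hM0
    rw [map_add, map_smul, smul_eq_mul] at h2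
    have h3 : M * (1 + 2 * ρ / (ρ' - 2 * ρ)) = M + 2 * ρ / (ρ' - 2 * ρ) * M := by ring
    rw [h3] at h2
    linarith
  refine ⟨φ, s, β ^ 2 / 4, by positivity, hφs, ?_, ?_⟩
  · intro η hη
    obtain ⟨_, ⟨D, hD, rfl⟩, h⟩ := exists_lt_of_lt_csSup
      (hne.image (fun D : StrongDual ℝ (Lip0 ZZ (0, 0)) => D φ)) (show s - η < s by linarith)
    exact ⟨D, hD, h⟩
  · intro D hD D' hD' hDs hDs'
    obtain ⟨hh, hf⟩ := hslice D hD hDs
    obtain ⟨hh', hf'⟩ := hslice D' hD' hDs'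
    apply ContinuousLinearMap.opNorm_le_of_unit_norm hε.le
    intro g hg
    have hρ'p : (0 : ℝ) < ρ' := by linarith
    obtain ⟨g1, hg1, hg1a, hg1b⟩ := clamp_ex g hg.le ρ' hρ'p
    set G := g - g1 with hGdef
    have hG2 : ‖G‖ ≤ 2 := by
      have := norm_sub_le g g1
      rw [hGdef]
      linarith
    have hG0 : ∀ p, dist p (0, 0) ≤ (ρ' : ℝ) → G.fn p = 0 := by
      intro p hp
      rw [hGdef, Lip0.fn_sub, hg1a p hp, sub_self]
    have t1 := htail D hD hf G hG2 hG0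
    have t2 := htail D hD hf (-G) (by rw [norm_neg]; exact hG2) (fun p hp => by
      rw [Lip0.fn_neg, hG0 p hp, neg_zero])
    have t3 := htail D' hD' hf' G hG2 hG0
    have t4 := htail D' hD' hf' (-G) (by rw [norm_neg]; exact hG2) (fun p hp => by
      rw [Lip0.fn_neg, hG0 p hp, neg_zero])
    rw [map_neg] at t2 t4
    have hhead : |D g1 - D' g1| ≤ ε / 2 := by
      have e1 : ∀ D : StrongDual ℝ (Lip0 ZZ (0, 0)), D g1 = ∑ p ∈ P, g1.fn p * D (un p) := by
        intro D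
        conv_lhs => rw [expand (2 * ρ') g1 (fun p hp => hg1b p (by
          push_cast at hp; linarith))]
        rw [map_sum]
        apply sum_congr rfl
        intro p _
        rw [map_smul, smul_eq_mul]
      rw [e1, e1, ← sum_sub_distrib]
      refine (abs_sum_le_sum_abs _ _).trans ?_
      have e2 : ∀ p ∈ P, |g1.fn p * D (un p) - g1.fn p * D' (un p)| ≤ 2 * ρ' * (2 * β) := by
        intro p hp
        rw [← mul_sub, abs_mul]
        have a1 : |g1.fn p| ≤ 2 * ρ' := by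
          have b1 := g1.abs_fn_le p
          have b2 := dist_le_of_mem_bx (2 * ρ') p hp
          push_cast at b2
          calc _ ≤ ‖g1‖ * dist p (0, 0) := b1
            _ ≤ 1 * (2 * ρ') := mul_le_mul hg1 b2 dist_nonneg zero_le_one
            _ = _ := one_mul _
        have a2 : |D (un p) - D2 (un p)| ≤ β := by
          apply abs_le_of_sq_le_sq _ hβp.le
          exact (single_le_sum (f := fun p => (D (un p) - D2 (un p)) ^ 2)
            (fun _ _ => sq_nonneg _) hp).trans hh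
        have a3 : |D' (un p) - D2 (un p)| ≤ β := by
          apply abs_le_of_sq_le_sq _ hβp.le
          exact (single_le_sum (f := fun p => (D' (un p) - D2 (un p)) ^ 2)
            (fun _ _ => sq_nonneg _) hp).trans hh'
        have a4 : |D (un p) - D' (un p)| ≤ 2 * β := by
          rw [abs_le] at a2 a3 ⊢
          constructor <;> linarith
        exact mul_le_mul a1 a4 (abs_nonneg _) (by positivity)
      refine (sum_le_sum e2).trans ?_
      rw [sum_const, nsmul_eq_mul]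
      have : (0 : ℝ) ≤ β := hβp.le
      nlinarith
    have hgd : (D - D') g = (D g1 - D' g1) + (D G - D' G) := by
      rw [hGdef, sub_apply, map_sub, map_sub]; ring
    rw [Real.norm_eq_abs, hgd]
    rw [abs_le] at hhead ⊢
    constructor <;> linarith

end Pool.Agent.H266R3.LF
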