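import Pool.Agent.H266R3.LMain

set_option autoImplicit false

noncomputable section

namespace Pool.Agent.H266R3.LF

/-- `F(ℝ × ℤ)` -/
def FreeLines : Type := FreeSp Lines lo

/-- `F(ℝ²)` -/
def FreePlane : Type := FreeSp Plane 0

/-- the norm of `F(ℝ × ℤ)` -/
instance fl1 : NormedAddCommGroup FreeLines := instNormedAddCommGroupFreeSp (M := Lines) (o := lo)
instance fl2 : NormedSpace ℝ FreeLines := instNormedSpaceRealFreeSp (M := Lines) (o := lo)
/-- the norm of `F(ℝ²)` -/
instance fp1 : NormedAddCommGroup FreePlane := instNormedAddCommGroupFreeSp (M := Plane) (o := 0)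
instance fp2 : NormedSpace ℝ FreePlane := instNormedSpaceRealFreeSp (M := Plane) (o := 0)

theorem no_bijection' : ¬ ∃ T : FreeLines →L[ℝ] FreePlane, Function.Bijective T := no_bijection

end Pool.Agent.H266R3.LF
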