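import Pool.Agent.H266R3.LDef

set_option autoImplicit false

noncomputable section

namespace Pool.Agent.H266R3.LF

open Finset

/-- points of `Lines` -/
def pt (s : ℝ) (k : ℤ) : Lines := ⟨!₂[s, (k : ℝ)], k, by simp⟩

@[simp] theorem pt_zero (s : ℝ) (k : ℤ) : (pt s k).1 0 = s := by simp [pt]
@[simp] theorem pt_one (s : ℝ) (k : ℤ) : (pt s k).1 1 = k := by simp [pt]

theorem exists_pt (p : Lines) : ∃ s k, p = pt s k := by
  obtain ⟨p, k, hk⟩ := p
  refine ⟨p 0, k, Subtype.ext ?_⟩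
  ext i
  fin_cases i
  · simp [pt]
  · simp [pt, hk]

theorem lo_eq : lo = pt 0 0 := by
  apply Subtype.ext
  ext i
  fin_cases i
  · simp [pt, lo]
  · simp [pt, lo]

theorem dist_plane (x y : Plane) : dist x y = Real.sqrt ((x 0 - y 0) ^ 2 + (x 1 - y 1) ^ 2) := by
  rw [EuclideanSpace.dist_eq, Fin.sum_univ_two, Real.dist_eq, Real.dist_eq, sq_abs, sq_abs]

theorem abs0_le_dist (x y : Plane) : |x 0 - y 0| ≤ dist x y := by
  rw [dist_plane]
  apply Real.abs_le_sqrt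
  nlinarith [sq_nonneg (x 1 - y 1)]

theorem abs1_le_dist (x y : Plane) : |x 1 - y 1| ≤ dist x y := by
  rw [dist_plane]
  apply Real.abs_le_sqrt
  nlinarith [sq_nonneg (x 0 - y 0)]

theorem dist_le_abs (x y : Plane) : dist x y ≤ |x 0 - y 0| + |x 1 - y 1| := by
  rw [dist_plane, Real.sqrt_le_left (by positivity)]
  have h0 := abs_nonneg (x 0 - y 0)
  have h1 := abs_nonneg (x 1 - y 1)
  rw [← sq_abs (x 0 - y 0), ← sq_abs (x 1 - y 1)]
  nlinarith [mul_nonneg h0 h1]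

theorem dist_pt_ge0 (s s' : ℝ) (k k' : ℤ) : |s - s'| ≤ dist (pt s k) (pt s' k') := by
  have := abs0_le_dist (pt s k).1 (pt s' k').1
  rwa [pt_zero, pt_zero] at this

theorem dist_pt_ge1 (s s' : ℝ) (k k' : ℤ) : |(k : ℝ) - k'| ≤ dist (pt s k) (pt s' k') := by
  have := abs1_le_dist (pt s k).1 (pt s' k').1
  rwa [pt_one, pt_one] at this

theorem dist_pt_le (s s' : ℝ) (k k' : ℤ) :
    dist (pt s k) (pt s' k') ≤ |s - s'| + |(k : ℝ) - k'| := by
  have := dist_le_abs (pt s k).1 (pt s' k').1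
  rwa [pt_zero, pt_zero, pt_one, pt_one] at this

theorem one_le_dist_pt (s s' : ℝ) (k k' : ℤ) (h : k ≠ k') : 1 ≤ dist (pt s k) (pt s' k') := by
  refine le_trans ?_ (dist_pt_ge1 s s' k k')
  have : (1 : ℤ) ≤ |k - k'| := Int.one_le_abs (sub_ne_zero.2 h)
  exact_mod_cast this

/-- function on `Lines` from a function of coordinates -/
def mkL (F : ℝ → ℤ → ℝ) (p : Lines) : ℝ := F (p.1 0) ⌊p.1 1⌋

@[simp] theorem mkL_pt (F : ℝ → ℤ → ℝ) (s : ℝ) (k : ℤ) : mkL F (pt s k) = F s k := by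
  simp [mkL]

theorem mkL_lip (F : ℝ → ℤ → ℝ) (K : ℝ)
    (h : ∀ s s' k k', |F s k - F s' k'| ≤ K * dist (pt s k) (pt s' k')) (p p' : Lines) :
    |mkL F p - mkL F p'| ≤ K * dist p p' := by
  obtain ⟨s, k, rfl⟩ := exists_pt p
  obtain ⟨s', k', rfl⟩ := exists_pt p'
  rw [mkL_pt, mkL_pt]
  exact h s s' k k'

/-- constructor for `Lip0 Lines lo` -/
def mkLip (F : ℝ → ℤ → ℝ) (h0 : F 0 0 = 0) (K : ℝ) (hK : 0 ≤ K)
    (h : ∀ s s' k k', |F s k - F s' k'| ≤ K * dist (pt s k) (pt s' k')) : Lip0 Lines lo :=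
  Lip0.mk (mkL F) (by rw [lo_eq, mkL_pt]; exact h0) K hK (mkL_lip F K h)

theorem mkLip_pt (F : ℝ → ℤ → ℝ) (h0 : F 0 0 = 0) (K : ℝ) (hK : 0 ≤ K)
    (h : ∀ s s' k k', |F s k - F s' k'| ≤ K * dist (pt s k) (pt s' k')) (s : ℝ) (k : ℤ) :
    (mkLip F h0 K hK h).fn (pt s k) = F s k := by
  rw [mkLip, Lip0.fn_mk, mkL_pt]

theorem norm_le_of_pt (f : Lip0 Lines lo) (K : ℝ) (hK : 0 ≤ K)
    (h : ∀ s s' k k', |f.fn (pt s k) - f.fn (pt s' k')| ≤ K * dist (pt s k) (pt s' k')) :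
    ‖f‖ ≤ K := by
  refine f.norm_le' hK fun p p' => ?_
  obtain ⟨s, k, rfl⟩ := exists_pt p
  obtain ⟨s', k', rfl⟩ := exists_pt p'
  exact h s s' k k'

/-! ### Interpolation -/

/-- The integer lattice, with the sup metric of Mathlib. -/
abbrev ZZ : Type := ℤ × ℤ

theorem zz_dist (a b a' b' : ℤ) :
    dist ((a, b) : ZZ) (a', b') = max |(a : ℝ) - a'| |(b : ℝ) - b'| := by
  rw [Prod.dist_eq, Int.dist_eq, Int.dist_eq]

/-- piecewise linear interpolation of a function on `ℤ` -/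
def itp (u : ℤ → ℝ) (s : ℝ) : ℝ := u ⌊s⌋ + Int.fract s * (u (⌊s⌋ + 1) - u ⌊s⌋)

theorem itp_int (u : ℤ → ℝ) (a : ℤ) : itp u a = u a := by simp [itp]

theorem itp_lip (u : ℤ → ℝ) (L : ℝ) (hu : ∀ a b : ℤ, |u a - u b| ≤ L * |(a : ℝ) - b|)
    (s s' : ℝ) : |itp u s - itp u s'| ≤ L * |s - s'| := by
  have key : ∀ s s' : ℝ, s ≤ s' → |itp u s' - itp u s| ≤ L * (s' - s) := by
    intro s s' hss
    have hstep : ∀ a : ℤ, |u (a + 1) - u a| ≤ L := by
      intro a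
      have := hu (a + 1) a
      have h1 : |((a + 1 : ℤ) : ℝ) - a| = 1 := by push_cast; simp
      rw [h1, mul_one] at this
      exact this
    have hfl := Int.floor_mono hss
    rcases hfl.eq_or_lt with h | h
    · have e1 : itp u s' - itp u s = (s' - s) * (u (⌊s⌋ + 1) - u ⌊s⌋) := by
        unfold itp
        rw [← h]
        have e2 : Int.fract s' = s' - ⌊s'⌋ := rfl
        have e3 : Int.fract s = s - ⌊s⌋ := rfl
        rw [e2, e3, ← h]; ring
      rw [e1, abs_mul, abs_of_nonneg (sub_nonneg.2 hss), mul_comm]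
      exact mul_le_mul_of_nonneg_right (hstep _) (sub_nonneg.2 hss)
    · have e1 : itp u s' - itp u s = Int.fract s' * (u (⌊s'⌋ + 1) - u ⌊s'⌋)
          + (u ⌊s'⌋ - u (⌊s⌋ + 1)) + (1 - Int.fract s) * (u (⌊s⌋ + 1) - u ⌊s⌋) := by
        unfold itp; ring
      have h1 : |Int.fract s' * (u (⌊s'⌋ + 1) - u ⌊s'⌋)| ≤ Int.fract s' * L := by
        rw [abs_mul, abs_of_nonneg (Int.fract_nonneg _)]
        exact mul_le_mul_of_nonneg_left (hstep _) (Int.fract_nonneg _)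
      have h2 : |(1 - Int.fract s) * (u (⌊s⌋ + 1) - u ⌊s⌋)| ≤ (1 - Int.fract s) * L := by
        have : 0 ≤ 1 - Int.fract s := by linarith [Int.fract_lt_one s]
        rw [abs_mul, abs_of_nonneg this]
        exact mul_le_mul_of_nonneg_left (hstep _) this
      have h3 : |u ⌊s'⌋ - u (⌊s⌋ + 1)| ≤ L * ((⌊s'⌋ : ℝ) - (⌊s⌋ + 1)) := by
        have := hu ⌊s'⌋ (⌊s⌋ + 1)
        have h4 : (0 : ℝ) ≤ (⌊s'⌋ : ℝ) - (⌊s⌋ + 1) := by
          have : ⌊s⌋ + 1 ≤ ⌊s'⌋ := h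
          have : ((⌊s⌋ + 1 : ℤ) : ℝ) ≤ ⌊s'⌋ := by exact_mod_cast this
          push_cast at this
          linarith
        push_cast at this
        rwa [abs_of_nonneg h4] at this
      rw [e1]
      have h5 := abs_add_three (Int.fract s' * (u (⌊s'⌋ + 1) - u ⌊s'⌋)) (u ⌊s'⌋ - u (⌊s⌋ + 1))
        ((1 - Int.fract s) * (u (⌊s⌋ + 1) - u ⌊s⌋))
      have e2 : Int.fract s' = s' - ⌊s'⌋ := rfl
      have e3 : Int.fract s = s - ⌊s⌋ := rfl
      rw [e2] at h1 h5 ⊢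
      rw [e3] at h2 h5 ⊢
      nlinarith
  rcases le_total s s' with h | h
  · rw [abs_sub_comm, abs_sub_comm s s', abs_of_nonneg (sub_nonneg.2 h)]
    exact key s s' h
  · rw [abs_of_nonneg (sub_nonneg.2 h)]
    exact key s' s h

/-- interpolation, raw -/
def Jraw (g : ZZ → ℝ) (s : ℝ) (k : ℤ) : ℝ := itp (fun a => g (a, k)) s

theorem Jraw_lip (g : Lip0 ZZ (0, 0)) (s s' : ℝ) (k k' : ℤ) :
    |Jraw g.fn s k - Jraw g.fn s' k'| ≤ 5 * ‖g‖ * dist (pt s k) (pt s' k') := by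
  have hg : ∀ a b a' b' : ℤ, |g.fn (a, b) - g.fn (a', b')|
      ≤ ‖g‖ * max |(a : ℝ) - a'| |(b : ℝ) - b'| := by
    intro a b a' b'
    rw [← zz_dist]
    exact g.abs_sub_le _ _
  have hn := norm_nonneg g
  have hrow : ∀ k : ℤ, ∀ a b : ℤ, |g.fn (a, k) - g.fn (b, k)| ≤ ‖g‖ * |(a : ℝ) - b| := by
    intro k a b
    have := hg a k b k
    simpa using this
  by_cases hk : k = k'
  · subst hk
    have h1 := itp_lip (fun a => g.fn (a, k)) ‖g‖ (hrow k) s s'
    have h2 := dist_pt_ge0 s s' k k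
    unfold Jraw
    have h3 := mul_le_mul_of_nonneg_left h2 hn
    have h4 : 0 ≤ ‖g‖ * dist (pt s k) (pt s' k) := by positivity
    linarith
  · have hd1 := one_le_dist_pt s s' k k' hk
    have hd2 := dist_pt_ge0 s s' k k'
    have hd3 := dist_pt_ge1 s s' k k'
    set d := dist (pt s k) (pt s' k')
    have h1 : |Jraw g.fn s k - g.fn (⌊s⌋, k)| ≤ ‖g‖ := by
      have := itp_lip (fun a => g.fn (a, k)) ‖g‖ (hrow k) s ⌊s⌋
      rw [itp_int] at this
      refine this.trans ?_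
      have h2 : |s - ⌊s⌋| ≤ 1 := by
        change |Int.fract s| ≤ 1
        rw [abs_of_nonneg (Int.fract_nonneg s)]
        exact (Int.fract_lt_one s).le
      calc _ ≤ ‖g‖ * 1 := mul_le_mul_of_nonneg_left h2 hn
        _ = _ := mul_one _
    have h2 : |g.fn (⌊s'⌋, k') - Jraw g.fn s' k'| ≤ ‖g‖ := by
      have := itp_lip (fun a => g.fn (a, k')) ‖g‖ (hrow k') s' ⌊s'⌋
      rw [itp_int] at this
      rw [abs_sub_comm]
      refine this.trans ?_
      have h2 : |s' - ⌊s'⌋| ≤ 1 := by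
        change |Int.fract s'| ≤ 1
        rw [abs_of_nonneg (Int.fract_nonneg s')]
        exact (Int.fract_lt_one s').le
      calc _ ≤ ‖g‖ * 1 := mul_le_mul_of_nonneg_left h2 hn
        _ = _ := mul_one _
    have h3 : |g.fn (⌊s⌋, k) - g.fn (⌊s'⌋, k')| ≤ ‖g‖ * (1 + |s - s'| + |(k : ℝ) - k'|) := by
      refine (hg _ _ _ _).trans ?_
      apply mul_le_mul_of_nonneg_left _ hn
      apply max_le
      · have a1 := Int.floor_le s
        have a2 := Int.lt_floor_add_one s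
        have a3 := Int.floor_le s'
        have a4 := Int.lt_floor_add_one s'
        have a5 := abs_nonneg ((k : ℝ) - k')
        have a6 := le_abs_self (s - s')
        have a7 := neg_abs_le (s - s')
        rw [abs_le]
        constructor <;> linarith
      · have := abs_nonneg (s - s')
        linarith
    have e : Jraw g.fn s k - Jraw g.fn s' k' = (Jraw g.fn s k - g.fn (⌊s⌋, k))
      + (g.fn (⌊s⌋, k) - g.fn (⌊s'⌋, k')) + (g.fn (⌊s'⌋, k') - Jraw g.fn s' k') := by ring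
    rw [e]
    have h5 := abs_add_three (Jraw g.fn s k - g.fn (⌊s⌋, k)) (g.fn (⌊s⌋, k) - g.fn (⌊s'⌋, k'))
      (g.fn (⌊s'⌋, k') - Jraw g.fn s' k')
    have h6 : ‖g‖ * (1 + |s - s'| + |(k : ℝ) - k'|) ≤ ‖g‖ * (3 * d) :=
      mul_le_mul_of_nonneg_left (by linarith) hn
    have h7 : ‖g‖ * 1 ≤ ‖g‖ * d := mul_le_mul_of_nonneg_left hd1 hn
    linarith

theorem Jraw_base (g : Lip0 ZZ (0, 0)) : Jraw g.fn 0 0 = 0 := by
  have h : g.fn ((0 : ℤ), (0 : ℤ)) = 0 := g.fn_base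
  unfold Jraw itp
  rw [Int.fract_zero, Int.floor_zero, zero_mul, add_zero]
  exact h

/-- interpolation, as a function -/
def Jf (g : Lip0 ZZ (0, 0)) : Lip0 Lines lo :=
  mkLip (Jraw g.fn) (Jraw_base g) (5 * ‖g‖) (by positivity) (Jraw_lip g)

theorem Jf_pt (g : Lip0 ZZ (0, 0)) (s : ℝ) (k : ℤ) :
    (Jf g).fn (pt s k) = itp (fun a => g.fn (a, k)) s := by
  unfold Jf
  rw [mkLip_pt]
  rfl

/-- The interpolation operator. -/
def J : Lip0 ZZ (0, 0) →L[ℝ] Lip0 Lines lo :=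
  LinearMap.mkContinuous
    { toFun := Jf
      map_add' := by
        intro f g
        apply Lip0.ext
        intro p
        obtain ⟨s, k, rfl⟩ := exists_pt p
        rw [Lip0.fn_add, Jf_pt, Jf_pt, Jf_pt]
        simp only [itp, Lip0.fn_add]
        ring
      map_smul' := by
        intro c g
        apply Lip0.ext
        intro p
        obtain ⟨s, k, rfl⟩ := exists_pt p
        rw [Lip0.fn_smul, Jf_pt, Jf_pt]
        simp only [itp, Lip0.fn_smul, RingHom.id_apply]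
        ring } 5 (fun g => by
          apply Lip0.norm_le' _ (by positivity)
          exact mkL_lip _ _ (Jraw_lip g))

theorem J_pt (g : Lip0 ZZ (0, 0)) (s : ℝ) (k : ℤ) :
    (J g).fn (pt s k) = itp (fun a => g.fn (a, k)) s := Jf_pt g s k

theorem norm_J_le (g : Lip0 ZZ (0, 0)) : ‖J g‖ ≤ 5 * ‖g‖ := by
  refine (J.le_opNorm g).trans ?_
  apply mul_le_mul_of_nonneg_right _ (norm_nonneg _)
  exact LinearMap.mkContinuous_norm_le _ (by norm_num) _

/-- Restriction to the lattice. -/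
def Res (f : Lip0 Lines lo) : Lip0 ZZ (0, 0) :=
  Lip0.mk (fun z => f.fn (pt z.1 z.2)) (by
      have h : pt ((0 : ℤ) : ℝ) 0 = lo := by rw [lo_eq]; simp
      change f.fn (pt ((0 : ℤ) : ℝ) 0) = 0
      rw [h]
      exact f.fn_base) (2 * ‖f‖) (by positivity) (by
      rintro ⟨a, b⟩ ⟨a', b'⟩
      rw [zz_dist]
      refine (f.abs_sub_le _ _).trans ?_
      have h1 := dist_pt_le a a' b b'
      have h2 := le_max_left |(a : ℝ) - a'| |(b : ℝ) - b'|
      have h3 := le_max_right |(a : ℝ) - a'| |(b : ℝ) - b'|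
      have h4 : dist (pt a b) (pt a' b') ≤ 2 * max |(a : ℝ) - a'| |(b : ℝ) - b'| := by linarith
      calc _ ≤ ‖f‖ * (2 * max |(a : ℝ) - a'| |(b : ℝ) - b'|) :=
            mul_le_mul_of_nonneg_left h4 (norm_nonneg _)
        _ = _ := by ring)

theorem Res_fn (f : Lip0 Lines lo) (a b : ℤ) : (Res f).fn (a, b) = f.fn (pt a b) := rfl

theorem norm_Res_le (f : Lip0 Lines lo) : ‖Res f‖ ≤ 2 * ‖f‖ := by
  apply Lip0.norm_le' _ (by positivity)
  rintro ⟨a, b⟩ ⟨a', b'⟩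
  rw [Res_fn, Res_fn, zz_dist]
  refine (f.abs_sub_le _ _).trans ?_
  have h1 := dist_pt_le a a' b b'
  have h2 := le_max_left |(a : ℝ) - a'| |(b : ℝ) - b'|
  have h3 := le_max_right |(a : ℝ) - a'| |(b : ℝ) - b'|
  have h4 : dist (pt a b) (pt a' b') ≤ 2 * max |(a : ℝ) - a'| |(b : ℝ) - b'| := by linarith
  calc _ ≤ ‖f‖ * (2 * max |(a : ℝ) - a'| |(b : ℝ) - b'|) :=
        mul_le_mul_of_nonneg_left h4 (norm_nonneg _)
    _ = _ := by ring

theorem norm_sub_J_Res (f : Lip0 Lines lo) : ‖f - J (Res f)‖ ≤ 11 * ‖f‖ := by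
  have h1 := norm_sub_le f (J (Res f))
  have h2 := norm_J_le (Res f)
  have h3 := norm_Res_le f
  linarith

end Pool.Agent.H266R3.LF
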