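import Pool.Agent.H266R3.LProp

set_option autoImplicit false

noncomputable section

namespace Pool.Agent.H266R3.LF

open Finset Real

/-- `δ` as an element of the free space of the plane -/
def dp (x : Plane) : FreeSp Plane 0 := ⟨dlt Plane 0 x, dlt_mem x⟩

theorem inc_dp (x : Plane) : inc Plane 0 (dp x) = dlt Plane 0 x := rfl

/-- point of the plane -/
def pp (a b : ℝ) : Plane := !₂[a, b]

@[simp] theorem pp_zero (a b : ℝ) : pp a b 0 = a := by simp [pp]
@[simp] theorem pp_one (a b : ℝ) : pp a b 1 = b := by simp [pp]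

theorem norm_dp_sub_le (a b a' b' : ℝ) : ‖dp (pp a b) - dp (pp a' b')‖ ≤ |a - a'| + |b - b'| := by
  have h1 : ‖dp (pp a b) - dp (pp a' b')‖ = ‖dlt Plane 0 (pp a b) - dlt Plane 0 (pp a' b')‖ := rfl
  rw [h1]
  refine (norm_dlt_sub_le _ _).trans ?_
  have := dist_le_abs (pp a b) (pp a' b')
  simpa using this

section main
variable (T : FreeSp Plane 0 →L[ℝ] FreeSp Lines lo)

/-- image functional -/
def Tx (a b : ℝ) : StrongDual ℝ (Lip0 Lines lo) := inc Lines lo (T (dp (pp a b)))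

theorem Tx_mem (a b : ℝ) : Tx T a b ∈ LFree Lines lo := inc_mem _

theorem Tx_lip (a b a' b' : ℝ) : ‖Tx T a b - Tx T a' b'‖ ≤ ‖T‖ * (|a - a'| + |b - b'|) := by
  have h1 : Tx T a b - Tx T a' b' = inc Lines lo (T (dp (pp a b) - dp (pp a' b'))) := by
    rw [map_sub, map_sub]; rfl
  rw [h1, norm_inc]
  calc _ ≤ ‖T‖ * ‖dp (pp a b) - dp (pp a' b')‖ := T.le_opNorm _
    _ ≤ _ := mul_le_mul_of_nonneg_left (norm_dp_sub_le _ _ _ _) (norm_nonneg _)

/-- discrete part -/
def TA (a b : ℝ) : StrongDual ℝ (Lip0 ZZ (0, 0)) := (Tx T a b).comp J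

theorem TA_apply (a b : ℝ) (g : Lip0 ZZ (0, 0)) : TA T a b g = Tx T a b (J g) := rfl

theorem TA_lip (a b a' b' : ℝ) : ‖TA T a b - TA T a' b'‖ ≤ 5 * ‖T‖ * (|a - a'| + |b - b'|) := by
  apply ContinuousLinearMap.opNorm_le_bound _ (by positivity)
  intro g
  have h1 : (TA T a b - TA T a' b') g = (Tx T a b - Tx T a' b') (J g) := rfl
  rw [h1]
  have h2 := norm_J_le g
  calc _ ≤ ‖Tx T a b - Tx T a' b'‖ * ‖J g‖ := (Tx T a b - Tx T a' b').le_opNorm _
    _ ≤ (‖T‖ * (|a - a'| + |b - b'|)) * (5 * ‖g‖) :=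
      mul_le_mul (Tx_lip T a b a' b') h2 (norm_nonneg _) (by positivity)
    _ = _ := by ring

theorem TA_app (a b : ℝ) (ε : ℝ) (hε : 0 < ε) : ∃ ρ : ℕ, ∀ h : Lip0 ZZ (0, 0),
    (∀ p, dist p (0, 0) ≤ ρ → h.fn p = 0) → |TA T a b h| ≤ ε * ‖h‖ := by
  set G : ℕ → Set Lines := fun ρ => {p | ∃ (s : ℝ) (k : ℤ), |s| + 2 ≤ ρ ∧ |(k : ℝ)| ≤ ρ ∧ p = pt s k}
  have hG : ∀ p : Lines, ∀ ε : ℝ, 0 < ε → ∀ᶠ q in Filter.atTop, ∃ p' ∈ G q, dist p p' ≤ ε := by
    intro p ε hε
    obtain ⟨s, k, rfl⟩ := exists_pt p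
    obtain ⟨n, hn⟩ := exists_nat_gt (max (|s| + 2) |(k : ℝ)|)
    filter_upwards [Filter.eventually_ge_atTop n] with q hq
    have hq' : (n : ℝ) ≤ q := by exact_mod_cast hq
    have h1 := le_max_left (|s| + 2) |(k : ℝ)|
    have h2 := le_max_right (|s| + 2) |(k : ℝ)|
    exact ⟨pt s k, ⟨s, k, by linarith, by linarith, rfl⟩, by rw [dist_self]; exact hε.le⟩
  obtain ⟨ρ, hρ⟩ := (approx_lemma G hG (Tx T a b) (Tx_mem T a b) (ε / 5) (by positivity)).exists
  refine ⟨ρ, fun h hh => ?_⟩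
  rw [TA_apply]
  have h1 := hρ (J h) (by
    rintro _ ⟨s, k, hs, hk, rfl⟩
    rw [J_pt]
    have a1 := Int.floor_le s
    have a2 := Int.lt_floor_add_one s
    have a3 := le_abs_self s
    have a4 := neg_abs_le s
    have b1 : h.fn (⌊s⌋, k) = 0 := by
      apply hh
      rw [zz_dist]
      push_cast
      rw [sub_zero, sub_zero]
      apply max_le _ hk
      rw [abs_le]
      constructor <;> linarith
    have b2 : h.fn (⌊s⌋ + 1, k) = 0 := by
      apply hh
      rw [zz_dist]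
      push_cast
      rw [sub_zero, sub_zero]
      apply max_le _ hk
      rw [abs_le]
      constructor <;> linarith
    unfold itp
    simp only
    rw [b1, b2]
    ring)
  have h2 := norm_J_le h
  calc _ ≤ ε / 5 * ‖J h‖ := h1
    _ ≤ ε / 5 * (5 * ‖h‖) := mul_le_mul_of_nonneg_left h2 (by positivity)
    _ = _ := by ring

/-- the test element -/
def em (n m1 m2 : ℕ) (a b σ : ℝ) : FreeSp Plane 0 :=
  ∑ i ∈ range n, ∑ j ∈ range n, (cw n m1 i * cw n m2 j) • dp (pp (a + i * σ) (b + j * σ))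

theorem abs_cos_sub_cos_le (x y : ℝ) : |cos x - cos y| ≤ |x - y| := by
  have := (Real.lipschitzWith_cos).dist_le_mul x y
  rw [Real.dist_eq, Real.dist_eq] at this
  simpa using this

/-- test function -/
def tf (m1 m2 : ℕ) (a b r : ℝ) (x : Plane) : ℝ :=
  cos (2 * π * m1 * (x 0 - a) / r) * cos (2 * π * m2 * (x 1 - b) / r)
    - cos (2 * π * m1 * (0 - a) / r) * cos (2 * π * m2 * (0 - b) / r)

theorem tf_lip (m1 m2 : ℕ) (a b r : ℝ) (hr : 0 < r) (x y : Plane) :
    |tf m1 m2 a b r x - tf m1 m2 a b r y| ≤ (2 * π * (m1 + m2) / r) * dist x y := by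
  have hπ := Real.pi_pos
  set u := 2 * π * m1 * (x 0 - a) / r with hu
  set u' := 2 * π * m1 * (y 0 - a) / r with hu'
  set v := 2 * π * m2 * (x 1 - b) / r with hv
  set v' := 2 * π * m2 * (y 1 - b) / r with hv'
  have e1 : tf m1 m2 a b r x - tf m1 m2 a b r y = (cos u - cos u') * cos v
      + cos u' * (cos v - cos v') := by
    unfold tf; ring
  have h1 : |(cos u - cos u') * cos v| ≤ |u - u'| := by
    rw [abs_mul]
    calc _ ≤ |u - u'| * 1 := mul_le_mul (abs_cos_sub_cos_le _ _) (abs_cos_le_one _)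
          (abs_nonneg _) (abs_nonneg _)
      _ = _ := mul_one _
  have h2 : |cos u' * (cos v - cos v')| ≤ |v - v'| := by
    rw [abs_mul]
    calc _ ≤ 1 * |v - v'| := mul_le_mul (abs_cos_le_one _) (abs_cos_sub_cos_le _ _)
          (abs_nonneg _) zero_le_one
      _ = _ := one_mul _
  have h3 : u - u' = 2 * π * m1 / r * (x 0 - y 0) := by rw [hu, hu']; ring
  have h4 : v - v' = 2 * π * m2 / r * (x 1 - y 1) := by rw [hv, hv']; ring
  have h5 : |u - u'| ≤ 2 * π * m1 / r * dist x y := by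
    rw [h3, abs_mul, abs_of_nonneg (by positivity)]
    exact mul_le_mul_of_nonneg_left (abs0_le_dist x y) (by positivity)
  have h6 : |v - v'| ≤ 2 * π * m2 / r * dist x y := by
    rw [h4, abs_mul, abs_of_nonneg (by positivity)]
    exact mul_le_mul_of_nonneg_left (abs1_le_dist x y) (by positivity)
  rw [e1]
  calc _ ≤ |(cos u - cos u') * cos v| + |cos u' * (cos v - cos v')| := abs_add_le _ _
    _ ≤ 2 * π * m1 / r * dist x y + 2 * π * m2 / r * dist x y := by linarith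
    _ = _ := by ring

theorem em_lower (n m1 m2 : ℕ) (h1 : 1 ≤ m1) (h1' : 2 * m1 < n) (h2 : 1 ≤ m2) (h2' : 2 * m2 < n)
    (a b σ : ℝ) (hσ : 0 < σ) :
    (n : ℝ) ^ 2 / 4 ≤ ‖em n m1 m2 a b σ‖ * (2 * π * (m1 + m2) / (n * σ)) := by
  have hn : (0 : ℝ) < n := by
    have : 0 < n := by omega
    exact_mod_cast this
  set r : ℝ := n * σ with hr
  have hrp : 0 < r := by positivity
  have hπ := Real.pi_pos
  set F : Lip0 Plane 0 := Lip0.mk (tf m1 m2 a b r) (by simp [tf]) (2 * π * (m1 + m2) / r)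
    (by positivity) (tf_lip m1 m2 a b r hrp) with hF
  have hFn : ‖F‖ ≤ 2 * π * (m1 + m2) / r :=
    Lip0.norm_le' _ (by positivity) (tf_lip m1 m2 a b r hrp)
  have hval : (inc Plane 0 (em n m1 m2 a b σ)) F
      = (n : ℝ) ^ 2 / 4 := by
    have e1 : (inc Plane 0 (em n m1 m2 a b σ)) F
        = ∑ i ∈ range n, ∑ j ∈ range n, (cw n m1 i * cw n m2 j)
          * tf m1 m2 a b r (pp (a + i * σ) (b + j * σ)) := by
      unfold em
      rw [map_sum, _root_.sum_apply]
      apply sum_congr rfl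
      intro i _
      rw [map_sum, _root_.sum_apply]
      apply sum_congr rfl
      intro j _
      rw [map_smul, inc_dp, smul_apply, smul_eq_mul, dlt_apply]
      rfl
    rw [e1]
    set c0 := cos (2 * π * m1 * (0 - a) / r) * cos (2 * π * m2 * (0 - b) / r) with hc0
    have e2 : ∀ i j : ℕ, tf m1 m2 a b r (pp (a + i * σ) (b + j * σ)) = cw n m1 i * cw n m2 j - c0 := by
      intro i j
      unfold tf cw
      rw [pp_zero, pp_one, ← hc0]
      have a1 : 2 * π * m1 * (a + i * σ - a) / r = 2 * π * m1 * i / n := by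
        rw [hr]; field_simp; ring
      have a2 : 2 * π * m2 * (b + j * σ - b) / r = 2 * π * m2 * j / n := by
        rw [hr]; field_simp; ring
      rw [a1, a2]
    simp only [e2]
    have e3 : ∀ i j : ℕ, cw n m1 i * cw n m2 j * (cw n m1 i * cw n m2 j - c0)
        = (cw n m1 i * cw n m1 i) * (cw n m2 j * cw n m2 j) - cw n m1 i * (cw n m2 j * c0) := by
      intros; ring
    simp only [e3, sum_sub_distrib, ← mul_sum, ← sum_mul]
    rw [cw_orth n m1 m1 h1 h1' h1 h1', cw_orth n m2 m2 h2 h2' h2 h2', if_pos rfl, if_pos rfl,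
      cw_sum n m1 h1 (by omega)]
    ring
  calc (n : ℝ) ^ 2 / 4 = (inc Plane 0 (em n m1 m2 a b σ)) F :=
        hval.symm
    _ ≤ ‖(inc Plane 0 (em n m1 m2 a b σ)) F‖ := le_abs_self _
    _ ≤ ‖(inc Plane 0 (em n m1 m2 a b σ))‖ * ‖F‖ :=
        ContinuousLinearMap.le_opNorm _ _
    _ ≤ _ := mul_le_mul_of_nonneg_left hFn (norm_nonneg _)

/-- Main theorem: no linear embedding. -/
theorem no_embedding (c : ℝ) (hc : 0 < c) (hT : ∀ μ, c * ‖μ‖ ≤ ‖T μ‖) : False := by
  have hπ := Real.pi_pos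
  obtain ⟨N, hN1, hN⟩ := diverge (((1 + 4 * ‖T‖) * (8 * π) / c) ^ 2)
  set S : ℝ := Real.sqrt (∑ m ∈ idx N, (1 / ((m.1 : ℝ) + m.2)) ^ 2) with hS
  have hS0 : 0 ≤ S := Real.sqrt_nonneg _
  have hSsq : S ^ 2 = ∑ m ∈ idx N, (1 / ((m.1 : ℝ) + m.2)) ^ 2 :=
    Real.sq_sqrt (sum_nonneg fun _ _ => sq_nonneg _)
  have hSbig : (1 + 4 * ‖T‖) * (8 * π) / c < S := by
    rw [hS]
    apply Real.lt_sqrt_of_sq_lt
    exact hN
  have hShalf : 1 / 2 ≤ S := by
    rw [hS]
    apply Real.le_sqrt_of_sq_le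
    have h1 : ((1 : ℕ), (1 : ℕ)) ∈ idx N := by
      rw [idx, mem_product, mem_Icc]; exact ⟨⟨le_rfl, hN1⟩, ⟨le_rfl, hN1⟩⟩
    refine le_trans ?_ (single_le_sum (f := fun m : ℕ × ℕ => (1 / ((m.1 : ℝ) + m.2)) ^ 2)
      (fun _ _ => sq_nonneg _) h1)
    norm_num
  have hNp : (0 : ℝ) < N := by exact_mod_cast hN1
  set n : ℕ := 2 * N + 1 with hn
  have hnp : (0 : ℝ) < n := by positivity
  set ε : ℝ := 1 / (8 * N ^ 2) with hε
  have hεp : 0 < ε := by positivity
  obtain ⟨a, b, σ, Ds, hσ, hprop⟩ := propagate (TA T) (5 * ‖T‖) (by positivity) (TA_lip T)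
    (TA_app T) ε hεp n (by omega)
  set B : ℕ → ℕ → StrongDual ℝ (Lip0 ZZ (0, 0)) := fun i j => TA T (a + i * σ) (b + j * σ) with hB
  set ε' : ℝ := n * σ / (4 * N ^ 2) with hε'
  have hε'p : 0 < ε' := by positivity
  -- choose q
  have hqex : ∀ᶠ q : ℕ in Filter.atTop, ∀ i ∈ range n, ∀ j ∈ range n, ∀ f : Lip0 Lines lo,
      |Tx T (a + i * σ) (b + j * σ) (f - J (Res f))
        - ∑ ω ∈ Om q, gr q f ω * Tx T (a + i * σ) (b + j * σ) (psi q ω)| ≤ ε' * ‖f‖ := by
    rw [Filter.eventually_all_finset]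
    intro i _
    rw [Filter.eventually_all_finset]
    intro j _
    exact psi_lower _ (Tx_mem T _ _) ε' hε'p
  obtain ⟨q, hq, hq1⟩ := (hqex.and (Filter.eventually_ge_atTop 1)).exists
  have hqp : (0 : ℝ) < q := by exact_mod_cast hq1
  set X : ℕ → ℕ → StrongDual ℝ (Lip0 Lines lo) := fun i j => Tx T (a + i * σ) (b + j * σ) with hX
  set bω : ℤ × (ℕ × ℕ) → ℕ → ℕ → ℝ := fun ω i j => X i j (psi q ω) with hbω
  have hw : ∀ m1 m2 i j : ℕ, |cw n m1 i * cw n m2 j| ≤ 1 := by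
    intro m1 m2 i j
    rw [abs_mul]
    exact mul_le_one₀ (abs_cw_le _ _ _) (abs_nonneg _) (abs_cw_le _ _ _)
  -- bound for each m
  have hm : ∀ m ∈ idx N, c * ((n : ℝ) ^ 3 * σ / (8 * π)) * (1 / ((m.1 : ℝ) + m.2))
      ≤ (2 * ε * n ^ 3 * σ + n ^ 2 * ε') + (1 / q) * ∑ ω ∈ Om q, |pr n m.1 m.2 (bω ω)| := by
    intro m hm
    rw [idx, mem_product, mem_Icc, mem_Icc] at hm
    obtain ⟨⟨hm1, hm1'⟩, hm2, hm2'⟩ := hm
    have hms : (0 : ℝ) < (m.1 : ℝ) + m.2 := by positivity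
    have l1 := em_lower n m.1 m.2 hm1 (by omega) hm2 (by omega) a b σ hσ
    have l2 : c * ((n : ℝ) ^ 3 * σ / (8 * π)) * (1 / ((m.1 : ℝ) + m.2))
        ≤ c * ‖em n m.1 m.2 a b σ‖ := by
      rw [mul_assoc]
      apply mul_le_mul_of_nonneg_left _ hc.le
      have : (n : ℝ) ^ 3 * σ / (8 * π) * (1 / ((m.1 : ℝ) + m.2))
          = ((n : ℝ) ^ 2 / 4) / (2 * π * (m.1 + m.2) / (n * σ)) := by
        field_simp
        ring
      rw [this, div_le_iff₀ (by positivity)]
      exact l1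
    refine l2.trans ((hT _).trans ?_)
    set ν : StrongDual ℝ (Lip0 Lines lo) := ∑ i ∈ range n, ∑ j ∈ range n,
      (cw n m.1 i * cw n m.2 j) • X i j with hν
    have l3 : ‖T (em n m.1 m.2 a b σ)‖ = ‖ν‖ := by
      have : ν = inc Lines lo (T (em n m.1 m.2 a b σ)) := by
        unfold em
        rw [map_sum, map_sum, hν]
        apply sum_congr rfl
        intro i _
        rw [map_sum, map_sum]
        apply sum_congr rfl
        intro j _
        rw [map_smul, map_smul]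
        rfl
      rw [this]
      rfl
    rw [l3]
    have hνa : ∀ f, ν f = ∑ i ∈ range n, ∑ j ∈ range n, (cw n m.1 i * cw n m.2 j) * X i j f := by
      intro f
      rw [hν, _root_.sum_apply]
      apply sum_congr rfl
      intro i _
      rw [_root_.sum_apply]
      rfl
    have hpos1 : 0 ≤ (1 / (q : ℝ)) * ∑ ω ∈ Om q, |pr n m.1 m.2 (bω ω)| :=
      mul_nonneg (by positivity) (sum_nonneg fun _ _ => abs_nonneg _)
    apply ContinuousLinearMap.opNorm_le_bound _ (by positivity)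
    intro f
    have s1 : ν f = ν (J (Res f)) + ν (f - J (Res f)) := by rw [map_sub]; ring
    have s2 : |ν (J (Res f))| ≤ 2 * ε * n ^ 3 * σ * ‖f‖ := by
      have k1 := kill n m.1 m.2 hm1 (by omega) hm2 (by omega) B (σ • Ds) (ε * n ^ 2 * σ) (by
        simpa only [hB] using hprop)
      have k2 : ν (J (Res f)) = (∑ i ∈ range n, ∑ j ∈ range n,
          (cw n m.1 i * cw n m.2 j) • B i j) (Res f) := by
        rw [hνa, _root_.sum_apply]
        apply sum_congr rfl
        intro i _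
        rw [_root_.sum_apply]
        rfl
      rw [k2]
      calc _ ≤ ‖∑ i ∈ range n, ∑ j ∈ range n, (cw n m.1 i * cw n m.2 j) • B i j‖ * ‖Res f‖ :=
            ContinuousLinearMap.le_opNorm _ _
        _ ≤ (n * (ε * n ^ 2 * σ)) * (2 * ‖f‖) :=
            mul_le_mul k1 (norm_Res_le f) (norm_nonneg _) (by positivity)
        _ = _ := by ring
    have s3 : |ν (f - J (Res f)) - ∑ ω ∈ Om q, gr q f ω * pr n m.1 m.2 (bω ω)|
        ≤ n ^ 2 * ε' * ‖f‖ := by
      have e1 : ∑ ω ∈ Om q, gr q f ω * pr n m.1 m.2 (bω ω)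
          = ∑ i ∈ range n, ∑ j ∈ range n, (cw n m.1 i * cw n m.2 j) *
            ∑ ω ∈ Om q, gr q f ω * X i j (psi q ω) := by
        simp only [pr, mul_sum]
        rw [sum_comm]
        apply sum_congr rfl
        intro i _
        rw [sum_comm]
        apply sum_congr rfl
        intro j _
        apply sum_congr rfl
        intro ω _
        simp only [hbω]
        ring
      rw [hνa, e1, ← sum_sub_distrib]
      calc _ ≤ ∑ i ∈ range n, ∑ j ∈ range n, ε' * ‖f‖ := by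
            refine (abs_sum_le_sum_abs _ _).trans ?_
            apply sum_le_sum
            intro i hi
            rw [← sum_sub_distrib]
            refine (abs_sum_le_sum_abs _ _).trans ?_
            apply sum_le_sum
            intro j hj
            rw [← mul_sub, abs_mul]
            calc _ ≤ 1 * (ε' * ‖f‖) :=
                  mul_le_mul (hw _ _ _ _) (hq i hi j hj f) (abs_nonneg _) zero_le_one
              _ = _ := one_mul _
        _ = _ := by
            rw [sum_const, sum_const, card_range, nsmul_eq_mul, nsmul_eq_mul]; ring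
    have s4 : |∑ ω ∈ Om q, gr q f ω * pr n m.1 m.2 (bω ω)|
        ≤ (1 / q) * (∑ ω ∈ Om q, |pr n m.1 m.2 (bω ω)|) * ‖f‖ := by
      calc _ ≤ ∑ ω ∈ Om q, |gr q f ω * pr n m.1 m.2 (bω ω)| := abs_sum_le_sum_abs _ _
        _ ≤ ∑ ω ∈ Om q, (‖f‖ / q) * |pr n m.1 m.2 (bω ω)| := by
            apply sum_le_sum
            intro ω _
            rw [abs_mul]
            exact mul_le_mul_of_nonneg_right (gr_le q hq1 f ω) (abs_nonneg _)
        _ = _ := by rw [← mul_sum]; ring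
    rw [Real.norm_eq_abs, s1]
    calc |ν (J (Res f)) + ν (f - J (Res f))|
        = |ν (J (Res f)) + (ν (f - J (Res f)) - ∑ ω ∈ Om q, gr q f ω * pr n m.1 m.2 (bω ω))
          + ∑ ω ∈ Om q, gr q f ω * pr n m.1 m.2 (bω ω)| := by congr 1; ring
      _ ≤ |ν (J (Res f))| + |ν (f - J (Res f)) - ∑ ω ∈ Om q, gr q f ω * pr n m.1 m.2 (bω ω)|
          + |∑ ω ∈ Om q, gr q f ω * pr n m.1 m.2 (bω ω)| := abs_add_three _ _ _
      _ ≤ 2 * ε * n ^ 3 * σ * ‖f‖ + n ^ 2 * ε' * ‖f‖
          + (1 / q) * (∑ ω ∈ Om q, |pr n m.1 m.2 (bω ω)|) * ‖f‖ := by linarith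
      _ = _ := by ring
  -- sum over m
  set cm : ℕ × ℕ → ℝ := fun m => 1 / ((m.1 : ℝ) + m.2) with hcm
  have hcm0 : ∀ m, 0 ≤ cm m := fun m => by simp only [hcm]; positivity
  have hcm1 : ∀ m ∈ idx N, cm m ≤ 1 := by
    intro m hm
    rw [idx, mem_product, mem_Icc, mem_Icc] at hm
    have : (1 : ℝ) ≤ m.1 := by exact_mod_cast hm.1.1
    have : (0 : ℝ) ≤ m.2 := by positivity
    simp only [hcm]
    rw [div_le_one (by linarith)]
    linarith
  have hcard : ∑ m ∈ idx N, cm m ≤ N ^ 2 := by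
    calc _ ≤ ∑ m ∈ idx N, (1 : ℝ) := sum_le_sum hcm1
      _ = _ := by
        rw [sum_const, idx, card_product, Nat.card_Icc, nsmul_eq_mul]
        push_cast
        simp
        ring
  have hsumm : c * ((n : ℝ) ^ 3 * σ / (8 * π)) * S ^ 2
      ≤ (2 * ε * n ^ 3 * σ + n ^ 2 * ε') * N ^ 2
        + (1 / q) * ∑ ω ∈ Om q, (S * (n / 2) * tv n (bω ω)) := by
    have e1 : c * ((n : ℝ) ^ 3 * σ / (8 * π)) * S ^ 2
        = ∑ m ∈ idx N, cm m * (c * ((n : ℝ) ^ 3 * σ / (8 * π)) * (1 / ((m.1 : ℝ) + m.2))) := by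
      rw [hSsq, mul_sum]
      apply sum_congr rfl
      intro m _
      simp only [hcm]
      ring
    rw [e1]
    calc _ ≤ ∑ m ∈ idx N, cm m * ((2 * ε * n ^ 3 * σ + n ^ 2 * ε')
          + (1 / q) * ∑ ω ∈ Om q, |pr n m.1 m.2 (bω ω)|) :=
          sum_le_sum fun m hm' => mul_le_mul_of_nonneg_left (hm m hm') (hcm0 m)
      _ = (2 * ε * n ^ 3 * σ + n ^ 2 * ε') * ∑ m ∈ idx N, cm m
          + (1 / q) * ∑ ω ∈ Om q, ∑ m ∈ idx N, cm m * |pr n m.1 m.2 (bω ω)| := by
          simp only [mul_add, sum_add_distrib]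
          congr 1
          · rw [add_mul, mul_sum, mul_sum]
            congr 1
            · apply sum_congr rfl
              intro m _
              ring
            · apply sum_congr rfl
              intro m _
              ring
          · rw [sum_comm, mul_sum]
            apply sum_congr rfl
            intro m _
            rw [mul_sum, mul_sum, mul_sum]
            apply sum_congr rfl
            intro ω _
            ring
      _ ≤ _ := by
          apply add_le_add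
          · exact mul_le_mul_of_nonneg_left hcard (by positivity)
          · apply mul_le_mul_of_nonneg_left _ (by positivity)
            apply sum_le_sum
            intro ω _
            exact kis_scalar N n (by omega) cm S hS0 (le_of_eq hSsq.symm) (bω ω)
  have htv : ∑ ω ∈ Om q, tv n (bω ω) ≤ 8 * n ^ 2 * q * ‖T‖ * σ := by
    have hedge : ∀ i j i' j' : ℕ, ‖X i j - X i' j'‖ ≤ ‖T‖ * (|((i : ℝ) - i')| * σ + |((j : ℝ) - j')| * σ) := by
      intro i j i' j'
      refine (Tx_lip T _ _ _ _).trans ?_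
      have a1 : a + i * σ - (a + i' * σ) = ((i : ℝ) - i') * σ := by ring
      have a2 : b + j * σ - (b + j' * σ) = ((j : ℝ) - j') * σ := by ring
      rw [a1, a2, abs_mul, abs_mul, abs_of_pos hσ]
    have hup : ∀ i j i' j' : ℕ, ‖X i j - X i' j'‖ ≤ ‖T‖ * σ →
        ∑ ω ∈ Om q, |bω ω i j - bω ω i' j'| ≤ 4 * q * (‖T‖ * σ) := by
      intro i j i' j' h
      have h1 := psi_upper q hq1 (X i j - X i' j')
      calc _ = ∑ ω ∈ Om q, |(X i j - X i' j') (psi q ω)| := rfl
        _ ≤ 4 * q * ‖X i j - X i' j'‖ := h1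
        _ ≤ _ := mul_le_mul_of_nonneg_left h (by positivity)
    have hx : ∀ i j : ℕ, ‖X (i + 1) j - X i j‖ ≤ ‖T‖ * σ := by
      intro i j
      have := hedge (i + 1) j i j
      push_cast at this
      simpa using this
    have hy : ∀ i j : ℕ, ‖X i (j + 1) - X i j‖ ≤ ‖T‖ * σ := by
      intro i j
      have := hedge i (j + 1) i j
      push_cast at this
      simpa using this
    simp only [tv, sum_add_distrib]
    have t1 : ∑ ω ∈ Om q, ∑ j ∈ range n, ∑ i ∈ range n, |bω ω (i + 1) j - bω ω i j|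
        ≤ n ^ 2 * (4 * q * (‖T‖ * σ)) := by
      rw [sum_comm]
      calc _ ≤ ∑ j ∈ range n, ∑ i ∈ range n, 4 * q * (‖T‖ * σ) := by
            apply sum_le_sum
            intro j _
            rw [sum_comm]
            apply sum_le_sum
            intro i _
            exact hup (i + 1) j i j (hx i j)
        _ = _ := by
            rw [sum_const, sum_const, card_range, nsmul_eq_mul, nsmul_eq_mul]; ring
    have t2 : ∑ ω ∈ Om q, ∑ i ∈ range n, ∑ j ∈ range n, |bω ω i (j + 1) - bω ω i j|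
        ≤ n ^ 2 * (4 * q * (‖T‖ * σ)) := by
      rw [sum_comm]
      calc _ ≤ ∑ i ∈ range n, ∑ j ∈ range n, 4 * q * (‖T‖ * σ) := by
            apply sum_le_sum
            intro i _
            rw [sum_comm]
            apply sum_le_sum
            intro j _
            exact hup i (j + 1) i j (hy i j)
        _ = _ := by
            rw [sum_const, sum_const, card_range, nsmul_eq_mul, nsmul_eq_mul]; ring
    linarith
  have hfin : c * ((n : ℝ) ^ 3 * σ / (8 * π)) * S ^ 2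
      ≤ (n : ℝ) ^ 3 * σ * (S + 4 * ‖T‖ * S) := by
    have f1 : (1 / q) * ∑ ω ∈ Om q, (S * (n / 2) * tv n (bω ω))
        ≤ (n : ℝ) ^ 3 * σ * (4 * ‖T‖ * S) := by
      rw [← mul_sum]
      calc (1 / (q : ℝ)) * (S * (n / 2) * ∑ ω ∈ Om q, tv n (bω ω))
          ≤ (1 / (q : ℝ)) * (S * (n / 2) * (8 * n ^ 2 * q * ‖T‖ * σ)) := by
            apply mul_le_mul_of_nonneg_left _ (by positivity)
            exact mul_le_mul_of_nonneg_left htv (by positivity)
        _ = _ := by field_simp; ring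
    have f2 : (2 * ε * n ^ 3 * σ + n ^ 2 * ε') * N ^ 2 = (n : ℝ) ^ 3 * σ * (1 / 2) := by
      rw [hε, hε']
      field_simp
      ring
    rw [f2] at hsumm
    have f3 : (n : ℝ) ^ 3 * σ * (1 / 2) ≤ (n : ℝ) ^ 3 * σ * S :=
      mul_le_mul_of_nonneg_left hShalf (by positivity)
    linarith
  have hSp : 0 < S := by linarith
  have g1 : c * S / (8 * π) ≤ 1 + 4 * ‖T‖ := by
    have e1 : c * ((n : ℝ) ^ 3 * σ / (8 * π)) * S ^ 2 = ((n : ℝ) ^ 3 * σ * S) * (c * S / (8 * π)) := by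
      ring
    have e2 : (n : ℝ) ^ 3 * σ * (S + 4 * ‖T‖ * S) = ((n : ℝ) ^ 3 * σ * S) * (1 + 4 * ‖T‖) := by ring
    rw [e1, e2] at hfin
    exact le_of_mul_le_mul_left hfin (by positivity)
  rw [div_lt_iff₀ hc] at hSbig
  rw [div_le_iff₀ (by positivity)] at g1
  linarith

end main

instance (M : Type) [MetricSpace M] (o : M) : CompleteSpace (FreeSp M o) :=
  (Submodule.isClosed_topologicalClosure (Submodule.span ℝ (Set.range (dlt M o)))).completeSpace_coe

/-- no bounded linear bijection -/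
theorem no_bijection : ¬ ∃ T : FreeSp Lines lo →L[ℝ] FreeSp Plane 0, Function.Bijective T := by
  rintro ⟨T, hT⟩
  let e : FreeSp Lines lo ≃L[ℝ] FreeSp Plane 0 := ContinuousLinearEquiv.ofBijective T
    (LinearMap.ker_eq_bot.2 hT.1) (LinearMap.range_eq_top.2 hT.2)
  have hp : 0 < ‖(e : FreeSp Lines lo →L[ℝ] FreeSp Plane 0)‖ + 1 := by positivity
  apply no_embedding (e.symm : FreeSp Plane 0 →L[ℝ] FreeSp Lines lo)
    (1 / (‖(e : FreeSp Lines lo →L[ℝ] FreeSp Plane 0)‖ + 1)) (by positivity)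
  intro μ
  have h1 : ‖μ‖ ≤ ‖(e : FreeSp Lines lo →L[ℝ] FreeSp Plane 0)‖ * ‖e.symm μ‖ := by
    have := (e : FreeSp Lines lo →L[ℝ] FreeSp Plane 0).le_opNorm (e.symm μ)
    simpa using this
  have h2 : 0 ≤ ‖e.symm μ‖ := norm_nonneg _
  rw [one_div, inv_mul_le_iff₀ hp]
  change ‖μ‖ ≤ _ * ‖e.symm μ‖
  nlinarith

end Pool.Agent.H266R3.LF
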