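import Mathlib

set_option autoImplicit false

noncomputable section

namespace Pool.Agent.H266R3.LF

open Finset Real

theorem two_sin_mul_sum_cos (θ : ℝ) (n : ℕ) :
    2 * sin (θ / 2) * ∑ i ∈ range n, cos (i * θ) = sin (n * θ - θ / 2) + sin (θ / 2) := by
  induction n with
  | zero => simp
  | succ n ih =>
    rw [sum_range_succ, mul_add, ih]
    have h1 : ((n + 1 : ℕ) : ℝ) * θ - θ / 2 = n * θ + θ / 2 := by push_cast; ring
    rw [h1, sin_add, sin_sub]
    ring

theorem cos_sum_zero (n : ℕ) (k : ℤ) (h0 : k ≠ 0) (hk : |k| < n) :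
    ∑ i ∈ range n, cos (2 * π * k * i / n) = 0 := by
  have hn : 0 < n := by
    have := abs_nonneg k
    omega
  have hn' : (0 : ℝ) < n := by exact_mod_cast hn
  have h1 := two_sin_mul_sum_cos (2 * π * k / n) n
  have h2 : (n : ℝ) * (2 * π * k / n) - 2 * π * k / n / 2 = k * (2 * π) - π * k / n := by
    field_simp
  have h3 : 2 * π * k / n / 2 = π * k / n := by ring
  rw [h2, h3] at h1
  have h4 : sin ((k : ℝ) * (2 * π) - π * k / n) = - sin (π * k / n) := by
    rw [Real.sin_int_mul_two_pi_sub]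
  rw [h4, neg_add_cancel] at h1
  have h5 : sin (π * k / n) ≠ 0 := by
    intro h
    rw [Real.sin_eq_zero_iff] at h
    obtain ⟨l, hl⟩ := h
    have h6 : (l : ℝ) * n = k := by
      have : (l : ℝ) * π * n = π * k := by
        rw [hl]; field_simp
      have hpi := Real.pi_pos
      have : π * ((l : ℝ) * n) = π * k := by linarith
      exact mul_left_cancel₀ hpi.ne' this
    have h7 : l * n = k := by exact_mod_cast h6
    have h8 : l ≠ 0 := by
      rintro rfl
      simp at h7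
      exact h0 h7.symm
    have h9 : (1 : ℤ) ≤ |l| := Int.one_le_abs h8
    rw [← h7, abs_mul] at hk
    have h10 : |(n : ℤ)| = n := abs_of_nonneg (by positivity)
    rw [h10] at hk
    nlinarith
  have h6 : ∑ i ∈ range n, cos (i * (2 * π * k / n)) = 0 := by
    rcases mul_eq_zero.1 h1 with h | h
    · rcases mul_eq_zero.1 h with h | h
      · norm_num at h
      · exact absurd h h5
    · exact h
  rw [← h6]
  apply sum_congr rfl
  intro i _
  congr 1
  ring

/-- the weights -/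
def cw (n m i : ℕ) : ℝ := cos (2 * π * m * i / n)

theorem cw_sum (n m : ℕ) (h1 : 1 ≤ m) (h2 : m < n) : ∑ i ∈ range n, cw n m i = 0 := by
  have := cos_sum_zero n (m : ℤ) (by omega) (by rw [abs_of_nonneg (by positivity)]; exact_mod_cast h2)
  simpa [cw] using this

theorem cw_orth (n m m' : ℕ) (h1 : 1 ≤ m) (h2 : 2 * m < n) (h1' : 1 ≤ m') (h2' : 2 * m' < n) :
    ∑ i ∈ range n, cw n m i * cw n m' i = if m = m' then (n : ℝ) / 2 else 0 := by
  have hn : 0 < n := by omega
  have e1 : ∀ i : ℕ, cw n m i * cw n m' i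
      = (cos (2 * π * ((m : ℤ) - (m' : ℤ) : ℤ) * i / n)
        + cos (2 * π * ((m : ℤ) + (m' : ℤ) : ℤ) * i / n)) / 2 := by
    intro i
    unfold cw
    have a1 : 2 * π * ((m : ℤ) - (m' : ℤ) : ℤ) * i / n
      = 2 * π * m * i / n - 2 * π * m' * i / n := by push_cast; ring
    have a2 : 2 * π * ((m : ℤ) + (m' : ℤ) : ℤ) * i / n
      = 2 * π * m * i / n + 2 * π * m' * i / n := by push_cast; ring
    rw [a1, a2, cos_sub, cos_add]
    ring
  rw [sum_congr rfl (fun i _ => e1 i), ← sum_div, sum_add_distrib]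
  have e2 : ∑ i ∈ range n, cos (2 * π * ((m : ℤ) + (m' : ℤ) : ℤ) * i / n) = 0 := by
    apply cos_sum_zero
    · omega
    · rw [abs_lt]; omega
  rw [e2, add_zero]
  split_ifs with h
  · subst h
    simp
  · rw [cos_sum_zero]
    · simp
    · omega
    · rw [abs_lt]; omega

theorem abs_cw_le (n m i : ℕ) : |cw n m i| ≤ 1 := abs_cos_le_one _

/-- variation bound -/
theorem abs_sub_le_var (x : ℕ → ℝ) (n i i' : ℕ) (hi : i < n) (hi' : i' < n) :
    |x i - x i'| ≤ ∑ l ∈ range n, |x (l + 1) - x l| := by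
  have key : ∀ a b : ℕ, a ≤ b → b < n → |x b - x a| ≤ ∑ l ∈ range n, |x (l + 1) - x l| := by
    intro a b hab hb
    have h1 : x b - x a = ∑ l ∈ Ico a b, (x (l + 1) - x l) := by
      rw [Finset.sum_Ico_sub x hab]
    rw [h1]
    refine (Finset.abs_sum_le_sum_abs _ _).trans ?_
    apply Finset.sum_le_sum_of_subset_of_nonneg
    · intro l hl
      simp only [mem_Ico, mem_range] at hl ⊢
      omega
    · intros; positivity
  rcases le_total i' i with h | h
  · exact key i' i h hi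
  · rw [abs_sub_comm]; exact key i i' h hi'

theorem abs_sub_avg_le (x : ℕ → ℝ) (n i : ℕ) (hi : i < n) :
    |x i - (∑ i' ∈ range n, x i') / n| ≤ ∑ l ∈ range n, |x (l + 1) - x l| := by
  have hn : (0 : ℝ) < n := by
    have : 0 < n := by omega
    exact_mod_cast this
  have h1 : x i - (∑ i' ∈ range n, x i') / n = (∑ i' ∈ range n, (x i - x i')) / n := by
    rw [sum_sub_distrib, sum_const, card_range, nsmul_eq_mul]
    field_simp
  rw [h1, abs_div, abs_of_pos hn, div_le_iff₀ hn]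
  refine (Finset.abs_sum_le_sum_abs _ _).trans ?_
  calc ∑ i' ∈ range n, |x i - x i'| ≤ ∑ i' ∈ range n, ∑ l ∈ range n, |x (l + 1) - x l| := by
        apply sum_le_sum
        intro i' hi'
        exact abs_sub_le_var x n i i' hi (mem_range.1 hi')
    _ = _ := by
        rw [sum_const, card_range, nsmul_eq_mul, mul_comm]

/-- total variation of a matrix -/
def tv (n : ℕ) (b : ℕ → ℕ → ℝ) : ℝ :=
  (∑ j ∈ range n, ∑ i ∈ range n, |b (i + 1) j - b i j|)
    + ∑ i ∈ range n, ∑ j ∈ range n, |b i (j + 1) - b i j|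

theorem abs_avg_le (x : ℕ → ℝ) (r : ℕ → ℝ) (n : ℕ) (h : ∀ i < n, |x i| ≤ r i) :
    |(∑ i ∈ range n, x i) / n| ≤ (∑ i ∈ range n, r i) / n := by
  rw [abs_div]
  have : |(n : ℝ)| = n := abs_of_nonneg (by positivity)
  rw [this]
  gcongr
  refine (Finset.abs_sum_le_sum_abs _ _).trans ?_
  exact sum_le_sum fun i hi => h i (mem_range.1 hi)

/-- double centring -/
theorem centred_bound (n : ℕ) (b : ℕ → ℕ → ℝ) :
    ∃ (A B : ℕ → ℝ), ∑ i ∈ range n, ∑ j ∈ range n, (b i j - A j - B i) ^ 2 ≤ (tv n b) ^ 2 := by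
  rcases Nat.eq_zero_or_pos n with rfl | hn
  · exact ⟨0, 0, by simp [tv]⟩
  have hn' : (0 : ℝ) < n := by exact_mod_cast hn
  set R : ℕ → ℝ := fun j => ∑ i ∈ range n, |b (i + 1) j - b i j| with hR
  set S : ℕ → ℝ := fun i => ∑ j ∈ range n, |b i (j + 1) - b i j| with hS
  set A : ℕ → ℝ := fun j => (∑ i ∈ range n, b i j) / n with hA
  set C : ℕ → ℝ := fun i => (∑ j ∈ range n, b i j) / n with hC
  set D : ℝ := (∑ j ∈ range n, A j) / n with hD
  have hD' : D = (∑ i ∈ range n, C i) / n := by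
    simp only [hD, hA, hC]
    rw [← sum_div, ← sum_div, sum_comm]
  refine ⟨A, fun i => C i - D, ?_⟩
  have hRb : ∀ i < n, ∀ j, |b i j - A j| ≤ R j := by
    intro i hi j
    exact abs_sub_avg_le (fun i => b i j) n i hi
  have hSb : ∀ i, ∀ j < n, |b i j - C i| ≤ S i := by
    intro i j hj
    exact abs_sub_avg_le (fun j => b i j) n j hj
  have h1 : ∀ i < n, |C i - D| ≤ (∑ j ∈ range n, R j) / n := by
    intro i hi
    have : C i - D = (∑ j ∈ range n, (b i j - A j)) / n := by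
      rw [sum_sub_distrib, sub_div]
    rw [this]
    exact abs_avg_le _ _ _ fun j _ => hRb i hi j
  have h2 : ∀ j < n, |A j - D| ≤ (∑ i ∈ range n, S i) / n := by
    intro j hj
    have : A j - D = (∑ i ∈ range n, (b i j - C i)) / n := by
      rw [sum_sub_distrib, sub_div, ← hD']
    rw [this]
    exact abs_avg_le _ _ _ fun i _ => hSb i j hj
  set Rb : ℝ := (∑ j ∈ range n, R j) / n
  set Sb : ℝ := (∑ i ∈ range n, S i) / n
  have hR0 : ∀ j, 0 ≤ R j := fun j => sum_nonneg fun _ _ => abs_nonneg _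
  have hS0 : ∀ i, 0 ≤ S i := fun j => sum_nonneg fun _ _ => abs_nonneg _
  have hRb0 : 0 ≤ Rb := div_nonneg (sum_nonneg fun _ _ => hR0 _) hn'.le
  have hSb0 : 0 ≤ Sb := div_nonneg (sum_nonneg fun _ _ => hS0 _) hn'.le
  have h3 : ∀ i ∈ range n, ∀ j ∈ range n, (b i j - A j - (C i - D)) ^ 2 ≤ (R j + Rb) * (S i + Sb) := by
    intro i hi j hj
    rw [mem_range] at hi hj
    have a1 : |b i j - A j - (C i - D)| ≤ R j + Rb := by
      calc _ ≤ |b i j - A j| + |C i - D| := abs_sub _ _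
        _ ≤ _ := add_le_add (hRb i hi j) (h1 i hi)
    have a2 : |b i j - A j - (C i - D)| ≤ S i + Sb := by
      have : b i j - A j - (C i - D) = (b i j - C i) - (A j - D) := by ring
      rw [this]
      calc _ ≤ |b i j - C i| + |A j - D| := abs_sub _ _
        _ ≤ _ := add_le_add (hSb i j hj) (h2 j hj)
    rw [← sq_abs, sq]
    have := hR0 j
    have := hS0 i
    exact mul_le_mul a1 a2 (abs_nonneg _) (by positivity)
  have h4 : ∑ i ∈ range n, ∑ j ∈ range n, (R j + Rb) * (S i + Sb)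
      = (2 * ∑ j ∈ range n, R j) * (2 * ∑ i ∈ range n, S i) := by
    have e1 : ∑ j ∈ range n, (R j + Rb) = 2 * ∑ j ∈ range n, R j := by
      rw [sum_add_distrib, sum_const, card_range, nsmul_eq_mul]
      simp only [Rb]
      field_simp
      ring
    have e2 : ∑ i ∈ range n, (S i + Sb) = 2 * ∑ i ∈ range n, S i := by
      rw [sum_add_distrib, sum_const, card_range, nsmul_eq_mul]
      simp only [Sb]
      field_simp
      ring
    rw [← e1, ← e2, sum_mul_sum, sum_comm]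
  calc _ ≤ ∑ i ∈ range n, ∑ j ∈ range n, (R j + Rb) * (S i + Sb) :=
        sum_le_sum fun i hi => sum_le_sum fun j hj => h3 i hi j hj
    _ = (2 * ∑ j ∈ range n, R j) * (2 * ∑ i ∈ range n, S i) := h4
    _ ≤ (tv n b) ^ 2 := by
        have : tv n b = (∑ j ∈ range n, R j) + ∑ i ∈ range n, S i := rfl
        rw [this]
        nlinarith [sq_nonneg ((∑ j ∈ range n, R j) - ∑ i ∈ range n, S i)]

/-- pairing with the product weight -/
def pr (n m1 m2 : ℕ) (b : ℕ → ℕ → ℝ) : ℝ :=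
  ∑ i ∈ range n, ∑ j ∈ range n, cw n m1 i * cw n m2 j * b i j

/-- index set -/
def idx (N : ℕ) : Finset (ℕ × ℕ) := Icc 1 N ×ˢ Icc 1 N

theorem bessel (N n : ℕ) (hn : 2 * N < n) (d : ℕ × ℕ → ℝ) (b : ℕ → ℕ → ℝ) :
    (∑ m ∈ idx N, d m * pr n m.1 m.2 b) ^ 2
      ≤ (n / 2 : ℝ) ^ 2 * (∑ m ∈ idx N, d m ^ 2) * ∑ i ∈ range n, ∑ j ∈ range n, b i j ^ 2 := by
  have e1 : ∑ m ∈ idx N, d m * pr n m.1 m.2 b
      = ∑ x ∈ range n ×ˢ range n, (∑ m ∈ idx N, d m * (cw n m.1 x.1 * cw n m.2 x.2)) * b x.1 x.2 := by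
    simp only [pr, mul_sum, sum_mul]
    symm
    rw [sum_comm]
    apply sum_congr rfl
    intro m _
    rw [sum_product]
    apply sum_congr rfl
    intro i _
    apply sum_congr rfl
    intro j _
    ring
  have e2 : ∑ x ∈ range n ×ˢ range n, (∑ m ∈ idx N, d m * (cw n m.1 x.1 * cw n m.2 x.2)) ^ 2
      = (n / 2 : ℝ) ^ 2 * (∑ m ∈ idx N, d m ^ 2) := by
    have a1 : ∀ x : ℕ × ℕ, (∑ m ∈ idx N, d m * (cw n m.1 x.1 * cw n m.2 x.2)) ^ 2
        = ∑ m ∈ idx N, ∑ m' ∈ idx N, d m * d m' *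
          ((cw n m.1 x.1 * cw n m'.1 x.1) * (cw n m.2 x.2 * cw n m'.2 x.2)) := by
      intro x
      rw [sq, sum_mul_sum]
      apply sum_congr rfl
      intro m _
      apply sum_congr rfl
      intro m' _
      ring
    rw [sum_congr rfl (fun x _ => a1 x), sum_comm, mul_sum]
    apply sum_congr rfl
    intro m hm
    rw [sum_comm]
    have a2 : ∀ m' ∈ idx N, ∑ x ∈ range n ×ˢ range n, d m * d m' *
          ((cw n m.1 x.1 * cw n m'.1 x.1) * (cw n m.2 x.2 * cw n m'.2 x.2))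
        = if m' = m then d m ^ 2 * (n / 2 : ℝ) ^ 2 else 0 := by
      intro m' hm'
      rw [← mul_sum, sum_product]
      have : ∀ i ∈ range n, ∑ j ∈ range n, ((cw n m.1 i * cw n m'.1 i) * (cw n m.2 j * cw n m'.2 j))
          = (cw n m.1 i * cw n m'.1 i) * ∑ j ∈ range n, (cw n m.2 j * cw n m'.2 j) := by
        intro i _
        rw [mul_sum]
      simp only
      rw [sum_congr rfl this, ← sum_mul]
      simp only [idx, mem_product, mem_Icc] at hm hm'
      rw [cw_orth n m.1 m'.1 (by omega) (by omega) (by omega) (by omega),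
        cw_orth n m.2 m'.2 (by omega) (by omega) (by omega) (by omega)]
      by_cases hmm : m' = m
      · subst hmm
        simp only [if_true]
        ring
      · rw [if_neg hmm]
        have : ¬ (m.1 = m'.1 ∧ m.2 = m'.2) := by
          rintro ⟨h1, h2⟩
          exact hmm (Prod.ext h1.symm h2.symm)
        by_cases h1 : m.1 = m'.1
        · have h2 : ¬ m.2 = m'.2 := fun h => this ⟨h1, h⟩
          rw [if_neg h2]; ring
        · rw [if_neg h1]; ring
    rw [sum_congr rfl a2, sum_ite_eq' , if_pos hm]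
    ring
  rw [e1]
  refine (Finset.sum_mul_sq_le_sq_mul_sq _ _ _).trans ?_
  rw [e2, sum_product]

theorem pr_centred (n m1 m2 : ℕ) (h1 : 1 ≤ m1) (h1' : m1 < n) (h2 : 1 ≤ m2) (h2' : m2 < n)
    (b : ℕ → ℕ → ℝ) (A B : ℕ → ℝ) :
    pr n m1 m2 (fun i j => b i j - A j - B i) = pr n m1 m2 b := by
  unfold pr
  have : ∀ i j, cw n m1 i * cw n m2 j * (b i j - A j - B i)
      = cw n m1 i * cw n m2 j * b i j - cw n m1 i * (cw n m2 j * A j)
        - (cw n m1 i * B i) * cw n m2 j := by intros; ring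
  simp only [this, sum_sub_distrib, ← mul_sum, ← sum_mul]
  rw [cw_sum n m1 h1 h1', cw_sum n m2 h2 h2']
  ring

/-- Kislyakov type inequality, scalar version. -/
theorem kis_scalar (N n : ℕ) (hn : 2 * N < n) (c : ℕ × ℕ → ℝ)
    (s : ℝ) (hs : 0 ≤ s) (hcs : ∑ m ∈ idx N, c m ^ 2 ≤ s ^ 2) (b : ℕ → ℕ → ℝ) :
    ∑ m ∈ idx N, c m * |pr n m.1 m.2 b| ≤ s * (n / 2) * tv n b := by
  obtain ⟨A, B, hAB⟩ := centred_bound n b
  set b' : ℕ → ℕ → ℝ := fun i j => b i j - A j - B i with hb'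
  set d : ℕ × ℕ → ℝ := fun m => c m * SignType.sign (pr n m.1 m.2 b) with hd
  have e1 : ∑ m ∈ idx N, c m * |pr n m.1 m.2 b| = ∑ m ∈ idx N, d m * pr n m.1 m.2 b' := by
    apply sum_congr rfl
    intro m hm
    simp only [idx, mem_product, mem_Icc] at hm
    rw [hb', pr_centred n m.1 m.2 (by omega) (by omega) (by omega) (by omega), hd]
    simp only
    rw [mul_assoc, sign_mul_self]
  have e2 : ∑ m ∈ idx N, d m ^ 2 ≤ ∑ m ∈ idx N, c m ^ 2 := by
    apply sum_le_sum
    intro m _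
    simp only [hd]
    rw [mul_pow]
    have : ((SignType.sign (pr n m.1 m.2 b) : SignType) : ℝ) ^ 2 ≤ 1 := by
      rcases SignType.sign (pr n m.1 m.2 b) with _ | _ | _ <;> norm_num
    nlinarith [sq_nonneg (c m)]
  have e3 := bessel N n hn d b'
  have htv : 0 ≤ tv n b := add_nonneg (sum_nonneg fun _ _ => sum_nonneg fun _ _ => abs_nonneg _)
    (sum_nonneg fun _ _ => sum_nonneg fun _ _ => abs_nonneg _)
  rw [e1]
  apply le_of_sq_le_sq _ (by positivity)
  calc _ ≤ _ := e3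
    _ ≤ (n / 2 : ℝ) ^ 2 * s ^ 2 * (tv n b) ^ 2 := by
        gcongr
        exact e2.trans hcs
    _ = _ := by ring

end Pool.Agent.H266R3.LF
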