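import Pool.Agent.H266R3.LDent
import Pool.Agent.H266R3.LTrig

set_option autoImplicit false

noncomputable section

namespace Pool.Agent.H266R3.LF

open Finset

theorem propagate (A : ℝ → ℝ → StrongDual ℝ (Lip0 ZZ (0, 0))) (Λ : ℝ) (hΛ0 : 0 ≤ Λ)
    (hA : ∀ a b a' b', ‖A a b - A a' b'‖ ≤ Λ * (|a - a'| + |b - b'|))
    (happ : ∀ a b, ∀ ε : ℝ, 0 < ε → ∃ ρ : ℕ, ∀ h : Lip0 ZZ (0, 0),
      (∀ p, dist p (0, 0) ≤ ρ → h.fn p = 0) → |A a b h| ≤ ε * ‖h‖)
    (ε : ℝ) (hε : 0 < ε) (n : ℕ) (hn : 1 ≤ n) :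
    ∃ (a b σ : ℝ) (Ds : StrongDual ℝ (Lip0 ZZ (0, 0))), 0 < σ ∧
      ∑ j ∈ range n, ∑ i ∈ range n,
        ‖A (a + ((i + 1 : ℕ) : ℝ) * σ) (b + j * σ) - A (a + i * σ) (b + j * σ) - σ • Ds‖
        ≤ ε * n ^ 2 * σ := by
  set 𝒟 : Set (StrongDual ℝ (Lip0 ZZ (0, 0))) :=
    {D | ∃ a b h : ℝ, 0 < h ∧ D = h⁻¹ • (A (a + h) b - A a b)} with h𝒟
  have hmem : ∀ a b h : ℝ, 0 < h → h⁻¹ • (A (a + h) b - A a b) ∈ 𝒟 := fun a b h hh =>
    ⟨a, b, h, hh, rfl⟩
  have hDΛ : ∀ D ∈ 𝒟, ‖D‖ ≤ Λ := by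
    rintro _ ⟨a, b, h, hh, rfl⟩
    rw [norm_smul, norm_inv, Real.norm_eq_abs, abs_of_pos hh, inv_mul_le_iff₀ hh]
    have := hA (a + h) b a b
    rw [add_sub_cancel_left, sub_self, abs_zero, add_zero, abs_of_pos hh] at this
    linarith
  have hDapp : ∀ D ∈ 𝒟, ∀ ε : ℝ, 0 < ε → ∃ ρ : ℕ, ∀ h : Lip0 ZZ (0, 0),
      (∀ p, dist p (0, 0) ≤ ρ → h.fn p = 0) → |D h| ≤ ε * ‖h‖ := by
    rintro _ ⟨a, b, t, ht, rfl⟩ ε hε
    obtain ⟨ρ1, h1⟩ := happ (a + t) b (ε * t / 2) (by positivity)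
    obtain ⟨ρ2, h2⟩ := happ a b (ε * t / 2) (by positivity)
    refine ⟨max ρ1 ρ2, fun h hh => ?_⟩
    have g1 := h1 h (fun p hp => hh p (hp.trans (by exact_mod_cast le_max_left _ _)))
    have g2 := h2 h (fun p hp => hh p (hp.trans (by exact_mod_cast le_max_right _ _)))
    rw [smul_apply, sub_apply, smul_eq_mul, abs_mul, abs_inv, abs_of_pos ht, inv_mul_le_iff₀ ht]
    have := abs_sub (A (a + t) b h) (A a b h)
    linarith
  obtain ⟨φ, s, τ, hτ, hφs, hsup, hdiam⟩ := dent 𝒟 ⟨_, hmem 0 0 1 one_pos⟩ Λ hDΛ hDapp (ε / 2)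
    (by positivity)
  set η : ℝ := min τ (ε * τ / (8 * (Λ + 1))) with hη
  have hηp : 0 < η := lt_min hτ (by positivity)
  have hητ : η ≤ τ := min_le_left _ _
  have hη2 : η * (8 * (Λ + 1)) ≤ ε * τ := by
    have h1 : η ≤ ε * τ / (8 * (Λ + 1)) := min_le_right _ _
    rwa [le_div_iff₀ (by positivity)] at h1
  obtain ⟨Ds, hDs, hDsφ⟩ := hsup η hηp
  have hnear : ∀ D ∈ 𝒟, ‖D - Ds‖ ≤ ε / 2 + 2 * Λ / τ * (s - D φ) := by
    intro D hD
    have h0 : 0 ≤ s - D φ := sub_nonneg.2 (hφs D hD)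
    have h1 : 0 ≤ 2 * Λ / τ * (s - D φ) := by positivity
    by_cases hc : s - τ < D φ
    · have := hdiam D hD Ds hDs hc (by linarith)
      linarith
    · push Not at hc
      have h2 : ‖D - Ds‖ ≤ 2 * Λ := by
        have := norm_sub_le D Ds
        have := hDΛ D hD
        have := hDΛ Ds hDs
        linarith
      have h3 : 2 * Λ ≤ 2 * Λ / τ * (s - D φ) := by
        calc 2 * Λ = 2 * Λ / τ * τ := by rw [div_mul_cancel₀]; exact hτ.ne'
          _ ≤ _ := mul_le_mul_of_nonneg_left (by linarith) (by positivity)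
      linarith
  obtain ⟨a0, b0, h0, hh0, hDs_eq⟩ := hDs
  set L : ℝ := Λ * ‖φ‖ with hL
  have hL0 : 0 ≤ L := by positivity
  obtain ⟨q, hq⟩ := exists_nat_gt (2 * L / η)
  have hq0 : (0 : ℝ) < q := lt_of_le_of_lt (by positivity) hq
  have hqL : 2 * L ≤ η * q := by
    rw [div_lt_iff₀ hηp] at hq
    linarith
  have hn0 : (0 : ℝ) < n := by exact_mod_cast hn
  set r : ℝ := h0 / q with hr
  have hrp : 0 < r := by positivity
  set σ : ℝ := r / n with hσ
  have hσp : 0 < σ := by positivity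
  have hnσ : n * σ = r := by rw [hσ]; field_simp
  set α : ℝ → ℝ → ℝ := fun a b => A a b φ with hα
  have hαb : ∀ a b b', |α a b - α a b'| ≤ L * |b - b'| := by
    intro a b b'
    have h1 := hA a b a b'
    rw [sub_self, abs_zero, zero_add] at h1
    simp only [hα]
    rw [← sub_apply]
    calc _ ≤ ‖A a b - A a b'‖ * ‖φ‖ := (A a b - A a b').le_opNorm φ
      _ ≤ Λ * |b - b'| * ‖φ‖ := mul_le_mul_of_nonneg_right h1 (norm_nonneg _)
      _ = _ := by rw [hL]; ring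
  have hbase : s * h0 - (α (a0 + h0) b0 - α a0 b0) ≤ η * h0 := by
    have h1 : s - η < h0⁻¹ * (α (a0 + h0) b0 - α a0 b0) := by
      have := hDsφ
      rw [hDs_eq, smul_apply, sub_apply, smul_eq_mul] at this
      exact this
    rw [lt_inv_mul_iff₀ hh0] at h1
    linarith
  have hrow : ∀ j ∈ range n, s * h0 - (α (a0 + h0) (b0 + j * σ) - α a0 (b0 + j * σ))
      ≤ 2 * η * h0 := by
    intro j hj
    have hj' : (j : ℝ) * σ ≤ r := by
      have : (j : ℝ) ≤ n := by exact_mod_cast (mem_range.1 hj).le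
      rw [← hnσ]
      exact mul_le_mul_of_nonneg_right this hσp.le
    have hj0 : 0 ≤ (j : ℝ) * σ := by positivity
    have h1 := hαb (a0 + h0) (b0 + j * σ) b0
    have h2 := hαb a0 (b0 + j * σ) b0
    rw [add_sub_cancel_left, abs_of_nonneg hj0] at h1 h2
    have h3 : L * (j * σ) ≤ L * r := mul_le_mul_of_nonneg_left hj' hL0
    have h4 : 2 * (L * r) ≤ η * h0 := by
      have : 2 * (L * r) = 2 * L * h0 / q := by rw [hr]; ring
      rw [this, div_le_iff₀ hq0]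
      have := mul_le_mul_of_nonneg_right hqL hh0.le
      linarith
    rw [abs_le] at h1 h2
    linarith
  -- choose a block
  set F : ℕ → ℝ := fun β => ∑ j ∈ range n,
    (s * r - (α (a0 + ((β + 1 : ℕ) : ℝ) * r) (b0 + j * σ) - α (a0 + β * r) (b0 + j * σ))) with hF
  have hFsum : ∑ β ∈ range q, F β ≤ ∑ β ∈ range q, 2 * η * r * n := by
    simp only [hF]
    rw [sum_comm]
    have e1 : ∀ j ∈ range n, ∑ β ∈ range q,
        (s * r - (α (a0 + ((β + 1 : ℕ) : ℝ) * r) (b0 + j * σ) - α (a0 + β * r) (b0 + j * σ)))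
        ≤ 2 * η * h0 := by
      intro j hj
      rw [sum_sub_distrib, sum_range_sub (fun β : ℕ => α (a0 + β * r) (b0 + j * σ)), sum_const,
        card_range, nsmul_eq_mul]
      have e2 : (q : ℝ) * r = h0 := by rw [hr]; field_simp
      have e3 : (q : ℝ) * (s * r) = s * h0 := by rw [← e2]; ring
      rw [e3, e2, Nat.cast_zero, zero_mul, add_zero]
      exact hrow j hj
    refine (sum_le_sum e1).trans ?_
    rw [sum_const, sum_const, card_range, card_range, nsmul_eq_mul, nsmul_eq_mul]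
    have e2 : (q : ℝ) * r = h0 := by rw [hr]; field_simp
    apply le_of_eq
    rw [← e2]; ring
  obtain ⟨β, _, hβ⟩ := exists_le_of_sum_le
    (nonempty_range_iff.2 (by rintro rfl; simp at hq0)) hFsum
  refine ⟨a0 + β * r, b0, σ, Ds, hσp, ?_⟩
  have hpt : ∀ i j : ℕ, ‖A (a0 + β * r + ((i + 1 : ℕ) : ℝ) * σ) (b0 + j * σ)
      - A (a0 + β * r + i * σ) (b0 + j * σ) - σ • Ds‖
      ≤ σ * (ε / 2) + 2 * Λ / τ * (s * σ - (α (a0 + β * r + ((i + 1 : ℕ) : ℝ) * σ) (b0 + j * σ)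
      - α (a0 + β * r + i * σ) (b0 + j * σ))) := by
    intro i j
    have e1 : a0 + β * r + ((i + 1 : ℕ) : ℝ) * σ = (a0 + β * r + i * σ) + σ := by push_cast; ring
    rw [e1]
    set x := a0 + β * r + i * σ
    set y := b0 + j * σ
    have h1 := hnear _ (hmem x y σ hσp)
    have h2 : A (x + σ) y - A x y - σ • Ds = σ • (σ⁻¹ • (A (x + σ) y - A x y) - Ds) := by
      rw [smul_sub, smul_smul, mul_inv_cancel₀ hσp.ne', one_smul]
    rw [h2, norm_smul, Real.norm_eq_abs, abs_of_pos hσp]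
    have h3 := mul_le_mul_of_nonneg_left h1 hσp.le
    refine h3.trans (le_of_eq ?_)
    have h4 : (σ⁻¹ • (A (x + σ) y - A x y)) φ = σ⁻¹ * (α (x + σ) y - α x y) := by
      rw [smul_apply, sub_apply, smul_eq_mul]
    rw [h4]
    field_simp
  have hsum : ∑ j ∈ range n, ∑ i ∈ range n,
      (s * σ - (α (a0 + β * r + ((i + 1 : ℕ) : ℝ) * σ) (b0 + j * σ)
      - α (a0 + β * r + i * σ) (b0 + j * σ))) = F β := by
    simp only [hF]
    apply sum_congr rfl
    intro j _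
    rw [sum_sub_distrib, sum_range_sub (fun i : ℕ => α (a0 + β * r + i * σ) (b0 + j * σ)),
      sum_const, card_range, nsmul_eq_mul, hnσ, Nat.cast_zero, zero_mul, add_zero]
    have e2 : (n : ℝ) * (s * σ) = s * r := by rw [← hnσ]; ring
    have e3 : a0 + ((β + 1 : ℕ) : ℝ) * r = a0 + β * r + r := by push_cast; ring
    rw [e2, e3]
  calc _ ≤ ∑ j ∈ range n, ∑ i ∈ range n, (σ * (ε / 2) + 2 * Λ / τ *
        (s * σ - (α (a0 + β * r + ((i + 1 : ℕ) : ℝ) * σ) (b0 + j * σ)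
        - α (a0 + β * r + i * σ) (b0 + j * σ)))) :=
        sum_le_sum fun j _ => sum_le_sum fun i _ => hpt i j
    _ = n ^ 2 * (σ * (ε / 2)) + 2 * Λ / τ * F β := by
        simp only [sum_add_distrib, ← mul_sum]
        rw [hsum, sum_const, sum_const, card_range, nsmul_eq_mul, nsmul_eq_mul]
        ring
    _ ≤ n ^ 2 * (σ * (ε / 2)) + 2 * Λ / τ * (2 * η * r * n) := by
        have := mul_le_mul_of_nonneg_left hβ (show 0 ≤ 2 * Λ / τ by positivity)
        linarith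
    _ ≤ ε * n ^ 2 * σ := by
        have h1 : 2 * Λ / τ * (2 * η * r * n) = 4 * Λ * η / τ * (n ^ 2 * σ) := by
          rw [← hnσ]; ring
        have h2 : 4 * Λ * η / τ ≤ ε / 2 := by
          rw [div_le_iff₀ hτ]
          nlinarith
        have h3 := mul_le_mul_of_nonneg_right h2 (show 0 ≤ (n : ℝ) ^ 2 * σ by positivity)
        rw [h1]
        linarith

/-- The product weights kill the nearly affine part. -/
theorem kill {E : Type*} [NormedAddCommGroup E] [NormedSpace ℝ E] (n m1 m2 : ℕ)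
    (h1 : 1 ≤ m1) (h1' : m1 < n) (h2 : 1 ≤ m2) (h2' : m2 < n) (B : ℕ → ℕ → E) (v : E) (K : ℝ)
    (hB : ∑ j ∈ range n, ∑ i ∈ range n, ‖B (i + 1) j - B i j - v‖ ≤ K) :
    ‖∑ i ∈ range n, ∑ j ∈ range n, (cw n m1 i * cw n m2 j) • B i j‖ ≤ n * K := by
  have e1 : ∀ i j, B i j = B 0 j + (i : ℝ) • v + ∑ l ∈ range i, (B (l + 1) j - B l j - v) := by
    intro i j
    rw [sum_sub_distrib, sum_range_sub (fun l => B l j), sum_const, card_range,
      Nat.cast_smul_eq_nsmul]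
    abel
  have e2 : ∑ i ∈ range n, ∑ j ∈ range n, (cw n m1 i * cw n m2 j) • B i j
      = ∑ i ∈ range n, ∑ j ∈ range n, (cw n m1 i * cw n m2 j) •
        ∑ l ∈ range i, (B (l + 1) j - B l j - v) := by
    have a1 : ∑ i ∈ range n, ∑ j ∈ range n, (cw n m1 i * cw n m2 j) • B 0 j = 0 := by
      rw [sum_comm]
      apply sum_eq_zero
      intro j _
      rw [← sum_smul, ← sum_mul, cw_sum n m1 h1 h1', zero_mul, zero_smul]
    have a2 : ∑ i ∈ range n, ∑ j ∈ range n, (cw n m1 i * cw n m2 j) • ((i : ℝ) • v) = 0 := by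
      apply sum_eq_zero
      intro i _
      rw [← sum_smul, ← mul_sum, cw_sum n m2 h2 h2', mul_zero, zero_smul]
    calc _ = ∑ i ∈ range n, ∑ j ∈ range n, ((cw n m1 i * cw n m2 j) • B 0 j
          + (cw n m1 i * cw n m2 j) • ((i : ℝ) • v)
          + (cw n m1 i * cw n m2 j) • ∑ l ∈ range i, (B (l + 1) j - B l j - v)) := by
          apply sum_congr rfl
          intro i _
          apply sum_congr rfl
          intro j _
          rw [← smul_add, ← smul_add, ← e1 i j]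
      _ = _ := by
          simp only [sum_add_distrib]
          rw [a1, a2, zero_add, zero_add]
  rw [e2]
  have e3 : ∀ i ∈ range n, ‖∑ j ∈ range n, (cw n m1 i * cw n m2 j) •
        ∑ l ∈ range i, (B (l + 1) j - B l j - v)‖ ≤ K := by
    intro i hi
    refine (norm_sum_le _ _).trans ?_
    refine le_trans ?_ hB
    apply sum_le_sum
    intro j _
    rw [norm_smul]
    have w1 : ‖cw n m1 i * cw n m2 j‖ ≤ 1 := by
      rw [norm_mul]
      exact mul_le_one₀ (abs_cw_le _ _ _) (norm_nonneg _) (abs_cw_le _ _ _)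
    calc _ ≤ 1 * ‖∑ l ∈ range i, (B (l + 1) j - B l j - v)‖ :=
          mul_le_mul_of_nonneg_right w1 (norm_nonneg _)
      _ = ‖∑ l ∈ range i, (B (l + 1) j - B l j - v)‖ := one_mul _
      _ ≤ ∑ l ∈ range i, ‖B (l + 1) j - B l j - v‖ := norm_sum_le _ _
      _ ≤ ∑ l ∈ range n, ‖B (l + 1) j - B l j - v‖ := by
          apply sum_le_sum_of_subset_of_nonneg
          · intro l hl
            rw [mem_range] at hl hi ⊢
            omega
          · intros; positivity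
  refine (norm_sum_le _ _).trans ?_
  refine (sum_le_sum e3).trans ?_
  rw [sum_const, card_range, nsmul_eq_mul]

/-- divergence -/
theorem diverge (K : ℝ) : ∃ N : ℕ, 1 ≤ N ∧ K < ∑ m ∈ idx N, (1 / ((m.1 : ℝ) + m.2)) ^ 2 := by
  have hlow : ∀ N : ℕ, (1 / 4) * ∑ i ∈ range N, 1 / ((i : ℝ) + 1)
      ≤ ∑ m ∈ idx N, (1 / ((m.1 : ℝ) + m.2)) ^ 2 := by
    intro N
    have e0 : ∀ g : ℕ → ℝ, ∀ N : ℕ, ∑ m ∈ Icc 1 N, g m = ∑ i ∈ range N, g (i + 1) := by
      intro g N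
      induction N with
      | zero => simp
      | succ N ih => rw [sum_Icc_succ_top (by omega), sum_range_succ, ih]
    rw [idx, sum_product, e0, mul_sum]
    apply sum_le_sum
    intro i hi
    have h1 : ∑ x ∈ Icc 1 (i + 1), (1 / (((i + 1 : ℕ) : ℝ) + (x : ℝ))) ^ 2
        ≤ ∑ x ∈ Icc 1 N, (1 / (((i + 1 : ℕ) : ℝ) + (x : ℝ))) ^ 2 := by
      apply sum_le_sum_of_subset_of_nonneg
      · intro l hl
        rw [mem_Icc] at hl ⊢
        rw [mem_range] at hi
        omega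
      · intros; positivity
    refine le_trans ?_ h1
    have h2 : ∀ x ∈ Icc 1 (i + 1), 1 / (4 * ((i : ℝ) + 1) ^ 2)
        ≤ (1 / (((i + 1 : ℕ) : ℝ) + (x : ℝ))) ^ 2 := by
      intro x hx
      rw [mem_Icc] at hx
      have hx1 : (x : ℝ) ≤ i + 1 := by exact_mod_cast hx.2
      have hx0 : (1 : ℝ) ≤ x := by exact_mod_cast hx.1
      have hi0 : (0 : ℝ) ≤ i := by positivity
      rw [div_pow, one_pow]
      apply one_div_le_one_div_of_le
      · positivity
      · push_cast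
        nlinarith
    refine le_trans ?_ (sum_le_sum h2)
    rw [sum_const, Nat.card_Icc, nsmul_eq_mul]
    apply le_of_eq
    have hi0 : (0 : ℝ) < (i : ℝ) + 1 := by positivity
    push_cast
    field_simp
  have ht := Real.tendsto_sum_range_one_div_nat_succ_atTop
  obtain ⟨N, hN1, hN2⟩ := ((ht.eventually_gt_atTop (4 * K)).and
    (Filter.eventually_ge_atTop 1)).exists
  refine ⟨N, hN2, lt_of_lt_of_le ?_ (hlow N)⟩
  linarith

end Pool.Agent.H266R3.LF
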