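import Pool.Agent.H266R3.LInterp

set_option autoImplicit false

noncomputable section

namespace Pool.Agent.H266R3.LF

open Finset

/-- clamp to `[0,1]` -/
def cl (x : ℝ) : ℝ := max 0 (min 1 x)

theorem cl_mono {x y : ℝ} (h : x ≤ y) : cl x ≤ cl y :=
  max_le_max le_rfl (min_le_min le_rfl h)
theorem cl_nonneg (x : ℝ) : 0 ≤ cl x := le_max_left _ _
theorem cl_le_one (x : ℝ) : cl x ≤ 1 := max_le zero_le_one (min_le_left _ _)
theorem cl_of_nonpos {x : ℝ} (h : x ≤ 0) : cl x = 0 := by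
  unfold cl
  rw [min_eq_right (by linarith), max_eq_left h]
theorem cl_of_one_le {x : ℝ} (h : 1 ≤ x) : cl x = 1 := by
  unfold cl
  rw [min_eq_left h, max_eq_right zero_le_one]
theorem cl_of_mem {x : ℝ} (h : 0 ≤ x) (h' : x ≤ 1) : cl x = x := by
  unfold cl
  rw [min_eq_right h', max_eq_right h]

theorem abs_max_min_sub_le (n x y : ℝ) : |max 0 (min n x) - max 0 (min n y)| ≤ |x - y| := by
  refine (abs_max_sub_max_le_max _ _ _ _).trans ?_
  rw [sub_self, abs_zero]
  apply max_le (abs_nonneg _)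
  refine (abs_min_sub_min_le_max _ _ _ _).trans ?_
  rw [sub_self, abs_zero]
  exact max_le (abs_nonneg _) le_rfl

theorem sum_cl (n : ℕ) (x : ℝ) : ∑ t ∈ range n, cl (x - t) = max 0 (min (n : ℝ) x) := by
  induction n with
  | zero =>
    simp only [range_zero, sum_empty, Nat.cast_zero]
    rw [max_eq_left (min_le_left _ _)]
  | succ n ih =>
    rw [sum_range_succ, ih]
    have hn : (0 : ℝ) ≤ n := by positivity
    push_cast
    rcases le_total x n with h | h
    · rw [cl_of_nonpos (by linarith), min_eq_right h, min_eq_right (by linarith), add_zero]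
    · rw [min_eq_left h, max_eq_right hn]
      rcases le_total x (n + 1) with h' | h'
      · rw [cl_of_mem (by linarith) (by linarith), min_eq_right h', max_eq_right (by linarith)]
        ring
      · rw [cl_of_one_le (by linarith), min_eq_left h', max_eq_right (by linarith)]

/-- the basic tent-like functions -/
def th (q b t : ℕ) (s : ℝ) : ℝ := cl (q * (s + q - b) - t) - cl (s + q - b)

theorem th_sum_le (q : ℕ) (hq : 1 ≤ q) (s s' : ℝ) (h : s ≤ s') :
    ∑ b ∈ range (2 * q), ∑ t ∈ range q, |th q b t s' - th q b t s| ≤ 2 * q * (s' - s) := by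
  have hq' : (1 : ℝ) ≤ q := by exact_mod_cast hq
  have e1 : ∀ b t : ℕ, |th q b t s' - th q b t s| ≤
      (cl (q * (s' + q - b) - t) - cl (q * (s + q - b) - t))
        + (cl (s' + q - b) - cl (s + q - b)) := by
    intro b t
    have h1 : 0 ≤ cl (q * (s' + q - b) - t) - cl (q * (s + q - b) - t) := by
      apply sub_nonneg.2
      apply cl_mono
      have : (q : ℝ) * (s + q - b) ≤ q * (s' + q - b) :=
        mul_le_mul_of_nonneg_left (by linarith) (by positivity)
      linarith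
    have h2 : 0 ≤ cl (s' + q - b) - cl (s + q - b) := sub_nonneg.2 (cl_mono (by linarith))
    have h3 : th q b t s' - th q b t s = (cl (q * (s' + q - b) - t) - cl (q * (s + q - b) - t))
        - (cl (s' + q - b) - cl (s + q - b)) := by unfold th; ring
    rw [h3, abs_le]
    constructor <;> linarith
  refine (sum_le_sum fun b _ => sum_le_sum fun t _ => e1 b t).trans ?_
  simp only [sum_add_distrib, sum_sub_distrib, sum_cl, sum_const, card_range, nsmul_eq_mul]
  have e2 : ∀ s : ℝ, ∀ b : ℕ, max 0 (min (q : ℝ) (q * (s + q - b))) = q * cl (s + q - b) := by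
    intro s b
    unfold cl
    rw [mul_max_of_nonneg _ _ (by positivity : (0 : ℝ) ≤ q), mul_min_of_nonneg _ _ (by positivity : (0 : ℝ) ≤ q)]
    simp
  simp only [e2, ← mul_sum]
  have e3 : ∀ s : ℝ, ∑ b ∈ range (2 * q), cl (s + q - b) = max 0 (min ((2 * q : ℕ) : ℝ) (s + q)) := by
    intro s
    rw [sum_cl]
  rw [e3, e3]
  have h4 := abs_max_min_sub_le ((2 * q : ℕ) : ℝ) (s' + q) (s + q)
  have h5 : |s' + q - (s + q)| = s' - s := by
    rw [abs_of_nonneg (by linarith)]; ring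
  rw [h5] at h4
  have h6 := (le_abs_self _).trans h4
  have h7 : (q : ℝ) * (max 0 (min ((2 * q : ℕ) : ℝ) (s' + q)) - max 0 (min ((2 * q : ℕ) : ℝ) (s + q)))
      ≤ q * (s' - s) := mul_le_mul_of_nonneg_left h6 (by positivity)
  linarith

theorem th_int (q b t : ℕ) (ht : t < q) (a : ℤ) : th q b t a = 0 := by
  have htq : (t : ℝ) + 1 ≤ q := by exact_mod_cast ht
  have ht0 : (0 : ℝ) ≤ t := by positivity
  unfold th
  rcases le_or_gt (a + q - b : ℤ) 0 with h | h
  · have h' : (a : ℝ) + q - b ≤ 0 := by exact_mod_cast h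
    rw [cl_of_nonpos h', cl_of_nonpos]
    · ring
    · have : (q : ℝ) * (a + q - b) ≤ 0 := mul_nonpos_of_nonneg_of_nonpos (by positivity) h'
      linarith
  · have h' : (1 : ℝ) ≤ (a : ℝ) + q - b := by
      have : (1 : ℤ) ≤ a + q - b := h
      exact_mod_cast this
    rw [cl_of_one_le h', cl_of_one_le]
    · ring
    · have : (q : ℝ) * 1 ≤ q * (a + q - b) := mul_le_mul_of_nonneg_left h' (by positivity)
      linarith

theorem th_grid (q b t r b' : ℕ) (ht : t < q) (hr : r < q) :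
    th q b t ((b' : ℝ) - q + r / q) = if b = b' then ((if t < r then 1 else 0) - (r : ℝ) / q) else 0 := by
  have hq : (0 : ℝ) < q := by
    have : 0 < q := by omega
    exact_mod_cast this
  have hr1 : (r : ℝ) / q < 1 := by
    rw [div_lt_one hq]; exact_mod_cast hr
  have hr0 : (0 : ℝ) ≤ (r : ℝ) / q := by positivity
  have htq : (t : ℝ) + 1 ≤ q := by exact_mod_cast ht
  have ht0 : (0 : ℝ) ≤ t := by positivity
  unfold th
  have e1 : (b' : ℝ) - q + r / q + q - b = (b' - b) + r / q := by ring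
  rw [e1]
  split_ifs with h h'
  · subst h
    rw [sub_self, zero_add, cl_of_mem hr0 hr1.le, mul_div_cancel₀ _ hq.ne', cl_of_one_le]
    have : (t : ℝ) + 1 ≤ r := by exact_mod_cast h'
    linarith
  · subst h
    rw [sub_self, zero_add, cl_of_mem hr0 hr1.le, mul_div_cancel₀ _ hq.ne', cl_of_nonpos]
    push Not at h'
    have : (r : ℝ) ≤ t := by exact_mod_cast h'
    linarith
  · rcases lt_or_gt_of_ne h with h | h
    · have h1 : (b : ℝ) + 1 ≤ b' := by exact_mod_cast h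
      have h2 : (1 : ℝ) ≤ (b' - b) + r / q := by linarith
      rw [cl_of_one_le h2, cl_of_one_le]
      · ring
      · have : (q : ℝ) * 1 ≤ q * ((b' - b) + r / q) := mul_le_mul_of_nonneg_left h2 (by positivity)
        linarith
    · have h1 : (b' : ℝ) + 1 ≤ b := by exact_mod_cast h
      have h2 : ((b' : ℝ) - b) + r / q ≤ 0 := by linarith
      rw [cl_of_nonpos h2, cl_of_nonpos]
      · ring
      · have : (q : ℝ) * ((b' - b) + r / q) ≤ 0 :=
          mul_nonpos_of_nonneg_of_nonpos (by positivity) h2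
        linarith

theorem abs_cl_sub_le (x y : ℝ) : |cl x - cl y| ≤ |x - y| := abs_max_min_sub_le 1 x y

theorem th_lip (q b t : ℕ) (s s' : ℝ) : |th q b t s - th q b t s'| ≤ (q + 1) * |s - s'| := by
  unfold th
  have h1 := abs_cl_sub_le (q * (s + q - b) - t) (q * (s' + q - b) - t)
  have h2 := abs_cl_sub_le (s + q - b) (s' + q - b)
  have e1 : (q : ℝ) * (s + q - b) - t - (q * (s' + q - b) - t) = q * (s - s') := by ring
  have e2 : (s : ℝ) + q - b - (s' + q - b) = s - s' := by ring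
  rw [e1, abs_mul, Nat.abs_cast] at h1
  rw [e2] at h2
  have e3 : cl (q * (s + q - b) - t) - cl (s + q - b) - (cl (q * (s' + q - b) - t) - cl (s' + q - b))
    = (cl (q * (s + q - b) - t) - cl (q * (s' + q - b) - t)) - (cl (s + q - b) - cl (s' + q - b)) := by
    ring
  rw [e3]
  have h3 := abs_sub (cl (q * (s + q - b) - t) - cl (q * (s' + q - b) - t))
    (cl (s + q - b) - cl (s' + q - b))
  linarith

theorem th_abs_le (q b t : ℕ) (s : ℝ) : |th q b t s| ≤ 1 := by
  unfold th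
  have h1 := cl_nonneg (q * (s + q - b) - t)
  have h2 := cl_le_one (q * (s + q - b) - t)
  have h3 := cl_nonneg (s + q - b)
  have h4 := cl_le_one (s + q - b)
  rw [abs_le]
  constructor <;> linarith

/-- raw `psi` -/
def psiRaw (q : ℕ) (ω : ℤ × (ℕ × ℕ)) (s : ℝ) (k : ℤ) : ℝ :=
  if k = ω.1 then th q ω.2.1 ω.2.2 s else 0

theorem psiRaw_lip (q : ℕ) (ω : ℤ × (ℕ × ℕ)) (s s' : ℝ) (k k' : ℤ) :
    |psiRaw q ω s k - psiRaw q ω s' k'| ≤ (q + 3) * dist (pt s k) (pt s' k') := by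
  by_cases hk : k = k'
  · subst hk
    unfold psiRaw
    have hd := dist_pt_ge0 s s' k k
    split_ifs with h
    · have h1 := th_lip q ω.2.1 ω.2.2 s s'
      have h2 : ((q : ℝ) + 1) * |s - s'| ≤ (q + 1) * dist (pt s k) (pt s' k) :=
        mul_le_mul_of_nonneg_left hd (by positivity)
      have h3 : 0 ≤ dist (pt s k) (pt s' k) := dist_nonneg
      nlinarith
    · simp; positivity
  · have hd := one_le_dist_pt s s' k k' hk
    have h1 : |psiRaw q ω s k| ≤ 1 := by
      unfold psiRaw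
      split_ifs
      · exact th_abs_le _ _ _ _
      · simp
    have h2 : |psiRaw q ω s' k'| ≤ 1 := by
      unfold psiRaw
      split_ifs
      · exact th_abs_le _ _ _ _
      · simp
    have h3 := abs_sub (psiRaw q ω s k) (psiRaw q ω s' k')
    have h4 : (0 : ℝ) ≤ q := by positivity
    nlinarith

theorem psiRaw_base (q : ℕ) (ω : ℤ × (ℕ × ℕ)) (h : ω.2.2 < q) : psiRaw q ω 0 0 = 0 := by
  unfold psiRaw
  split_ifs
  · have := th_int q ω.2.1 ω.2.2 h 0
    simpa using this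
  · rfl

/-- the functions `psi` -/
def psi (q : ℕ) (ω : ℤ × (ℕ × ℕ)) : Lip0 Lines lo :=
  if h : ω.2.2 < q then
    mkLip (psiRaw q ω) (psiRaw_base q ω h) (q + 3) (by positivity) (psiRaw_lip q ω)
  else 0

theorem psi_pt (q : ℕ) (ω : ℤ × (ℕ × ℕ)) (h : ω.2.2 < q) (s : ℝ) (k : ℤ) :
    (psi q ω).fn (pt s k) = if k = ω.1 then th q ω.2.1 ω.2.2 s else 0 := by
  unfold psi
  rw [dif_pos h, mkLip_pt]
  rfl

/-- index set -/
def Om (q : ℕ) : Finset (ℤ × (ℕ × ℕ)) := Icc (-(q : ℤ)) q ×ˢ (range (2 * q) ×ˢ range q)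

theorem fn_sum {M : Type} [MetricSpace M] {o : M} {ι : Type*} (s : Finset ι)
    (F : ι → Lip0 M o) (x : M) : (∑ i ∈ s, F i).fn x = ∑ i ∈ s, (F i).fn x := by
  classical
  induction s using Finset.induction_on with
  | empty => simp
  | insert a s ha ih => rw [sum_insert ha, sum_insert ha, Lip0.fn_add, ih]

theorem psi_sum_pt (q : ℕ) (σ : ℤ × (ℕ × ℕ) → ℝ) (s : ℝ) (k : ℤ) :
    (∑ ω ∈ Om q, σ ω • psi q ω).fn (pt s k) =
      if k ∈ Icc (-(q : ℤ)) q then
        ∑ b ∈ range (2 * q), ∑ t ∈ range q, σ (k, (b, t)) * th q b t s else 0 := by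
  rw [fn_sum, Om, sum_product]
  have e1 : ∀ k' ∈ Icc (-(q : ℤ)) q, ∑ y ∈ range (2 * q) ×ˢ range q,
      (σ (k', y) • psi q (k', y)).fn (pt s k)
      = if k = k' then ∑ b ∈ range (2 * q), ∑ t ∈ range q, σ (k', (b, t)) * th q b t s else 0 := by
    intro k' _
    rw [sum_product]
    split_ifs with h
    · apply sum_congr rfl
      intro b _
      apply sum_congr rfl
      intro t ht
      rw [Lip0.fn_smul, psi_pt q _ (mem_range.1 ht), if_pos h]
    · apply sum_eq_zero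
      intro b _
      apply sum_eq_zero
      intro t ht
      rw [Lip0.fn_smul, psi_pt q _ (mem_range.1 ht), if_neg h, mul_zero]
  rw [sum_congr rfl e1, sum_ite_eq]

theorem psi_sum_norm (q : ℕ) (hq : 1 ≤ q) (σ : ℤ × (ℕ × ℕ) → ℝ) (C : ℝ) (hC : 0 ≤ C)
    (hσ : ∀ ω, |σ ω| ≤ C) : ‖∑ ω ∈ Om q, σ ω • psi q ω‖ ≤ 4 * q * C := by
  set Ψ := ∑ ω ∈ Om q, σ ω • psi q ω with hΨ
  have hrow' : ∀ s s' : ℝ, ∀ k : ℤ, s ≤ s' →
      |Ψ.fn (pt s' k) - Ψ.fn (pt s k)| ≤ 2 * q * C * (s' - s) := by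
    intro s s' k hss
    rw [hΨ, psi_sum_pt, psi_sum_pt]
    have hnn : 0 ≤ 2 * q * C * (s' - s) := by
      have := sub_nonneg.2 hss
      positivity
    split_ifs
    · rw [← sum_sub_distrib]
      refine (abs_sum_le_sum_abs _ _).trans ?_
      have e1 : ∀ b ∈ range (2 * q), |∑ t ∈ range q, σ (k, (b, t)) * th q b t s'
          - ∑ t ∈ range q, σ (k, (b, t)) * th q b t s|
          ≤ ∑ t ∈ range q, C * |th q b t s' - th q b t s| := by
        intro b _
        rw [← sum_sub_distrib]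
        refine (abs_sum_le_sum_abs _ _).trans ?_
        apply sum_le_sum
        intro t _
        rw [← mul_sub, abs_mul]
        exact mul_le_mul_of_nonneg_right (hσ _) (abs_nonneg _)
      refine (sum_le_sum e1).trans ?_
      simp only [← mul_sum]
      have := th_sum_le q hq s s' hss
      calc _ ≤ C * (2 * q * (s' - s)) := mul_le_mul_of_nonneg_left this hC
        _ = _ := by ring
    · simpa using hnn
  have hrow : ∀ s s' : ℝ, ∀ k : ℤ,
      |Ψ.fn (pt s k) - Ψ.fn (pt s' k)| ≤ 2 * q * C * |s - s'| := by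
    intro s s' k
    rcases le_total s s' with h | h
    · rw [abs_sub_comm, abs_sub_comm s s', abs_of_nonneg (sub_nonneg.2 h)]
      exact hrow' s s' k h
    · rw [abs_of_nonneg (sub_nonneg.2 h)]
      exact hrow' s' s k h
  have hint : ∀ a k : ℤ, Ψ.fn (pt a k) = 0 := by
    intro a k
    rw [hΨ, psi_sum_pt]
    split_ifs
    · apply sum_eq_zero
      intro b _
      apply sum_eq_zero
      intro t ht
      rw [th_int q b t (mem_range.1 ht), mul_zero]
    · rfl
  have hbd : ∀ s : ℝ, ∀ k : ℤ, |Ψ.fn (pt s k)| ≤ 2 * q * C := by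
    intro s k
    have h1 := hrow s ⌊s⌋ k
    rw [hint, sub_zero] at h1
    refine h1.trans ?_
    have h2 : |s - ⌊s⌋| ≤ 1 := by
      change |Int.fract s| ≤ 1
      rw [abs_of_nonneg (Int.fract_nonneg s)]
      exact (Int.fract_lt_one s).le
    calc _ ≤ 2 * q * C * 1 := mul_le_mul_of_nonneg_left h2 (by positivity)
      _ = _ := mul_one _
  apply norm_le_of_pt _ _ (by positivity)
  intro s s' k k'
  by_cases hk : k = k'
  · subst hk
    refine (hrow s s' k).trans ?_
    have hd := dist_pt_ge0 s s' k k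
    have h0 : 0 ≤ 2 * q * C := by positivity
    have h1 := mul_le_mul_of_nonneg_left hd h0
    have h2 : 0 ≤ 2 * q * C * dist (pt s k) (pt s' k) := by positivity
    linarith
  · have hd := one_le_dist_pt s s' k k' hk
    have h1 := hbd s k
    have h2 := hbd s' k'
    have h3 := abs_sub (Ψ.fn (pt s k)) (Ψ.fn (pt s' k'))
    have h0 : 0 ≤ 4 * q * C := by positivity
    have h4 := mul_le_mul_of_nonneg_left hd h0
    linarith

/-- `L1` upper bound. -/
theorem psi_upper (q : ℕ) (hq : 1 ≤ q) (ν : StrongDual ℝ (Lip0 Lines lo)) :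
    ∑ ω ∈ Om q, |ν (psi q ω)| ≤ 4 * q * ‖ν‖ := by
  set σ : ℤ × (ℕ × ℕ) → ℝ := fun ω => SignType.sign (ν (psi q ω)) with hσ
  have h1 : ∑ ω ∈ Om q, |ν (psi q ω)| = ν (∑ ω ∈ Om q, σ ω • psi q ω) := by
    rw [map_sum]
    apply sum_congr rfl
    intro ω _
    rw [map_smul, smul_eq_mul, hσ]
    simp only
    rw [sign_mul_self]
  have h2 : ∀ ω, |σ ω| ≤ 1 := by
    intro ω
    simp only [hσ]
    rcases SignType.sign (ν (psi q ω)) with _ | _ | _ <;> norm_num
  have h3 := psi_sum_norm q hq σ 1 zero_le_one h2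
  rw [h1]
  calc _ ≤ ‖ν (∑ ω ∈ Om q, σ ω • psi q ω)‖ := le_abs_self _
    _ ≤ ‖ν‖ * ‖∑ ω ∈ Om q, σ ω • psi q ω‖ := ν.le_opNorm _
    _ ≤ ‖ν‖ * (4 * q * 1) := mul_le_mul_of_nonneg_left h3 (norm_nonneg _)
    _ = _ := by ring

/-- gradient coefficients -/
def gr (q : ℕ) (f : Lip0 Lines lo) (ω : ℤ × (ℕ × ℕ)) : ℝ :=
  f.fn (pt ((ω.2.1 : ℝ) - q + ((ω.2.2 + 1 : ℕ) : ℝ) / q) ω.1)
    - f.fn (pt ((ω.2.1 : ℝ) - q + (ω.2.2 : ℝ) / q) ω.1)

theorem gr_le (q : ℕ) (hq : 1 ≤ q) (f : Lip0 Lines lo) (ω : ℤ × (ℕ × ℕ)) :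
    |gr q f ω| ≤ ‖f‖ / q := by
  have hq' : (0 : ℝ) < q := by exact_mod_cast hq
  unfold gr
  refine (f.abs_sub_le _ _).trans ?_
  have h1 := dist_pt_le ((ω.2.1 : ℝ) - q + ((ω.2.2 + 1 : ℕ) : ℝ) / q)
    ((ω.2.1 : ℝ) - q + (ω.2.2 : ℝ) / q) ω.1 ω.1
  have e1 : ((ω.2.1 : ℝ) - q + ((ω.2.2 + 1 : ℕ) : ℝ) / q) - ((ω.2.1 : ℝ) - q + (ω.2.2 : ℝ) / q)
      = 1 / q := by push_cast; ring
  rw [e1, sub_self, abs_zero, add_zero, abs_of_nonneg (by positivity)] at h1
  calc _ ≤ ‖f‖ * (1 / q) := mul_le_mul_of_nonneg_left h1 (norm_nonneg _)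
    _ = _ := by ring

/-- the remainder -/
def rem (q : ℕ) (f : Lip0 Lines lo) : Lip0 Lines lo :=
  f - J (Res f) - ∑ ω ∈ Om q, gr q f ω • psi q ω

theorem norm_rem_le (q : ℕ) (hq : 1 ≤ q) (f : Lip0 Lines lo) : ‖rem q f‖ ≤ 15 * ‖f‖ := by
  have hq' : (0 : ℝ) < q := by exact_mod_cast hq
  have h1 := norm_sub_J_Res f
  have h2 := psi_sum_norm q hq (gr q f) (‖f‖ / q) (by positivity) (gr_le q hq f)
  have h3 := norm_sub_le (f - J (Res f)) (∑ ω ∈ Om q, gr q f ω • psi q ω)
  have h4 : 4 * q * (‖f‖ / q) = 4 * ‖f‖ := by field_simp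
  rw [h4] at h2
  unfold rem
  linarith

/-- grid sets -/
def Gr (q : ℕ) : Set Lines :=
  {p | ∃ b r : ℕ, ∃ k : ℤ, b < 2 * q ∧ r < q ∧ k ∈ Icc (-(q : ℤ)) q ∧
    p = pt ((b : ℝ) - q + (r : ℝ) / q) k}

theorem rem_grid (q : ℕ) (f : Lip0 Lines lo) (p : Lines) (hp : p ∈ Gr q) : (rem q f).fn p = 0 := by
  obtain ⟨b, r, k, hb, hr, hk, rfl⟩ := hp
  have hq : (0 : ℝ) < q := by
    have : 0 < q := by omega
    exact_mod_cast this
  have hr1 : (r : ℝ) / q < 1 := by
    rw [div_lt_one hq]; exact_mod_cast hr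
  have hr0 : (0 : ℝ) ≤ (r : ℝ) / q := by positivity
  unfold rem
  rw [Lip0.fn_sub, Lip0.fn_sub, psi_sum_pt, if_pos hk, J_pt]
  have e1 : ∀ b' ∈ range (2 * q), ∑ t ∈ range q, gr q f (k, (b', t)) * th q b' t ((b : ℝ) - q + r / q)
      = if b' = b then ∑ t ∈ range q, gr q f (k, (b, t)) * ((if t < r then 1 else 0) - (r : ℝ) / q)
        else 0 := by
    intro b' _
    split_ifs with h
    · subst h
      apply sum_congr rfl
      intro t ht
      rw [th_grid q b' t r b' (mem_range.1 ht) hr, if_pos rfl]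
    · apply sum_eq_zero
      intro t ht
      rw [th_grid q b' t r b (mem_range.1 ht) hr, if_neg h, mul_zero]
  rw [sum_congr rfl e1, sum_ite_eq', if_pos (mem_range.2 hb)]
  set F : ℕ → ℝ := fun t => f.fn (pt ((b : ℝ) - q + (t : ℝ) / q) k) with hF
  have e2 : ∀ t, gr q f (k, (b, t)) = F (t + 1) - F t := fun t => rfl
  have e3 : ∑ t ∈ range q, gr q f (k, (b, t)) * ((if t < r then 1 else 0) - (r : ℝ) / q)
      = (F r - F 0) - (r : ℝ) / q * (F q - F 0) := by
    simp only [mul_sub, sum_sub_distrib, ← sum_mul, e2]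
    have a1 : ∑ t ∈ range q, (F (t + 1) - F t) * (if t < r then (1 : ℝ) else 0) = F r - F 0 := by
      simp only [mul_ite, mul_one, mul_zero]
      rw [← sum_filter]
      have : (range q).filter (fun t => t < r) = range r := by
        ext t
        simp only [mem_filter, mem_range]
        omega
      rw [this, sum_range_sub]
    rw [a1]
    have a2 : (∑ t ∈ range q, F (t + 1) - ∑ t ∈ range q, F t) = F q - F 0 := by
      rw [← sum_sub_distrib, sum_range_sub]
    rw [a2]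
    ring
  rw [e3]
  have e4 : ⌊(b : ℝ) - q + r / q⌋ = (b : ℤ) - q := by
    rw [Int.floor_eq_iff]
    push_cast
    constructor <;> linarith
  have e5 : Int.fract ((b : ℝ) - q + r / q) = r / q := by
    have : Int.fract ((b : ℝ) - q + r / q) = ((b : ℝ) - q + r / q) - ⌊(b : ℝ) - q + r / q⌋ := rfl
    rw [this, e4]; push_cast; ring
  unfold itp
  rw [e4, e5]
  simp only [Res_fn]
  have e6 : F 0 = f.fn (pt (((b : ℤ) - q : ℤ) : ℝ) k) := by
    simp only [hF]
    congr 2
    push_cast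
    simp
  have e7 : F q = f.fn (pt (((b : ℤ) - q + 1 : ℤ) : ℝ) k) := by
    simp only [hF]
    congr 2
    push_cast
    rw [div_self hq.ne']
  have e8 : F r = f.fn (pt ((b : ℝ) - q + r / q) k) := rfl
  rw [← e6, ← e7, ← e8]
  ring

theorem Gr_dense (p : Lines) (ε : ℝ) (hε : 0 < ε) :
    ∀ᶠ q in Filter.atTop, ∃ p' ∈ Gr q, dist p p' ≤ ε := by
  obtain ⟨s, k, rfl⟩ := exists_pt p
  obtain ⟨n1, hn1⟩ := exists_nat_gt (|s| + 1)
  obtain ⟨n2, hn2⟩ := exists_nat_gt (1 / ε)
  filter_upwards [Filter.eventually_ge_atTop (max (max n1 n2) (k.natAbs + 1))] with q hq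
  have hq1 : n1 ≤ q := le_trans (le_trans (le_max_left _ _) (le_max_left _ _)) hq
  have hq2 : n2 ≤ q := le_trans (le_trans (le_max_right _ _) (le_max_left _ _)) hq
  have hq3 : k.natAbs + 1 ≤ q := le_trans (le_max_right _ _) hq
  have hq1' : |s| + 1 < q := lt_of_lt_of_le hn1 (by exact_mod_cast hq1)
  have hq2' : 1 / ε < q := lt_of_lt_of_le hn2 (by exact_mod_cast hq2)
  have hq0 : (0 : ℝ) < q := by
    have := abs_nonneg s
    linarith
  have hfl := Int.floor_le s
  have hfl2 := Int.lt_floor_add_one s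
  have hs1 := le_abs_self s
  have hs2 := neg_abs_le s
  have hb0 : 0 ≤ ⌊s⌋ + (q : ℤ) := by
    have : (-1 : ℝ) < ((⌊s⌋ + (q : ℤ) : ℤ) : ℝ) := by push_cast; linarith
    have : (-1 : ℤ) < ⌊s⌋ + (q : ℤ) := by exact_mod_cast this
    omega
  have hb1 : ⌊s⌋ + (q : ℤ) < 2 * q := by
    have : ((⌊s⌋ + (q : ℤ) : ℤ) : ℝ) < ((2 * q : ℤ) : ℝ) := by push_cast; linarith
    exact_mod_cast this
  obtain ⟨b, hb⟩ := Int.eq_ofNat_of_zero_le hb0
  have hfr0 := Int.fract_nonneg s
  have hfr1 := Int.fract_lt_one s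
  set r : ℕ := ⌊q * Int.fract s⌋₊ with hr
  have hr1 : (r : ℝ) ≤ q * Int.fract s := Nat.floor_le (by positivity)
  have hr2 : q * Int.fract s < r + 1 := Nat.lt_floor_add_one _
  have hrq : r < q := by
    have : (r : ℝ) < q := by
      calc (r : ℝ) ≤ q * Int.fract s := hr1
        _ < q * 1 := mul_lt_mul_of_pos_left hfr1 hq0
        _ = q := mul_one _
    exact_mod_cast this
  refine ⟨pt ((b : ℝ) - q + (r : ℝ) / q) k, ⟨b, r, k, by omega, hrq, ?_, rfl⟩, ?_⟩
  · rw [mem_Icc]; omega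
  · refine (dist_pt_le _ _ _ _).trans ?_
    rw [sub_self, abs_zero, add_zero]
    have hb' : (b : ℝ) = ⌊s⌋ + q := by
      have : ((⌊s⌋ + (q : ℤ) : ℤ) : ℝ) = ((b : ℤ) : ℝ) := by exact_mod_cast congrArg (fun z : ℤ => (z : ℝ)) hb
      push_cast at this
      linarith
    have e1 : s - ((b : ℝ) - q + (r : ℝ) / q) = (q * Int.fract s - r) / q := by
      rw [hb']
      have : Int.fract s = s - ⌊s⌋ := rfl
      rw [this]
      field_simp
      ring
    rw [e1, abs_of_nonneg (by apply div_nonneg <;> linarith), div_le_iff₀ hq0]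
    have h1 : 1 < ε * q := by
      rw [div_lt_iff₀ hε] at hq2'
      linarith
    linarith

/-- `L1` lower bound. -/
theorem psi_lower (μ : StrongDual ℝ (Lip0 Lines lo)) (hμ : μ ∈ LFree Lines lo) (ε : ℝ)
    (hε : 0 < ε) :
    ∀ᶠ q : ℕ in Filter.atTop, ∀ f : Lip0 Lines lo,
      |μ (f - J (Res f)) - ∑ ω ∈ Om q, gr q f ω * μ (psi q ω)| ≤ ε * ‖f‖ := by
  filter_upwards [approx_lemma Gr Gr_dense μ hμ (ε / 15) (by positivity),
    Filter.eventually_ge_atTop 1] with q hq hq1 f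
  have h1 := hq (rem q f) (rem_grid q f)
  have h2 := norm_rem_le q hq1 f
  have h3 : μ (rem q f) = μ (f - J (Res f)) - ∑ ω ∈ Om q, gr q f ω * μ (psi q ω) := by
    unfold rem
    rw [map_sub, map_sum]
    congr 1
    apply sum_congr rfl
    intro ω _
    rw [map_smul, smul_eq_mul]
  rw [← h3]
  calc _ ≤ ε / 15 * ‖rem q f‖ := h1
    _ ≤ ε / 15 * (15 * ‖f‖) := mul_le_mul_of_nonneg_left h2 (by positivity)
    _ = _ := by ring

end Pool.Agent.H266R3.LF
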