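import Mathlib

/-!
Second moment estimates for random Boolean functions sampled along a tree of residues.
-/

set_option autoImplicit false

namespace Pool.Agent.H266R3.BN

/-- block sizes -/
def M (k : ℕ) : ℕ := 4 ^ (k + 1)

lemma M_pos (k : ℕ) : 0 < M k := by unfold M; positivity

lemma M_dvd {k n : ℕ} (h : k ≤ n) : M k ∣ M n := by
  unfold M; exact pow_dvd_pow 4 (by omega)

lemma two_M_le {k n : ℕ} (h : k < n) : 2 * M k ≤ M n := by
  have h1 : M (k + 1) ≤ M n := Nat.le_of_dvd (M_pos n) (M_dvd h)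
  have h2 : M (k + 1) = 4 * M k := by unfold M; ring
  have := M_pos k
  omega

/-- the coordinate read at level `k` -/
def cc (z k : ℕ) : ℕ := M k + z % M k

lemma cc_lt (z k : ℕ) : cc z k < 2 * M k := by
  unfold cc
  have := Nat.mod_lt z (M_pos k)
  omega

lemma le_cc (z k : ℕ) : M k ≤ cc z k := by
  unfold cc; omega

lemma cc_lt_of {z k n : ℕ} (h : k < n) : cc z k < M n := (cc_lt z k).trans_le (two_M_le h)

lemma cc_ne {z z' k n : ℕ} (h : k < n) : cc z k ≠ cc z' n := by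
  have h1 := cc_lt_of (z := z) h
  have h2 := le_cc z' n
  omega

/-- sign of a coordinate of a finite set -/
noncomputable def sg (w : Finset ℕ) (c : ℕ) : ℝ := if c ∈ w then -1 else 1

/-- sign of a Boolean -/
noncomputable def bs (b : Bool) : ℝ := if b = true then -1 else 1

lemma bs_sq (b : Bool) : bs b * bs b = 1 := by
  unfold bs; split_ifs <;> norm_num

lemma sg_sq (w : Finset ℕ) (c : ℕ) : sg w c * sg w c = 1 := by
  unfold sg; split_ifs <;> norm_num

lemma abs_sg (w : Finset ℕ) (c : ℕ) : |sg w c| = 1 := by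
  unfold sg; split_ifs <;> norm_num

lemma abs_bs (b : Bool) : |bs b| = 1 := by
  unfold bs; split_ifs <;> norm_num

/-- flip of a coordinate -/
def fl (w : Finset ℕ) (c : ℕ) : Finset ℕ := symmDiff w {c}

lemma sg_fl_self (w : Finset ℕ) (c : ℕ) : sg (fl w c) c = - sg w c := by
  unfold sg fl
  by_cases h : c ∈ w <;> simp [Finset.mem_symmDiff, h]

lemma sg_fl_ne (w : Finset ℕ) {c d : ℕ} (h : d ≠ c) : sg (fl w c) d = sg w d := by
  unfold sg fl
  by_cases h' : d ∈ w <;> simp [Finset.mem_symmDiff, h', h]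

lemma fl_fl (w : Finset ℕ) (c : ℕ) : fl (fl w c) c = w := by
  unfold fl
  rw [symmDiff_assoc, symmDiff_self]
  simp

lemma fl_mem {m c : ℕ} (hc : c < m) {w : Finset ℕ} (hw : w ∈ (Finset.range m).powerset) :
    fl w c ∈ (Finset.range m).powerset := by
  rw [Finset.mem_powerset] at hw ⊢
  intro x hx
  unfold fl at hx
  rw [Finset.mem_symmDiff] at hx
  rcases hx with ⟨h1, _⟩ | ⟨h1, _⟩
  · exact hw h1
  · rw [Finset.mem_singleton] at h1
    subst h1
    exact Finset.mem_range.mpr hc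

/-- average over the subsets of `range m` -/
noncomputable def Ew (m : ℕ) (φ : Finset ℕ → ℝ) : ℝ :=
  (∑ w ∈ (Finset.range m).powerset, φ w) / 2 ^ m

lemma Ew_add (m : ℕ) (φ ψ : Finset ℕ → ℝ) : Ew m (fun w => φ w + ψ w) = Ew m φ + Ew m ψ := by
  unfold Ew; rw [Finset.sum_add_distrib, add_div]

lemma Ew_sub (m : ℕ) (φ ψ : Finset ℕ → ℝ) : Ew m (fun w => φ w - ψ w) = Ew m φ - Ew m ψ := by
  unfold Ew; rw [Finset.sum_sub_distrib, sub_div]

lemma Ew_mul_left (m : ℕ) (r : ℝ) (φ : Finset ℕ → ℝ) : Ew m (fun w => r * φ w) = r * Ew m φ := by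
  unfold Ew; rw [← Finset.mul_sum, mul_div_assoc]

lemma Ew_const (m : ℕ) (r : ℝ) : Ew m (fun _ => r) = r := by
  unfold Ew
  rw [Finset.sum_const, Finset.card_powerset, Finset.card_range, nsmul_eq_mul]
  push_cast
  field_simp

lemma Ew_sum {ι : Type*} (s : Finset ι) (m : ℕ) (φ : ι → Finset ℕ → ℝ) :
    Ew m (fun w => ∑ i ∈ s, φ i w) = ∑ i ∈ s, Ew m (φ i) := by
  unfold Ew
  rw [Finset.sum_comm, Finset.sum_div]

lemma Ew_mono {m : ℕ} {φ ψ : Finset ℕ → ℝ} (h : ∀ w, φ w ≤ ψ w) : Ew m φ ≤ Ew m ψ := by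
  unfold Ew
  gcongr with w hw
  exact h w

lemma Ew_congr {m : ℕ} {φ ψ : Finset ℕ → ℝ} (h : ∀ w, φ w = ψ w) : Ew m φ = Ew m ψ := by
  congr 1; funext w; exact h w

lemma Ew_flip {m c : ℕ} (hc : c < m) (φ : Finset ℕ → ℝ) :
    Ew m (fun w => φ (fl w c)) = Ew m φ := by
  unfold Ew
  congr 1
  exact Finset.sum_nbij' (fun w => fl w c) (fun w => fl w c) (fun w hw => fl_mem hc hw)
    (fun w hw => fl_mem hc hw) (fun w _ => fl_fl w c) (fun w _ => fl_fl w c) (fun w _ => rfl)

lemma Ew_indep {m c : ℕ} (hc : c < m) (φ : Finset ℕ → ℝ) (h : ∀ w, φ (fl w c) = φ w) :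
    Ew m (fun w => φ w * sg w c) = 0 := by
  have h1 := Ew_flip hc (fun w => φ w * sg w c)
  have h2 : Ew m (fun w => φ (fl w c) * sg (fl w c) c) = - Ew m (fun w => φ w * sg w c) := by
    have : Ew m (fun w => φ (fl w c) * sg (fl w c) c)
        = Ew m (fun w => (-1) * (φ w * sg w c)) := by
      apply Ew_congr
      intro w
      rw [h, sg_fl_self]; ring
    rw [this, Ew_mul_left]; ring
  linarith

/-- two-sided product -/
noncomputable def G2 (g : ℕ → Bool) (s s' : ℕ → ℝ) (z z' : ℕ) (n : ℕ) (w : Finset ℕ) : ℝ :=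
  ∏ k ∈ Finset.range n, ((1 + s k * (bs (g k) * sg w (cc z k))) *
    (1 + s' k * (bs (g k) * sg w (cc z' k))))

lemma G2_fl (g : ℕ → Bool) (s s' : ℕ → ℝ) (z z' n : ℕ) (c : ℕ)
    (hc : M n ≤ c) (w : Finset ℕ) : G2 g s s' z z' n (fl w c) = G2 g s s' z z' n w := by
  unfold G2
  refine Finset.prod_congr rfl fun k hk => ?_
  rw [Finset.mem_range] at hk
  have h1 := cc_lt_of (z := z) hk
  have h2 := cc_lt_of (z := z') hk
  rw [sg_fl_ne w (by omega), sg_fl_ne w (by omega)]

theorem Ew_G2 (g : ℕ → Bool) (s s' : ℕ → ℝ) (z z' : ℕ) (N : ℕ) : ∀ n, n ≤ N →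
    Ew (M N) (G2 g s s' z z' n) =
      ∏ k ∈ Finset.range n, (1 + s k * s' k * (if cc z k = cc z' k then 1 else 0)) := by
  intro n
  induction n with
  | zero => intro _; simp only [Finset.range_zero, Finset.prod_empty]; exact Ew_const _ _
  | succ n ih =>
    intro hn
    have ih' := ih (by omega)
    rw [Finset.prod_range_succ, ← ih']
    have hcN : cc z n < M N := cc_lt_of (by omega)
    have hcN' : cc z' n < M N := cc_lt_of (by omega)
    have e1 : Ew (M N) (fun w => G2 g s s' z z' n w * sg w (cc z n)) = 0 :=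
      Ew_indep hcN _ (fun w => G2_fl g s s' z z' n _ (le_cc z n) w)
    have e2 : Ew (M N) (fun w => G2 g s s' z z' n w * sg w (cc z' n)) = 0 :=
      Ew_indep hcN' _ (fun w => G2_fl g s s' z z' n _ (le_cc z' n) w)
    have e3 : Ew (M N) (fun w => (G2 g s s' z z' n w * sg w (cc z' n)) * sg w (cc z n))
        = (if cc z n = cc z' n then 1 else 0) * Ew (M N) (G2 g s s' z z' n) := by
      by_cases hcc : cc z n = cc z' n
      · rw [if_pos hcc, one_mul]
        apply Ew_congr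
        intro w
        rw [hcc, mul_assoc, sg_sq, mul_one]
      · rw [if_neg hcc, zero_mul]
        apply Ew_indep hcN
        intro w
        rw [G2_fl g s s' z z' n _ (le_cc z n) w, sg_fl_ne w (Ne.symm hcc)]
    have e4 : Ew (M N) (G2 g s s' z z' (n + 1)) = Ew (M N) (fun w =>
        G2 g s s' z z' n w + ((s n * bs (g n)) * (G2 g s s' z z' n w * sg w (cc z n)) +
        ((s' n * bs (g n)) * (G2 g s s' z z' n w * sg w (cc z' n)) +
        (s n * s' n) * ((G2 g s s' z z' n w * sg w (cc z' n)) * sg w (cc z n))))) := by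
      apply Ew_congr
      intro w
      have hb := bs_sq (g n)
      have : G2 g s s' z z' (n + 1) w = G2 g s s' z z' n w *
          ((1 + s n * (bs (g n) * sg w (cc z n))) * (1 + s' n * (bs (g n) * sg w (cc z' n)))) := by
        unfold G2
        rw [Finset.prod_range_succ]
      rw [this]
      linear_combination (G2 g s s' z z' n w * sg w (cc z' n) * sg w (cc z n) * s n * s' n) * hb
    rw [e4, Ew_add, Ew_add, Ew_add, Ew_mul_left, Ew_mul_left, Ew_mul_left, e1, e2, e3]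
    ring

/-- the density -/
noncomputable def D (n : ℕ) (g : ℕ → Bool) (z : ℕ) (w : Finset ℕ) : ℝ :=
  ∏ k ∈ Finset.range n, (1 + bs (g k) * sg w (cc z k))

lemma D_nonneg (n : ℕ) (g : ℕ → Bool) (z : ℕ) (w : Finset ℕ) : 0 ≤ D n g z w := by
  unfold D
  refine Finset.prod_nonneg fun k _ => ?_
  have h : |bs (g k) * sg w (cc z k)| ≤ 1 := by rw [abs_mul, abs_bs, abs_sg, one_mul]
  linarith [neg_le_of_abs_le h]

/-- number of agreements -/
noncomputable def Ag (n : ℕ) (z z' : ℕ) : ℝ :=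
  ∏ k ∈ Finset.range n, (1 + (if cc z k = cc z' k then 1 else 0))

theorem Ew_DD {l n N : ℕ} (hl : l ≤ n) (hn : n ≤ N) (g : ℕ → Bool) (z z' : ℕ) :
    Ew (M N) (fun w => D n g z w * D l g z' w) = Ag l z z' := by
  have h := Ew_G2 g (fun _ => 1) (fun k => if k < l then 1 else 0) z z' N n hn
  have h1 : Ew (M N) (fun w => D n g z w * D l g z' w) =
      Ew (M N) (G2 g (fun _ => 1) (fun k => if k < l then 1 else 0) z z' n) := by
    apply Ew_congr
    intro w
    unfold G2
    rw [Finset.prod_mul_distrib]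
    congr 1
    · unfold D; refine Finset.prod_congr rfl fun k _ => by ring
    · unfold D
      have hsub : Finset.range l ⊆ Finset.range n := Finset.range_subset_range.mpr hl
      rw [← Finset.prod_subset hsub (f := fun k => 1 + (if k < l then (1 : ℝ) else 0) *
        (bs (g k) * sg w (cc z' k)))]
      · refine Finset.prod_congr rfl fun k hk => ?_
        rw [if_pos (Finset.mem_range.mp hk)]; ring
      · intro k _ hk
        rw [Finset.mem_range] at hk
        rw [if_neg hk]; ring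
  rw [h1, h]
  unfold Ag
  have hsub : Finset.range l ⊆ Finset.range n := Finset.range_subset_range.mpr hl
  rw [← Finset.prod_subset hsub (f := fun k => 1 + (1 : ℝ) * (if k < l then (1 : ℝ) else 0) *
    (if cc z k = cc z' k then 1 else 0))]
  · refine Finset.prod_congr rfl fun k hk => ?_
    rw [if_pos (Finset.mem_range.mp hk)]; ring
  · intro k _ hk
    rw [Finset.mem_range] at hk
    rw [if_neg hk]; ring

lemma Ag_comm (n z z' : ℕ) : Ag n z z' = Ag n z' z := by
  unfold Ag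
  refine Finset.prod_congr rfl fun k _ => ?_
  congr 1
  simp only [eq_comm]

theorem Ew_D {n N : ℕ} (hn : n ≤ N) (g : ℕ → Bool) (z : ℕ) : Ew (M N) (D n g z) = 1 := by
  have h := Ew_DD (l := 0) (Nat.zero_le n) hn g z z
  simp only [D, Ag, Finset.range_zero, Finset.prod_empty, mul_one] at h ⊢
  exact h

lemma Ag_nonneg (n z z' : ℕ) : 0 ≤ Ag n z z' := by
  unfold Ag
  refine Finset.prod_nonneg fun k _ => ?_
  split_ifs <;> norm_num

lemma Ag_le (n z z' : ℕ) : Ag n z z' ≤ 2 ^ n := by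
  unfold Ag
  calc ∏ k ∈ Finset.range n, (1 + (if cc z k = cc z' k then (1 : ℝ) else 0))
      ≤ ∏ k ∈ Finset.range n, 2 := by
        refine Finset.prod_le_prod (fun k _ => ?_) (fun k _ => ?_)
        · split_ifs <;> norm_num
        · split_ifs <;> norm_num
    _ = 2 ^ n := by simp

lemma Ag_succ (n z z' : ℕ) :
    Ag (n + 1) z z' = Ag n z z' + Ag n z z' * (if cc z n = cc z' n then 1 else 0) := by
  unfold Ag; rw [Finset.prod_range_succ]; ring

lemma Ag_mono {l n : ℕ} (h : l ≤ n) (z z' : ℕ) : Ag l z z' ≤ Ag n z z' := by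
  induction n, h using Nat.le_induction with
  | base => exact le_rfl
  | succ n _ ih =>
    rw [Ag_succ]
    have := Ag_nonneg n z z'
    have h2 : 0 ≤ Ag n z z' * (if cc z n = cc z' n then (1 : ℝ) else 0) := by
      split_ifs <;> simp [this]
    linarith

/-- average over `range (M n)` -/
noncomputable def Ez (n : ℕ) (φ : ℕ → ℝ) : ℝ := (∑ z ∈ Finset.range (M n), φ z) / M n

lemma Ez_mono {n : ℕ} {φ ψ : ℕ → ℝ} (h : ∀ z, φ z ≤ ψ z) : Ez n φ ≤ Ez n ψ := by
  unfold Ez
  gcongr with w hw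
  exact h w

lemma Ez_congr {n : ℕ} {φ ψ : ℕ → ℝ} (h : ∀ z, φ z = ψ z) : Ez n φ = Ez n ψ := by
  congr 1; funext w; exact h w

lemma Ez_add (m : ℕ) (φ ψ : ℕ → ℝ) : Ez m (fun w => φ w + ψ w) = Ez m φ + Ez m ψ := by
  unfold Ez; rw [Finset.sum_add_distrib, add_div]

lemma Ez_sub (m : ℕ) (φ ψ : ℕ → ℝ) : Ez m (fun w => φ w - ψ w) = Ez m φ - Ez m ψ := by
  unfold Ez; rw [Finset.sum_sub_distrib, sub_div]

lemma Ez_mul_left (m : ℕ) (r : ℝ) (φ : ℕ → ℝ) : Ez m (fun w => r * φ w) = r * Ez m φ := by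
  unfold Ez; rw [← Finset.mul_sum, mul_div_assoc]

lemma Ez_const (m : ℕ) (r : ℝ) : Ez m (fun _ => r) = r := by
  unfold Ez
  have := M_pos m
  rw [Finset.sum_const, Finset.card_range, nsmul_eq_mul]
  field_simp

lemma Ez_sum {ι : Type*} (s : Finset ι) (m : ℕ) (φ : ι → ℕ → ℝ) :
    Ez m (fun w => ∑ i ∈ s, φ i w) = ∑ i ∈ s, Ez m (φ i) := by
  unfold Ez
  rw [Finset.sum_comm, Finset.sum_div]

lemma Ez_Ew_comm (n m : ℕ) (φ : ℕ → Finset ℕ → ℝ) :
    Ez n (fun z => Ew m (fun w => φ z w)) = Ew m (fun w => Ez n (fun z => φ z w)) := by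
  unfold Ez Ew
  simp only [Finset.sum_div]
  rw [Finset.sum_comm]
  refine Finset.sum_congr rfl fun w _ => Finset.sum_congr rfl fun z _ => ?_
  ring

lemma abs_Ez_le {n : ℕ} {φ : ℕ → ℝ} {C : ℝ} (h : ∀ z, |φ z| ≤ C) : |Ez n φ| ≤ C := by
  rw [abs_le]
  constructor
  · have := Ez_mono (n := n) (φ := fun _ => -C) (ψ := φ) (fun z => neg_le_of_abs_le (h z))
    rwa [Ez_const] at this
  · have := Ez_mono (n := n) (φ := φ) (ψ := fun _ => C) (fun z => le_of_abs_le (h z))
    rwa [Ez_const] at this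

lemma abs_Ew_le {n : ℕ} {φ : Finset ℕ → ℝ} {C : ℝ} (h : ∀ z, |φ z| ≤ C) : |Ew n φ| ≤ C := by
  rw [abs_le]
  constructor
  · have := Ew_mono (m := n) (φ := fun _ => -C) (ψ := φ) (fun z => neg_le_of_abs_le (h z))
    rwa [Ew_const] at this
  · have := Ew_mono (m := n) (φ := φ) (ψ := fun _ => C) (fun z => le_of_abs_le (h z))
    rwa [Ew_const] at this

end Pool.Agent.H266R3.BN
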