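import Pool.Agent.H266R3.Pelc

/-!
`C(A(ℕ))` and `C(A(ℕ)^ℕ)` are not isomorphic.
-/

set_option autoImplicit false

open Topology Filter

namespace Pool.Agent.H266R3.BN

/-- indicator of the isolated point `n` -/
noncomputable def dl (n : ℕ) : C(Zs, ℝ) :=
  ⟨fun b => if b.1 n = true then 1 else 0, by
    have h1 : Continuous (fun c : Bool => if c = true then (1 : ℝ) else 0) :=
      continuous_of_discreteTopology
    exact h1.comp ((continuous_apply n).comp continuous_subtype_val)⟩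

lemma dl_apply (n : ℕ) (b : Zs) : dl n b = if b.1 n = true then 1 else 0 := rfl

lemma norm_sum_dl_le (s : Finset ℕ) (c : ℕ → ℝ) (C : ℝ) (hC : 0 ≤ C) (hc : ∀ n, |c n| ≤ C) :
    ‖∑ n ∈ s, c n • dl n‖ ≤ C := by
  rw [ContinuousMap.norm_le _ hC]
  intro b
  rw [ContinuousMap.sum_apply]
  simp only [ContinuousMap.smul_apply, smul_eq_mul, dl_apply]
  by_cases h : ∃ m, b.1 m = true
  · obtain ⟨m, hm⟩ := h
    have h1 : ∀ n, n ≠ m → c n * (if b.1 n = true then 1 else 0) = 0 := by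
      intro n hn
      rw [if_neg, mul_zero]
      intro h
      exact hn (b.2 _ _ h hm)
    by_cases hms : m ∈ s
    · rw [Finset.sum_eq_single_of_mem m hms (fun n _ hn => h1 n hn), if_pos hm, mul_one,
        Real.norm_eq_abs]
      exact hc m
    · rw [Finset.sum_eq_zero (fun n hn => h1 n (fun h => hms (h ▸ hn)))]
      simpa using hC
  · push Not at h
    rw [Finset.sum_eq_zero (fun n _ => by rw [if_neg (h n), mul_zero])]
    simpa using hC

lemma sum_abs_le (θ : C(Zs, ℝ) →L[ℝ] ℝ) (s : Finset ℕ) : ∑ n ∈ s, |θ (dl n)| ≤ ‖θ‖ := by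
  have h1 : ∑ n ∈ s, |θ (dl n)| = θ (∑ n ∈ s, (SignType.sign (θ (dl n)) : ℝ) • dl n) := by
    rw [map_sum]
    refine Finset.sum_congr rfl fun n _ => ?_
    rw [map_smul, smul_eq_mul, sign_mul_self]
  rw [h1]
  refine (le_abs_self _).trans ((θ.le_opNorm _).trans ?_)
  have h2 : ‖∑ n ∈ s, (SignType.sign (θ (dl n)) : ℝ) • dl n‖ ≤ 1 := by
    refine norm_sum_dl_le s _ 1 zero_le_one fun n => ?_
    rcases lt_trichotomy (θ (dl n)) 0 with h | h | h
    · rw [sign_neg h]; simp
    · rw [h, sign_zero]; simp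
    · rw [sign_pos h]; simp
  calc ‖θ‖ * ‖∑ n ∈ s, (SignType.sign (θ (dl n)) : ℝ) • dl n‖ ≤ ‖θ‖ * 1 :=
        mul_le_mul_of_nonneg_left h2 θ.opNorm_nonneg
    _ = ‖θ‖ := mul_one _

lemma approx (f : C(Zs, ℝ)) {ε : ℝ} (hε : 0 < ε) : ∃ N : ℕ,
    ‖f - (f ptInf • (1 : C(Zs, ℝ)) +
      ∑ n ∈ Finset.range N, (f (pt n) - f ptInf) • dl n)‖ ≤ ε := by
  have h1 : ∀ᶠ b in 𝓝 ptInf, dist (f b) (f ptInf) < ε :=
    (Metric.tendsto_nhds.mp (f.continuous.tendsto ptInf)) ε hε
  obtain ⟨N, hN⟩ : ∃ N : ℕ, ∀ b : Zs, (∀ n < N, b.1 n = false) → dist (f b) (f ptInf) < ε := by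
    by_contra hcon
    push Not at hcon
    choose b hb1 hb2 using hcon
    have hlim : Tendsto b atTop (𝓝 ptInf) := by
      rw [tendsto_subtype_rng]
      refine tendsto_pi_nhds.mpr fun k => tendsto_const_nhds.congr' ?_
      filter_upwards [eventually_gt_atTop k] with N hN using (hb1 N k hN).symm
    obtain ⟨N, hN⟩ := (hlim.eventually h1).exists
    exact absurd hN (not_lt.mpr (hb2 N))
  refine ⟨N, ?_⟩
  rw [ContinuousMap.norm_le _ hε.le]
  intro b
  simp only [ContinuousMap.sub_apply, ContinuousMap.add_apply, ContinuousMap.smul_apply,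
    ContinuousMap.one_apply, smul_eq_mul, mul_one, ContinuousMap.sum_apply, dl_apply]
  by_cases h : ∃ m < N, b.1 m = true
  · obtain ⟨m, hmN, hm⟩ := h
    have hb : b = pt m := by
      apply Subtype.ext
      funext n
      rcases hn : b.1 n with _ | _
      · symm
        simp only [pt, decide_eq_false_iff_not]
        rintro rfl
        rw [hm] at hn
        simp at hn
      · have := b.2 _ _ hn hm
        simp [pt, this]
    have h2 : ∀ n, n ≠ m → (f (pt n) - f ptInf) * (if b.1 n = true then 1 else 0) = 0 := by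
      intro n hn
      rw [if_neg, mul_zero]
      intro h
      exact hn (b.2 _ _ h hm)
    rw [Finset.sum_eq_single_of_mem m (Finset.mem_range.mpr hmN) (fun n _ hn => h2 n hn),
      if_pos hm, mul_one, hb]
    simp only [add_sub_cancel, sub_self, norm_zero]
    exact hε.le
  · push Not at h
    have h' : ∀ n < N, b.1 n = false := fun n hn => by
      rcases hb : b.1 n with _ | _
      · rfl
      · exact absurd hb (h n hn)
    rw [Finset.sum_eq_zero (fun n hn => by
      rw [if_neg (h n (Finset.mem_range.mp hn)), mul_zero]), add_zero]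
    have := hN b h'
    rw [Real.dist_eq] at this
    exact this.le

lemma bound (θ : C(Zs, ℝ) →L[ℝ] ℝ) {η : ℝ} (h1 : |θ 1| ≤ η)
    (h2 : ∀ N, ∑ n ∈ Finset.range N, |θ (dl n)| ≤ η) (f : C(Zs, ℝ)) :
    |θ f| ≤ 3 * η * ‖f‖ := by
  refine le_of_forall_pos_le_add fun ε hε => ?_
  obtain ⟨N, hN⟩ := approx f (ε := ε / (‖θ‖ + 1)) (by positivity)
  set f' : C(Zs, ℝ) := f ptInf • (1 : C(Zs, ℝ)) +
      ∑ n ∈ Finset.range N, (f (pt n) - f ptInf) • dl n with hf'
  have e1 : θ f = θ (f - f') + θ f' := by rw [← map_add]; congr 1; abel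
  have e2 : |θ (f - f')| ≤ ε := by
    calc |θ (f - f')| ≤ ‖θ‖ * ‖f - f'‖ := θ.le_opNorm _
      _ ≤ (‖θ‖ + 1) * (ε / (‖θ‖ + 1)) := by
        apply mul_le_mul _ hN (norm_nonneg _) (by positivity)
        linarith
      _ = ε := by
        have : ‖θ‖ + 1 ≠ 0 := by positivity
        field_simp
  have hη : 0 ≤ η := (abs_nonneg _).trans h1
  have e3 : |θ f'| ≤ 3 * η * ‖f‖ := by
    rw [hf', map_add, map_smul, map_sum]
    simp only [map_smul, smul_eq_mul]
    have g1 : |f ptInf * θ 1| ≤ ‖f‖ * η := by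
      rw [abs_mul]
      exact mul_le_mul (f.norm_coe_le_norm _) h1 (abs_nonneg _) (norm_nonneg _)
    have g2 : |∑ n ∈ Finset.range N, (f (pt n) - f ptInf) * θ (dl n)| ≤ 2 * ‖f‖ * η := by
      calc |∑ n ∈ Finset.range N, (f (pt n) - f ptInf) * θ (dl n)|
          ≤ ∑ n ∈ Finset.range N, |(f (pt n) - f ptInf) * θ (dl n)| :=
            Finset.abs_sum_le_sum_abs _ _
        _ ≤ ∑ n ∈ Finset.range N, (2 * ‖f‖) * |θ (dl n)| := by
          refine Finset.sum_le_sum fun n _ => ?_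
          rw [abs_mul]
          refine mul_le_mul_of_nonneg_right ?_ (abs_nonneg _)
          have a1 := f.norm_coe_le_norm (pt n)
          have a2 := f.norm_coe_le_norm ptInf
          rw [Real.norm_eq_abs] at a1 a2
          calc |f (pt n) - f ptInf| ≤ |f (pt n)| + |f ptInf| := abs_sub _ _
            _ ≤ 2 * ‖f‖ := by linarith
        _ = 2 * ‖f‖ * ∑ n ∈ Finset.range N, |θ (dl n)| := by rw [Finset.mul_sum]
        _ ≤ 2 * ‖f‖ * η := mul_le_mul_of_nonneg_left (h2 N) (by positivity)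
    calc _ ≤ |f ptInf * θ 1| + |∑ n ∈ Finset.range N, (f (pt n) - f ptInf) * θ (dl n)| :=
          abs_add_le _ _
      _ ≤ 3 * η * ‖f‖ := by linarith
  calc |θ f| ≤ |θ (f - f')| + |θ f'| := by rw [e1]; exact abs_add_le _ _
    _ ≤ 3 * η * ‖f‖ + ε := by linarith

theorem no_iso (T : C(Zs, ℝ) ≃L[ℝ] C(Kt, ℝ)) : False := by
  -- the functionals
  let ψ : Kt → (C(Zs, ℝ) →L[ℝ] ℝ) := fun κ =>
    (ContinuousMap.evalCLM ℝ κ).comp (T : C(Zs, ℝ) →L[ℝ] C(Kt, ℝ))
  have hψ : ∀ κ f, ψ κ f = T f κ := fun κ f => rfl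
  set C : ℝ := ‖(T.symm : C(Kt, ℝ) →L[ℝ] C(Zs, ℝ))‖ + 1 with hC
  have hC0 : 0 < C := by positivity
  set η : ℝ := 1 / (16 * C) with hη
  have hη0 : 0 < η := by positivity
  let A : ℕ → Set Kt := fun N => {κ | ∀ N', ∑ n ∈ Finset.Ico N N', |T (dl n) κ| ≤ η}
  have hA : ∀ N, IsClosed (A N) := by
    intro N
    have : A N = ⋂ N', {κ | ∑ n ∈ Finset.Ico N N', |T (dl n) κ| ≤ η} := by
      ext κ; simp [A]
    rw [this]
    refine isClosed_iInter fun N' => isClosed_le ?_ continuous_const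
    exact continuous_finsetSum _ fun n _ => (T (dl n)).continuous.abs
  have hAu : ⋃ N, A N = Set.univ := by
    rw [Set.eq_univ_iff_forall]
    intro κ
    have hsum : Summable (fun n => |ψ κ (dl n)|) :=
      summable_of_sum_le (fun n => abs_nonneg _) (c := ‖ψ κ‖) (fun s => sum_abs_le (ψ κ) s)
    have hcs := hsum.hasSum.tendsto_sum_nat.cauchySeq
    rw [Metric.cauchySeq_iff] at hcs
    obtain ⟨N, hN⟩ := hcs η hη0
    rw [Set.mem_iUnion]
    refine ⟨N, fun N' => ?_⟩
    by_cases hNN : N ≤ N'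
    · have h1 := hN N' hNN N le_rfl
      rw [Real.dist_eq, ← Finset.sum_Ico_eq_sub _ hNN] at h1
      exact (le_abs_self _).trans h1.le
    · rw [Finset.Ico_eq_empty (by omega), Finset.sum_empty]
      exact hη0.le
  obtain ⟨N, κ, hκ⟩ := nonempty_interior_of_iUnion_of_closed hA hAu
  -- a sequence converging to κ
  have hex : ∀ m, ∃ z : Zs, z ≠ κ m := fun m => by
    by_cases h : κ m = pt 0
    · exact ⟨pt 1, fun h' => by
        have := pt_injective (h'.trans h)
        omega⟩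
    · exact ⟨pt 0, fun h' => h h'.symm⟩
  choose z hz using hex
  let κs : ℕ → Kt := fun m => Function.update κ m (z m)
  have hlim : Tendsto κs atTop (𝓝 κ) := by
    refine tendsto_pi_nhds.mpr fun k => tendsto_const_nhds.congr' ?_
    filter_upwards [eventually_gt_atTop k] with m hm
    exact (Function.update_of_ne (Nat.ne_of_lt hm) _ _).symm
  have ev1 : ∀ᶠ m in atTop, κs m ∈ A N :=
    (hlim.eventually (isOpen_interior.mem_nhds hκ)).mono fun m hm => interior_subset hm
  have ev2 : ∀ᶠ m in atTop, |T 1 (κs m) - T 1 κ| ≤ η := by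
    have h1 : Tendsto (fun m => T 1 (κs m)) atTop (𝓝 (T 1 κ)) :=
      ((T 1).continuous.tendsto κ).comp hlim
    have h2 := (Metric.tendsto_nhds.mp h1) η hη0
    exact h2.mono fun m hm => by rw [Real.dist_eq] at hm; exact hm.le
  have ev3 : ∀ᶠ m in atTop, ∑ n ∈ Finset.range N, |T (dl n) (κs m) - T (dl n) κ| ≤ η := by
    have h1 : Tendsto (fun m => ∑ n ∈ Finset.range N, |T (dl n) (κs m) - T (dl n) κ|) atTop
        (𝓝 (∑ n ∈ Finset.range N, |T (dl n) κ - T (dl n) κ|)) := by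
      refine tendsto_finsetSum _ fun n _ => ?_
      exact ((((T (dl n)).continuous.tendsto κ).comp hlim).sub tendsto_const_nhds).abs
    have h3 : ∑ n ∈ Finset.range N, |T (dl n) κ - T (dl n) κ| < η := by simpa using hη0
    exact (h1.eventually (gt_mem_nhds h3)).mono fun m hm => hm.le
  obtain ⟨m, hm1, hm2, hm3⟩ := (ev1.and (ev2.and ev3)).exists
  have hκA : κ ∈ A N := interior_subset hκ
  have hne : κs m ≠ κ := by
    intro h
    have := congrFun h m
    simp only [κs, Function.update_self] at this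
    exact hz m this
  -- separation
  obtain ⟨h, h0, h1, h01⟩ := exists_continuous_zero_one_of_isClosed
    (isClosed_singleton (x := κs m)) (isClosed_singleton (x := κ)) (by simpa using hne)
  have hh : ‖h‖ ≤ 1 := by
    rw [ContinuousMap.norm_le _ zero_le_one]
    intro x
    rw [Real.norm_eq_abs, abs_le]
    exact ⟨by linarith [(h01 x).1], (h01 x).2⟩
  let θ : C(Zs, ℝ) →L[ℝ] ℝ := ψ (κs m) - ψ κ
  have hθ : ∀ f, θ f = T f (κs m) - T f κ := fun f => rfl
  have hθsum : ∀ N', ∑ n ∈ Finset.range N', |θ (dl n)| ≤ 3 * η := by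
    intro N'
    have hsub : Finset.range N' ⊆ Finset.range N ∪ Finset.Ico N N' := by
      intro n hn
      rw [Finset.mem_union, Finset.mem_range, Finset.mem_Ico]
      rw [Finset.mem_range] at hn
      omega
    calc ∑ n ∈ Finset.range N', |θ (dl n)|
        ≤ ∑ n ∈ Finset.range N ∪ Finset.Ico N N', |θ (dl n)| :=
          Finset.sum_le_sum_of_subset_of_nonneg hsub fun _ _ _ => abs_nonneg _
      _ = ∑ n ∈ Finset.range N, |θ (dl n)| + ∑ n ∈ Finset.Ico N N', |θ (dl n)| := by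
          apply Finset.sum_union
          rw [Finset.disjoint_left]
          intro n h1 h2
          rw [Finset.mem_range] at h1
          rw [Finset.mem_Ico] at h2
          omega
      _ ≤ η + (η + η) := by
          refine add_le_add hm3 ?_
          calc ∑ n ∈ Finset.Ico N N', |θ (dl n)|
              ≤ ∑ n ∈ Finset.Ico N N', (|T (dl n) (κs m)| + |T (dl n) κ|) :=
                Finset.sum_le_sum fun n _ => abs_sub _ _
            _ = ∑ n ∈ Finset.Ico N N', |T (dl n) (κs m)| +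
                ∑ n ∈ Finset.Ico N N', |T (dl n) κ| := Finset.sum_add_distrib
            _ ≤ η + η := add_le_add (hm1 N') (hκA N')
      _ = 3 * η := by ring
  have hb := bound θ (η := 3 * η) (by
      rw [hθ]; linarith) hθsum (T.symm h)
  rw [hθ, T.apply_symm_apply, h0 rfl, h1 rfl] at hb
  have hn : ‖T.symm h‖ ≤ C := by
    calc ‖T.symm h‖ ≤ ‖(T.symm : C(Kt, ℝ) →L[ℝ] C(Zs, ℝ))‖ * ‖h‖ :=
          (T.symm : C(Kt, ℝ) →L[ℝ] C(Zs, ℝ)).le_opNorm h
      _ ≤ ‖(T.symm : C(Kt, ℝ) →L[ℝ] C(Zs, ℝ))‖ * 1 :=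
          mul_le_mul_of_nonneg_left hh (ContinuousLinearMap.opNorm_nonneg _)
      _ ≤ C := by rw [hC]; linarith
  have h9 : 3 * (3 * η) * ‖T.symm h‖ ≤ 9 / 16 := by
    calc 3 * (3 * η) * ‖T.symm h‖ ≤ 3 * (3 * η) * C :=
          mul_le_mul_of_nonneg_left hn (by positivity)
      _ = 9 / 16 := by rw [hη]; field_simp; norm_num
  have : |(0 : ℝ) - 1| = 1 := by norm_num
  simp only [Pi.zero_apply, Pi.one_apply] at hb
  rw [this] at hb
  linarith

end Pool.Agent.H266R3.BN
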