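import Mathlib

/-!
The Pełczyński decomposition method, and the compact spaces `A(ℕ)` and `A(ℕ)^ℕ`.
-/

set_option autoImplicit false

open Topology Filter

namespace Pool.Agent.H266R3.BN

/-- `V` is isomorphic to a complemented subspace of `W`. -/
def Cp (V W : Type) [NormedAddCommGroup V] [NormedSpace ℝ V] [NormedAddCommGroup W]
    [NormedSpace ℝ W] : Prop :=
  ∃ (S : V →L[ℝ] W) (T : W →L[ℝ] V), ∀ v, T (S v) = v

lemma Cp.trans {U V W : Type} [NormedAddCommGroup U] [NormedSpace ℝ U] [NormedAddCommGroup V]
    [NormedSpace ℝ V] [NormedAddCommGroup W] [NormedSpace ℝ W] (h : Cp U V) (h' : Cp V W) :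
    Cp U W := by
  obtain ⟨S, T, hST⟩ := h
  obtain ⟨S', T', hST'⟩ := h'
  exact ⟨S'.comp S, T.comp T', fun v => by
    simp only [ContinuousLinearMap.comp_apply, hST', hST]⟩

section

variable {Z : Type} [TopologicalSpace Z] [CompactSpace Z]

variable {X Y W B : Type} [NormedAddCommGroup X] [NormedSpace ℝ X] [NormedAddCommGroup Y]
  [NormedSpace ℝ Y] [NormedAddCommGroup W] [NormedSpace ℝ W] [NormedAddCommGroup B]
  [NormedSpace ℝ B]

variable (Z) in
/-- postcomposition -/
def postC (h : Y ≃L[ℝ] W) : C(Z, Y) ≃L[ℝ] C(Z, W) where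
  toFun f := (h : C(Y, W)).comp f
  invFun f := (h.symm : C(W, Y)).comp f
  map_add' f g := by ext x; simp
  map_smul' r f := by ext x; simp
  left_inv f := by ext x; simp
  right_inv f := by ext x; simp
  continuous_toFun := ContinuousMap.continuous_postcomp (h : C(Y, W))
  continuous_invFun := ContinuousMap.continuous_postcomp (h.symm : C(W, Y))

variable (Z X B) in
/-- `C(Z, X × B) ≃ C(Z, X) × C(Z, B)` -/
noncomputable def prodC : C(Z, X × B) ≃L[ℝ] C(Z, X) × C(Z, B) :=
  LinearEquiv.toContinuousLinearEquivOfBounds
    { toFun := fun f => (ContinuousMap.comp ⟨Prod.fst, continuous_fst⟩ f,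
        ContinuousMap.comp ⟨Prod.snd, continuous_snd⟩ f)
      invFun := fun p => ⟨fun z => (p.1 z, p.2 z), p.1.continuous.prodMk p.2.continuous⟩
      map_add' := fun f g => rfl
      map_smul' := fun r f => rfl
      left_inv := fun f => by ext x <;> rfl
      right_inv := fun f => by ext x <;> rfl } 1 1
    (fun f => by
      rw [one_mul]
      refine max_le ?_ ?_
      · refine (ContinuousMap.norm_le _ (norm_nonneg f)).mpr fun z => ?_
        exact (norm_fst_le (f z)).trans (f.norm_coe_le_norm z)
      · refine (ContinuousMap.norm_le _ (norm_nonneg f)).mpr fun z => ?_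
        exact (norm_snd_le (f z)).trans (f.norm_coe_le_norm z))
    (fun p => by
      rw [one_mul]
      refine (ContinuousMap.norm_le _ (norm_nonneg p)).mpr fun z => ?_
      refine max_le ?_ ?_
      · exact (p.1.norm_coe_le_norm z).trans (norm_fst_le p)
      · exact (p.2.norm_coe_le_norm z).trans (norm_snd_le p))

variable (X) in
/-- `C(Z, X) ≃ X × C(Z, X)` when `Z ≅ Unit ⊕ Z`. -/
noncomputable def addC (h : Z ≃ₜ Unit ⊕ Z) : C(Z, X) ≃L[ℝ] X × C(Z, X) :=
  LinearEquiv.toContinuousLinearEquivOfBounds
    { toFun := fun f => (f (h.symm (Sum.inl ())),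
        ⟨fun z => f (h.symm (Sum.inr z)),
          f.continuous.comp (h.symm.continuous.comp continuous_inr)⟩)
      invFun := fun p => ⟨fun z => Sum.elim (fun _ => p.1) p.2 (h z),
        (continuous_const.sumElim p.2.continuous).comp h.continuous⟩
      map_add' := fun f g => rfl
      map_smul' := fun r f => rfl
      left_inv := fun f => by
        ext x
        obtain ⟨y, rfl⟩ := h.symm.surjective x
        rcases y with y | y <;> simp
      right_inv := fun f => by
        refine Prod.ext ?_ ?_
        · simp
        · ext x; simp } 1 1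
    (fun f => by
      rw [one_mul]
      refine max_le ?_ ?_
      · exact f.norm_coe_le_norm _
      · refine (ContinuousMap.norm_le _ (norm_nonneg f)).mpr fun z => ?_
        exact f.norm_coe_le_norm _)
    (fun p => by
      rw [one_mul]
      refine (ContinuousMap.norm_le _ (norm_nonneg p)).mpr fun z => ?_
      change ‖Sum.elim (fun _ => p.1) p.2 (h z)‖ ≤ ‖p‖
      rcases h z with y | y
      · exact norm_fst_le p
      · exact (p.2.norm_coe_le_norm _).trans (norm_snd_le p))

lemma absorb (h : Z ≃ₜ Unit ⊕ Z) (hY : Y ≃L[ℝ] C(Z, Y)) (hXB : Y ≃L[ℝ] X × B) :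
    Nonempty (Y ≃L[ℝ] X × Y) := by
  have e1 : Y ≃L[ℝ] C(Z, X) × C(Z, B) := (hY.trans (postC Z hXB)).trans (prodC Z X B)
  have e2 : (C(Z, X) × C(Z, B)) ≃L[ℝ] (X × C(Z, X)) × C(Z, B) :=
    (addC X h).prodCongr (ContinuousLinearEquiv.refl ℝ _)
  have e3 : ((X × C(Z, X)) × C(Z, B)) ≃L[ℝ] X × (C(Z, X) × C(Z, B)) :=
    ContinuousLinearEquiv.prodAssoc ℝ X C(Z, X) C(Z, B)
  exact ⟨((e1.trans e2).trans e3).trans ((ContinuousLinearEquiv.refl ℝ X).prodCongr e1.symm)⟩

theorem pelczynski (h : Z ≃ₜ Unit ⊕ Z) (hY : Y ≃L[ℝ] C(Z, Y)) (hXY : Cp X Y) (hYX : Cp Y X) :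
    Nonempty (X ≃L[ℝ] Y) := by
  obtain ⟨S, T, hST⟩ := hXY
  obtain ⟨S', T', hST'⟩ := hYX
  have e1 : Y ≃L[ℝ] X × T.ker := ContinuousLinearEquiv.equivOfRightInverse T S hST
  have e2 : X ≃L[ℝ] Y × T'.ker := ContinuousLinearEquiv.equivOfRightInverse T' S' hST'
  obtain ⟨e3⟩ := absorb h hY e1
  obtain ⟨e4⟩ := absorb (X := Y) (B := PUnit) h hY
    (ContinuousLinearEquiv.prodUnique ℝ Y PUnit).symm
  have e5 : X ≃L[ℝ] (Y × Y) × T'.ker :=
    e2.trans (e4.prodCongr (ContinuousLinearEquiv.refl ℝ _))
  have e6 : X ≃L[ℝ] Y × (Y × T'.ker) :=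
    e5.trans (ContinuousLinearEquiv.prodAssoc ℝ Y Y T'.ker)
  have e7 : X ≃L[ℝ] Y × X :=
    e6.trans ((ContinuousLinearEquiv.refl ℝ Y).prodCongr e2.symm)
  exact ⟨(e7.trans (ContinuousLinearEquiv.prodComm ℝ Y X)).trans e3.symm⟩

end

section

variable {X Y : Type} [TopologicalSpace X] [TopologicalSpace Y] [CompactSpace X] [CompactSpace Y]

lemma cp_of_retract (i : C(X, Y)) (r : C(Y, X)) (h : ∀ x, r (i x) = x) :
    Cp C(X, ℝ) C(Y, ℝ) := by
  refine ⟨{ toFun := fun g => g.comp r
            map_add' := fun f g => rfl
            map_smul' := fun r f => rfl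
            cont := ContinuousMap.continuous_precomp r },
          { toFun := fun g => g.comp i
            map_add' := fun f g => rfl
            map_smul' := fun r f => rfl
            cont := ContinuousMap.continuous_precomp i }, fun g => ?_⟩
  ext x
  change g (r (i x)) = g x
  rw [h]

/-- homeomorphic spaces -/
def congrC (h : X ≃ₜ Y) : C(X, ℝ) ≃L[ℝ] C(Y, ℝ) where
  toFun f := f.comp (h.symm : C(Y, X))
  invFun f := f.comp (h : C(X, Y))
  map_add' f g := rfl
  map_smul' r f := rfl
  left_inv f := by ext x; simp
  right_inv f := by ext x; simp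
  continuous_toFun := ContinuousMap.continuous_precomp _
  continuous_invFun := ContinuousMap.continuous_precomp _

variable (X Y) in
/-- currying -/
def curryC [T2Space X] [T2Space Y] : C(X × Y, ℝ) ≃L[ℝ] C(X, C(Y, ℝ)) where
  toFun f := f.curry
  invFun f := f.uncurry
  map_add' f g := rfl
  map_smul' r f := rfl
  left_inv f := by ext x; rfl
  right_inv f := by ext x; rfl
  continuous_toFun := ContinuousMap.continuous_curry
  continuous_invFun := ContinuousMap.continuous_uncurry

end

/-- the one-point compactification of `ℕ`, as the set of subsets with at most one element -/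
def ZZ : Set (ℕ → Bool) := {b | ∀ m n, b m = true → b n = true → m = n}

abbrev Zs : Type := ZZ

lemma isClosed_ZZ : IsClosed ZZ := by
  have : ZZ = ⋂ s : ℕ, ⋂ s' : ℕ, {b : ℕ → Bool | b s = true → b s' = true → s = s'} := by
    ext b; simp [ZZ]
  rw [this]
  refine isClosed_iInter fun s => isClosed_iInter fun s' => ?_
  by_cases h : s = s'
  · have : {b : ℕ → Bool | b s = true → b s' = true → s = s'} = Set.univ := by
      ext b; simp [h]
    rw [this]; exact isClosed_univ
  · have : {b : ℕ → Bool | b s = true → b s' = true → s = s'} =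
        {b : ℕ → Bool | (b s && b s') = false} := by
      ext b
      simp only [Set.mem_ofPred_eq, h, imp_false]
      cases b s <;> cases b s' <;> simp
    rw [this]
    have hc : Continuous (fun b : ℕ → Bool => (b s && b s')) := by
      have : Continuous (fun p : Bool × Bool => (p.1 && p.2)) := continuous_of_discreteTopology
      have h2 : Continuous (fun b : ℕ → Bool => (b s, b s')) := by fun_prop
      exact this.comp h2
    exact isClosed_eq hc continuous_const

instance : CompactSpace Zs := isCompact_iff_compactSpace.mp isClosed_ZZ.isCompact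

/-- isolated points -/
def pt (n : ℕ) : Zs := ⟨fun m => decide (m = n), fun m m' h h' => by
  rw [decide_eq_true_eq] at h h'; omega⟩

/-- the point at infinity -/
def ptInf : Zs := ⟨fun _ => false, fun m m' h _ => by simp at h⟩

lemma pt_injective : Function.Injective pt := by
  intro m n h
  have := congrFun (congrArg Subtype.val h) m
  simpa [pt] using this

instance : Infinite Zs := Infinite.of_injective pt pt_injective

/-- shift -/
def sh (b : Zs) : Zs := ⟨fun n => Nat.casesOn n false b.1, by
  intro m n h h'
  cases m with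
  | zero => simp at h
  | succ m =>
    cases n with
    | zero => simp at h'
    | succ n => rw [b.2 m n h h']⟩

lemma exists_homeo : Nonempty (Zs ≃ₜ Unit ⊕ Zs) := by
  let F : Unit ⊕ Zs → Zs := Sum.elim (fun _ => pt 0) sh
  have hFc : Continuous F := by
    refine continuous_const.sumElim ?_
    apply Continuous.subtype_mk
    refine continuous_pi fun s => ?_
    cases s with
    | zero => exact continuous_const
    | succ n => exact (continuous_apply n).comp continuous_subtype_val
  have hFinj : Function.Injective F := by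
    intro x y hxy
    have hxy' := congrArg Subtype.val hxy
    rcases x with x | x <;> rcases y with y | y
    · rfl
    · have := congrFun hxy' 0
      simp [F, pt, sh] at this
    · have := congrFun hxy' 0
      simp [F, pt, sh] at this
    · congr 1
      apply Subtype.ext
      funext s
      have := congrFun hxy' (s + 1)
      simpa [F, sh] using this
  have hFsurj : Function.Surjective F := by
    intro y
    rcases hy : y.1 0 with _ | _
    · refine ⟨Sum.inr ⟨fun s => y.1 (s + 1), ?_⟩, ?_⟩
      · intro s s' h h'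
        have := y.2 _ _ h h'
        omega
      · apply Subtype.ext
        funext s
        cases s with
        | zero => simp [F, sh, hy]
        | succ n => simp [F, sh]
    · refine ⟨Sum.inl (), ?_⟩
      apply Subtype.ext
      funext s
      rcases hs : y.1 s with _ | _
      · simp only [F, Sum.elim_inl, pt, decide_eq_false_iff_not]
        rintro rfl
        rw [hy] at hs
        simp at hs
      · have := y.2 _ _ hs hy
        simp [F, pt, this]
  exact ⟨(Continuous.homeoOfEquivCompactToT2 (f := Equiv.ofBijective F ⟨hFinj, hFsurj⟩)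
    hFc).symm⟩

abbrev Kt : Type := ℕ → Zs

/-- `K ≅ Z × K` -/
def consH : Kt ≃ₜ Zs × Kt where
  toFun k := (k 0, fun n => k (n + 1))
  invFun p := fun n => Nat.casesOn n p.1 p.2
  left_inv k := by funext n; cases n <;> rfl
  right_inv p := by rfl
  continuous_toFun := by fun_prop
  continuous_invFun := by
    refine continuous_pi fun n => ?_
    cases n with
    | zero => exact continuous_fst
    | succ n => exact (continuous_apply n).comp continuous_snd

/-- first occurrence of `true` -/
def fo (b : ℕ → Bool) (n : ℕ) : Bool := b n && decide (∀ m < n, b m = false)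

lemma fo_mem (b : ℕ → Bool) : fo b ∈ ZZ := by
  intro m n hm hn
  unfold fo at hm hn
  rw [Bool.and_eq_true, decide_eq_true_eq] at hm hn
  by_contra hne
  rcases lt_or_gt_of_ne hne with h | h
  · have := hn.2 m h
    rw [hm.1] at this
    exact absurd this (by simp)
  · have := hm.2 n h
    rw [hn.1] at this
    exact absurd this (by simp)

lemma fo_eq (b : Zs) : fo b.1 = b.1 := by
  funext n
  unfold fo
  rcases hn : b.1 n with _ | _
  · rfl
  · rw [Bool.true_and, decide_eq_true_eq]
    intro m hm
    rcases hb : b.1 m with _ | _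
    · rfl
    · have := b.2 _ _ hb hn
      omega

lemma continuous_fo : Continuous fo := by
  refine continuous_pi fun n => ?_
  let φ : (Fin (n + 1) → Bool) → Bool := fun c =>
    c (Fin.last n) && decide (∀ m : Fin n, c m.castSucc = false)
  have h1 : Continuous φ := continuous_of_discreteTopology
  have h2 : Continuous (fun b : ℕ → Bool => fun i : Fin (n + 1) => b i) := by fun_prop
  have h3 : (fun b : ℕ → Bool => fo b n) = fun b => φ (fun i => b i) := by
    funext b
    simp only [fo, φ, Fin.val_last, Fin.val_castSucc]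
    congr 1
    rw [decide_eq_decide]
    constructor
    · intro h m; exact h m m.2
    · intro h m hm; exact h ⟨m, hm⟩
  rw [h3]
  exact h1.comp h2

/-- the embedding of `Kt` in the Cantor space -/
def iK : C(Kt, ℕ → Bool) :=
  ⟨fun k c => (k (Nat.unpair c).1).1 (Nat.unpair c).2, by
    refine continuous_pi fun c => ?_
    exact (continuous_apply _).comp (continuous_subtype_val.comp (continuous_apply _))⟩

/-- the retraction -/
def rK : C(ℕ → Bool, Kt) :=
  ⟨fun b m => ⟨fo (fun j => b (Nat.pair m j)), fo_mem _⟩, by
    refine continuous_pi fun m => ?_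
    apply Continuous.subtype_mk
    exact continuous_fo.comp (by fun_prop)⟩

lemma rK_iK (k : Kt) : rK (iK k) = k := by
  funext m
  apply Subtype.ext
  change fo (fun j => (k (Nat.unpair (Nat.pair m j)).1).1 (Nat.unpair (Nat.pair m j)).2) = (k m).1
  simp only [Nat.unpair_pair]
  exact fo_eq (k m)

/-- diagonal embedding -/
def iZ : C(Zs, Kt) := ⟨fun z _ => z, by fun_prop⟩

/-- evaluation at zero -/
def rZ : C(Kt, Zs) := ⟨fun k => k 0, by fun_prop⟩

end Pool.Agent.H266R3.BN
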