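import Pool.Agent.H266R3.Good

/-!
The averaging operator from `C(βℕ × βℕ)` onto `C(βℕ × βℕ × Δ)`.
-/

set_option autoImplicit false

open Filter Topology

namespace Pool.Agent.H266R3.BN

abbrev Ln : Type := BB × BB

/-- code of a left point -/
noncomputable def cL (x n z : ℕ) : ℕ := (Denumerable.eqv (ℕ × ℕ × ℕ)) (x, n, z)

/-- code of a right point -/
noncomputable def cR (y n : ℕ) (w : Finset ℕ) : ℕ :=
  (Denumerable.eqv (ℕ × ℕ × Finset ℕ)) (y, n, w)

/-- the averages -/
noncomputable def Pn (F : C(Ln, ℝ)) (n x y : ℕ) (g : Cn) : ℝ :=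
  Ez n (fun z => Ew (M n) (fun w => F (io (cL x n z), io (cR y n w)) * D n g z w))

lemma EE_D (n : ℕ) (g : Cn) : Ez n (fun z => Ew (M n) (fun w => D n g z w)) = 1 := by
  have : Ez n (fun z => Ew (M n) (fun w => D n g z w)) = Ez n (fun _ => 1) :=
    Ez_congr fun z => Ew_D le_rfl g z
  rw [this, Ez_const]

lemma EE_le {n : ℕ} (g : Cn) (φ : ℕ → Finset ℕ → ℝ) {C : ℝ}
    (h : ∀ z w, D n g z w ≠ 0 → |φ z w| ≤ C) :
    |Ez n (fun z => Ew (M n) (fun w => φ z w * D n g z w))| ≤ C := by
  have key : ∀ z w, |φ z w * D n g z w| ≤ C * D n g z w := by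
    intro z w
    by_cases h0 : D n g z w = 0
    · rw [h0]; simp
    · rw [abs_mul, abs_of_nonneg (D_nonneg n g z w)]
      exact mul_le_mul_of_nonneg_right (h z w h0) (D_nonneg n g z w)
  have e : Ez n (fun z => Ew (M n) (fun w => C * D n g z w)) = C := by
    have h1 : Ez n (fun z => Ew (M n) (fun w => C * D n g z w)) =
        Ez n (fun z => C * Ew (M n) (fun w => D n g z w)) :=
      Ez_congr fun z => Ew_mul_left _ _ _
    rw [h1, Ez_mul_left, EE_D, mul_one]
  rw [abs_le]
  constructor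
  · have h2 : Ez n (fun z => Ew (M n) (fun w => -(C * D n g z w))) ≤
        Ez n (fun z => Ew (M n) (fun w => φ z w * D n g z w)) :=
      Ez_mono fun z => Ew_mono fun w => neg_le_of_abs_le (key z w)
    have h3 : Ez n (fun z => Ew (M n) (fun w => -(C * D n g z w))) = -C := by
      have h4 : Ez n (fun z => Ew (M n) (fun w => -(C * D n g z w))) =
          Ez n (fun z => (-1) * Ew (M n) (fun w => C * D n g z w)) := by
        refine Ez_congr fun z => ?_
        rw [← Ew_mul_left]
        exact Ew_congr fun w => by ring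
      rw [h4, Ez_mul_left, e]; ring
    rw [h3] at h2
    exact h2
  · calc Ez n (fun z => Ew (M n) (fun w => φ z w * D n g z w))
        ≤ Ez n (fun z => Ew (M n) (fun w => C * D n g z w)) :=
          Ez_mono fun z => Ew_mono fun w => le_of_abs_le (key z w)
      _ = C := e

lemma Pn_sub (F F' : C(Ln, ℝ)) (n x y : ℕ) (g : Cn) :
    Pn (F - F') n x y g = Pn F n x y g - Pn F' n x y g := by
  unfold Pn
  rw [← Ez_sub]
  refine Ez_congr fun z => ?_
  rw [← Ew_sub]
  refine Ew_congr fun w => ?_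
  rw [ContinuousMap.sub_apply]; ring

lemma Pn_add (F F' : C(Ln, ℝ)) (n x y : ℕ) (g : Cn) :
    Pn (F + F') n x y g = Pn F n x y g + Pn F' n x y g := by
  unfold Pn
  rw [← Ez_add]
  refine Ez_congr fun z => ?_
  rw [← Ew_add]
  refine Ew_congr fun w => ?_
  rw [ContinuousMap.add_apply]; ring

lemma Pn_smul (r : ℝ) (F : C(Ln, ℝ)) (n x y : ℕ) (g : Cn) :
    Pn (r • F) n x y g = r * Pn F n x y g := by
  unfold Pn
  rw [← Ez_mul_left]
  refine Ez_congr fun z => ?_
  rw [← Ew_mul_left]
  refine Ew_congr fun w => ?_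
  rw [ContinuousMap.smul_apply, smul_eq_mul]; ring

lemma abs_Pn_le (F : C(Ln, ℝ)) (n x y : ℕ) (g : Cn) : |Pn F n x y g| ≤ ‖F‖ :=
  EE_le g _ fun _ _ _ => F.norm_coe_le_norm _

/-- product functions -/
def tp (a b : C(BB, ℝ)) : C(Ln, ℝ) := ⟨fun p => a p.1 * b p.2, by fun_prop⟩

/-- the product case for small functions -/
lemma good_tp_aux (a b : C(BB, ℝ)) (ha : ∀ p, |a p| ≤ 1) (hb : ∀ p, |b p| ≤ 1) :
    ∃ G, Good (Pn (tp a b)) G := by
  apply Good.closure
  intro ε hε
  obtain ⟨l, hl⟩ : ∃ l : ℕ, 1 / (2 : ℝ) ^ l < ε ^ 2 := by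
    obtain ⟨l, hl⟩ := exists_pow_lt_of_lt_one (pow_pos hε 2) (by norm_num : (1 / 2 : ℝ) < 1)
    exact ⟨l, by rwa [one_div_pow] at hl⟩
  let v : ℕ → ℕ → ℕ → Cn → ℝ := fun n x y g =>
    Ez n (fun z => Ew (M n) (fun w => a (io (cL x n z)) * b (io (cR y n w)) * D l g z w))
  have hv : ∃ G, Good v G := by
    have h1 : ∃ G, Good (fun n x y g => ∑ u ∈ Finset.range (M l),
        ∑ S ∈ (Finset.range l).powerset,
          (∏ k ∈ S, bs (g k)) * Ez n (fun z => a (io (cL x n z)) * (if z % M l = u then 1 else 0)) *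
            Ew (M n) (fun w => b (io (cR y n w)) * ∏ k ∈ S, sg w (cc u k))) G := by
      refine Good.sum _ fun u _ => Good.sum _ fun S _ => ?_
      have hbs : Continuous bs := continuous_of_discreteTopology
      exact Good.prod (A := 1) (B := 1)
        (fun n x => Ez n (fun z => a (io (cL x n z)) * (if z % M l = u then 1 else 0)))
        (fun n y => Ew (M n) (fun w => b (io (cR y n w)) * ∏ k ∈ S, sg w (cc u k)))
        ⟨fun g => ∏ k ∈ S, bs (g k),
          continuous_finsetProd _ fun k _ => hbs.comp (continuous_apply k)⟩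
        (fun n x => abs_Ez_le fun z => by
          rw [abs_mul]
          refine mul_le_one₀ (ha _) (abs_nonneg _) ?_
          split_ifs <;> simp)
        (fun n y => abs_Ew_le fun w => by
          rw [abs_mul, Finset.abs_prod]
          refine mul_le_one₀ (hb _) (by positivity) ?_
          rw [Finset.prod_congr rfl (fun k _ => abs_sg w (cc u k)), Finset.prod_const_one])
    obtain ⟨G, hG⟩ := h1
    refine ⟨G, hG.congr (Filter.Eventually.of_forall fun n x y g => ?_)⟩
    change _ = Ez n (fun z => Ew (M n) (fun w =>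
      a (io (cL x n z)) * b (io (cR y n w)) * D l g z w))
    have h2 : Ez n (fun z => Ew (M n) (fun w =>
        a (io (cL x n z)) * b (io (cR y n w)) * D l g z w)) =
        Ez n (fun z => Ew (M n) (fun w => ∑ u ∈ Finset.range (M l),
          ∑ S ∈ (Finset.range l).powerset, ((∏ k ∈ S, bs (g k)) *
          (a (io (cL x n z)) * (if z % M l = u then 1 else 0))) *
            (b (io (cR y n w)) * ∏ k ∈ S, sg w (cc u k)))) := by
      refine Ez_congr fun z => Ew_congr fun w => ?_
      rw [D_expand, Finset.mul_sum]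
      refine Finset.sum_congr rfl fun u _ => ?_
      rw [Finset.mul_sum]
      refine Finset.sum_congr rfl fun S _ => ?_
      ring
    rw [h2]
    have h3 : Ez n (fun z => Ew (M n) (fun w => ∑ u ∈ Finset.range (M l),
          ∑ S ∈ (Finset.range l).powerset, ((∏ k ∈ S, bs (g k)) *
          (a (io (cL x n z)) * (if z % M l = u then 1 else 0))) *
            (b (io (cR y n w)) * ∏ k ∈ S, sg w (cc u k)))) =
        Ez n (fun z => ∑ u ∈ Finset.range (M l), ∑ S ∈ (Finset.range l).powerset,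
          ((∏ k ∈ S, bs (g k)) * Ew (M n) (fun w => b (io (cR y n w)) * ∏ k ∈ S, sg w (cc u k))) *
          (a (io (cL x n z)) * (if z % M l = u then 1 else 0))) := by
      refine Ez_congr fun z => ?_
      rw [Ew_sum]
      refine Finset.sum_congr rfl fun u _ => ?_
      rw [Ew_sum]
      refine Finset.sum_congr rfl fun S _ => ?_
      rw [Ew_mul_left]
      ring
    rw [h3, Ez_sum]
    refine Finset.sum_congr rfl fun u _ => ?_
    rw [Ez_sum]
    refine Finset.sum_congr rfl fun S _ => ?_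
    rw [Ez_mul_left]
    ring
  obtain ⟨G, hG⟩ := hv
  refine ⟨v, G, hG, ?_⟩
  have hat : ∀ᶠ n in UU, l ≤ n := (eventually_ge_atTop l).filter_mono Nat.hyperfilter_le_atTop
  filter_upwards [hat] with n hn x y g
  have h1 : Pn (tp a b) n x y g - v n x y g = Ez n (fun z => Ew (M n) (fun w =>
      a (io (cL x n z)) * b (io (cR y n w)) * (D n g z w - D l g z w))) := by
    change Ez n (fun z => Ew (M n) (fun w =>
      (a (io (cL x n z)) * b (io (cR y n w))) * D n g z w)) - Ez n (fun z => Ew (M n) (fun w =>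
      a (io (cL x n z)) * b (io (cR y n w)) * D l g z w)) = _
    rw [← Ez_sub]
    refine Ez_congr fun z => ?_
    rw [← Ew_sub]
    refine Ew_congr fun w => ?_
    ring
  have h2 := key hn g (fun z => a (io (cL x n z))) (fun w => b (io (cR y n w)))
    (fun z => ha _) (fun w => hb _)
  rw [h1]
  exact abs_le_of_sq_le_sq (h2.trans hl.le) hε.le

lemma good_tp (a b : C(BB, ℝ)) : ∃ G, Good (Pn (tp a b)) G := by
  have hA : 0 < ‖a‖ + 1 := by positivity
  have hB : 0 < ‖b‖ + 1 := by positivity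
  obtain ⟨G, hG⟩ := good_tp_aux ((‖a‖ + 1)⁻¹ • a) ((‖b‖ + 1)⁻¹ • b)
    (fun p => by
      rw [ContinuousMap.smul_apply, smul_eq_mul, abs_mul, abs_of_pos (by positivity)]
      have := a.norm_coe_le_norm p
      rw [Real.norm_eq_abs] at this
      rw [inv_mul_le_iff₀ hA]; linarith)
    (fun p => by
      rw [ContinuousMap.smul_apply, smul_eq_mul, abs_mul, abs_of_pos (by positivity)]
      have := b.norm_coe_le_norm p
      rw [Real.norm_eq_abs] at this
      rw [inv_mul_le_iff₀ hB]; linarith)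
  refine ⟨_, (hG.smul ((‖a‖ + 1) * (‖b‖ + 1))).congr (Filter.Eventually.of_forall
    fun n x y g => ?_)⟩
  rw [← Pn_smul]
  congr 1
  ext p
  change (‖a‖ + 1) * (‖b‖ + 1) * (((‖a‖ + 1)⁻¹ * a p.1) * ((‖b‖ + 1)⁻¹ * b p.2)) = a p.1 * b p.2
  field_simp

/-- the set of product functions as a submonoid -/
def tpM : Submonoid C(Ln, ℝ) where
  carrier := {F | ∃ a b, F = tp a b}
  one_mem' := ⟨1, 1, by ext p; simp [tp]⟩
  mul_mem' := by
    rintro _ _ ⟨a, b, rfl⟩ ⟨a', b', rfl⟩
    exact ⟨a * a', b * b', by ext p; simp [tp]; ring⟩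

lemma span_dense (F : C(Ln, ℝ)) {ε : ℝ} (hε : 0 < ε) :
    ∃ F' ∈ Submodule.span ℝ (tpM : Set C(Ln, ℝ)), ‖F - F'‖ < ε := by
  have hsep : (Algebra.adjoin ℝ (tpM : Set C(Ln, ℝ))).SeparatesPoints := by
    intro p q hpq
    have : p.1 ≠ q.1 ∨ p.2 ≠ q.2 := by
      by_contra h
      push Not at h
      exact hpq (Prod.ext h.1 h.2)
    have hsp : ∀ s t : BB, s ≠ t → ∃ a : C(BB, ℝ), a s ≠ a t := by
      intro s t hst
      obtain ⟨f, h0, h1, _⟩ := exists_continuous_zero_one_of_isClosed (isClosed_singleton (x := s))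
        (isClosed_singleton (x := t)) (by simpa using hst)
      refine ⟨f, ?_⟩
      rw [h0 rfl, h1 rfl]
      simp
    rcases this with h | h
    · obtain ⟨a, ha⟩ := hsp _ _ h
      refine ⟨tp a 1, ⟨tp a 1, Algebra.subset_adjoin ⟨a, 1, rfl⟩, rfl⟩, ?_⟩
      simpa [tp] using ha
    · obtain ⟨a, ha⟩ := hsp _ _ h
      refine ⟨tp 1 a, ⟨tp 1 a, Algebra.subset_adjoin ⟨1, a, rfl⟩, rfl⟩, ?_⟩
      simpa [tp] using ha
  have htop := ContinuousMap.subalgebra_topologicalClosure_eq_top_of_separatesPoints _ hsep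
  have hmem : F ∈ (Algebra.adjoin ℝ (tpM : Set C(Ln, ℝ))).topologicalClosure := by
    rw [htop]; trivial
  have hmem' : F ∈ closure ((Algebra.adjoin ℝ (tpM : Set C(Ln, ℝ)) : Set C(Ln, ℝ))) := hmem
  rw [Metric.mem_closure_iff] at hmem'
  obtain ⟨F', hF', hd⟩ := hmem' ε hε
  refine ⟨F', ?_, by rwa [dist_eq_norm] at hd⟩
  have h2 : F' ∈ Subalgebra.toSubmodule (Algebra.adjoin ℝ (tpM : Set C(Ln, ℝ))) := hF'
  rw [Algebra.adjoin_eq_span, Submonoid.closure_eq] at h2
  exact h2

theorem good_all (F : C(Ln, ℝ)) : ∃ G, Good (Pn F) G := by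
  have hspan : ∀ F' ∈ Submodule.span ℝ (tpM : Set C(Ln, ℝ)), ∃ G, Good (Pn F') G := by
    intro F' hF'
    induction hF' using Submodule.span_induction with
    | mem F' h =>
      obtain ⟨a, b, rfl⟩ := h
      exact good_tp a b
    | zero =>
      refine ⟨0, Good.zero.congr (Filter.Eventually.of_forall fun n x y g => ?_)⟩
      have := Pn_smul 0 (0 : C(Ln, ℝ)) n x y g
      rw [zero_mul, zero_smul] at this
      exact this.symm
    | add F₁ F₂ _ _ h1 h2 =>
      obtain ⟨G₁, hG₁⟩ := h1
      obtain ⟨G₂, hG₂⟩ := h2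
      exact ⟨G₁ + G₂, (hG₁.add hG₂).congr (Filter.Eventually.of_forall fun n x y g =>
        (Pn_add _ _ n x y g).symm)⟩
    | smul r F₁ _ h1 =>
      obtain ⟨G₁, hG₁⟩ := h1
      exact ⟨r • G₁, (hG₁.smul r).congr (Filter.Eventually.of_forall fun n x y g =>
        (Pn_smul _ _ n x y g).symm)⟩
  apply Good.closure
  intro ε hε
  obtain ⟨F', hF', hd⟩ := span_dense F hε
  obtain ⟨G, hG⟩ := hspan F' hF'
  refine ⟨Pn F', G, hG, Filter.Eventually.of_forall fun n x y g => ?_⟩
  rw [← Pn_sub]
  exact (abs_Pn_le _ n x y g).trans hd.le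

/-- the limit function -/
noncomputable def Pf (F : C(Ln, ℝ)) : C(Xn, ℝ) := (good_all F).choose

lemma Pf_spec (F : C(Ln, ℝ)) : Good (Pn F) (Pf F) := (good_all F).choose_spec

/-- the averaging operator -/
noncomputable def PP : C(Ln, ℝ) →L[ℝ] C(Xn, ℝ) :=
  LinearMap.mkContinuous
    { toFun := Pf
      map_add' := fun F F' => by
        refine (Pf_spec (F + F')).unique ?_
        exact ((Pf_spec F).add (Pf_spec F')).congr (Filter.Eventually.of_forall fun n x y g =>
          (Pn_add _ _ n x y g).symm)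
      map_smul' := fun r F => by
        refine (Pf_spec (r • F)).unique ?_
        exact ((Pf_spec F).smul r).congr (Filter.Eventually.of_forall fun n x y g =>
          (Pn_smul _ _ n x y g).symm) } 1 (fun F => by
      rw [one_mul]
      change ‖Pf F‖ ≤ ‖F‖
      rw [← dist_zero_right]
      refine dist_le_of_pt (norm_nonneg _) fun x y g => ?_
      rw [ContinuousMap.zero_apply, sub_zero]
      refine le_of_tendsto (Pf_spec F x y g).abs (Filter.Eventually.of_forall fun n => ?_)
      exact abs_Pn_le F n x y g)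

/-- first coordinate of the left code -/
noncomputable def pL : C(BB, BB) := ext fun c => io ((Denumerable.eqv (ℕ × ℕ × ℕ)).symm c).1

/-- first coordinate of the right code -/
noncomputable def pR : C(BB, BB) := ext fun c => io ((Denumerable.eqv (ℕ × ℕ × Finset ℕ)).symm c).1

/-- residue of the last coordinate of the left code -/
noncomputable def zL (k : ℕ) : C(BB, Fin (M k)) :=
  ext fun c => ⟨((Denumerable.eqv (ℕ × ℕ × ℕ)).symm c).2.2 % M k, Nat.mod_lt _ (M_pos k)⟩

/-- traces of the last coordinate of the right code -/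
noncomputable def wR (k : ℕ) : C(BB, Fin (M k) → Bool) :=
  ext fun c i => decide (M k + (i : ℕ) ∈ ((Denumerable.eqv (ℕ × ℕ × Finset ℕ)).symm c).2.2)

/-- the Cantor coordinate -/
noncomputable def Ps : C(Ln, Cn) :=
  ⟨fun p k => wR k p.2 (zL k p.1), by
    refine continuous_pi fun k => ?_
    have h : Continuous (fun q : Fin (M k) × (Fin (M k) → Bool) => q.2 q.1) :=
      continuous_of_discreteTopology
    exact h.comp (((zL k).continuous.comp continuous_fst).prodMk
      ((wR k).continuous.comp continuous_snd))⟩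

/-- the covering map -/
noncomputable def Ph : C(Ln, Xn) :=
  ⟨fun p => (pL p.1, (pR p.2, Ps p)), by fun_prop⟩

lemma Ph_io (x y n z : ℕ) (w : Finset ℕ) : Ph (io (cL x n z), io (cR y n w)) =
    (io x, (io y, fun k => decide (cc z k ∈ w))) := by
  have h1 : pL (io (cL x n z)) = io x := by
    unfold pL; rw [ext_io]; unfold cL; rw [Equiv.symm_apply_apply]
  have h2 : pR (io (cR y n w)) = io y := by
    unfold pR; rw [ext_io]; unfold cR; rw [Equiv.symm_apply_apply]
  have h3 : Ps (io (cL x n z), io (cR y n w)) = fun k => decide (cc z k ∈ w) := by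
    funext k
    change wR k (io (cR y n w)) (zL k (io (cL x n z))) = _
    unfold wR zL
    rw [ext_io, ext_io]
    unfold cL cR
    simp only [Equiv.symm_apply_apply]
    rfl
  change (pL (io (cL x n z)), (pR (io (cR y n w)), Ps (io (cL x n z), io (cR y n w)))) = _
  rw [h1, h2, h3]

lemma D_ne_zero {n : ℕ} {g : Cn} {z : ℕ} {w : Finset ℕ} (h : D n g z w ≠ 0) {k : ℕ}
    (hk : k < n) : decide (cc z k ∈ w) = g k := by
  unfold D at h
  rw [Finset.prod_ne_zero_iff] at h
  have := h k (Finset.mem_range.mpr hk)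
  unfold bs sg at this
  by_cases h1 : cc z k ∈ w <;> cases hg : g k <;> simp [h1, hg] at this ⊢

theorem PJ (f : C(Xn, ℝ)) : PP (f.comp Ph) = f := by
  change Pf (f.comp Ph) = f
  refine (Pf_spec _).unique fun x y g => ?_
  rw [Metric.tendsto_nhds]
  intro ε hε
  -- uniform continuity at g
  have hc : Continuous (fun g' : Cn => f (io x, (io y, g'))) := by fun_prop
  have h1 : ∀ᶠ g' in 𝓝 g, dist (f (io x, (io y, g'))) (f (io x, (io y, g))) < ε / 2 :=
    (Metric.tendsto_nhds.mp (hc.tendsto g)) (ε / 2) (by positivity)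
  obtain ⟨N, hN⟩ : ∃ N : ℕ, ∀ g' : Cn, (∀ k < N, g' k = g k) →
      dist (f (io x, (io y, g'))) (f (io x, (io y, g))) < ε / 2 := by
    by_contra hcon
    push Not at hcon
    choose g' hg1 hg2 using hcon
    have hlim : Tendsto g' atTop (𝓝 g) := by
      refine tendsto_pi_nhds.mpr fun k => tendsto_const_nhds.congr' ?_
      filter_upwards [eventually_gt_atTop k] with N hN using (hg1 N k hN).symm
    obtain ⟨N, hN⟩ := (hlim.eventually h1).exists
    exact absurd hN (not_lt.mpr (hg2 N))
  have hat : ∀ᶠ n in UU, N ≤ n := (eventually_ge_atTop N).filter_mono Nat.hyperfilter_le_atTop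
  filter_upwards [hat] with n hn
  have h2 : Pn (f.comp Ph) n x y g - f (io x, (io y, g)) =
      Ez n (fun z => Ew (M n) (fun w => (f (io x, (io y, fun k => decide (cc z k ∈ w))) -
        f (io x, (io y, g))) * D n g z w)) := by
    have e1 : f (io x, (io y, g)) =
        Ez n (fun z => Ew (M n) (fun w => f (io x, (io y, g)) * D n g z w)) := by
      have h1 : Ez n (fun z => Ew (M n) (fun w => f (io x, (io y, g)) * D n g z w)) =
          Ez n (fun z => f (io x, (io y, g)) * Ew (M n) (fun w => D n g z w)) :=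
        Ez_congr fun z => Ew_mul_left _ _ _
      rw [h1, Ez_mul_left, EE_D, mul_one]
    conv_lhs => rw [e1]
    unfold Pn
    rw [← Ez_sub]
    refine Ez_congr fun z => ?_
    rw [← Ew_sub]
    refine Ew_congr fun w => ?_
    rw [ContinuousMap.comp_apply, Ph_io]
    ring
  rw [Real.dist_eq, h2]
  refine lt_of_le_of_lt (EE_le g _ (C := ε / 2) fun z w h0 => ?_) (by linarith)
  have := hN (fun k => decide (cc z k ∈ w)) fun k hk => D_ne_zero h0 (by omega)
  rw [Real.dist_eq] at this
  exact this.le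

end Pool.Agent.H266R3.BN
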