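import Pool.Agent.H266R3.TNorm

/-!
# Basic estimates for Tsirelson's norm
-/

namespace H266T

open Finset

variable {L : LatNorm}

lemma IsTsirelsonNorm.adm_le (hT : IsTsirelsonNorm L.N) {k : ℕ} {E : Fin k → Finset ℕ}
    (hE : Adm k E) (x : ℕ →₀ ℝ) : (1 / 2) * ∑ j, L.N (res (E j) x) ≤ L.N x :=
  (hT x).1 (Or.inr ⟨k, E, hE, rfl⟩)

/-- A Schreier set `F` carries an `ℓ_1` lower estimate. -/
lemma IsTsirelsonNorm.schreier (hT : IsTsirelsonNorm L.N) {F : Finset ℕ}
    (hF : ∀ i ∈ F, F.card ≤ i + 1) (y : ℕ →₀ ℝ) : ∑ i ∈ F, |y i| ≤ 2 * L.N y := by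
  have hE : Adm F.card (fun j => ({F.orderEmbOfFin rfl j} : Finset ℕ)) := by
    constructor
    · intro j i hi
      rw [Finset.mem_singleton] at hi
      rw [hi]
      exact hF _ (Finset.orderEmbOfFin_mem _ _ _)
    · intro j j' hjj i hi i' hi'
      rw [Finset.mem_singleton] at hi hi'
      rw [hi, hi']
      exact (F.orderEmbOfFin rfl).strictMono hjj
  have h1 := hT.adm_le hE y
  have h2 : ∑ i ∈ F, |y i| ≤ ∑ j : Fin F.card, L.N (res {F.orderEmbOfFin rfl j} y) := by
    have h3 : ∑ i ∈ F, |y i| = ∑ j : Fin F.card, |y (F.orderEmbOfFin rfl j)| := by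
      have h4 : F = (Finset.univ : Finset (Fin F.card)).map (F.orderEmbOfFin rfl).toEmbedding := by
        ext i
        simp only [Finset.mem_map, Finset.mem_univ, true_and]
        constructor
        · intro hi
          have : i ∈ Set.range (F.orderEmbOfFin rfl) := by
            rw [Finset.range_orderEmbOfFin]; exact hi
          obtain ⟨j, hj⟩ := this
          exact ⟨j, hj⟩
        · rintro ⟨j, rfl⟩
          exact Finset.orderEmbOfFin_mem _ _ _
      conv_lhs => rw [h4]
      rw [Finset.sum_map]
      rfl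
    rw [h3]
    apply Finset.sum_le_sum
    intro j _
    have := L.coord_le (res {F.orderEmbOfFin rfl j} y) (F.orderEmbOfFin rfl j)
    rw [res_apply, if_pos (Finset.mem_singleton_self _)] at this
    exact this
  linarith

/-- Strictly after the support of `u`. -/
noncomputable def bd (u : ℕ →₀ ℝ) : ℕ := u.support.sup id + 1

lemma lt_bd {u : ℕ →₀ ℝ} {i : ℕ} (h : i ∈ u.support) : i < bd u :=
  Nat.lt_succ_of_le (Finset.le_sup (f := id) h)

/-- One averaging step. -/
lemma avg_step (hT : IsTsirelsonNorm L.N) {C : Set (ℕ →₀ ℝ)} (hconv : Convex ℝ C) {c : ℝ}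
    (hC : ∀ m : ℕ, ∃ u ∈ C, (∀ i ∈ u.support, m ≤ i) ∧ L.N u ≤ c) :
    ∀ m : ℕ, ∃ u ∈ C, (∀ i ∈ u.support, m ≤ i) ∧ L.N u ≤ 4 / 5 * c := by
  intro m
  choose U hUC hUs hUN using hC
  have hc : 0 ≤ c := (L.nonneg _).trans (hUN 0)
  let s : ℕ → ℕ := fun n => Nat.rec m (fun _ t => max t (bd (U t))) n
  have hs0 : s 0 = m := rfl
  have hss : ∀ n, s (n + 1) = max (s n) (bd (U (s n))) := fun n => rfl
  let u : ℕ → ℕ →₀ ℝ := fun n => U (s n)
  have hmono : Monotone s := monotone_nat_of_le_succ (fun n => by rw [hss]; exact le_max_left _ _)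
  have hul : ∀ n, ∀ i ∈ (u n).support, s n ≤ i := fun n => hUs (s n)
  have hur : ∀ n, ∀ i ∈ (u n).support, i < s (n + 1) := by
    intro n i hi
    exact (lt_bd hi).trans_le (by rw [hss]; exact le_max_right _ _)
  have huN : ∀ n, L.N (u n) ≤ c := fun n => hUN _
  set r : ℕ := 10 * s 1 + 1 with hr
  have hrpos : (0 : ℝ) < r := by rw [hr]; positivity
  let v : ℕ →₀ ℝ := ∑ i ∈ Finset.range r, (1 / (r : ℝ)) • u (i + 1)
  let w : ℕ →₀ ℝ := (1 / 2 : ℝ) • u 0 + (1 / 2 : ℝ) • v
  have hvC : v ∈ C := by
    apply hconv.sum_mem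
    · intro i _; positivity
    · rw [Finset.sum_const, Finset.card_range, nsmul_eq_mul]; field_simp
    · intro i _; exact hUC _
  refine ⟨w, hconv (hUC _) hvC (by norm_num) (by norm_num) (by norm_num), ?_, ?_⟩
  · intro i hi
    rw [Finsupp.mem_support_iff] at hi
    by_contra hlt
    rw [not_le] at hlt
    apply hi
    have h0 : u 0 i = 0 := by
      by_contra hne
      have := hul 0 i (Finsupp.mem_support_iff.mpr hne)
      rw [hs0] at this; omega
    have h1 : v i = 0 := by
      show (∑ a ∈ Finset.range r, (1 / (r : ℝ)) • u (a + 1)) i = 0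
      rw [Finsupp.finset_sum_apply]
      apply Finset.sum_eq_zero
      intro a _
      rw [Finsupp.smul_apply, smul_eq_mul]
      have : u (a + 1) i = 0 := by
        by_contra hne
        have h2 := hul (a + 1) i (Finsupp.mem_support_iff.mpr hne)
        have h3 : m ≤ s (a + 1) := hs0 ▸ hmono (Nat.zero_le (a + 1))
        omega
      rw [this, mul_zero]
    show ((1 / 2 : ℝ) • u 0 + (1 / 2 : ℝ) • v) i = 0
    rw [Finsupp.add_apply, Finsupp.smul_apply, Finsupp.smul_apply, h0, h1]; simp
  · apply (hT w).2
    rintro t (⟨a, rfl⟩ | ⟨k, E, hE, rfl⟩)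
    · -- coordinates
      have hv : |v a| ≤ 1 / (r : ℝ) * ∑ i ∈ Finset.range r, |u (i + 1) a| := by
        show |(∑ i ∈ Finset.range r, (1 / (r : ℝ)) • u (i + 1)) a| ≤ _
        rw [Finsupp.finset_sum_apply, Finset.mul_sum]
        refine (Finset.abs_sum_le_sum_abs _ _).trans ?_
        apply Finset.sum_le_sum
        intro i _
        rw [Finsupp.smul_apply, smul_eq_mul, abs_mul, abs_of_nonneg (by positivity : 0 ≤ 1 / (r:ℝ))]
      have hw : |w a| ≤ 1 / 2 * |u 0 a| + 1 / 2 * |v a| := by
        show |((1 / 2 : ℝ) • u 0 + (1 / 2 : ℝ) • v) a| ≤ _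
        rw [Finsupp.add_apply, Finsupp.smul_apply, Finsupp.smul_apply, smul_eq_mul, smul_eq_mul]
        refine (abs_add_le _ _).trans ?_
        rw [abs_mul, abs_mul, abs_of_pos (by norm_num : (0:ℝ) < 1 / 2)]
      by_cases h0 : u 0 a = 0
      · have : |v a| ≤ c := by
          refine hv.trans ?_
          have : ∑ i ∈ Finset.range r, |u (i + 1) a| ≤ r * c := by
            calc ∑ i ∈ Finset.range r, |u (i + 1) a| ≤ ∑ i ∈ Finset.range r, c :=
                  Finset.sum_le_sum (fun i _ => (L.coord_le _ _).trans (huN (i + 1)))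
              _ = r * c := by rw [Finset.sum_const, Finset.card_range, nsmul_eq_mul]
          calc 1 / (r : ℝ) * ∑ i ∈ Finset.range r, |u (i + 1) a| ≤ 1 / (r : ℝ) * (r * c) :=
                mul_le_mul_of_nonneg_left this (by positivity)
            _ = c := by field_simp
        rw [h0, abs_zero] at hw
        linarith
      · have h1 := hur 0 a (Finsupp.mem_support_iff.mpr h0)
        have : v a = 0 := by
          rw [← abs_nonpos_iff]
          refine hv.trans ?_
          rw [Finset.sum_eq_zero, mul_zero]
          intro i _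
          rw [abs_eq_zero]
          by_contra hne
          have h2 := hul (i + 1) a (Finsupp.mem_support_iff.mpr hne)
          have h3 : s (0 + 1) ≤ s (i + 1) := hmono (show 0 + 1 ≤ i + 1 by omega)
          omega
        rw [this, abs_zero] at hw
        have := (L.coord_le (u 0) a).trans (huN 0)
        linarith
    · -- admissible sums
      set S : ℕ → ℝ := fun i => (1 / 2) * ∑ j, L.N (res (E j) (u i)) with hS
      have hSle : ∀ i, S i ≤ c := fun i => (hT.adm_le hE (u i)).trans (huN i)
      have hmain : (1 / 2) * ∑ j, L.N (res (E j) w) ≤ 1 / 2 * S 0 +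
          1 / 2 * (1 / (r : ℝ) * ∑ i ∈ Finset.range r, S (i + 1)) := by
        have h1 : ∀ j, L.N (res (E j) w) ≤ 1 / 2 * L.N (res (E j) (u 0)) +
            1 / 2 * (1 / (r : ℝ) * ∑ i ∈ Finset.range r, L.N (res (E j) (u (i + 1)))) := by
          intro j
          show L.N (res (E j) ((1 / 2 : ℝ) • u 0 + (1 / 2 : ℝ) • v)) ≤ _
          rw [res_add, res_smul, res_smul]
          refine (L.add_le _ _).trans ?_
          rw [L.smul, L.smul, abs_of_pos (by norm_num : (0:ℝ) < 1 / 2)]
          have h2 : L.N (res (E j) v) ≤ 1 / (r : ℝ) * ∑ i ∈ Finset.range r,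
              L.N (res (E j) (u (i + 1))) := by
            show L.N (res (E j) (∑ i ∈ Finset.range r, (1 / (r : ℝ)) • u (i + 1))) ≤ _
            rw [res_sum, Finset.mul_sum]
            refine (L.sum_le _ _).trans ?_
            apply Finset.sum_le_sum
            intro i _
            rw [res_smul, L.smul, abs_of_nonneg (by positivity : 0 ≤ 1 / (r:ℝ))]
          linarith
        calc (1 / 2) * ∑ j, L.N (res (E j) w) ≤ (1 / 2) * ∑ j, (1 / 2 * L.N (res (E j) (u 0)) +
            1 / 2 * (1 / (r : ℝ) * ∑ i ∈ Finset.range r, L.N (res (E j) (u (i + 1))))) :=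
              mul_le_mul_of_nonneg_left (Finset.sum_le_sum (fun j _ => h1 j)) (by norm_num)
          _ = _ := by
            rw [Finset.sum_add_distrib, ← Finset.mul_sum, ← Finset.mul_sum, ← Finset.mul_sum,
              Finset.sum_comm]
            simp only [hS]
            rw [← Finset.mul_sum]
            ring
      refine hmain.trans ?_
      by_cases hmeet : ∃ j, ∃ a ∈ E j, u 0 a ≠ 0
      · obtain ⟨j0, a0, ha0, hua0⟩ := hmeet
        have hk : k ≤ s 1 := by
          have h1 := hE.1 j0 a0 ha0
          have h2 := hur 0 a0 (Finsupp.mem_support_iff.mpr hua0)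
          simp only [zero_add] at h2
          omega
        classical
        let Bad : Finset ℕ := (Finset.range r).filter (fun i => ∃ j j' : Fin k, j < j' ∧
          res (E j) (u (i + 1)) ≠ 0 ∧ res (E j') (u (i + 1)) ≠ 0)
        have hgood : ∀ i ∈ Finset.range r, i ∉ Bad → S (i + 1) ≤ 1 / 2 * c := by
          intro i hi hib
          have hno : ¬ ∃ j j' : Fin k, j < j' ∧
              res (E j) (u (i + 1)) ≠ 0 ∧ res (E j') (u (i + 1)) ≠ 0 := by
            intro h; exact hib (Finset.mem_filter.mpr ⟨hi, h⟩)
          apply mul_le_mul_of_nonneg_left _ (by norm_num)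
          by_cases hex : ∃ j, res (E j) (u (i + 1)) ≠ 0
          · obtain ⟨j, hj⟩ := hex
            rw [Finset.sum_eq_single j]
            · exact (L.res_le _ _).trans (huN (i + 1))
            · intro b _ hb
              have : res (E b) (u (i + 1)) = 0 := by
                by_contra hne
                rcases lt_or_gt_of_ne hb with h | h
                · exact hno ⟨b, j, h, hne, hj⟩
                · exact hno ⟨j, b, h, hj, hne⟩
              rw [this, L.zero]
            · simp
          · push_neg at hex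
            rw [Finset.sum_eq_zero]
            · exact hc
            · intro j _; rw [hex j, L.zero]
        have hbadcard : Bad.card ≤ k := by
          have hch : ∀ i ∈ Bad, ∃ j j' : Fin k, j < j' ∧
              res (E j) (u (i + 1)) ≠ 0 ∧ res (E j') (u (i + 1)) ≠ 0 := by
            intro i hi; exact (Finset.mem_filter.mp hi).2
          haveI : Nonempty (Fin k) := ⟨j0⟩
          choose! J J' hJJ hJ hJ' using hch
          have hinj : Set.InjOn J (Bad : Set ℕ) := by
            have hlt : ∀ i ∈ Bad, ∀ i' ∈ Bad, i < i' → J i < J i' := by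
              intro i hi i' hi' hii
              refine (hJJ i hi).trans_le ?_
              by_contra hcon
              rw [not_le] at hcon
              obtain ⟨a, ha⟩ := Finsupp.ne_iff.mp (hJ' i hi)
              obtain ⟨b, hb⟩ := Finsupp.ne_iff.mp (hJ i' hi')
              rw [res_apply] at ha hb
              split_ifs at ha with ha1
              · split_ifs at hb with hb1
                · have h1 := hE.2 _ _ hcon b hb1 a ha1
                  have h2 := hur (i + 1) a (Finsupp.mem_support_iff.mpr (by simpa using ha))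
                  have h3 := hul (i' + 1) b (Finsupp.mem_support_iff.mpr (by simpa using hb))
                  have h4 : s (i + 1 + 1) ≤ s (i' + 1) := hmono (show i + 1 + 1 ≤ i' + 1 by omega)
                  omega
                · exact hb rfl
              · exact ha rfl
            intro i hi i' hi' heq
            rcases lt_trichotomy i i' with h | h | h
            · exact absurd heq (hlt i hi i' hi' h).ne
            · exact h
            · exact absurd heq (hlt i' hi' i hi h).ne'
          have := Finset.card_le_card_of_injOn (t := (Finset.univ : Finset (Fin k))) J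
            (fun i _ => Finset.mem_coe.mpr (Finset.mem_univ _)) hinj
          simpa using this
        have hsum : ∑ i ∈ Finset.range r, S (i + 1) ≤ 1 / 2 * c * r + 1 / 2 * c * k := by
          have h1 : ∀ i ∈ Finset.range r, S (i + 1) ≤ 1 / 2 * c +
              (if i ∈ Bad then 1 / 2 * c else 0) := by
            intro i hi
            split_ifs with hb
            · have := hSle (i + 1); linarith
            · have := hgood i hi hb; linarith
          refine (Finset.sum_le_sum h1).trans ?_
          rw [Finset.sum_add_distrib, Finset.sum_const, Finset.card_range, nsmul_eq_mul,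
            Finset.sum_ite_mem, Finset.sum_const, nsmul_eq_mul]
          have h2 : ((Finset.range r ∩ Bad).card : ℝ) ≤ k := by
            have : (Finset.range r ∩ Bad).card ≤ Bad.card :=
              Finset.card_le_card Finset.inter_subset_right
            exact_mod_cast this.trans hbadcard
          have h3 : ((Finset.range r ∩ Bad).card : ℝ) * (1 / 2 * c) ≤ k * (1 / 2 * c) :=
            mul_le_mul_of_nonneg_right h2 (by positivity)
          linarith
        have hkr : (k : ℝ) ≤ r / 10 := by
          have : (10 * k : ℕ) ≤ r := by rw [hr]; omega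
          have h' : (10 : ℝ) * k ≤ r := by exact_mod_cast this
          linarith
        have h5 : 1 / (r : ℝ) * ∑ i ∈ Finset.range r, S (i + 1) ≤ 11 / 20 * c := by
          rw [one_div, inv_mul_le_iff₀ hrpos]
          have : 1 / 2 * c * k ≤ 1 / 2 * c * (r / 10) :=
            mul_le_mul_of_nonneg_left hkr (by positivity)
          linarith
        have h6 := hSle 0
        linarith
      · push_neg at hmeet
        have h0 : S 0 = 0 := by
          have : ∑ j, L.N (res (E j) (u 0)) = 0 := by
            apply Finset.sum_eq_zero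
            intro j _
            have : res (E j) (u 0) = 0 := by
              ext a
              rw [res_apply]
              split_ifs with ha
              · exact hmeet j a ha
              · rfl
            rw [this, L.zero]
          simp only [hS, this, mul_zero]
        have h5 : 1 / (r : ℝ) * ∑ i ∈ Finset.range r, S (i + 1) ≤ c := by
          rw [one_div, inv_mul_le_iff₀ hrpos]
          calc ∑ i ∈ Finset.range r, S (i + 1) ≤ ∑ i ∈ Finset.range r, c :=
                Finset.sum_le_sum (fun i _ => hSle (i + 1))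
            _ = r * c := by rw [Finset.sum_const, Finset.card_range, nsmul_eq_mul]
        rw [h0]
        linarith

/-- Convex combinations of blocks of `T` have arbitrarily small norm. -/
lemma avg_small (hT : IsTsirelsonNorm L.N) {C : Set (ℕ →₀ ℝ)} (hconv : Convex ℝ C)
    (hC : ∀ m : ℕ, ∃ u ∈ C, (∀ i ∈ u.support, m ≤ i) ∧ L.N u ≤ 1) (n : ℕ) :
    ∀ m : ℕ, ∃ u ∈ C, (∀ i ∈ u.support, m ≤ i) ∧ L.N u ≤ (4 / 5) ^ n := by
  induction n with
  | zero => simpa using hC
  | succ n ih =>
    have := avg_step hT hconv ih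
    intro m
    obtain ⟨u, h1, h2, h3⟩ := this m
    exact ⟨u, h1, h2, by rw [pow_succ]; linarith⟩

/-- Convex combinations of the unit vectors have arbitrarily small norm. -/
lemma basis_small (hT : IsTsirelsonNorm L.N) {δ : ℝ} (hδ : 0 < δ) :
    ∃ u : ℕ →₀ ℝ, (∀ i, 0 ≤ u i) ∧ ∑ i ∈ u.support, u i = 1 ∧ L.N u ≤ δ := by
  let ℓ : (ℕ →₀ ℝ) →ₗ[ℝ] ℝ := Finsupp.linearCombination ℝ (fun _ => (1 : ℝ))
  let C : Set (ℕ →₀ ℝ) := {u | (∀ i, 0 ≤ u i) ∧ ℓ u = 1}
  have hconv : Convex ℝ C := by
    intro x hx y hy a b ha hb hab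
    refine ⟨fun i => ?_, ?_⟩
    · rw [Finsupp.add_apply, Finsupp.smul_apply, Finsupp.smul_apply, smul_eq_mul, smul_eq_mul]
      exact add_nonneg (mul_nonneg ha (hx.1 i)) (mul_nonneg hb (hy.1 i))
    · rw [map_add, map_smul, map_smul, hx.2, hy.2]; simpa using hab
  have hC : ∀ m : ℕ, ∃ u ∈ C, (∀ i ∈ u.support, m ≤ i) ∧ L.N u ≤ 1 := by
    intro m
    refine ⟨Finsupp.single m 1, ⟨?_, ?_⟩, ?_, (L.basis m).le⟩
    · intro i
      by_cases h : m = i
      · subst h; simp
      · simp [Finsupp.single_eq_of_ne (Ne.symm h)]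
    · simp [ℓ]
    · intro i hi
      have := Finsupp.support_single_subset hi
      rw [Finset.mem_singleton] at this
      omega
  obtain ⟨n, hn⟩ := exists_pow_lt_of_lt_one hδ (by norm_num : (4 / 5 : ℝ) < 1)
  obtain ⟨u, ⟨hu0, hu1⟩, _, hu3⟩ := avg_small hT hconv hC n 0
  refine ⟨u, hu0, ?_, hu3.trans hn.le⟩
  rw [← hu1]
  simp [ℓ, Finsupp.linearCombination_apply, Finsupp.sum]

end H266T
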