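import Mathlib

/-!
# The Tsirelson norm of Figiel and Johnson on `c₀₀`

Coordinate `i : ℕ` of a finitely supported sequence `x : ℕ →₀ ℝ` is the coordinate number `i + 1`.
-/

namespace H266T

open Finset

/-- Restriction `E x` of `x` to the finite set `E`. -/
noncomputable def res (E : Finset ℕ) (x : ℕ →₀ ℝ) : ℕ →₀ ℝ := x.filter (fun i => i ∈ E)

/-- `k ≤ E 0 < E 1 < ... < E (k-1)` (coordinate `i` has number `i + 1`). -/
def Adm (k : ℕ) (E : Fin k → Finset ℕ) : Prop :=
  (∀ j, ∀ i ∈ E j, k ≤ i + 1) ∧ ∀ j j' : Fin k, j < j' → ∀ i ∈ E j, ∀ i' ∈ E j', i < i'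

/-- `N` satisfies the implicit formula of Figiel and Johnson:
`N x = max (‖x‖_∞) (1/2 sup ∑ N (E_j x))`, the supremum over all `k` and `k ≤ E_1 < ... < E_k`. -/
def IsTsirelsonNorm (N : (ℕ →₀ ℝ) → ℝ) : Prop :=
  ∀ x : ℕ →₀ ℝ, IsLUB ({t : ℝ | ∃ i : ℕ, t = |x i|} ∪
    {t : ℝ | ∃ (k : ℕ) (E : Fin k → Finset ℕ), Adm k E ∧ t = (1 / 2) * ∑ j, N (res (E j) x)}) (N x)

/-- Lattice norms on `c₀₀` normalised on the unit vectors. -/
structure LatNorm where
  /-- the norm -/
  N : (ℕ →₀ ℝ) → ℝ
  add_le : ∀ x y, N (x + y) ≤ N x + N y
  smul : ∀ (c : ℝ) x, N (c • x) = |c| * N x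
  mono : ∀ x y : ℕ →₀ ℝ, (∀ i, |x i| ≤ |y i|) → N x ≤ N y
  basis : ∀ i, N (Finsupp.single i 1) = 1

lemma res_apply (E : Finset ℕ) (x : ℕ →₀ ℝ) (i : ℕ) : res E x i = if i ∈ E then x i else 0 := by
  unfold res; rw [Finsupp.filter_apply]

lemma res_add (E : Finset ℕ) (x y : ℕ →₀ ℝ) : res E (x + y) = res E x + res E y := by
  ext i; simp only [res_apply, Finsupp.add_apply]; split_ifs <;> simp

lemma res_smul (E : Finset ℕ) (c : ℝ) (x : ℕ →₀ ℝ) : res E (c • x) = c • res E x := by
  ext i; simp only [res_apply, Finsupp.smul_apply]; split_ifs <;> simp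

lemma res_sum {ι : Type*} (s : Finset ι) (E : Finset ℕ) (x : ι → ℕ →₀ ℝ) :
    res E (∑ i ∈ s, x i) = ∑ i ∈ s, res E (x i) := by
  ext i; simp only [res_apply, Finsupp.finset_sum_apply]; split_ifs <;> simp

lemma res_zero (E : Finset ℕ) : res E 0 = 0 := by
  ext i; simp [res_apply]

namespace LatNorm

variable (L : LatNorm)

lemma zero : L.N 0 = 0 := by
  have := L.smul 0 0; simpa using this

lemma neg (x : ℕ →₀ ℝ) : L.N (-x) = L.N x := by
  have := L.smul (-1) x; simpa using this

lemma nonneg (x : ℕ →₀ ℝ) : 0 ≤ L.N x := by
  have := L.mono 0 x (fun i => by simp)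
  rwa [L.zero] at this

lemma coord_le (x : ℕ →₀ ℝ) (i : ℕ) : |x i| ≤ L.N x := by
  have h1 : L.N (Finsupp.single i (x i)) = |x i| := by
    have := L.smul (x i) (Finsupp.single i 1)
    rw [L.basis, mul_one, Finsupp.smul_single, smul_eq_mul, mul_one] at this
    exact this
  rw [← h1]
  apply L.mono
  intro j
  rcases eq_or_ne i j with rfl | h
  · simp
  · simp [Finsupp.single_eq_of_ne (Ne.symm h)]

lemma eq_zero {x : ℕ →₀ ℝ} (h : L.N x = 0) : x = 0 := by
  ext i
  have := L.coord_le x i
  rw [h] at this
  simpa using abs_nonpos_iff.mp this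

lemma sum_le {ι : Type*} (s : Finset ι) (x : ι → ℕ →₀ ℝ) :
    L.N (∑ i ∈ s, x i) ≤ ∑ i ∈ s, L.N (x i) := by
  classical
  induction s using Finset.induction_on with
  | empty => simp [L.zero]
  | insert a s ha ih =>
    rw [Finset.sum_insert ha, Finset.sum_insert ha]
    exact (L.add_le _ _).trans (by linarith)

lemma res_le (E : Finset ℕ) (x : ℕ →₀ ℝ) : L.N (res E x) ≤ L.N x := by
  apply L.mono; intro i; rw [res_apply]; split_ifs <;> simp

end LatNorm

/-! ### The norming set -/

/-- The norming set of Tsirelson's norm (nonnegative elements). -/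
inductive K : (ℕ → ℝ) → Prop
  | zero : K 0
  | base (i : ℕ) : K (Pi.single i 1)
  | step (k : ℕ) (E : Fin k → Finset ℕ) (hE : Adm k E) (f : Fin k → ℕ → ℝ) (hf : ∀ j, K (f j))
      (hs : ∀ j i, f j i ≠ 0 → i ∈ E j) : K (fun i => (1 / 2) * ∑ j, f j i)

lemma K.nonneg {f : ℕ → ℝ} (h : K f) : ∀ i, 0 ≤ f i := by
  induction h with
  | zero => intro i; simp
  | base a => intro i; by_cases h : i = a <;> simp [Pi.single_apply, h]
  | step k E hE f hf hs ih =>
    intro i
    have : 0 ≤ ∑ j, f j i := Finset.sum_nonneg (fun j _ => ih j i)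
    positivity

lemma Adm.disj {k : ℕ} {E : Fin k → Finset ℕ} (h : Adm k E) {j j' : Fin k} {i : ℕ} (hj : i ∈ E j)
    (hj' : i ∈ E j') : j = j' := by
  rcases lt_trichotomy j j' with h1 | h1 | h1
  · exact absurd (h.2 j j' h1 i hj i hj') (lt_irrefl _)
  · exact h1
  · exact absurd (h.2 j' j h1 i hj' i hj) (lt_irrefl _)

lemma K.le_one {f : ℕ → ℝ} (h : K f) : ∀ i, f i ≤ 1 := by
  induction h with
  | zero => intro i; simp
  | base a => intro i; by_cases h : i = a <;> simp [Pi.single_apply, h]
  | step k E hE f hf hs ih =>
    intro i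
    have h1 : ∑ j, f j i ≤ 1 := by
      by_cases hex : ∃ j, f j i ≠ 0
      · obtain ⟨j, hj⟩ := hex
        rw [Finset.sum_eq_single j]
        · exact ih j i
        · intro b _ hb
          by_contra hne
          exact hb (hE.disj (hs b i hne) (hs j i hj))
        · simp
      · push_neg at hex
        simp [hex]
    linarith

lemma K.restrict {f : ℕ → ℝ} (h : K f) (S : Finset ℕ) : K (fun i => if i ∈ S then f i else 0) := by
  induction h with
  | zero => convert K.zero using 1; ext i; simp
  | base a =>
    by_cases ha : a ∈ S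
    · convert K.base a using 1
      ext i
      by_cases h : i = a
      · subst h; simp [ha]
      · simp [Pi.single_apply, h]
    · convert K.zero using 1
      ext i
      by_cases h : i = a
      · subst h; simp [ha]
      · simp [Pi.single_apply, h]
  | step k E hE f hf hs ih =>
    convert K.step k E hE (fun j i => if i ∈ S then f j i else 0) ih ?_ using 1
    · ext i
      by_cases hi : i ∈ S <;> simp [hi]
    · intro j i hji
      apply hs
      intro h0
      apply hji
      simp [h0]

/-- The pairing of a norming functional with `|x|`. -/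
noncomputable def pair (f : ℕ → ℝ) (x : ℕ →₀ ℝ) : ℝ := x.sum (fun i a => f i * |a|)

lemma pair_eq {f : ℕ → ℝ} {x : ℕ →₀ ℝ} {s : Finset ℕ} (h : x.support ⊆ s) :
    pair f x = ∑ i ∈ s, f i * |x i| := by
  unfold pair
  exact Finsupp.sum_of_support_subset _ h _ (fun i _ => by simp)

lemma pair_nonneg {f : ℕ → ℝ} (h : ∀ i, 0 ≤ f i) (x : ℕ →₀ ℝ) : 0 ≤ pair f x := by
  rw [pair_eq (Finset.Subset.refl _)]
  exact Finset.sum_nonneg (fun i _ => mul_nonneg (h i) (abs_nonneg _))

/-- The set of values whose supremum is the norm. -/
def vals (x : ℕ →₀ ℝ) : Set ℝ := {t | ∃ f, K f ∧ t = pair f x}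

lemma vals_bdd (x : ℕ →₀ ℝ) : BddAbove (vals x) := by
  refine ⟨∑ i ∈ x.support, |x i|, ?_⟩
  rintro t ⟨f, hf, rfl⟩
  rw [pair_eq (Finset.Subset.refl _)]
  apply Finset.sum_le_sum
  intro i _
  nlinarith [hf.le_one i, abs_nonneg (x i)]

lemma vals_nonempty (x : ℕ →₀ ℝ) : (vals x).Nonempty := ⟨_, 0, K.zero, rfl⟩

/-- Tsirelson's norm. -/
noncomputable def tN (x : ℕ →₀ ℝ) : ℝ := sSup (vals x)

lemma pair_le_tN {f : ℕ → ℝ} (h : K f) (x : ℕ →₀ ℝ) : pair f x ≤ tN x :=
  le_csSup (vals_bdd x) ⟨f, h, rfl⟩

lemma tN_le {x : ℕ →₀ ℝ} {b : ℝ} (h : ∀ f, K f → pair f x ≤ b) : tN x ≤ b := by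
  apply csSup_le (vals_nonempty x)
  rintro t ⟨f, hf, rfl⟩
  exact h f hf

/-- Tsirelson's norm is a lattice norm. -/
noncomputable def tsirelson : LatNorm where
  N := tN
  add_le := by
    intro x y
    apply tN_le
    intro f hf
    have h1 := pair_le_tN hf x
    have h2 := pair_le_tN hf y
    classical
    rw [pair_eq (s := x.support ∪ y.support) Finset.subset_union_left] at h1
    rw [pair_eq (s := x.support ∪ y.support) Finset.subset_union_right] at h2
    rw [pair_eq (s := x.support ∪ y.support) Finsupp.support_add]
    refine le_trans ?_ (add_le_add h1 h2)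
    rw [← Finset.sum_add_distrib]
    apply Finset.sum_le_sum
    intro i _
    rw [Finsupp.add_apply, ← mul_add]
    exact mul_le_mul_of_nonneg_left (abs_add_le _ _) (hf.nonneg i)
  smul := by
    intro c x
    have key : ∀ (c : ℝ) (x : ℕ →₀ ℝ), tN (c • x) ≤ |c| * tN x := by
      intro c x
      apply tN_le
      intro f hf
      have h1 := pair_le_tN hf x
      rw [pair_eq (Finset.Subset.refl _)] at h1
      rw [pair_eq (s := x.support) Finsupp.support_smul]
      calc ∑ i ∈ x.support, f i * |(c • x) i| = |c| * ∑ i ∈ x.support, f i * |x i| := by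
            rw [Finset.mul_sum]
            apply Finset.sum_congr rfl
            intro i _
            rw [Finsupp.smul_apply, smul_eq_mul, abs_mul]; ring
        _ ≤ |c| * tN x := mul_le_mul_of_nonneg_left h1 (abs_nonneg _)
    apply le_antisymm (key c x)
    rcases eq_or_ne c 0 with rfl | hc
    · simp only [abs_zero, zero_mul]
      have := pair_le_tN K.zero ((0:ℝ) • x)
      refine le_trans ?_ this
      exact pair_nonneg (fun i => le_refl _) _
    · have := key c⁻¹ (c • x)
      rw [smul_smul, inv_mul_cancel₀ hc, one_smul, abs_inv] at this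
      have hc' : 0 < |c| := abs_pos.mpr hc
      calc |c| * tN x ≤ |c| * (|c|⁻¹ * tN (c • x)) := mul_le_mul_of_nonneg_left this hc'.le
        _ = tN (c • x) := by field_simp
  mono := by
    intro x y hxy
    apply tN_le
    intro f hf
    have h2 := pair_le_tN hf y
    refine le_trans ?_ h2
    have hsub : x.support ⊆ y.support := by
      intro i hi
      rw [Finsupp.mem_support_iff] at hi ⊢
      intro h0
      have := hxy i
      rw [h0, abs_zero] at this
      exact hi (by simpa using abs_nonpos_iff.mp this)
    rw [pair_eq hsub, pair_eq (Finset.Subset.refl _)]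
    exact Finset.sum_le_sum (fun i _ => mul_le_mul_of_nonneg_left (hxy i) (hf.nonneg i))
  basis := by
    intro i
    have hs : (Finsupp.single i (1:ℝ)).support ⊆ {i} := Finsupp.support_single_subset
    apply le_antisymm
    · apply tN_le
      intro f hf
      rw [pair_eq hs]
      simp [hf.le_one i]
    · have := pair_le_tN (K.base i) (Finsupp.single i 1)
      rw [pair_eq hs] at this
      simpa using this

lemma tsirelson_isTsirelsonNorm : IsTsirelsonNorm tsirelson.N := by
  intro x
  constructor
  · rintro t (⟨i, rfl⟩ | ⟨k, E, hE, rfl⟩)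
    · exact tsirelson.coord_le x i
    · apply le_of_forall_pos_le_add
      intro ε hε
      have hc : ∀ j : Fin k, ∃ f, K f ∧ tN (res (E j) x) - ε / k ≤ pair f (res (E j) x) := by
        intro j
        have hk : 0 < (k : ℝ) := by
          have := j.pos; exact_mod_cast this
        obtain ⟨t, ⟨f, hf, rfl⟩, ht⟩ := exists_lt_of_lt_csSup (vals_nonempty (res (E j) x))
          (show tN (res (E j) x) - ε / k < sSup (vals (res (E j) x)) by
            have : 0 < ε / k := by positivity
            show tN (res (E j) x) - ε / k < tN (res (E j) x)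
            linarith)
        exact ⟨f, hf, ht.le⟩
      choose f hf hfx using hc
      have hK := K.step k E hE (fun j i => if i ∈ E j then f j i else 0)
        (fun j => (hf j).restrict (E j)) (by
          intro j i h
          by_contra hne
          exact h (by simp [hne]))
      have h1 := pair_le_tN hK x
      have h2 : pair (fun i => 1 / 2 * ∑ j, (if i ∈ E j then f j i else 0)) x
          = 1 / 2 * ∑ j, pair (f j) (res (E j) x) := by
        rw [pair_eq (Finset.Subset.refl _)]
        have : ∀ j, pair (f j) (res (E j) x) = ∑ i ∈ x.support, f j i * |res (E j) x i| := by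
          intro j
          apply pair_eq
          unfold res
          intro i hi
          rw [Finsupp.support_filter] at hi
          exact (Finset.mem_filter.mp hi).1
        simp_rw [this]
        rw [Finset.sum_comm, Finset.mul_sum]
        apply Finset.sum_congr rfl
        intro i _
        rw [mul_assoc, Finset.sum_mul]
        congr 1
        apply Finset.sum_congr rfl
        intro j _
        rw [res_apply]
        split_ifs <;> simp
      rw [h2] at h1
      have h3 : ∑ j, (tN (res (E j) x) - ε / k) ≤ ∑ j, pair (f j) (res (E j) x) :=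
        Finset.sum_le_sum (fun j _ => hfx j)
      rw [Finset.sum_sub_distrib, Finset.sum_const, Finset.card_univ, Fintype.card_fin,
        nsmul_eq_mul] at h3
      have h4 : (k : ℝ) * (ε / k) ≤ ε := by
        rcases Nat.eq_zero_or_pos k with rfl | hk
        · simpa using hε.le
        · have : (0:ℝ) < k := by exact_mod_cast hk
          rw [mul_div_cancel₀ _ this.ne']
      show 1 / 2 * ∑ j, tN (res (E j) x) ≤ tN x + ε
      linarith
  · intro b hb
    show tN x ≤ b
    apply tN_le
    intro f hf
    have hb1 : ∀ i, |x i| ≤ b := fun i => hb (Or.inl ⟨i, rfl⟩)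
    have hb2 : ∀ (k : ℕ) (E : Fin k → Finset ℕ), Adm k E →
        (1 / 2) * ∑ j, tN (res (E j) x) ≤ b := fun k E hE => hb (Or.inr ⟨k, E, hE, rfl⟩)
    cases hf with
    | zero =>
      have : pair 0 x = 0 := by rw [pair_eq (Finset.Subset.refl _)]; simp
      rw [this]; exact (abs_nonneg _).trans (hb1 0)
    | base a =>
      have : pair (Pi.single a 1) x = |x a| := by
        classical
        rw [pair_eq (s := insert a x.support) (Finset.subset_insert _ _)]
        rw [Finset.sum_eq_single a]
        · simp
        · intro i _ hi; simp [Pi.single_apply, hi]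
        · simp
      rw [this]; exact hb1 a
    | step k E hE f hf hs =>
      refine le_trans ?_ (hb2 k E hE)
      rw [pair_eq (Finset.Subset.refl _)]
      have : ∀ j, pair (f j) (res (E j) x) = ∑ i ∈ x.support, f j i * |res (E j) x i| := by
        intro j
        apply pair_eq
        unfold res
        intro i hi
        rw [Finsupp.support_filter] at hi
        exact (Finset.mem_filter.mp hi).1
      have h2 : ∑ i ∈ x.support, (1 / 2 * ∑ j, f j i) * |x i|
          = 1 / 2 * ∑ j, pair (f j) (res (E j) x) := by
        simp_rw [this]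
        rw [Finset.sum_comm, Finset.mul_sum]
        apply Finset.sum_congr rfl
        intro i _
        rw [mul_assoc, Finset.sum_mul]
        congr 1
        apply Finset.sum_congr rfl
        intro j _
        rw [res_apply]
        split_ifs with h
        · rfl
        · have : f j i = 0 := by
            by_contra hne; exact h (hs j i hne)
          simp [this]
      rw [h2]
      apply mul_le_mul_of_nonneg_left _ (by norm_num)
      exact Finset.sum_le_sum (fun j _ => pair_le_tN (hf j) _)

/-- The implicit formula determines the norm. -/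
lemma isTsirelsonNorm_unique {N N' : (ℕ →₀ ℝ) → ℝ} (h : IsTsirelsonNorm N)
    (h' : IsTsirelsonNorm N') : N = N' := by
  have hn : ∀ {N : (ℕ →₀ ℝ) → ℝ}, IsTsirelsonNorm N → ∀ x, 0 ≤ N x := by
    intro N h x
    exact (abs_nonneg (x 0)).trans ((h x).1 (Or.inl ⟨0, rfl⟩))
  have h0 : ∀ {N : (ℕ →₀ ℝ) → ℝ}, IsTsirelsonNorm N → N 0 = 0 := by
    intro N h
    have h1 : (1 / 2) * ∑ j : Fin 4, N (res ((fun _ => (∅ : Finset ℕ)) j) 0) ≤ N 0 := by
      refine (h 0).1 (Or.inr ⟨4, fun _ => ∅, ⟨by simp, by simp⟩, rfl⟩)
    simp only [res_zero, Finset.sum_const, Finset.card_univ, Fintype.card_fin, nsmul_eq_mul] at h1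
    have := hn h 0
    push_cast at h1
    linarith
  have key : ∀ (N N' : (ℕ →₀ ℝ) → ℝ), IsTsirelsonNorm N → IsTsirelsonNorm N' →
      ∀ n : ℕ, (∀ x : ℕ →₀ ℝ, x.support.card < n → N x = N' x) →
      ∀ x : ℕ →₀ ℝ, x.support.card = n → N x ≤ N' x := by
    intro N N' h h' n ih x hx
    have hle : N x ≤ max (N' x) (1 / 2 * N x) := by
      apply (h x).2
      rintro t (⟨i, rfl⟩ | ⟨k, E, hE, rfl⟩)
      · exact ((h' x).1 (Or.inl ⟨i, rfl⟩)).trans (le_max_left _ _)
      · by_cases hex : ∃ j, res (E j) x = x ∧ x ≠ 0
        · obtain ⟨j, hj, hx0⟩ := hex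
          apply le_max_of_le_right
          apply mul_le_mul_of_nonneg_left _ (by norm_num)
          rw [Finset.sum_eq_single j]
          · rw [hj]
          · intro b _ hb
            have : res (E b) x = 0 := by
              ext i
              rw [res_apply]
              split_ifs with hi
              · by_contra hne
                have : i ∈ E j := by
                  by_contra hn
                  have h3 := DFunLike.congr_fun hj i
                  rw [res_apply, if_neg hn] at h3
                  exact hne (by simpa using h3.symm)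
                exact hb (hE.disj hi this)
              · rfl
            rw [this, h0 h]
          · simp
        · push_neg at hex
          apply le_max_of_le_left
          have : ∑ j, N (res (E j) x) = ∑ j, N' (res (E j) x) := by
            apply Finset.sum_congr rfl
            intro j _
            by_cases hj : res (E j) x = x
            · have := hex j hj
              rw [hj, this, h0 h, h0 h']
            · apply ih
              rw [← hx]
              apply Finset.card_lt_card
              rw [Finset.ssubset_iff_subset_ne]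
              constructor
              · intro i hi
                rw [Finsupp.mem_support_iff, res_apply] at hi
                rw [Finsupp.mem_support_iff]
                by_contra h4
                apply hi
                split_ifs <;> simp [h4]
              · intro heq
                apply hj
                ext i
                rw [res_apply]
                split_ifs with hi
                · rfl
                · by_contra hne
                  have : i ∈ x.support := by
                    rw [Finsupp.mem_support_iff]; exact fun h => hne h.symm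
                  rw [← heq, Finsupp.mem_support_iff, res_apply, if_neg hi] at this
                  exact this rfl
          rw [this]
          exact (h' x).1 (Or.inr ⟨k, E, hE, rfl⟩)
    rcases le_max_iff.mp hle with h5 | h5
    · exact h5
    · have := hn h x
      have := hn h' x
      linarith
  have main : ∀ n : ℕ, ∀ x : ℕ →₀ ℝ, x.support.card = n → N x = N' x := by
    intro n
    induction n using Nat.strong_induction_on with
    | _ n ih =>
      intro x hx
      apply le_antisymm
      · exact key N N' h h' n (fun y hy => ih _ hy y rfl) x hx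
      · exact key N' N h' h n (fun y hy => (ih _ hy y rfl).symm) x hx
  ext x
  exact main _ x rfl

end H266T
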